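import Mathlib

/-!
# FH / Bloch : a weak form of the theorem of Bloch

`disc_in_image`: `f` holomorphic on `ball a ρ` with `‖f' z‖ ≤ 2 μ` there and `‖f' a‖ = μ > 0`; then the image contains a ball of radius
`μ ρ / 32` (center `f a`). Proof: `g z := f' z - f' a` is holomorphic on `ball a ρ`, `‖g‖ ≤ 3 μ`, `g a = 0`, so by the Schwarz lemma
(`Complex.dist_le_div_mul_dist_of_mapsTo_ball` or `Complex.norm_le_norm_of_mapsTo_ball`-type lemmas; closed target: use `Complex.dist_le_div_mul_dist_of_mapsTo_ball`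
with radius `3 μ + ε` and `ε → 0`, or bound by `4 μ` and adapt the constant) `‖f' z - f' a‖ ≤ 4 μ ‖z - a‖ / ρ`. So on `closedBall a (ρ / 8)` the derivative of
`z ↦ f z - f' a * (z - a)` has norm at most `μ / 2` (`Convex.norm_image_sub_le_of_norm_deriv_le`), hence on the circle `‖z - a‖ = ρ / 8`:
`‖f z - f a‖ ≥ μ ρ / 8 - μ ρ / 16 = μ ρ / 16`. By `DiffContOnCl.ball_subset_image_closedBall` the image of `closedBall a (ρ / 8)` contains
`ball (f a) (μ ρ / 32)` (`f` is not constant near `a` as `f' a ≠ 0`: `∃ᶠ z in 𝓝 a, f z ≠ f a`, otherwise `f` would be eventually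
equal to a constant and its derivative at `a` would be `0`).
(The final constants: `μ ρ / 32`.)

`bloch`: let `g` be holomorphic on `ball 0 1`, and suppose that the image of `ball 0 1` contains no ball of radius `1`. Let `M` be the maximum of
`(1/2 - ‖z‖) ‖g' z‖` on `closedBall 0 (1/2)` (compact; `g'` is continuous on `ball 0 1`), attained at `a`. `M ≥ ‖g' 0‖ / 2`. If `g' 0 = 0` nothing to
prove. Otherwise `‖a‖ < 1/2`, put `ρ = (1/2 - ‖a‖) / 2`, `μ = ‖g' a‖ = M / (2 ρ) > 0`. For `z ∈ ball a ρ`: `1/2 - ‖z‖ ≥ ρ`, so `‖g' z‖ ≤ M / ρ = 2 μ`. By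
`disc_in_image` the image contains a ball of radius `μ ρ / 32 = M / 64 ≥ ‖g' 0‖ / 128`. If `‖g' 0‖ > 128` this ball contains a ball of radius `1`.
-/

set_option autoImplicit false

namespace Pool.Agent.Lib.MP_62070a_ag.FH

open Metric Set Filter Topology

theorem disc_in_image {f : ℂ → ℂ} {a : ℂ} {ρ μ : ℝ} (hρ : 0 < ρ) (hμ : 0 < μ) (hf : DifferentiableOn ℂ f (ball a ρ))
    (h1 : ‖deriv f a‖ = μ) (h2 : ∀ z ∈ ball a ρ, ‖deriv f z‖ ≤ 2 * μ) :
    ball (f a) (μ * ρ / 32) ⊆ f '' ball a ρ := by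
  have hoff : DifferentiableOn ℂ (deriv f) (ball a ρ) := hf.deriv isOpen_ball
  have haρ : a ∈ ball a ρ := mem_ball_self hρ
  have hsch : ∀ z ∈ ball a ρ, ‖deriv f z - deriv f a‖ ≤ 3 * μ / ρ * dist z a := by
    intro z hz
    have hmaps : MapsTo (deriv f) (ball a ρ) (closedBall (deriv f a) (3 * μ)) := by
      intro w hw
      rw [mem_closedBall, dist_eq_norm]
      calc ‖deriv f w - deriv f a‖ ≤ ‖deriv f w‖ + ‖deriv f a‖ := norm_sub_le _ _
        _ ≤ 2 * μ + μ := add_le_add (h2 w hw) h1.le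
        _ = 3 * μ := by ring
    have := Complex.dist_le_div_mul_dist_of_mapsTo_ball hoff hmaps hz
    rwa [dist_eq_norm] at this
  have hsub : closedBall a (ρ / 8) ⊆ ball a ρ := closedBall_subset_ball (by linarith)
  have hdf : ∀ z ∈ closedBall a (ρ / 8), DifferentiableAt ℂ f z := fun z hz =>
    hf.differentiableAt (isOpen_ball.mem_nhds (hsub hz))
  have hder : ∀ z ∈ closedBall a (ρ / 8), HasDerivWithinAt (fun w => f w - deriv f a * (w - a))
      (deriv f z - deriv f a) (closedBall a (ρ / 8)) z := by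
    intro z hz
    have e1 : HasDerivAt f (deriv f z) z := (hdf z hz).hasDerivAt
    have e2 : HasDerivAt (fun w : ℂ => deriv f a * (w - a)) (deriv f a) z := by
      have e3 : HasDerivAt (fun w : ℂ => w - a) 1 z := (hasDerivAt_id z).sub_const a
      have e4 := e3.const_mul (deriv f a)
      rwa [mul_one] at e4
    exact (e1.sub e2).hasDerivWithinAt
  have hbd : ∀ z ∈ closedBall a (ρ / 8), ‖deriv f z - deriv f a‖ ≤ μ / 2 := by
    intro z hz
    refine (hsch z (hsub hz)).trans ?_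
    have hz' : dist z a ≤ ρ / 8 := hz
    calc 3 * μ / ρ * dist z a ≤ 3 * μ / ρ * (ρ / 8) := by
          exact mul_le_mul_of_nonneg_left hz' (by positivity)
      _ = 3 * μ / 8 := by field_simp
      _ ≤ μ / 2 := by linarith
  have hsph : ∀ z ∈ sphere a (ρ / 8), μ * ρ / 16 ≤ ‖f z - f a‖ := by
    intro z hz
    have hzn : ‖z - a‖ = ρ / 8 := by rw [← dist_eq_norm]; exact hz
    have hzc : z ∈ closedBall a (ρ / 8) := sphere_subset_closedBall hz
    have key := (convex_closedBall a (ρ / 8)).norm_image_sub_le_of_norm_hasDerivWithin_le hder hbd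
      (mem_closedBall_self (by positivity)) hzc
    simp only [sub_self, mul_zero, sub_zero] at key
    rw [hzn] at key
    have e1 : ‖deriv f a * (z - a)‖ = μ * (ρ / 8) := by rw [norm_mul, h1, hzn]
    have e2 : ‖deriv f a * (z - a)‖ ≤ ‖f z - f a‖ + ‖f z - deriv f a * (z - a) - f a‖ := by
      calc ‖deriv f a * (z - a)‖ = ‖(f z - f a) - (f z - deriv f a * (z - a) - f a)‖ := by
            congr 1
            ring
        _ ≤ _ := norm_sub_le _ _
    rw [e1] at e2
    linarith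
  have hfreq : ∃ᶠ z in 𝓝 a, f z ≠ f a := by
    intro hcon
    have e1 : f =ᶠ[𝓝 a] fun _ => f a := by
      filter_upwards [hcon] with z hz
      exact not_not.1 hz
    have e2 := e1.deriv_eq
    rw [deriv_const] at e2
    rw [e2, norm_zero] at h1
    exact hμ.ne h1
  have hcl : DiffContOnCl ℂ f (ball a (ρ / 8)) := hf.diffContOnCl_ball hsub
  have hfin := hcl.ball_subset_image_closedBall (by positivity) hsph hfreq
  have e : μ * ρ / 32 = μ * ρ / 16 / 2 := by ring
  rw [e]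
  exact hfin.trans (image_mono hsub)

theorem bloch {g : ℂ → ℂ} (hg : DifferentiableOn ℂ g (ball 0 1))
    (h : ∀ c : ℂ, ¬ ball c 1 ⊆ g '' ball 0 1) : ‖deriv g 0‖ ≤ 128 := by
  by_contra hcon
  push Not at hcon
  have hdg : DifferentiableOn ℂ (deriv g) (ball 0 1) := hg.deriv isOpen_ball
  have hsub : closedBall (0 : ℂ) (1 / 2) ⊆ ball 0 1 := closedBall_subset_ball (by norm_num)
  have hcont : ContinuousOn (fun z : ℂ => (1 / 2 - ‖z‖) * ‖deriv g z‖) (closedBall 0 (1 / 2)) :=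
    (continuousOn_const.sub continuous_norm.continuousOn).mul
      ((hdg.continuousOn.mono hsub).norm)
  obtain ⟨a, ha, hmax⟩ := (isCompact_closedBall (0 : ℂ) (1 / 2)).exists_isMaxOn
    ⟨0, mem_closedBall_self (by norm_num)⟩ hcont
  have han : ‖a‖ ≤ 1 / 2 := by
    rw [← dist_zero_right]
    exact ha
  have h0 := hmax (mem_closedBall_self (by norm_num) : (0 : ℂ) ∈ closedBall (0 : ℂ) (1 / 2))
  simp only [mem_ofPred_eq, norm_zero, sub_zero] at h0
  have hM : 64 < (1 / 2 - ‖a‖) * ‖deriv g a‖ := by linarith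
  have hμ0 : 0 ≤ ‖deriv g a‖ := norm_nonneg _
  have han' : 0 < 1 / 2 - ‖a‖ := by
    by_contra hc
    push Not at hc
    have : (1 / 2 - ‖a‖) * ‖deriv g a‖ ≤ 0 := mul_nonpos_of_nonpos_of_nonneg hc hμ0
    linarith
  have hμ : 0 < ‖deriv g a‖ := by
    rcases hμ0.lt_or_eq with h1 | h1
    · exact h1
    · rw [← h1] at hM
      linarith
  have hρ : 0 < (1 / 2 - ‖a‖) / 2 := by linarith
  have hball : ball a ((1 / 2 - ‖a‖) / 2) ⊆ closedBall 0 (1 / 2) := by
    intro z hz
    rw [mem_ball, dist_eq_norm] at hz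
    rw [mem_closedBall, dist_zero_right]
    have : ‖z‖ ≤ ‖z - a‖ + ‖a‖ := by
      calc ‖z‖ = ‖(z - a) + a‖ := by rw [sub_add_cancel]
        _ ≤ _ := norm_add_le _ _
    linarith
  have hder : ∀ z ∈ ball a ((1 / 2 - ‖a‖) / 2), ‖deriv g z‖ ≤ 2 * ‖deriv g a‖ := by
    intro z hz
    have h1 := hmax (hball hz)
    simp only [mem_ofPred_eq] at h1
    have h2 : (1 / 2 - ‖a‖) / 2 ≤ 1 / 2 - ‖z‖ := by
      rw [mem_ball, dist_eq_norm] at hz
      have : ‖z‖ ≤ ‖z - a‖ + ‖a‖ := by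
        calc ‖z‖ = ‖(z - a) + a‖ := by rw [sub_add_cancel]
          _ ≤ _ := norm_add_le _ _
      linarith
    have h3 : (1 / 2 - ‖a‖) / 2 * ‖deriv g z‖ ≤ (1 / 2 - ‖a‖) * ‖deriv g a‖ :=
      (mul_le_mul_of_nonneg_right h2 (norm_nonneg _)).trans h1
    have h4 : (1 / 2 - ‖a‖) / 2 * ‖deriv g z‖ ≤ (1 / 2 - ‖a‖) / 2 * (2 * ‖deriv g a‖) := by
      linarith
    exact le_of_mul_le_mul_left h4 hρ
  have hfin := disc_in_image hρ hμ (hg.mono (hball.trans hsub)) rfl hder
  refine h (g a) ?_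
  refine (ball_subset_ball ?_).trans (hfin.trans (image_mono (hball.trans hsub)))
  have : ‖deriv g a‖ * ((1 / 2 - ‖a‖) / 2) / 32 = (1 / 2 - ‖a‖) * ‖deriv g a‖ / 64 := by ring
  rw [this]
  linarith

end Pool.Agent.Lib.MP_62070a_ag.FH
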