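import Pool.Agent.Lib.MP_62070a_ag.FH.Defs

/-!
# FH / CV : change of variables from the unit disc to the upper half-plane

`kap z η = (z - conj z * η) / (1 - η)` maps the unit disc bijectively to the upper half-plane, `0` to `z`; the inverse is `w ↦ (w - z) / (w - conj z)` (the denominator is not zero for `Im w, Im z > 0`), and
`‖(w - z) / (w - conj z)‖ = tanh (dist z w / 2)` (`UpperHalfPlane.tanh_half_dist`). `deriv (kap z) η = (z - conj z) / (1 - η)²`, `Im (kap z η) = Im z (1 - ‖η‖²) / ‖1 - η‖²`.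
We use `ζ ↦ kap z (ζ / 2)` on `ball 0 1`; its image is the set of the `w` with `2 tanh (dist z w / 2) < 1`.
`cv`: `lintegral_image_eq_lintegral_abs_det_fderiv_mul` for the injective map `ζ ↦ kap z (ζ / 2)` on the measurable set `ball 0 1` (the real determinant of the multiplication by a complex number `c` is `‖c‖²`:
see `Complex.det_...` or the proof of the invariance of the volume in Mathlib/Analysis/Complex/UpperHalfPlane/Measure.lean, or `LinearMap.det` of `mulLeft` with `Algebra.leftMulMatrix`; e.g. compute with `Complex.basisOneI`), and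
`∫⁻ w : ℍ, H w = ∫⁻ w in {w : ℂ | 0 < w.im}, ofReal (1 / w.im²) H w` (`UpperHalfPlane.volume_def`, `lintegral_withDensity_eq_lintegral_mul`, `measurableEmbedding_coe.lintegral_map` / `comap`): the weight `1 / w.im²` cancels with `w.im²`.
-/

set_option autoImplicit false

namespace Pool.Agent.Lib.MP_62070a_ag.FH

open Metric Set Filter Topology MeasureTheory UpperHalfPlane
open scoped ENNReal NNReal

/-- the biholomorphic map from the unit disc to the upper half-plane with `0 ↦ z` -/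
noncomputable def kap (z : ℂ) (η : ℂ) : ℂ := (z - (starRingEnd ℂ) z * η) / (1 - η)

open Classical in
/-- a kernel on the upper half-plane, a function of the hyperbolic distance -/
noncomputable def ker (k : ℝ → ℝ≥0∞) (z w : ℍ) : ℝ≥0∞ :=
  if 2 * Real.tanh (dist z w / 2) < 1 then k (2 * Real.tanh (dist z w / 2)) else 0

theorem kap_zero (z : ℂ) : kap z 0 = z := by
  unfold kap
  rw [mul_zero, sub_zero, sub_zero, div_one]

private theorem CV_im (z η : ℂ) : (kap z η).im = z.im * (1 - ‖η‖ ^ 2) / ‖1 - η‖ ^ 2 := by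
  unfold kap
  rw [Complex.div_im, Complex.sq_norm, Complex.sq_norm, Complex.normSq_apply η]
  simp only [Complex.sub_re, Complex.sub_im, Complex.mul_re, Complex.mul_im, Complex.conj_re,
    Complex.conj_im, Complex.one_re, Complex.one_im]
  ring

private theorem CV_ne {z : ℂ} (hz : 0 < z.im) : z - (starRingEnd ℂ) z ≠ 0 := by
  intro h
  have h1 := congrArg Complex.im h
  simp only [Complex.sub_im, Complex.conj_im, Complex.zero_im] at h1
  linarith

private theorem CV_ne' {z w : ℂ} (hz : 0 < z.im) (hw : 0 < w.im) : w - (starRingEnd ℂ) z ≠ 0 := by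
  intro h
  have h1 := congrArg Complex.im h
  simp only [Complex.sub_im, Complex.conj_im, Complex.zero_im] at h1
  linarith

private theorem CV_one {η : ℂ} (h : ‖η‖ < 1) : 1 - η ≠ 0 := by
  intro h1
  have h2 : η = 1 := (sub_eq_zero.mp h1).symm
  rw [h2, norm_one] at h
  exact lt_irrefl _ h

private theorem CV_ratio {z η : ℂ} (hz : 0 < z.im) (hη : ‖η‖ < 1) :
    (kap z η - z) / (kap z η - (starRingEnd ℂ) z) = η := by
  have h1 := CV_ne hz
  have h2 := CV_one hη
  have h0 : kap z η = (z - (starRingEnd ℂ) z * η) / (1 - η) := rfl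
  generalize (starRingEnd ℂ) z = c at *
  have h3 : kap z η - z = (z - c) * η / (1 - η) := by
    rw [h0]
    field_simp
    ring
  have h4 : kap z η - c = (z - c) / (1 - η) := by
    rw [h0]
    field_simp
    ring
  rw [h3, h4]
  field_simp

private theorem CV_kap {z w : ℂ} (hz : 0 < z.im) (hw : 0 < w.im) :
    kap z ((w - z) / (w - (starRingEnd ℂ) z)) = w := by
  have h1 := CV_ne hz
  have h2 := CV_ne' hz hw
  unfold kap
  generalize (starRingEnd ℂ) z = c at *
  have h3 : 1 - (w - z) / (w - c) = (z - c) / (w - c) := by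
    field_simp
    ring
  have h4 : z - c * ((w - z) / (w - c)) = (z - c) * w / (w - c) := by
    field_simp
    ring
  rw [h3, h4]
  field_simp

theorem kap_im_pos (z : ℍ) {η : ℂ} (h : ‖η‖ < 1) : 0 < (kap z η).im := by
  rw [CV_im]
  have h1 : 0 < ‖1 - η‖ := norm_pos_iff.mpr (CV_one h)
  have h2 : 0 < (z : ℂ).im := z.im_pos
  have h3 : 0 < 1 - ‖η‖ ^ 2 := by nlinarith [norm_nonneg η]
  positivity

theorem differentiableAt_kap (z : ℂ) {η : ℂ} (h : ‖η‖ < 1) : DifferentiableAt ℂ (kap z) η := by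
  have h1 := CV_one h
  unfold kap
  exact ((differentiableAt_const z).sub ((differentiableAt_const _).mul differentiableAt_id)).div
    ((differentiableAt_const _).sub differentiableAt_id) h1

private theorem CV_det (c : ℂ) :
    ((ContinuousLinearMap.toSpanSingleton ℂ c).restrictScalars ℝ : ℂ →L[ℝ] ℂ).det = ‖c‖ ^ 2 := by
  have h1 : (((ContinuousLinearMap.toSpanSingleton ℂ c).restrictScalars ℝ : ℂ →L[ℝ] ℂ) : ℂ →ₗ[ℝ] ℂ) =
      Algebra.lmul ℝ ℂ c := by
    ext x
    simp [mul_comm]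
  unfold ContinuousLinearMap.det
  rw [h1, ← Algebra.norm_apply, Algebra.norm_complex_apply, Complex.sq_norm]

theorem cv (z : ℍ) {k : ℝ → ℝ≥0∞} (hk : Measurable k) {G : ℂ → ℝ≥0∞} (hG : Measurable fun w : ℍ => G (w : ℂ)) :
    ∫⁻ ζ in ball (0 : ℂ) 1, k ‖ζ‖ *
      (ENNReal.ofReal (‖deriv (fun ζ : ℂ => kap z (ζ / 2)) ζ‖ ^ 2) * G (kap z (ζ / 2))) =
    ∫⁻ w : ℍ, ker k z w * (ENNReal.ofReal (w.im ^ 2) * G (w : ℂ)) := by
  classical
  have hz : 0 < (z : ℂ).im := z.im_pos
  have hhalf : ∀ ζ ∈ ball (0 : ℂ) 1, ‖ζ / 2‖ < 1 := by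
    intro ζ hζ
    rw [mem_ball_zero_iff] at hζ
    rw [norm_div, Complex.norm_ofNat]
    linarith
  set f : ℂ → ℂ := fun ζ => kap z (ζ / 2) with hf
  set S : Set ℂ := {w | 2 * ‖(w - z) / (w - (starRingEnd ℂ) (z : ℂ))‖ < 1} with hS
  set g : ℂ → ℝ≥0∞ := fun w => k (2 * ‖(w - z) / (w - (starRingEnd ℂ) (z : ℂ))‖) * G w with hg
  have hSm : MeasurableSet S := measurableSet_lt (by fun_prop) measurable_const
  have hrat : ∀ ζ ∈ ball (0 : ℂ) 1, (f ζ - z) / (f ζ - (starRingEnd ℂ) (z : ℂ)) = ζ / 2 :=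
    fun ζ hζ => CV_ratio hz (hhalf ζ hζ)
  have hnorm : ∀ ζ : ℂ, 2 * ‖ζ / 2‖ = ‖ζ‖ := by
    intro ζ
    rw [norm_div, Complex.norm_ofNat]
    ring
  have hinj : InjOn f (ball (0 : ℂ) 1) := by
    intro a ha b hb hab
    have h1 := hrat a ha
    rw [hab, hrat b hb] at h1
    have h2 := congrArg (fun t => t * 2) h1
    simpa using h2.symm
  have himg : f '' ball (0 : ℂ) 1 = S ∩ range UpperHalfPlane.coe := by
    ext w
    constructor
    · rintro ⟨ζ, hζ, rfl⟩
      refine ⟨?_, ⟨⟨f ζ, kap_im_pos z (hhalf ζ hζ)⟩, rfl⟩⟩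
      change 2 * ‖(f ζ - z) / (f ζ - (starRingEnd ℂ) (z : ℂ))‖ < 1
      rw [hrat ζ hζ, hnorm]
      exact mem_ball_zero_iff.mp hζ
    · rintro ⟨hw, ⟨w', rfl⟩⟩
      have hw' : 0 < (w' : ℂ).im := w'.im_pos
      refine ⟨2 * (((w' : ℂ) - z) / ((w' : ℂ) - (starRingEnd ℂ) (z : ℂ))), ?_, ?_⟩
      · rw [mem_ball_zero_iff, norm_mul, Complex.norm_ofNat]
        exact hw
      · change kap z (2 * (((w' : ℂ) - z) / ((w' : ℂ) - (starRingEnd ℂ) (z : ℂ))) / 2) = _
        rw [mul_div_cancel_left₀ _ (two_ne_zero' ℂ)]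
        exact CV_kap hz hw'
  have hder : ∀ ζ ∈ ball (0 : ℂ) 1, HasDerivAt f (deriv f ζ) ζ := by
    intro ζ hζ
    have h1 := (differentiableAt_kap z (hhalf ζ hζ)).comp ζ (differentiableAt_id.div_const (2 : ℂ))
    exact h1.hasDerivAt
  have hmp : MeasurePreserving UpperHalfPlane.coe (volume.comap UpperHalfPlane.coe)
      (volume.restrict (range UpperHalfPlane.coe)) :=
    ⟨measurable_coe, by rw [measurableEmbedding_coe.map_comap]⟩
  have h1 : ∫⁻ ζ in ball (0 : ℂ) 1, k ‖ζ‖ * (ENNReal.ofReal (‖deriv f ζ‖ ^ 2) * G (f ζ)) =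
      ∫⁻ ζ in ball (0 : ℂ) 1, ENNReal.ofReal
        |((ContinuousLinearMap.toSpanSingleton ℂ (deriv f ζ)).restrictScalars ℝ : ℂ →L[ℝ] ℂ).det| *
          g (f ζ) := by
    refine setLIntegral_congr_fun measurableSet_ball fun ζ hζ => ?_
    beta_reduce
    rw [CV_det, abs_of_nonneg (by positivity), hg]
    beta_reduce
    rw [hrat ζ hζ, hnorm, mul_left_comm]
  have h2 := lintegral_image_eq_lintegral_abs_det_fderiv_mul volume measurableSet_ball
    (fun ζ hζ => ((hder ζ hζ).hasFDerivAt.restrictScalars ℝ).hasFDerivWithinAt) hinj g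
  change ∫⁻ ζ in ball (0 : ℂ) 1, k ‖ζ‖ * (ENNReal.ofReal (‖deriv f ζ‖ ^ 2) * G (f ζ)) = _
  rw [h1, ← h2, himg, ← Measure.restrict_restrict hSm, ← lintegral_indicator hSm,
    ← hmp.lintegral_comp_emb measurableEmbedding_coe, volume_def,
    lintegral_withDensity_eq_lintegral_mul_non_measurable]
  · refine lintegral_congr fun w => ?_
    have hw : 0 < w.im := w.im_pos
    have h3 : 2 * ‖((w : ℂ) - z) / ((w : ℂ) - (starRingEnd ℂ) (z : ℂ))‖ = 2 * Real.tanh (dist z w / 2) := by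
      rw [UpperHalfPlane.tanh_half_dist, norm_div, dist_eq_norm, dist_eq_norm, norm_sub_rev]
      have h4 : ‖(w : ℂ) - (starRingEnd ℂ) (z : ℂ)‖ = ‖(z : ℂ) - (starRingEnd ℂ) (w : ℂ)‖ := by
        rw [← Complex.norm_conj, map_sub, Complex.conj_conj, norm_sub_rev]
      rw [h4]
    have h5 : (((1 / NNReal.mk w.im w.im_pos.le : ℝ≥0) ^ 2 : ℝ≥0) : ℝ≥0∞) * ENNReal.ofReal (w.im ^ 2) = 1 := by
      have h6 : ENNReal.ofReal (w.im ^ 2) = (((NNReal.mk w.im w.im_pos.le) ^ 2 : ℝ≥0) : ℝ≥0∞) := by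
        rw [ENNReal.ofReal_eq_coe_nnreal (by positivity)]
        rfl
      rw [h6, ← ENNReal.coe_mul, ← mul_pow, one_div, inv_mul_cancel₀, one_pow, ENNReal.coe_one]
      intro h7
      have h8 := congrArg NNReal.toReal h7
      exact hw.ne' h8
    rw [Pi.mul_apply]
    have h9 : (((1 / NNReal.mk w.im w.im_pos.le : ℝ≥0) ^ 2 : ℝ≥0) : ℝ≥0∞) *
        (ker k z w * (ENNReal.ofReal (w.im ^ 2) * G (w : ℂ))) = ker k z w * G w := by
      rw [mul_left_comm, ← mul_assoc (((1 / NNReal.mk w.im w.im_pos.le : ℝ≥0) ^ 2 : ℝ≥0) : ℝ≥0∞), h5,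
        one_mul]
    rw [h9]
    unfold ker
    by_cases hw2 : (w : ℂ) ∈ S
    · rw [indicator_of_mem hw2, if_pos (h3 ▸ hw2)]
      change k (2 * ‖((w : ℂ) - z) / ((w : ℂ) - (starRingEnd ℂ) (z : ℂ))‖) * G w = _
      rw [h3]
    · rw [indicator_of_notMem hw2, if_neg (fun h => hw2 (by
        change 2 * ‖((w : ℂ) - z) / ((w : ℂ) - (starRingEnd ℂ) (z : ℂ))‖ < 1
        rw [h3]
        exact h)), zero_mul]
  · refine Measurable.coe_nnreal_ennreal (Continuous.measurable ?_)
    refine .pow (.div₀ continuous_const ?_ ?_) _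
    · exact continuous_im.subtype_mk _
    · exact fun x => NNReal.ne_iff.mp x.im_ne_zero
  · exact Filter.Eventually.of_forall fun w => ENNReal.coe_lt_top

end Pool.Agent.Lib.MP_62070a_ag.FH
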