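import Pool.Agent.Lib.MP_62070a_ag.FH.Lift

/-!
# FH / CoLip : the functions `|p_i|² / ‖p‖²` along a holomorphic map are Lipschitz

Let `f` be a lift of `φ` near `z`. Then `co i (φ w) = ‖f w i‖^2 / ‖f w‖^2` near `z` (`co_mk`). Its real derivative at `z` in the
direction `t` (a complex number) is `(2 / ‖f‖²) Re (conj (f_i) (f'_i - f_i ⟨f, f'⟩ / ‖f‖²) t)`: indeed the derivative of
`|f_i|²` in the direction `t` is `2 Re (conj (f_i) f'_i t)`, that of `‖f‖²` is `2 Re (⟨f, f'⟩ t)`, and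
`|f_i|² = conj (f_i) f_i`. The vector `p = f' - f ⟨f, f'⟩ / ‖f‖²` satisfies `‖p‖² = ‖f'‖² - |⟨f, f'⟩|² / ‖f‖² =
‖f‖² den f`, so the derivative has norm at most `(2 / ‖f‖²) |f_i| ‖p‖ ≤ 2 √(den f) ≤ 2 K`. Then the mean value
inequality on the convex set `ball c r` (`Convex.norm_image_sub_le_of_norm_hasFDerivWithin_le`, `HasFDerivAt` over `ℝ`), or along the
segment from `w` to `z`.
-/

set_option autoImplicit false

namespace Pool.Agent.Lib.MP_62070a_ag.FH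

open Metric Set Filter Topology

variable {n : ℕ}

/-- the square of the cosine of the angle with the coordinate vector `i` -/
noncomputable def co (i : Fin (n + 1)) (p : PS n) : ℝ := ‖p.rep i‖ ^ 2 / ‖p.rep‖ ^ 2

theorem co_mk (i : Fin (n + 1)) (v : V n) (hv : v ≠ 0) :
    co i (Projectivization.mk ℂ v hv) = ‖v i‖ ^ 2 / ‖v‖ ^ 2 := by
  obtain ⟨a, ha⟩ := Projectivization.exists_smul_eq_mk_rep ℂ v hv
  have ha0 : (a : ℂ) ≠ 0 := a.ne_zero
  have h1 : (Projectivization.mk ℂ v hv).rep = (a : ℂ) • v := ha.symm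
  have h2 : ((a : ℂ) • v) i = (a : ℂ) * v i := rfl
  rw [co, h1, h2, norm_mul, norm_smul, mul_pow, mul_pow]
  have h3 : ‖(a : ℂ)‖ ^ 2 ≠ 0 := by
    have := norm_pos_iff.2 ha0
    positivity
  exact mul_div_mul_left _ _ h3

theorem sum_co (p : PS n) : ∑ i, co i p = 1 := by
  have h0 : ‖p.rep‖ ^ 2 ≠ 0 := by
    have := norm_pos_iff.2 p.rep_nonzero
    positivity
  simp only [co]
  rw [← Finset.sum_div, ← EuclideanSpace.norm_sq_eq, div_self h0]

/-- a coordinate with `co i p ≥ 1 / (n + 1)` -/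
theorem exists_co (p : PS n) : ∃ i, 1 / ((n : ℝ) + 1) ≤ co i p := by
  by_contra hcon
  push Not at hcon
  have h1 : ∑ i, co i p < ∑ _i : Fin (n + 1), 1 / ((n : ℝ) + 1) :=
    Finset.sum_lt_sum_of_nonempty Finset.univ_nonempty fun i _ => hcon i
  rw [sum_co, Finset.sum_const, Finset.card_univ, Fintype.card_fin, nsmul_eq_mul] at h1
  push_cast at h1
  rw [mul_one_div_cancel (by positivity)] at h1
  exact lt_irrefl _ h1

/-- if `co i p ≥ s > 0` the normalised representative has norm squared `1 / co i p ≤ 1 / s` -/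
theorem norm_nrm_sq_le {i : Fin (n + 1)} {p : PS n} {s : ℝ} (hs : 0 < s) (h : s ≤ co i p) :
    p.rep i ≠ 0 ∧ ‖nrm i p‖ ^ 2 ≤ 1 / s := by
  have h0 : 0 < ‖p.rep‖ := norm_pos_iff.2 p.rep_nonzero
  have hi : p.rep i ≠ 0 := by
    intro h1
    rw [co, h1, norm_zero, zero_pow two_ne_zero, zero_div] at h
    linarith
  refine ⟨hi, ?_⟩
  have h2 : 0 < ‖p.rep i‖ := norm_pos_iff.2 hi
  rw [nrm, norm_smul, norm_inv, mul_pow, inv_pow]
  rw [co, le_div_iff₀ (by positivity)] at h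
  rw [le_div_iff₀ hs]
  rw [inv_mul_eq_div, div_mul_eq_mul_div, div_le_one (by positivity)]
  linarith

private theorem colip_alg (x y : V n) (i : Fin (n + 1)) :
    |2 * (inner ℝ (x i) (y i) : ℝ) * ‖x‖ ^ 2 - ‖x i‖ ^ 2 * ∑ j, 2 * (inner ℝ (x j) (y j) : ℝ)| ≤
      2 * ‖x‖ ^ 2 * Real.sqrt ((1 / 2) * ∑ i, ∑ j, ‖x i * y j - x j * y i‖ ^ 2) := by
  have hre : ∀ a b : ℂ, (inner ℝ a b : ℝ) = ((starRingEnd ℂ) a * b).re := fun a b => by
    rw [Complex.inner, mul_comm]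
  have hmc : ∀ a : ℂ, ((‖a‖ ^ 2 : ℝ) : ℂ) = (starRingEnd ℂ) a * a := fun a => by
    rw [mul_comm, Complex.mul_conj, Complex.normSq_eq_norm_sq]
  -- the vector of the minors
  set w : Fin (n + 1) → ℂ := fun j => x j * y i - x i * y j with hw
  have h1 : 2 * (inner ℝ (x i) (y i) : ℝ) * ‖x‖ ^ 2 - ‖x i‖ ^ 2 * ∑ j, 2 * (inner ℝ (x j) (y j) : ℝ) =
      2 * ((starRingEnd ℂ) (x i) * ∑ j, (starRingEnd ℂ) (x j) * w j).re := by
    have h2 : (starRingEnd ℂ) (x i) * ∑ j, (starRingEnd ℂ) (x j) * w j =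
        ((‖x‖ ^ 2 : ℝ) : ℂ) * ((starRingEnd ℂ) (x i) * y i) -
          ((‖x i‖ ^ 2 : ℝ) : ℂ) * ∑ j, (starRingEnd ℂ) (x j) * y j := by
      have h3 : ((‖x‖ ^ 2 : ℝ) : ℂ) = ∑ j, (starRingEnd ℂ) (x j) * x j := by
        rw [EuclideanSpace.norm_sq_eq, Complex.ofReal_sum]
        exact Finset.sum_congr rfl fun j _ => hmc _
      rw [h3, hmc, Finset.mul_sum, Finset.sum_mul, Finset.mul_sum, ← Finset.sum_sub_distrib]
      refine Finset.sum_congr rfl fun j _ => ?_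
      rw [hw]
      ring
    rw [h2, Complex.sub_re, Complex.re_ofReal_mul, Complex.re_ofReal_mul, ← hre, Complex.re_sum,
      ← Finset.mul_sum]
    have h4 : ∑ j, ((starRingEnd ℂ) (x j) * y j).re = ∑ j, (inner ℝ (x j) (y j) : ℝ) :=
      Finset.sum_congr rfl fun j _ => (hre _ _).symm
    rw [h4]
    ring
  rw [h1, abs_mul, abs_of_pos (two_pos : (0 : ℝ) < 2), mul_assoc]
  refine mul_le_mul_of_nonneg_left ?_ two_pos.le
  refine (Complex.abs_re_le_norm _).trans ?_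
  rw [norm_mul, RCLike.norm_conj]
  have hxi : ‖x i‖ ≤ ‖x‖ := PiLp.norm_apply_le x i
  have h5 : ‖∑ j, (starRingEnd ℂ) (x j) * w j‖ ≤ ‖x‖ * Real.sqrt (∑ j, ‖w j‖ ^ 2) := by
    refine (norm_sum_le _ _).trans ?_
    have h6 := Finset.sum_mul_sq_le_sq_mul_sq Finset.univ (fun j => ‖x j‖) (fun j => ‖w j‖)
    have h7 : ∑ j, ‖(starRingEnd ℂ) (x j) * w j‖ = ∑ j, ‖x j‖ * ‖w j‖ :=
      Finset.sum_congr rfl fun j _ => by rw [norm_mul, RCLike.norm_conj]
    rw [h7]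
    have h8 : 0 ≤ ∑ j, ‖x j‖ * ‖w j‖ := Finset.sum_nonneg fun j _ => by positivity
    have h9 : (∑ j, ‖x j‖ * ‖w j‖) ^ 2 ≤ (‖x‖ * Real.sqrt (∑ j, ‖w j‖ ^ 2)) ^ 2 := by
      rw [mul_pow, Real.sq_sqrt (Finset.sum_nonneg fun j _ => by positivity), EuclideanSpace.norm_sq_eq]
      exact h6
    exact le_of_sq_le_sq h9 (by positivity)
  have h10 : ∑ j, ‖w j‖ ^ 2 ≤ (1 / 2) * ∑ i, ∑ j, ‖x i * y j - x j * y i‖ ^ 2 := by
    have hA : ∀ k, ‖w k‖ ^ 2 ≤ ∑ j, ‖x k * y j - x j * y k‖ ^ 2 := fun k =>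
      Finset.single_le_sum (f := fun j => ‖x k * y j - x j * y k‖ ^ 2) (fun _ _ => by positivity)
        (Finset.mem_univ i)
    have hwi : ‖w i‖ ^ 2 = 0 := by
      rw [hw]
      simp
    have hrow : ∑ j, ‖x i * y j - x j * y i‖ ^ 2 = ∑ j, ‖w j‖ ^ 2 :=
      Finset.sum_congr rfl fun j _ => by rw [hw, norm_sub_rev]
    have hB : ∑ k ∈ Finset.univ.erase i, ‖w k‖ ^ 2 ≤
        ∑ k ∈ Finset.univ.erase i, ∑ j, ‖x k * y j - x j * y k‖ ^ 2 :=
      Finset.sum_le_sum fun k _ => hA k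
    have hC := Finset.add_sum_erase Finset.univ (fun k => ‖w k‖ ^ 2) (Finset.mem_univ i)
    have hD := Finset.add_sum_erase Finset.univ (fun k => ∑ j, ‖x k * y j - x j * y k‖ ^ 2)
      (Finset.mem_univ i)
    simp only at hC hD
    rw [hwi, zero_add] at hC
    rw [hrow] at hD
    linarith
  calc ‖x i‖ * ‖∑ j, (starRingEnd ℂ) (x j) * w j‖ ≤ ‖x‖ * (‖x‖ * Real.sqrt (∑ j, ‖w j‖ ^ 2)) :=
        mul_le_mul hxi h5 (norm_nonneg _) (norm_nonneg _)
    _ ≤ ‖x‖ * (‖x‖ * Real.sqrt ((1 / 2) * ∑ i, ∑ j, ‖x i * y j - x j * y i‖ ^ 2)) := by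
        gcongr
    _ = ‖x‖ ^ 2 * Real.sqrt ((1 / 2) * ∑ i, ∑ j, ‖x i * y j - x j * y i‖ ^ 2) := by ring

private theorem colip_deriv {φ : ℂ → PS n} {f : ℂ → V n} {p v : ℂ} {t : ℝ} (q : ℂ) (hq : q + t * v = p)
    (h : IsLift φ f p) (i : Fin (n + 1)) :
    ∃ D : ℝ, HasDerivAt (fun s : ℝ => co i (φ (q + s * v))) D t ∧
      |D| ≤ 2 * Real.sqrt (den f p) * ‖v‖ := by
  subst hq
  set p := q + t * v with hp
  have hf : HasDerivAt f (deriv f p) p := h.1.differentiableAt.hasDerivAt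
  have hγ : HasDerivAt (fun s : ℝ => q + s * v) v t := by
    have h1 : HasDerivAt (fun s : ℝ => (s : ℂ)) 1 t := Complex.ofRealCLM.hasDerivAt
    have h2 := (h1.mul_const v).const_add q
    rw [one_mul] at h2
    exact h2
  have hj : ∀ j, HasDerivAt (fun s : ℝ => f (q + s * v) j) ((deriv f p) j * v) t := by
    intro j
    have h1 : HasDerivAt (fun w => f w j) ((deriv f p) j) p :=
      (EuclideanSpace.proj j : V n →L[ℂ] ℂ).hasFDerivAt.comp_hasDerivAt p hf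
    exact HasDerivAt.comp t h1 hγ
  have hn : ∀ j, HasDerivAt (fun s : ℝ => ‖f (q + s * v) j‖ ^ 2)
      (2 * (inner ℝ (f p j) ((deriv f p) j * v) : ℝ)) t := fun j => (hj j).norm_sq
  have hN : HasDerivAt (fun s : ℝ => ‖f (q + s * v)‖ ^ 2)
      (∑ j, 2 * (inner ℝ (f p j) ((deriv f p) j * v) : ℝ)) t := by
    have h1 : HasDerivAt (fun s : ℝ => ∑ j, ‖f (q + s * v) j‖ ^ 2)
        (∑ j, 2 * (inner ℝ (f p j) ((deriv f p) j * v) : ℝ)) t := HasDerivAt.fun_sum fun j _ => hn j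
    refine h1.congr_of_eventuallyEq (Filter.Eventually.of_forall fun s => ?_)
    exact EuclideanSpace.norm_sq_eq _
  have hpos : 0 < ‖f p‖ := norm_pos_iff.2 h.ne_zero
  have hpos2 : ‖f p‖ ^ 2 ≠ 0 := by positivity
  have hdiv := (hn i).div hN hpos2
  refine ⟨_, hdiv.congr_of_eventuallyEq ?_, ?_⟩
  · have h1 : Tendsto (fun s : ℝ => q + s * v) (𝓝 t) (𝓝 p) := hγ.continuousAt
    filter_upwards [h1.eventually h.2] with s hs
    obtain ⟨h0, hs⟩ := hs
    rw [hs, co_mk]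
    rfl
  · set y : V n := WithLp.toLp 2 fun j => (deriv f p) j * v with hy
    have hyj : ∀ j, y j = (deriv f p) j * v := fun j => rfl
    have h1 := colip_alg (f p) y i
    simp only [hyj] at h1
    have h2 : (1 / 2) * ∑ i, ∑ j, ‖f p i * (deriv f p j * v) - f p j * (deriv f p i * v)‖ ^ 2 =
        ‖f p‖ ^ 4 * den f p * ‖v‖ ^ 2 := by
      have h3 : ∀ i j, ‖f p i * (deriv f p j * v) - f p j * (deriv f p i * v)‖ ^ 2 =
          ‖f p i * deriv f p j - f p j * deriv f p i‖ ^ 2 * ‖v‖ ^ 2 := by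
        intro i j
        rw [← mul_assoc, ← mul_assoc, ← sub_mul, norm_mul, mul_pow]
      simp only [h3]
      simp only [← Finset.sum_mul]
      rw [den_eq_sum]
      field_simp
    rw [h2] at h1
    have h4 : Real.sqrt (‖f p‖ ^ 4 * den f p * ‖v‖ ^ 2) = ‖f p‖ ^ 2 * Real.sqrt (den f p) * ‖v‖ := by
      rw [Real.sqrt_mul' _ (by positivity), Real.sqrt_mul (by positivity), Real.sqrt_sq (norm_nonneg _)]
      congr 2
      rw [show ‖f p‖ ^ 4 = (‖f p‖ ^ 2) ^ 2 by ring, Real.sqrt_sq (by positivity)]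
    rw [h4] at h1
    rw [abs_div, abs_of_pos (by positivity : 0 < (‖f p‖ ^ 2) ^ 2), div_le_iff₀ (by positivity)]
    refine h1.trans (le_of_eq ?_)
    ring

theorem co_lipschitz {φ : ℂ → PS n} {c : ℂ} {r K : ℝ} (hφ : HolOn φ (ball c r))
    (hK0 : 0 ≤ K) (hK : ∀ z ∈ ball c r, energy φ z ≤ K ^ 2) {z w : ℂ} (hz : z ∈ ball c r) (hw : w ∈ ball c r)
    (i : Fin (n + 1)) : |co i (φ z) - co i (φ w)| ≤ 2 * K * ‖z - w‖ := by
  have hmem : ∀ t ∈ Icc (0 : ℝ) 1, w + t * (z - w) ∈ ball c r := by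
    intro t ht
    have h1 := (convex_ball c r).add_smul_sub_mem hw hz ht
    rwa [Complex.real_smul] at h1
  have hex : ∀ t : ℝ, ∃ D : ℝ, t ∈ Icc (0 : ℝ) 1 →
      HasDerivAt (fun s : ℝ => co i (φ (w + s * (z - w)))) D t ∧ |D| ≤ 2 * K * ‖z - w‖ := by
    intro t
    by_cases ht : t ∈ Icc (0 : ℝ) 1
    · obtain ⟨f, hf⟩ := hφ _ (hmem t ht)
      obtain ⟨D, h1, h2⟩ := colip_deriv w rfl hf i
      refine ⟨D, fun _ => ⟨h1, h2.trans ?_⟩⟩
      have h3 := hK _ (hmem t ht)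
      rw [hf.energy_eq] at h3
      have h4 : Real.sqrt (den f (w + t * (z - w))) ≤ K := by
        rw [← Real.sqrt_sq hK0]
        exact Real.sqrt_le_sqrt h3
      gcongr
    · exact ⟨0, fun h => absurd h ht⟩
  choose D hD using hex
  have h1 := norm_image_sub_le_of_norm_deriv_le_segment_01' (f := fun s : ℝ => co i (φ (w + s * (z - w))))
    (f' := D) (C := 2 * K * ‖z - w‖) (fun t ht => (hD t ht).1.hasDerivWithinAt)
    (fun t ht => (hD t (Ico_subset_Icc_self ht)).2)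
  simp only [Complex.ofReal_one, one_mul, Complex.ofReal_zero, zero_mul, add_zero, add_sub_cancel] at h1
  rwa [Real.norm_eq_abs] at h1

end Pool.Agent.Lib.MP_62070a_ag.FH
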