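import Pool.Agent.Lib.MP_62070a_ag.FH.IntE

/-!
# FH / Comp : competitor discs

`DiscHyp P E`: `E (h 0) |h' 0|² ≤ 1` for every holomorphic map `h` from the unit disc to `ball 0 (3/4) \ P` with `h 0 ∈ ball 0 (1/4)`.
`ptHyp_of_discHyp`:
(far) `h ζ = z + ζ / 4`: `‖h ζ‖ < 1/2` and `dist z (h ζ) < 1/4 ≤ dist z p`, so `h ζ ≠ p`. `E z / 16 ≤ 1`. (`z ∉ P` as `dist z z = 0 < 1/4`.)
(disc) `r = dist z a > 0`, `h ζ = z + r ζ`, `r < 1/4`: `‖h ζ‖ < 1/2`, `dist z (h ζ) < r ≤ dist z p`. `E z r² ≤ 1`.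
(ann) `β = i log 2`, `h ζ = a + (z - a) exp (β ζ)`: `‖h ζ - a‖ = r exp (β Re ζ) ∈ (r / 2^i, r 2^i)`, so `h ζ ≠ a`, and `h ζ ≠ p` for the other `p ∈ P`; `‖h ζ‖ < ‖a‖ + 1/4 ≤ ‖z‖ + r + 1/4 < 3/4`.
`h' 0 = β (z - a)`: `E z i² (log 2)² r² ≤ 1`, and `(log 2)² ≥ 1/3` (`Real.log_two_gt_d9`).
`area_bound`: combine with `int_bound`.
-/

set_option autoImplicit false

namespace Pool.Agent.Lib.MP_62070a_ag.FH

open Metric Set Filter Topology MeasureTheory
open scoped ENNReal

/-- holomorphic discs in the punctured disc -/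
def DiscHyp (P : Finset ℂ) (E : ℂ → ℝ≥0∞) : Prop :=
  ∀ h : ℂ → ℂ, DifferentiableOn ℂ h (ball 0 1) → h 0 ∈ ball (0 : ℂ) (1 / 4) →
    (∀ ζ ∈ ball (0 : ℂ) 1, h ζ ∈ ball (0 : ℂ) (3 / 4) ∧ h ζ ∉ P) → E (h 0) * ENNReal.ofReal (‖deriv h 0‖ ^ 2) ≤ 1

private theorem comp_le {x : ℝ≥0∞} {c : ℝ} (hc : 0 < c) (h : x * ENNReal.ofReal c ≤ 1) :
    x ≤ ENNReal.ofReal (1 / c) := by
  rw [one_div, ENNReal.ofReal_inv_of_pos hc, ENNReal.le_inv_iff_mul_le]
  exact h

private theorem comp_lin {P : Finset ℂ} {E : ℂ → ℝ≥0∞} (h : DiscHyp P E) {z : ℂ}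
    (hz : z ∈ ball (0 : ℂ) (1 / 4)) {r : ℝ} (hr : 0 < r) (hr1 : r ≤ 1 / 4)
    (hP : ∀ p ∈ P, r ≤ dist z p) : E z ≤ ENNReal.ofReal (1 / r ^ 2) := by
  have h1 := h (fun ζ => z + r * ζ)
    ((differentiable_const z).add ((differentiable_const (r : ℂ)).mul differentiable_id)).differentiableOn
    (by
      rw [mul_zero, add_zero]
      exact hz)
    (by
      intro ζ hζ
      rw [mem_ball_zero_iff] at hζ hz
      have h2 : ‖(r : ℂ) * ζ‖ < r := by
        rw [norm_mul, Complex.norm_real, Real.norm_of_nonneg hr.le]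
        exact mul_lt_of_lt_one_right hr hζ
      constructor
      · rw [mem_ball_zero_iff]
        have h3 := norm_add_le z ((r : ℂ) * ζ)
        change ‖z + (r : ℂ) * ζ‖ < 3 / 4
        linarith
      · intro h3
        have h4 := hP _ h3
        rw [dist_comm, dist_eq_norm] at h4
        change r ≤ ‖z + (r : ℂ) * ζ - z‖ at h4
        rw [add_sub_cancel_left] at h4
        linarith)
  have h5 : deriv (fun ζ : ℂ => z + (r : ℂ) * ζ) 0 = r := by
    have h6 : HasDerivAt (fun ζ : ℂ => z + (r : ℂ) * ζ) ((r : ℂ) * 1) 0 :=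
      ((hasDerivAt_id (0 : ℂ)).const_mul (r : ℂ)).const_add z
    rw [h6.deriv, mul_one]
  have h7 : z + (r : ℂ) * 0 = z := by rw [mul_zero, add_zero]
  rw [h5, Complex.norm_real, Real.norm_of_nonneg hr.le] at h1
  change E (z + (r : ℂ) * 0) * _ ≤ 1 at h1
  rw [h7] at h1
  exact comp_le (by positivity) h1

theorem ptHyp_of_discHyp {P : Finset ℂ} {E : ℂ → ℝ≥0∞} (h : DiscHyp P E) : PtHyp P E := by
  refine ⟨?_, ?_, ?_⟩
  · intro z hz hP
    refine (comp_lin h hz (by norm_num : (0 : ℝ) < 1 / 4) le_rfl hP).trans (le_of_eq ?_)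
    have h1 : (1 : ℝ) / (1 / 4) ^ 2 = 16 := by norm_num
    rw [h1]
    exact ENNReal.ofReal_ofNat 16
  · intro z hz hzP a ha hmin hlt
    have hr : 0 < dist z a := dist_pos.2 (by
      rintro rfl
      exact hzP ha)
    exact comp_lin h hz hr hlt.le hmin
  · intro z hz hzP a ha hmin hlt i hi hri hann
    have hr : 0 < dist z a := dist_pos.2 (by
      rintro rfl
      exact hzP ha)
    set r := dist z a with hrdef
    have hrn : ‖z - a‖ = r := (dist_eq_norm z a).symm
    have hi0 : (0 : ℝ) < i := by exact_mod_cast hi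
    have hlog : 0 < Real.log 2 := Real.log_pos (by norm_num)
    set b : ℝ := i * Real.log 2 with hb
    have hb0 : 0 < b := mul_pos hi0 hlog
    have hexp : Real.exp b = 2 ^ i := by
      rw [hb, ← Real.log_pow, Real.exp_log (by positivity)]
    have h2i : (2 : ℝ) ≤ 2 ^ i := by
      calc (2 : ℝ) = 2 ^ 1 := (pow_one 2).symm
        _ ≤ 2 ^ i := pow_le_pow_right₀ (by norm_num) hi
    have hr8 : r ≤ 1 / 8 := by
      have h1 : r * 2 ≤ r * 2 ^ i := mul_le_mul_of_nonneg_left h2i hr.le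
      linarith
    have hnorm : ∀ ζ : ℂ, ‖(z - a) * Complex.exp (b * ζ)‖ = r * Real.exp (b * ζ.re) := by
      intro ζ
      rw [norm_mul, hrn, Complex.norm_exp]
      have h1 : ((b : ℂ) * ζ).re = b * ζ.re := by
        rw [Complex.re_ofReal_mul]
      rw [h1]
    have hbd : ∀ ζ ∈ ball (0 : ℂ) 1, r / 2 ^ i < r * Real.exp (b * ζ.re) ∧
        r * Real.exp (b * ζ.re) < r * 2 ^ i := by
      intro ζ hζ
      rw [mem_ball_zero_iff] at hζ
      have h1 := (abs_lt.1 (lt_of_le_of_lt (Complex.abs_re_le_norm ζ) hζ))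
      constructor
      · rw [div_eq_mul_inv, ← hexp, ← Real.exp_neg]
        refine mul_lt_mul_of_pos_left (Real.exp_lt_exp.2 ?_) hr
        have h2 : b * (-1) < b * ζ.re := mul_lt_mul_of_pos_left h1.1 hb0
        linarith
      · rw [← hexp]
        refine mul_lt_mul_of_pos_left (Real.exp_lt_exp.2 ?_) hr
        have h2 : b * ζ.re < b * 1 := mul_lt_mul_of_pos_left h1.2 hb0
        linarith
    have hd : ∀ ζ : ℂ, HasDerivAt (fun ζ : ℂ => a + (z - a) * Complex.exp (b * ζ))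
        ((z - a) * (Complex.exp (b * ζ) * (b * 1))) ζ := fun ζ =>
      ((((hasDerivAt_id ζ).const_mul (b : ℂ)).cexp).const_mul (z - a)).const_add a
    have h1 := h (fun ζ => a + (z - a) * Complex.exp (b * ζ))
      (fun ζ _ => (hd ζ).differentiableAt.differentiableWithinAt)
      (by
        rw [mul_zero, Complex.exp_zero, mul_one, add_sub_cancel]
        exact hz)
      (by
        intro ζ hζ
        obtain ⟨h2, h3⟩ := hbd ζ hζ
        rw [← hnorm] at h2 h3
        rw [mem_ball_zero_iff] at hz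
        constructor
        · rw [mem_ball_zero_iff]
          change ‖a + (z - a) * Complex.exp (b * ζ)‖ < 3 / 4
          have h4 := norm_add_le a ((z - a) * Complex.exp (b * ζ))
          have h5 : ‖a‖ ≤ ‖z‖ + r := by
            have h6 := norm_sub_le z (z - a)
            rw [sub_sub_cancel, hrn] at h6
            exact h6
          linarith
        · intro h4
          have h5 : dist (a + (z - a) * Complex.exp (b * ζ)) a =
              ‖(z - a) * Complex.exp (b * ζ)‖ := by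
            rw [dist_eq_norm, add_sub_cancel_left]
          have h6 : a + (z - a) * Complex.exp (b * ζ) ≠ a := by
            intro h7
            rw [h7, dist_self] at h5
            have h8 : 0 < r / 2 ^ i := by positivity
            linarith
          exact hann _ h4 h6 (by rw [h5]; exact ⟨h2, h3⟩))
    rw [(hd 0).deriv] at h1
    change E (a + (z - a) * Complex.exp (b * 0)) * _ ≤ 1 at h1
    rw [mul_zero, Complex.exp_zero, mul_one, add_sub_cancel, one_mul, mul_one, norm_mul, hrn,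
      Complex.norm_real, Real.norm_of_nonneg hb0.le] at h1
    refine (comp_le (by positivity) h1).trans (ENNReal.ofReal_le_ofReal ?_)
    have hl := Real.log_two_gt_d9
    have h9 : 1 / 3 ≤ Real.log 2 ^ 2 := by nlinarith
    rw [div_le_div_iff₀ (by positivity) (by positivity)]
    have h10 : (r * b) ^ 2 = (i : ℝ) ^ 2 * r ^ 2 * Real.log 2 ^ 2 := by
      rw [hb]
      ring
    rw [h10]
    have h11 : 0 ≤ (i : ℝ) ^ 2 * r ^ 2 := by positivity
    have h12 := mul_le_mul_of_nonneg_left h9 h11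
    linarith

theorem area_bound : ∃ C : ℝ, 0 < C ∧ ∀ (P : Finset ℂ) (E : ℂ → ℝ≥0∞), DiscHyp P E →
    ∫⁻ z in ball (0 : ℂ) (1 / 4), E z ≤ ENNReal.ofReal (C * (1 + P.card)) := by
  obtain ⟨C, hC, h⟩ := int_bound
  exact ⟨C, hC, fun P E hE => h P E (ptHyp_of_discHyp hE)⟩

end Pool.Agent.Lib.MP_62070a_ag.FH
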