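import Mathlib

/-!
# FH / CosLift : solving `cos (π F) = w`

`exists_log`: a nowhere vanishing holomorphic function on a ball is an exponential. Proof: a holomorphic function on a ball has a primitive
(`DifferentiableOn.isExactOn_ball` or `Complex.IsExactOn`, see Mathlib/Analysis/Complex/HasPrimitives.lean); take a primitive `L` of
`u' / u`; then `u * exp (-L)` has derivative `0` on the (convex, preconnected) ball, so it is a constant `c ≠ 0`, `c = exp c'`, and `u = exp (L + c')`.

`exists_cos`: let `w` be holomorphic on the ball and `w z ≠ 1`, `w z ≠ -1` for all `z`. Then `w² - 1` does not vanish, so `w² - 1 = exp L = s²`, `s = exp (L / 2)`;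
`(w + s) (w - s) = 1`, so `w + s` does not vanish, `w + s = exp L'`, and `F = L' / (π I)`: `cos (π F) = (exp (I π F) + exp (- I π F)) / 2 =
((w + s) + (w - s)) / 2 = w`. Normalisation: replace `F` by `F + 2 k` for an integer `k` with `|Re F(c) + 2 k| ≤ 1` (`cos` has period `2 π`:
`Complex.cos_add_int_mul_two_pi`).
-/

set_option autoImplicit false

namespace Pool.Agent.Lib.MP_62070a_ag.FH

open Metric Set Filter Topology

theorem exists_log {u : ℂ → ℂ} {c : ℂ} {r : ℝ} (hu : DifferentiableOn ℂ u (ball c r)) (h0 : ∀ z ∈ ball c r, u z ≠ 0) :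
    ∃ L : ℂ → ℂ, DifferentiableOn ℂ L (ball c r) ∧ ∀ z ∈ ball c r, Complex.exp (L z) = u z := by
  have hU : IsOpen (ball c r) := isOpen_ball
  have hq : DifferentiableOn ℂ (fun z => deriv u z / u z) (ball c r) :=
    (hu.deriv hU).div hu h0
  obtain ⟨g, hg⟩ := hq.isExactOn_ball
  have hgd : DifferentiableOn ℂ g (ball c r) := fun z hz => (hg z hz).differentiableAt.differentiableWithinAt
  have hder : ∀ z ∈ ball c r, HasDerivAt (fun z => u z * Complex.exp (-g z)) 0 z := by
    intro z hz
    have e1 : HasDerivAt u (deriv u z) z :=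
      ((hu z hz).differentiableAt (hU.mem_nhds hz)).hasDerivAt
    have e2 : HasDerivAt (fun z => Complex.exp (-g z)) (Complex.exp (-g z) * (-(deriv u z / u z))) z :=
      ((hg z hz).neg).cexp
    have e3 := e1.mul e2
    have hz0 := h0 z hz
    have e4 : deriv u z * Complex.exp (-g z) + u z * (Complex.exp (-g z) * (-(deriv u z / u z))) = 0 := by
      field_simp
      ring
    rw [e4] at e3
    exact e3
  obtain ⟨a, ha⟩ := hU.exists_is_const_of_deriv_eq_zero (convex_ball c r).isPreconnected
    (fun z hz => (hder z hz).differentiableAt.differentiableWithinAt)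
    (fun z hz => (hder z hz).deriv)
  rcases (ball c r).eq_empty_or_nonempty with he | ⟨z0, hz0⟩
  · refine ⟨fun _ => 0, differentiableOn_const 0, ?_⟩
    intro z hz
    rw [he] at hz
    exact absurd hz (Set.notMem_empty z)
  · have ha0 : a ≠ 0 := by
      rw [← ha z0 hz0]
      exact mul_ne_zero (h0 z0 hz0) (Complex.exp_ne_zero _)
    refine ⟨fun z => g z + Complex.log a, hgd.add_const _, ?_⟩
    intro z hz
    rw [Complex.exp_add, Complex.exp_log ha0, ← ha z hz, Complex.exp_neg]
    have := Complex.exp_ne_zero (g z)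
    field_simp

theorem exists_cos {w : ℂ → ℂ} {c : ℂ} {r : ℝ} (hr : 0 < r) (hw : DifferentiableOn ℂ w (ball c r))
    (h1 : ∀ z ∈ ball c r, w z ≠ 1) (h2 : ∀ z ∈ ball c r, w z ≠ -1) :
    ∃ F : ℂ → ℂ, DifferentiableOn ℂ F (ball c r) ∧ (∀ z ∈ ball c r, Complex.cos (Real.pi * F z) = w z) ∧
      |(F c).re| ≤ 1 := by
  have hU : IsOpen (ball c r) := isOpen_ball
  have h3 : ∀ z ∈ ball c r, w z ^ 2 - 1 ≠ 0 := by
    intro z hz h
    have e : (w z - 1) * (w z + 1) = 0 := by rw [← h]; ring
    rcases mul_eq_zero.mp e with e | e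
    · exact h1 z hz (sub_eq_zero.mp e)
    · exact h2 z hz (eq_neg_of_add_eq_zero_left e)
  obtain ⟨L, hL, hLe⟩ := exists_log ((hw.pow 2).sub_const 1) h3
  have hs : DifferentiableOn ℂ (fun z => Complex.exp (L z / 2)) (ball c r) :=
    (hL.div_const 2).cexp
  have hs2 : ∀ z ∈ ball c r, Complex.exp (L z / 2) ^ 2 = w z ^ 2 - 1 := by
    intro z hz
    have e0 : Complex.exp (L z) = w z ^ 2 - 1 := hLe z hz
    rw [← e0, ← Complex.exp_nat_mul]
    congr 1
    push_cast
    ring
  have hprod : ∀ z ∈ ball c r, (w z + Complex.exp (L z / 2)) * (w z - Complex.exp (L z / 2)) = 1 := by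
    intro z hz
    have := hs2 z hz
    linear_combination -this
  have h4 : ∀ z ∈ ball c r, w z + Complex.exp (L z / 2) ≠ 0 := by
    intro z hz h
    have := hprod z hz
    rw [h, zero_mul] at this
    exact zero_ne_one this
  obtain ⟨M, hM, hMe⟩ := exists_log (hw.add hs) h4
  have hpi : (Real.pi : ℂ) ≠ 0 := by exact_mod_cast Real.pi_ne_zero
  obtain ⟨G, hG⟩ : ∃ G : ℂ → ℂ, G = fun z => M z / (Real.pi * Complex.I) := ⟨_, rfl⟩
  have hGd : DifferentiableOn ℂ G (ball c r) := by rw [hG]; exact hM.div_const _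
  have hGc : ∀ z ∈ ball c r, Complex.cos (Real.pi * G z) = w z := by
    intro z hz
    have e1 : (Real.pi : ℂ) * G z * Complex.I = M z := by
      rw [hG]
      have := Complex.I_ne_zero
      field_simp
    have e2 : Complex.exp (M z) = w z + Complex.exp (L z / 2) := hMe z hz
    have e3 : Complex.exp (-M z) = w z - Complex.exp (L z / 2) := by
      rw [Complex.exp_neg, e2]
      exact inv_eq_of_mul_eq_one_right (hprod z hz)
    rw [Complex.cos, e1, neg_mul, e1, e2, e3]
    ring
  obtain ⟨k, hk⟩ : ∃ k : ℤ, |(G c).re + 2 * k| ≤ 1 := by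
    refine ⟨-round ((G c).re / 2), ?_⟩
    have := abs_sub_round ((G c).re / 2)
    push_cast
    rw [abs_le] at this ⊢
    constructor <;> linarith [this.1, this.2]
  refine ⟨fun z => G z + 2 * k, hGd.add_const _, ?_, ?_⟩
  · intro z hz
    have e : (Real.pi : ℂ) * (G z + 2 * k) = Real.pi * G z + k * (2 * Real.pi) := by ring
    rw [e, Complex.cos_add_int_mul_two_pi]
    exact hGc z hz
  · have e : (G c + 2 * (k : ℂ)).re = (G c).re + 2 * k := by simp
    rw [e]
    exact hk

end Pool.Agent.Lib.MP_62070a_ag.FH
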