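import Mathlib

/-!
# FH / Count : number of zeros from Jensen's formula

Proof. `AnalyticOnNhd.circleAverage_log_norm` (Jensen's formula, Mathlib/Analysis/Complex/JensenFormula.lean) with `c = 0`, `R = 9/10`:
`circleAverage (log ‖u ·‖) 0 R = ∑ᶠ s, divisor u (closedBall 0 |R|) s * log (R * ‖0 - s‖⁻¹) + log ‖u 0‖`. The divisor of an analytic function
is nonnegative, it is at least `1` at the zeros in the closed ball (its value is the (finite) order of vanishing; `u` is not locally zero on the connected ball as `u 0 ≠ 0`),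
`log (R / ‖s‖) ≥ 0` for `s` in the closed ball (also for `s = 0`: `log 0 = 0`; but `0` is not a zero) and
`log (R / ‖s‖) ≥ log (6/5)` for `‖s‖ ≤ 3/4`, `s ≠ 0`. So the sum is at least `|S| log (6/5)`. For the finiteness: the zeros in the compact ball are isolated
(or: the divisor has finite support).
-/

set_option autoImplicit false

namespace Pool.Agent.Lib.MP_62070a_ag.FH

open Metric Set Filter Topology

theorem one_le_dvs {u : ℂ → ℂ} (hu : AnalyticOnNhd ℂ u (closedBall 0 |(9 / 10 : ℝ)|)) (h0 : u 0 ≠ 0)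
    {s : ℂ} (hs : s ∈ closedBall (0 : ℂ) |(9 / 10 : ℝ)|) (hus : u s = 0) :
    1 ≤ MeromorphicOn.divisor u (closedBall 0 |(9 / 10 : ℝ)|) s := by
  have hne : analyticOrderAt u s ≠ 0 := by
    intro h
    exact ((hu s hs).analyticOrderAt_eq_zero.mp h) hus
  have htop : analyticOrderAt u s ≠ ⊤ := by
    intro h
    have h1 : ∀ᶠ z in 𝓝 s, u z = 0 := analyticOrderAt_eq_top.mp h
    have h2 := hu.eqOn_zero_of_preconnected_of_eventuallyEq_zero
      (convex_closedBall (0 : ℂ) |(9 / 10 : ℝ)|).isPreconnected hs h1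
    exact h0 (h2 (mem_closedBall_self (abs_nonneg _)))
  rw [MeromorphicOn.AnalyticOnNhd.divisor_apply hu hs]
  obtain ⟨n, hn⟩ := ENat.ne_top_iff_exists.mp htop
  rw [← hn] at hne ⊢
  have hn0 : n ≠ 0 := by
    rintro rfl
    exact hne rfl
  have h3 : ((((n : ℕ∞).map (fun x : ℕ => (x : ℤ))) : WithTop ℤ)).untop₀ = (n : ℤ) := rfl
  rw [h3]
  omega

theorem finite_zeros {u : ℂ → ℂ} (hu : AnalyticOnNhd ℂ u (closedBall 0 (9 / 10))) (h0 : u 0 ≠ 0) :
    {z : ℂ | z ∈ closedBall (0 : ℂ) (3 / 4) ∧ u z = 0}.Finite := by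
  have habs : |(9 / 10 : ℝ)| = 9 / 10 := abs_of_pos (by norm_num)
  have hu' : AnalyticOnNhd ℂ u (closedBall 0 |(9 / 10 : ℝ)|) := by rw [habs]; exact hu
  refine ((MeromorphicOn.divisor u (closedBall 0 |(9 / 10 : ℝ)|)).finiteSupport
    (isCompact_closedBall _ _)).subset ?_
  rintro z ⟨hz, huz⟩
  have hz' : z ∈ closedBall (0 : ℂ) |(9 / 10 : ℝ)| := by
    rw [habs]
    exact closedBall_subset_closedBall (by norm_num) hz
  have h1 := one_le_dvs hu' h0 hz' huz
  rw [Function.mem_support]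
  omega

theorem card_zeros {u : ℂ → ℂ} (hu : AnalyticOnNhd ℂ u (closedBall 0 (9 / 10))) (h0 : u 0 ≠ 0) (S : Finset ℂ)
    (hS : ∀ s ∈ S, s ∈ closedBall (0 : ℂ) (3 / 4) ∧ u s = 0) :
    (S.card : ℝ) * Real.log (6 / 5) + Real.log ‖u 0‖ ≤
      Real.circleAverage (fun z => Real.log ‖u z‖) 0 (9 / 10) := by
  have habs : |(9 / 10 : ℝ)| = 9 / 10 := abs_of_pos (by norm_num)
  have hu' : AnalyticOnNhd ℂ u (closedBall 0 |(9 / 10 : ℝ)|) := by rw [habs]; exact hu
  have hfin := (MeromorphicOn.divisor u (closedBall 0 |(9 / 10 : ℝ)|)).finiteSupport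
    (isCompact_closedBall _ _)
  have hJ := hu'.circleAverage_log_norm (by norm_num) h0
  have hmem : ∀ s ∈ S, s ∈ closedBall (0 : ℂ) |(9 / 10 : ℝ)| := by
    intro s hs
    rw [habs]
    exact closedBall_subset_closedBall (by norm_num) (hS s hs).1
  have hsub : S ⊆ hfin.toFinset := by
    intro s hs
    rw [Set.Finite.mem_toFinset, Function.mem_support]
    have h1 := one_le_dvs hu' h0 (hmem s hs) (hS s hs).2
    omega
  have hsum : ∑ᶠ w, (MeromorphicOn.divisor u (closedBall 0 |(9 / 10 : ℝ)|) w : ℝ) *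
      Real.log (9 / 10 * ‖(0 : ℂ) - w‖⁻¹) =
      ∑ w ∈ hfin.toFinset, (MeromorphicOn.divisor u (closedBall 0 |(9 / 10 : ℝ)|) w : ℝ) *
      Real.log (9 / 10 * ‖(0 : ℂ) - w‖⁻¹) := by
    refine finsum_eq_sum_of_support_subset _ ?_
    intro w hw
    rw [Finset.mem_coe, Set.Finite.mem_toFinset, Function.mem_support]
    intro h
    apply hw
    show ((MeromorphicOn.divisor u (closedBall 0 |(9 / 10 : ℝ)|) w : ℤ) : ℝ) *
      Real.log (9 / 10 * ‖(0 : ℂ) - w‖⁻¹) = 0
    rw [h, Int.cast_zero, zero_mul]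
  have hnn : ∀ w ∈ hfin.toFinset, 0 ≤
      (MeromorphicOn.divisor u (closedBall 0 |(9 / 10 : ℝ)|) w : ℝ) *
      Real.log (9 / 10 * ‖(0 : ℂ) - w‖⁻¹) := by
    intro w hw
    rw [Set.Finite.mem_toFinset] at hw
    have hwm : w ∈ closedBall (0 : ℂ) |(9 / 10 : ℝ)| :=
      (MeromorphicOn.divisor u (closedBall 0 |(9 / 10 : ℝ)|)).supportWithinDomain hw
    refine mul_nonneg (by exact_mod_cast MeromorphicOn.AnalyticOnNhd.divisor_nonneg hu' w) ?_
    rw [habs, mem_closedBall, dist_zero_right] at hwm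
    rw [zero_sub, norm_neg]
    rcases eq_or_ne w 0 with rfl | hw0
    · simp
    · refine Real.log_nonneg ?_
      have hpos : 0 < ‖w‖ := norm_pos_iff.mpr hw0
      rw [← div_eq_mul_inv, one_le_div hpos]
      exact hwm
  have hle : (S.card : ℝ) * Real.log (6 / 5) ≤ ∑ w ∈ hfin.toFinset,
      (MeromorphicOn.divisor u (closedBall 0 |(9 / 10 : ℝ)|) w : ℝ) *
      Real.log (9 / 10 * ‖(0 : ℂ) - w‖⁻¹) := by
    calc (S.card : ℝ) * Real.log (6 / 5) = ∑ s ∈ S, Real.log (6 / 5) := by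
          rw [Finset.sum_const, nsmul_eq_mul]
      _ ≤ ∑ w ∈ S, (MeromorphicOn.divisor u (closedBall 0 |(9 / 10 : ℝ)|) w : ℝ) *
          Real.log (9 / 10 * ‖(0 : ℂ) - w‖⁻¹) := by
          refine Finset.sum_le_sum fun s hs => ?_
          have h1 := one_le_dvs hu' h0 (hmem s hs) (hS s hs).2
          have hs34 : ‖s‖ ≤ 3 / 4 := by
            have := (hS s hs).1
            rwa [mem_closedBall, dist_zero_right] at this
          have hs0 : s ≠ 0 := by
            rintro rfl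
            exact h0 (hS 0 hs).2
          have hpos : 0 < ‖s‖ := norm_pos_iff.mpr hs0
          have hlog : Real.log (6 / 5) ≤ Real.log (9 / 10 * ‖(0 : ℂ) - s‖⁻¹) := by
            refine Real.log_le_log (by norm_num) ?_
            rw [zero_sub, norm_neg, ← div_eq_mul_inv, le_div_iff₀ hpos]
            linarith
          have hlog0 : 0 ≤ Real.log (6 / 5) := Real.log_nonneg (by norm_num)
          have h1' : (1 : ℝ) ≤ (MeromorphicOn.divisor u (closedBall 0 |(9 / 10 : ℝ)|) s : ℝ) := by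
            exact_mod_cast h1
          nlinarith
      _ ≤ _ := Finset.sum_le_sum_of_subset_of_nonneg hsub fun w hw _ => hnn w hw
  rw [hsum] at hJ
  rw [hJ]
  linarith

end Pool.Agent.Lib.MP_62070a_ag.FH
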