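import Mathlib

/-!
# FH / Defs : holomorphic maps to projective space, Fubini-Study energy, algebraic hyperbolicity

* `V n` is the hermitian space `C^(n+1)`, `PS n` is the complex projective space of dimension `n`.
* a map `phi : C -> PS n` is holomorphic at `z` if near `z` it is the class of a nowhere zero analytic map `f`
  (a lift), see `IsLift`, `HolOn`.
* `den f z` is the Fubini-Study energy density of the class of `f`, `energy phi` is the density of any local lift.
* `IsAlg X`: `X` is a closed algebraic subset of `PS n`; `IsRegular X f`: `f` is a morphism on `X`.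
* `Brody Z`: every holomorphic map from `C` into `Z` is constant.
* `AlgHyp X`: algebraic hyperbolicity: no nonconstant holomorphic maps from compact Riemann surfaces of genus `0`
  and `1`, and area at most `C` times the hyperbolic area for maps from compact Riemann surfaces of genus at least `2`.
-/

set_option autoImplicit false

namespace Pool.Agent.Lib.MP_62070a_ag.FH

open Metric Set Filter Topology MeasureTheory UpperHalfPlane
open scoped ENNReal NNReal MatrixGroups

/-- the hermitian space `C^(n+1)` -/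
abbrev V (n : ℕ) : Type := EuclideanSpace ℂ (Fin (n + 1))

/-- the complex projective space of dimension `n` -/
abbrev PS (n : ℕ) : Type := Projectivization ℂ (V n)

/-- `f` is analytic at `z`, and near `z` it does not vanish and its class is `φ` -/
def IsLift {n : ℕ} (φ : ℂ → PS n) (f : ℂ → V n) (z : ℂ) : Prop :=
  AnalyticAt ℂ f z ∧ ∀ᶠ w in 𝓝 z, ∃ h : f w ≠ 0, φ w = Projectivization.mk ℂ (f w) h

/-- `φ` is holomorphic near every point of `U` -/
def HolOn {n : ℕ} (φ : ℂ → PS n) (U : Set ℂ) : Prop := ∀ z ∈ U, ∃ f, IsLift φ f z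

/-- the Fubini-Study energy density of the class of `f` (`f z ≠ 0`) -/
noncomputable def den {n : ℕ} (f : ℂ → V n) (z : ℂ) : ℝ :=
  (‖f z‖ ^ 2 * ‖deriv f z‖ ^ 2 - ‖inner ℂ (f z) (deriv f z)‖ ^ 2) / ‖f z‖ ^ 4

open Classical in
/-- the Fubini-Study energy density of `φ` at `z` (the choice of the lift does not matter: `IsLift.energy_eq`) -/
noncomputable def energy {n : ℕ} (φ : ℂ → PS n) (z : ℂ) : ℝ :=
  if h : ∃ f, IsLift φ f z then den h.choose z else 0

/-- the value of the polynomial `P` at the vector `v` -/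
noncomputable def evalV {n : ℕ} (P : MvPolynomial (Fin (n + 1)) ℂ) (v : V n) : ℂ :=
  MvPolynomial.eval (fun i => v i) P

/-- the vector of the values of the polynomials `P 0, ..., P m` at `v` -/
noncomputable def pmap {n m : ℕ} (P : Fin (m + 1) → MvPolynomial (Fin (n + 1)) ℂ) (v : V n) : V m :=
  WithLp.toLp 2 fun j => evalV (P j) v

/-- `X` is a closed algebraic subset of the projective space: the common zeros of a set of homogeneous polynomials -/
def IsAlg {n : ℕ} (X : Set (PS n)) : Prop :=
  ∃ S : Set (MvPolynomial (Fin (n + 1)) ℂ), (∀ P ∈ S, ∃ d : ℕ, P.IsHomogeneous d) ∧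
    X = {x | ∀ P ∈ S, evalV P x.rep = 0}

/-- `P` (polynomials of the same degree `d`) represents `f` on `X` -/
def Represents {n m : ℕ} (X : Set (PS n)) (f : PS n → PS m) (d : ℕ)
    (P : Fin (m + 1) → MvPolynomial (Fin (n + 1)) ℂ) : Prop :=
  (∀ j, (P j).IsHomogeneous d) ∧
    ∀ y ∈ X, ∀ h : pmap P y.rep ≠ 0, f y = Projectivization.mk ℂ (pmap P y.rep) h

/-- `f` is a morphism on `X` (its values outside of `X` do not matter): near every point of `X` it is given by
homogeneous polynomials of the same degree without common zero at the point -/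
def IsRegular {n m : ℕ} (X : Set (PS n)) (f : PS n → PS m) : Prop :=
  ∀ x ∈ X, ∃ (d : ℕ) (P : Fin (m + 1) → MvPolynomial (Fin (n + 1)) ℂ),
    Represents X f d P ∧ pmap P x.rep ≠ 0

/-- every holomorphic map from the complex plane into `Z` is constant -/
def Brody {n : ℕ} (Z : Set (PS n)) : Prop :=
  ∀ φ : ℂ → PS n, HolOn φ univ → (∀ z, φ z ∈ Z) → ∀ z w, φ z = φ w

/-- `Γ` is a discrete subgroup of `SL(2, ℝ)` which acts freely on the upper half-plane with compact quotient. The
quotients of the upper half-plane by these groups are the compact Riemann surfaces of genus at least `2`. -/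
structure IsSurfaceGroup (Γ : Subgroup SL(2, ℝ)) : Prop where
  /-- discrete -/
  discrete : DiscreteTopology Γ
  /-- free action -/
  free : ∀ γ ∈ Γ, ∀ z : ℍ, γ • z = z → γ = 1
  /-- compact quotient -/
  cocompact : ∃ K : Set ℍ, IsCompact K ∧ ∀ z : ℍ, ∃ γ ∈ Γ, γ • z ∈ K

/-- the energy density of `φ` with respect to the hyperbolic metric, a function on the upper half-plane -/
noncomputable def hden {n : ℕ} (φ : ℂ → PS n) (w : ℍ) : ℝ≥0∞ :=
  ENNReal.ofReal (w.im ^ 2 * energy φ (w : ℂ))

/-- the Fubini-Study area of `φ` on the subset `F` of the upper half-plane (the volume of the upper half-plane is the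
hyperbolic area) -/
noncomputable def areaOn {n : ℕ} (φ : ℂ → PS n) (F : Set ℍ) : ℝ≥0∞ := ∫⁻ w in F, hden φ w

/-- `φ` is a `Γ`-invariant holomorphic map from the upper half-plane to `X`, that is, a holomorphic map from the
Riemann surface `ℍ / Γ` to `X` -/
structure IsCurveMap {n : ℕ} (X : Set (PS n)) (Γ : Subgroup SL(2, ℝ)) (φ : ℂ → PS n) : Prop where
  /-- holomorphic -/
  hol : HolOn φ {z | 0 < z.im}
  /-- into `X` -/
  mem : ∀ z : ℍ, φ (z : ℂ) ∈ X
  /-- invariant -/
  inv : ∀ γ ∈ Γ, ∀ z : ℍ, φ ((γ • z : ℍ) : ℂ) = φ (z : ℂ)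

/-- no nonconstant holomorphic maps from the Riemann sphere into `X` -/
def NoRational {n : ℕ} (X : Set (PS n)) : Prop :=
  ∀ φ ψ : ℂ → PS n, HolOn φ univ → HolOn ψ univ → (∀ z, φ z ∈ X) → (∀ z, z ≠ 0 → ψ z = φ z⁻¹) →
    ∀ z w, φ z = φ w

/-- no nonconstant holomorphic maps from a complex torus of dimension one into `X` -/
def NoElliptic {n : ℕ} (X : Set (PS n)) : Prop :=
  ∀ (φ : ℂ → PS n) (ω₁ ω₂ : ℂ), LinearIndependent ℝ ![ω₁, ω₂] → HolOn φ univ → (∀ z, φ z ∈ X) →
    (∀ z, φ (z + ω₁) = φ z) → (∀ z, φ (z + ω₂) = φ z) → ∀ z w, φ z = φ w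

/-- algebraic hyperbolicity -/
def AlgHyp {n : ℕ} (X : Set (PS n)) : Prop :=
  NoRational X ∧ NoElliptic X ∧
    ∃ C : ℝ≥0, ∀ (Γ : Subgroup SL(2, ℝ)) (F : Set ℍ) (φ : ℂ → PS n),
      IsSurfaceGroup Γ → IsFundamentalDomain Γ F volume → IsCurveMap X Γ φ → areaOn φ F ≤ C * volume F

end Pool.Agent.Lib.MP_62070a_ag.FH
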