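import Pool.Agent.Lib.MP_62070a_ag.FH.Defs

/-!
# FH / Den : algebra of the density `den`

All statements are linear algebra: write `x = f z`, `y = deriv f z` and `G(x, y) = ‖x‖² ‖y‖² - |⟨x, y⟩|²` (Gram
determinant), so `den f z = G(x, y) / ‖x‖⁴`.
* `G ≥ 0` is Cauchy-Schwarz (`norm_inner_le_norm`).
* `G(c x, c' x + c y) = |c|² |c|² G(x, y)` (`c, c'` complex numbers). Proof: expand with `‖v‖² = re ⟨v, v⟩`, or use `lagrange`:
  `(c x_i) (c' x_j + c y_j) - (c x_j) (c' x_i + c y_i) = c² (x_i y_j - x_j y_i)`. `lagrange` makes everything easy.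
-/

set_option autoImplicit false

namespace Pool.Agent.Lib.MP_62070a_ag.FH

open Metric Set Filter Topology

variable {n : ℕ}

/-- Lagrange identity. Proof: `‖x‖² = ∑ |x_i|²` (`EuclideanSpace.norm_sq_eq`), `⟨x, y⟩ = ∑ conj x_i * y_i`
(`PiLp.inner_apply`, `RCLike.inner_apply`); with `Complex.mul_conj`, `|u|² = u * conj u` everything becomes the
identity of finite sums `(∑ x_i x̄_i) (∑ y_j ȳ_j) - (∑ x̄_i y_i) (∑ x_j ȳ_j) =
(1/2) ∑_i ∑_j (x_i y_j - x_j y_i) (x̄_i ȳ_j - x̄_j ȳ_i)`: expand the right side, use `Finset.sum_comm`,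
`Finset.sum_mul_sum`. -/
theorem lagrange (x y : V n) :
    ‖x‖ ^ 2 * ‖y‖ ^ 2 - ‖inner ℂ x y‖ ^ 2 = (1 / 2) * ∑ i, ∑ j, ‖x i * y j - x j * y i‖ ^ 2 := by
  have hz : ∀ z : ℂ, ((‖z‖ ^ 2 : ℝ) : ℂ) = z * (starRingEnd ℂ) z := by
    intro z
    rw [Complex.mul_conj']
    push_cast
    rfl
  obtain ⟨A, hA⟩ : ∃ A : ℂ, A = ∑ i, x i * (starRingEnd ℂ) (x i) := ⟨_, rfl⟩
  obtain ⟨B, hB⟩ : ∃ B : ℂ, B = ∑ i, y i * (starRingEnd ℂ) (y i) := ⟨_, rfl⟩
  obtain ⟨P, hP⟩ : ∃ P : ℂ, P = ∑ i, y i * (starRingEnd ℂ) (x i) := ⟨_, rfl⟩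
  obtain ⟨Q, hQ⟩ : ∃ Q : ℂ, Q = ∑ i, x i * (starRingEnd ℂ) (y i) := ⟨_, rfl⟩
  have hx : ((‖x‖ ^ 2 : ℝ) : ℂ) = A := by
    rw [EuclideanSpace.norm_sq_eq, hA]
    push_cast
    exact Finset.sum_congr rfl fun i _ => by rw [← hz]; push_cast; rfl
  have hy : ((‖y‖ ^ 2 : ℝ) : ℂ) = B := by
    rw [EuclideanSpace.norm_sq_eq, hB]
    push_cast
    exact Finset.sum_congr rfl fun i _ => by rw [← hz]; push_cast; rfl
  have hin : inner ℂ x y = P := by
    rw [PiLp.inner_apply, hP]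
    exact Finset.sum_congr rfl fun i _ => by rw [RCLike.inner_apply]
  have hPQ : (starRingEnd ℂ) P = Q := by
    rw [hP, hQ, map_sum]
    refine Finset.sum_congr rfl fun i _ => ?_
    rw [map_mul, Complex.conj_conj, mul_comm]
  have hinn : ((‖inner ℂ x y‖ ^ 2 : ℝ) : ℂ) = P * Q := by
    rw [hz, hin, hPQ]
  have hsum : (∑ i, ∑ j, ((‖x i * y j - x j * y i‖ ^ 2 : ℝ) : ℂ)) =
      A * B - Q * P - P * Q + B * A := by
    rw [hA, hB, hP, hQ, Finset.sum_mul_sum, Finset.sum_mul_sum, Finset.sum_mul_sum,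
      Finset.sum_mul_sum, ← Finset.sum_sub_distrib, ← Finset.sum_sub_distrib,
      ← Finset.sum_add_distrib]
    refine Finset.sum_congr rfl fun i _ => ?_
    rw [← Finset.sum_sub_distrib, ← Finset.sum_sub_distrib, ← Finset.sum_add_distrib]
    refine Finset.sum_congr rfl fun j _ => ?_
    rw [hz, map_sub, map_mul, map_mul]
    ring
  have hfin : ((‖x‖ ^ 2 * ‖y‖ ^ 2 - ‖inner ℂ x y‖ ^ 2 : ℝ) : ℂ) =
      (((1 / 2) * ∑ i, ∑ j, ‖x i * y j - x j * y i‖ ^ 2 : ℝ) : ℂ) := by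
    have e1 : (((∑ i, ∑ j, ‖x i * y j - x j * y i‖ ^ 2 : ℝ)) : ℂ) =
        ∑ i, ∑ j, ((‖x i * y j - x j * y i‖ ^ 2 : ℝ) : ℂ) := by
      rw [Complex.ofReal_sum]
      exact Finset.sum_congr rfl fun i _ => Complex.ofReal_sum _ _
    rw [Complex.ofReal_sub, Complex.ofReal_mul, hx, hy, hinn, Complex.ofReal_mul, e1, hsum]
    push_cast
    ring
  exact Complex.ofReal_injective hfin

theorem den_nonneg (f : ℂ → V n) (z : ℂ) : 0 ≤ den f z := by
  unfold den
  rw [lagrange]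
  positivity

theorem den_eq_sum (f : ℂ → V n) (z : ℂ) :
    den f z = (1 / 2) * (∑ i, ∑ j, ‖f z i * deriv f z j - f z j * deriv f z i‖ ^ 2) / ‖f z‖ ^ 4 := by
  unfold den
  rw [lagrange]

theorem den_congr {f g : ℂ → V n} {z : ℂ} (h : f =ᶠ[𝓝 z] g) : den f z = den g z := by
  unfold den
  rw [h.deriv_eq, h.self_of_nhds]

/-- the density does not change if the lift is multiplied by a function -/
theorem den_smul {f : ℂ → V n} {g : ℂ → ℂ} {z : ℂ} (hf : DifferentiableAt ℂ f z) (hg : DifferentiableAt ℂ g z)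
    (h0 : g z ≠ 0) : den (fun w => g w • f w) z = den f z := by
  have hd : deriv (fun w => g w • f w) z = g z • deriv f z + deriv g z • f z :=
    (hg.hasDerivAt.smul hf.hasDerivAt).deriv
  have hn : ‖g z‖ ≠ 0 := norm_ne_zero_iff.2 h0
  rw [den_eq_sum, den_eq_sum, hd]
  have hterm : ∀ i j, ‖(g z • f z) i * (g z • deriv f z + deriv g z • f z) j -
      (g z • f z) j * (g z • deriv f z + deriv g z • f z) i‖ ^ 2 =
      ‖g z‖ ^ 4 * ‖f z i * deriv f z j - f z j * deriv f z i‖ ^ 2 := by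
    intro i j
    have e : (g z • f z) i * (g z • deriv f z + deriv g z • f z) j -
      (g z • f z) j * (g z • deriv f z + deriv g z • f z) i =
      g z ^ 2 * (f z i * deriv f z j - f z j * deriv f z i) := by
      simp only [PiLp.smul_apply, PiLp.add_apply, smul_eq_mul]
      ring
    rw [e, norm_mul, norm_pow]
    ring
  rw [Finset.sum_congr rfl fun i _ => Finset.sum_congr rfl fun j _ => hterm i j]
  rw [Finset.sum_congr rfl fun i _ => (Finset.mul_sum _ _ _).symm, ← Finset.mul_sum, norm_smul,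
    mul_pow]
  by_cases h1 : ‖f z‖ = 0
  · rw [h1]
    simp
  · field_simp

theorem den_comp {f : ℂ → V n} {h : ℂ → ℂ} {z : ℂ} (hf : DifferentiableAt ℂ f (h z)) (hh : DifferentiableAt ℂ h z) :
    den (fun w => f (h w)) z = ‖deriv h z‖ ^ 2 * den f (h z) := by
  have hd : deriv (fun w => f (h w)) z = deriv h z • deriv f (h z) :=
    (HasDerivAt.scomp z hf.hasDerivAt hh.hasDerivAt).deriv
  rw [den_eq_sum, den_eq_sum, hd]
  have hterm : ∀ i j, ‖f (h z) i * (deriv h z • deriv f (h z)) j -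
      f (h z) j * (deriv h z • deriv f (h z)) i‖ ^ 2 =
      ‖deriv h z‖ ^ 2 * ‖f (h z) i * deriv f (h z) j - f (h z) j * deriv f (h z) i‖ ^ 2 := by
    intro i j
    have e : f (h z) i * (deriv h z • deriv f (h z)) j -
      f (h z) j * (deriv h z • deriv f (h z)) i =
      deriv h z * (f (h z) i * deriv f (h z) j - f (h z) j * deriv f (h z) i) := by
      simp only [PiLp.smul_apply, smul_eq_mul]
      ring
    rw [e, norm_mul]
    ring
  rw [Finset.sum_congr rfl fun i _ => Finset.sum_congr rfl fun j _ => hterm i j]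
  rw [Finset.sum_congr rfl fun i _ => (Finset.mul_sum _ _ _).symm, ← Finset.mul_sum]
  ring

/-- linear isometries do not change the density (`LinearIsometryEquiv.inner_map_map`, `norm_map`,
`(U.toContinuousLinearEquiv...).hasFDerivAt`, `HasDerivAt`) -/
theorem den_isometry (U : V n ≃ₗᵢ[ℂ] V n) {f : ℂ → V n} {z : ℂ} (hf : DifferentiableAt ℂ f z) :
    den (fun w => U (f w)) z = den f z := by
  have hd : deriv (fun w => U (f w)) z = U (deriv f z) := by
    have h1 := (U.toContinuousLinearEquiv.toContinuousLinearMap.hasFDerivAt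
      (x := f z)).comp_hasDerivAt z hf.hasDerivAt
    exact h1.deriv
  unfold den
  rw [hd, U.norm_map, U.norm_map, U.inner_map_map]

private theorem den_coord {f : ℂ → V n} {z : ℂ} (hf : DifferentiableAt ℂ f z) {i : Fin (n + 1)}
    {c : ℂ} (hi : ∀ᶠ w in 𝓝 z, f w i = c) : deriv f z i = 0 := by
  have h1 : HasDerivAt (fun w => f w i) (deriv f z i) z :=
    ((EuclideanSpace.proj i : V n →L[ℂ] ℂ).hasFDerivAt
      (x := f z)).comp_hasDerivAt z hf.hasDerivAt
  have h2 : HasDerivAt (fun w => f w i) 0 z :=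
    (hasDerivAt_const z c).congr_of_eventuallyEq hi
  exact h1.unique h2

/-- if the density vanishes and the coordinate `i` of `f` is constant near `z` (and not zero), then `f' z = 0`.
Proof: `f z` and `f' z` are parallel: by `den_eq_sum` all the terms vanish, so `f z i * f' z j = f z j * f' z i = 0` for all
`j` as `(f' z) i` is the derivative of a constant. -/
theorem deriv_eq_zero_of_den_eq_zero {f : ℂ → V n} {z : ℂ} (hf : DifferentiableAt ℂ f z) {i : Fin (n + 1)} {c : ℂ}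
    (hc : c ≠ 0) (hi : ∀ᶠ w in 𝓝 z, f w i = c) (h : den f z = 0) : deriv f z = 0 := by
  have h1 := den_coord hf hi
  have h2 : f z i = c := hi.self_of_nhds
  have h3 : f z ≠ 0 := by
    intro h0
    rw [h0] at h2
    exact hc h2.symm
  have h4 : ‖f z‖ ≠ 0 := norm_ne_zero_iff.2 h3
  rw [den_eq_sum, div_eq_zero_iff] at h
  have h5 : (∑ i, ∑ j, ‖f z i * deriv f z j - f z j * deriv f z i‖ ^ 2) = 0 := by
    rcases h with h | h
    · linarith
    · exact absurd h (pow_ne_zero _ h4)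
  have h6 := (Finset.sum_eq_zero_iff_of_nonneg fun i _ =>
    Finset.sum_nonneg fun j _ => sq_nonneg _).1 h5 i (Finset.mem_univ i)
  ext j
  have h7 := (Finset.sum_eq_zero_iff_of_nonneg fun j _ => sq_nonneg _).1 h6 j (Finset.mem_univ j)
  rw [sq_eq_zero_iff, norm_eq_zero, h1, mul_zero, sub_zero, h2] at h7
  rcases mul_eq_zero.1 h7 with h8 | h8
  · exact absurd h8 hc
  · rw [h8]
    rfl

/-- for a lift with a coordinate `i` which is constantly `1` near `z`:
the derivative is controlled by the density. Proof: by `den_eq_sum`, keeping only the terms `(i, j)` and `(j, i)`: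
`‖f z‖^4 * den f z ≥ ∑_j |f z i * f' z j - f z j * f' z i|² = ∑_j |f' z j|² = ‖f' z‖²` (`f z i = 1`, `f' z i = 0`). -/
theorem norm_deriv_sq_le {f : ℂ → V n} {z : ℂ} (hf : DifferentiableAt ℂ f z) {i : Fin (n + 1)}
    (hi : ∀ᶠ w in 𝓝 z, f w i = 1) : ‖deriv f z‖ ^ 2 ≤ ‖f z‖ ^ 4 * den f z := by
  classical
  have h1 := den_coord hf hi
  have h2 : f z i = 1 := hi.self_of_nhds
  have h3 : f z ≠ 0 := by
    intro h0
    rw [h0] at h2
    exact zero_ne_one h2
  have h4 : ‖f z‖ ≠ 0 := norm_ne_zero_iff.2 h3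
  rw [den_eq_sum, EuclideanSpace.norm_sq_eq]
  obtain ⟨t, ht⟩ : ∃ t : Fin (n + 1) → Fin (n + 1) → ℝ,
      t = fun a b => ‖f z a * deriv f z b - f z b * deriv f z a‖ ^ 2 := ⟨_, rfl⟩
  have ht0 : ∀ a b, 0 ≤ t a b := fun a b => by
    rw [ht]
    exact sq_nonneg _
  have hrow : ∀ j, t i j = ‖deriv f z j‖ ^ 2 := fun j => by
    rw [ht]
    beta_reduce
    rw [h1, h2, one_mul, mul_zero, sub_zero]
  have hcol : ∀ j, t j i = ‖deriv f z j‖ ^ 2 := fun j => by
    rw [ht]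
    beta_reduce
    rw [h1, h2, one_mul, mul_zero, zero_sub, norm_neg]
  have hS : 2 * ∑ j, ‖deriv f z j‖ ^ 2 ≤ ∑ a, ∑ b, t a b := by
    rw [← Finset.add_sum_erase _ (fun a => ∑ b, t a b) (Finset.mem_univ i), two_mul]
    have e1 : ∑ b, t i b = ∑ j, ‖deriv f z j‖ ^ 2 := Finset.sum_congr rfl fun j _ => hrow j
    have e2 : ∑ j, ‖deriv f z j‖ ^ 2 ≤ ∑ a ∈ Finset.univ.erase i, ∑ b, t a b := by
      rw [← Finset.add_sum_erase _ (fun j => ‖deriv f z j‖ ^ 2) (Finset.mem_univ i), h1,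
        norm_zero]
      have e3 : ∑ a ∈ Finset.univ.erase i, ‖deriv f z a‖ ^ 2 ≤
          ∑ a ∈ Finset.univ.erase i, ∑ b, t a b := by
        refine Finset.sum_le_sum fun a _ => ?_
        rw [← hcol a]
        exact Finset.single_le_sum (f := fun b => t a b) (fun b _ => ht0 a b) (Finset.mem_univ i)
      have e4 : (0 : ℝ) ^ 2 = 0 := by norm_num
      rw [e4, zero_add]
      exact e3
    rw [e1]
    linarith
  have hS' : ∑ a, ∑ b, ‖f z a * deriv f z b - f z b * deriv f z a‖ ^ 2 = ∑ a, ∑ b, t a b := by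
    rw [ht]
  rw [hS', mul_div_cancel₀ _ (pow_ne_zero 4 h4)]
  linarith

end Pool.Agent.Lib.MP_62070a_ag.FH
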