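import Pool.Agent.Lib.MP_62070a_ag.FH.Den

/-!
# FH / GJa : derivatives of `log ‖h‖` and of `q = ⟨h, h'⟩ / ‖h‖²`

`h` is a holomorphic map to `V n`, analytic at `ζ`, `h ζ ≠ 0`. `inner ℂ x y = ∑ conj (x i) * y i`.
* `hasFDerivAt_log_norm`: `log ‖h‖ = (1/2) log ‖h‖²`, the real derivative of `‖h‖²` in the direction `t` is `2 Re (⟨h, h'⟩ t)`
  (`HasFDerivAt.norm_sq` for the real inner product, `real_inner_eq_re_inner`; or coordinates).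
* `hasFDerivAt_qq`: the numerator `N = ∑ conj (h_i) h_i'` has the derivative `t ↦ (∑ conj (h_i) h_i'') t + (∑ conj (h_i') h_i') conj t`, and `D = ‖h‖² = ∑ conj (h_i) h_i`
  has the derivative `t ↦ ⟨h, h'⟩ t + conj (⟨h, h'⟩ t)`, so the derivative of `N / D` is `t ↦ a t + b conj t` with
  `b = ‖h'‖² / D - N conj N / D² = (‖h‖² ‖h'‖² - |⟨h, h'⟩|²) / ‖h‖⁴ = den h`, and `a = ⟨h, h''⟩ / D - N² / D²`.
* `continuousAt_qq`, `continuousAt_aa`: clear.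
-/

set_option autoImplicit false

namespace Pool.Agent.Lib.MP_62070a_ag.FH

open Metric Set Filter Topology

variable {n : ℕ}

/-- `⟨h, h'⟩ / ‖h‖²` -/
noncomputable def qq (h : ℂ → V n) (ζ : ℂ) : ℂ := inner ℂ (h ζ) (deriv h ζ) / ((‖h ζ‖ ^ 2 : ℝ) : ℂ)

/-- the derivative of `qq h` with respect to `ζ` -/
noncomputable def aa (h : ℂ → V n) (ζ : ℂ) : ℂ :=
  inner ℂ (h ζ) (deriv (deriv h) ζ) / ((‖h ζ‖ ^ 2 : ℝ) : ℂ) - qq h ζ ^ 2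

private theorem GJa_real {f : ℂ → V n} {f' : V n} {ζ : ℂ} (hf : HasDerivAt f f' ζ) :
    ∃ L : ℂ →L[ℝ] V n, (∀ t, L t = t • f') ∧ HasFDerivAt f L ζ := by
  refine ⟨_, fun t => ?_, hf.hasFDerivAt.restrictScalars ℝ⟩
  simp

/-- the real derivative of `‖h‖²` -/
private theorem GJa_normsq {h : ℂ → V n} {ζ : ℂ} (hh : AnalyticAt ℂ h ζ) :
    ∃ L : ℂ →L[ℝ] ℂ, (∀ t, L t = t * inner ℂ (h ζ) (deriv h ζ) +
      (starRingEnd ℂ) t * (starRingEnd ℂ) (inner ℂ (h ζ) (deriv h ζ))) ∧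
      HasFDerivAt (fun z => (((‖h z‖ ^ 2 : ℝ)) : ℂ)) L ζ := by
  obtain ⟨H, hHt, hH⟩ := GJa_real hh.differentiableAt.hasDerivAt
  have h1 := hH.inner ℂ hH
  have h2 : (fun z => (((‖h z‖ ^ 2 : ℝ)) : ℂ)) = fun z => inner ℂ (h z) (h z) := by
    funext z
    rw [inner_self_eq_norm_sq_to_K]
    push_cast
    rfl
  rw [h2]
  refine ⟨_, fun t => ?_, h1⟩
  show inner ℂ (h ζ) (H t) + inner ℂ (H t) (h ζ) = _
  rw [hHt, inner_smul_right, inner_smul_left, ← inner_conj_symm (deriv h ζ) (h ζ)]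

/-- the real derivative of `⟨h, h'⟩` -/
private theorem GJa_num {h : ℂ → V n} {ζ : ℂ} (hh : AnalyticAt ℂ h ζ) :
    ∃ L : ℂ →L[ℝ] ℂ, (∀ t, L t = t * inner ℂ (h ζ) (deriv (deriv h) ζ) +
      (starRingEnd ℂ) t * (((‖deriv h ζ‖ ^ 2 : ℝ)) : ℂ)) ∧
      HasFDerivAt (fun z => inner ℂ (h z) (deriv h z)) L ζ := by
  obtain ⟨H, hHt, hH⟩ := GJa_real hh.differentiableAt.hasDerivAt
  obtain ⟨H', hHt', hH'⟩ := GJa_real hh.deriv.differentiableAt.hasDerivAt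
  have h1 := hH.inner ℂ hH'
  refine ⟨_, fun t => ?_, h1⟩
  show inner ℂ (h ζ) (H' t) + inner ℂ (H t) (deriv h ζ) = _
  rw [hHt, hHt', inner_smul_right, inner_smul_left, inner_self_eq_norm_sq_to_K]
  push_cast
  rfl

theorem hasFDerivAt_log_norm {h : ℂ → V n} {ζ : ℂ} (hh : AnalyticAt ℂ h ζ) (h0 : h ζ ≠ 0) :
    ∃ L : ℂ →L[ℝ] ℝ, (∀ t, L t = (qq h ζ * t).re) ∧ HasFDerivAt (fun z => Real.log ‖h z‖) L ζ := by
  obtain ⟨D', hD't, hD'⟩ := GJa_normsq hh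
  have hpos : 0 < ‖h ζ‖ ^ 2 := pow_pos (norm_pos_iff.2 h0) 2
  have h1 : HasFDerivAt (fun z => ‖h z‖ ^ 2) (Complex.reCLM.comp D') ζ := by
    have h2 := Complex.reCLM.hasFDerivAt.comp ζ hD'
    have h3 : (fun z => ‖h z‖ ^ 2) = (Complex.reCLM ∘ fun z => (((‖h z‖ ^ 2 : ℝ)) : ℂ)) := by
      funext z
      show ‖h z‖ ^ 2 = (((‖h z‖ ^ 2 : ℝ)) : ℂ).re
      rw [Complex.ofReal_re]
    rw [h3]
    exact h2
  have h4 := (h1.log hpos.ne').const_mul (1 / 2)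
  refine ⟨_, fun t => ?_, h4.congr_of_eventuallyEq (Filter.Eventually.of_forall fun z => ?_)⟩
  · show (1 / 2) * ((‖h ζ‖ ^ 2)⁻¹ * (D' t).re) = (qq h ζ * t).re
    rw [hD't]
    have e : qq h ζ * t = (((‖h ζ‖ ^ 2)⁻¹ : ℝ) : ℂ) * (inner ℂ (h ζ) (deriv h ζ) * t) := by
      unfold qq
      rw [div_eq_mul_inv, Complex.ofReal_inv]
      ring
    rw [e, Complex.re_ofReal_mul, Complex.add_re, ← map_mul, Complex.conj_re, mul_comm t]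
    ring
  · show Real.log ‖h z‖ = 1 / 2 * Real.log (‖h z‖ ^ 2)
    rw [Real.log_pow]
    push_cast
    ring

theorem hasFDerivAt_qq {h : ℂ → V n} {ζ : ℂ} (hh : AnalyticAt ℂ h ζ) (h0 : h ζ ≠ 0) :
    ∃ L : ℂ →L[ℝ] ℂ, (∀ t, L t = aa h ζ * t + (den h ζ : ℂ) * (starRingEnd ℂ) t) ∧ HasFDerivAt (qq h) L ζ := by
  obtain ⟨D', hD't, hD'⟩ := GJa_normsq hh
  obtain ⟨N', hN't, hN'⟩ := GJa_num hh
  have hr : (‖h ζ‖ : ℂ) ≠ 0 := by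
    rw [Ne, Complex.ofReal_eq_zero]
    exact (norm_pos_iff.2 h0).ne'
  have hD0 : (((‖h ζ‖ ^ 2 : ℝ)) : ℂ) ≠ 0 := by
    push_cast
    exact pow_ne_zero 2 hr
  have h1 := (hasFDerivAt_inv' (𝕜 := ℝ) (R := ℂ) hD0).comp ζ hD'
  have h2 := hN'.mul h1
  refine ⟨_, fun t => ?_, h2.congr_of_eventuallyEq (Filter.Eventually.of_forall fun z => ?_)⟩
  · show inner ℂ (h ζ) (deriv h ζ) * (-((((‖h ζ‖ ^ 2 : ℝ)) : ℂ)⁻¹ * D' t * (((‖h ζ‖ ^ 2 : ℝ)) : ℂ)⁻¹)) +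
      (((‖h ζ‖ ^ 2 : ℝ)) : ℂ)⁻¹ * N' t = _
    rw [hD't, hN't]
    have e : ((den h ζ : ℝ) : ℂ) = ((‖h ζ‖ : ℂ) ^ 2 * (‖deriv h ζ‖ : ℂ) ^ 2 -
        inner ℂ (h ζ) (deriv h ζ) * (starRingEnd ℂ) (inner ℂ (h ζ) (deriv h ζ))) / (‖h ζ‖ : ℂ) ^ 4 := by
      unfold den
      rw [Complex.mul_conj']
      push_cast
      rfl
    rw [e]
    unfold aa qq
    push_cast
    generalize inner ℂ (h ζ) (deriv h ζ) = a
    generalize inner ℂ (h ζ) (deriv (deriv h) ζ) = b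
    generalize (starRingEnd ℂ) a = a'
    generalize (starRingEnd ℂ) t = t'
    field_simp
    ring
  · show inner ℂ (h z) (deriv h z) / (((‖h z‖ ^ 2 : ℝ)) : ℂ) =
      inner ℂ (h z) (deriv h z) * (((‖h z‖ ^ 2 : ℝ)) : ℂ)⁻¹
    rw [div_eq_mul_inv]

theorem continuousAt_qq {h : ℂ → V n} {ζ : ℂ} (hh : AnalyticAt ℂ h ζ) (h0 : h ζ ≠ 0) : ContinuousAt (qq h) ζ := by
  obtain ⟨L, -, hL⟩ := hasFDerivAt_qq hh h0
  exact hL.continuousAt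

theorem continuousAt_aa {h : ℂ → V n} {ζ : ℂ} (hh : AnalyticAt ℂ h ζ) (h0 : h ζ ≠ 0) : ContinuousAt (aa h) ζ := by
  have hc : ContinuousAt h ζ := hh.continuousAt
  have hc2 : ContinuousAt (deriv (deriv h)) ζ := hh.deriv.deriv.continuousAt
  have hD0 : (((‖h ζ‖ ^ 2 : ℝ)) : ℂ) ≠ 0 := by
    rw [Ne, Complex.ofReal_eq_zero]
    exact (pow_pos (norm_pos_iff.2 h0) 2).ne'
  have h1 : ContinuousAt (fun z => inner ℂ (h z) (deriv (deriv h) z)) ζ := hc.inner hc2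
  have h2 : ContinuousAt (fun z => (((‖h z‖ ^ 2 : ℝ)) : ℂ)) ζ :=
    Complex.continuous_ofReal.continuousAt.comp (hc.norm.pow 2)
  exact (h1.div h2 hD0).sub ((continuousAt_qq hh h0).pow 2)

theorem continuousAt_den {h : ℂ → V n} {ζ : ℂ} (hh : AnalyticAt ℂ h ζ) (h0 : h ζ ≠ 0) : ContinuousAt (den h) ζ := by
  have hc : ContinuousAt h ζ := hh.continuousAt
  have hc1 : ContinuousAt (deriv h) ζ := hh.deriv.continuousAt
  have h1 : ContinuousAt (fun z => inner ℂ (h z) (deriv h z)) ζ := hc.inner hc1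
  exact (((hc.norm.pow 2).mul (hc1.norm.pow 2)).sub (h1.norm.pow 2)).div (hc.norm.pow 4)
    (pow_pos (norm_pos_iff.2 h0) 4).ne'

end Pool.Agent.Lib.MP_62070a_ag.FH
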