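import Pool.Agent.Lib.MP_62070a_ag.FH.GJa

/-!
# FH / GJb : Green's formula on a rectangle

`h` is holomorphic and has no zeros on the half plane `Re ζ < b₁`, with period `2 π i`, `a < b < b₁`. Write `ζ = s + i θ`, `u = log ‖h‖`, `q = qq h`, and
consider on the rectangle `[a, b] × [0, 2 π]` the two real functions
`P₁ (s, θ) = (b - s) Re q + u`, `P₂ (s, θ) = - (b - s) Im q`.
By GJa: `∂_s u = Re q`, `∂_s Re q = Re (aa + den)`, `∂_θ Im q = Im (i aa - i den) = Re aa - den`, so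
`∂_s P₁ + ∂_θ P₂ = - Re q + (b - s) (Re aa + den) + Re q - (b - s) (Re aa - den) = 2 (b - s) den`.
By the divergence theorem (`MeasureTheory.integral2_divergence_prod_of_hasFDerivAt_off_countable` in
Mathlib/MeasureTheory/Integral/DivergenceTheorem.lean; all functions are continuous on the closed rectangle, so integrable)
`∫_a^b ∫_0^{2π} 2 (b - s) den = ∫_0^{2π} (P₁ (b, θ) - P₁ (a, θ)) dθ + ∫_a^b (P₂ (s, 2π) - P₂ (s, 0)) ds`, the last integral is `0` by periodicity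
(`qq h` has period `2 π i`, because `h` and `deriv h` have), and `P₁ (b, θ) = u (b, θ)`, `P₁ (a, θ) = (b - a) Re q (a, θ) + u (a, θ)`.
-/

set_option autoImplicit false

namespace Pool.Agent.Lib.MP_62070a_ag.FH

open Metric Set Filter Topology

variable {n : ℕ}

/-- the real linear map `(s, θ) ↦ s + i θ` -/
private noncomputable def gjbJ : ℝ × ℝ →L[ℝ] ℂ :=
  Complex.ofRealCLM.comp (ContinuousLinearMap.fst ℝ ℝ ℝ) +
    (Complex.I • Complex.ofRealCLM.comp (ContinuousLinearMap.snd ℝ ℝ ℝ))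

private theorem gjbJ_apply (x : ℝ × ℝ) : gjbJ x = x.1 + x.2 * Complex.I := by
  simp [gjbJ, mul_comm]

private theorem gjbJ_re (x : ℝ × ℝ) : (gjbJ x).re = x.1 := by
  simp [gjbJ_apply]

private theorem gjb_f {h : ℂ → V n} {b : ℝ} {x : ℝ × ℝ} (hh : AnalyticAt ℂ h (gjbJ x)) (h0 : h (gjbJ x) ≠ 0) :
    ∃ L : ℝ × ℝ →L[ℝ] ℝ, L (1, 0) = (b - x.1) * ((aa h (gjbJ x)).re + den h (gjbJ x)) ∧
      HasFDerivAt (fun y : ℝ × ℝ => (b - y.1) * (qq h (gjbJ y)).re + Real.log ‖h (gjbJ y)‖) L x := by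
  obtain ⟨L1, hL1, hd1⟩ := hasFDerivAt_log_norm hh h0
  obtain ⟨L2, hL2, hd2⟩ := hasFDerivAt_qq hh h0
  have hJ : HasFDerivAt (fun y : ℝ × ℝ => gjbJ y) gjbJ x := gjbJ.hasFDerivAt
  have e1 : HasFDerivAt (fun y : ℝ × ℝ => Real.log ‖h (gjbJ y)‖) (L1.comp gjbJ) x :=
    HasFDerivAt.comp x hd1 hJ
  have e2 : HasFDerivAt (fun y : ℝ × ℝ => qq h (gjbJ y)) (L2.comp gjbJ) x :=
    HasFDerivAt.comp x hd2 hJ
  have e3 : HasFDerivAt (fun y : ℝ × ℝ => (qq h (gjbJ y)).re) (Complex.reCLM.comp (L2.comp gjbJ)) x :=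
    HasFDerivAt.comp x (Complex.reCLM.hasFDerivAt) e2
  have e4 : HasFDerivAt (fun y : ℝ × ℝ => b - y.1) (-(ContinuousLinearMap.fst ℝ ℝ ℝ)) x :=
    (hasFDerivAt_fst (𝕜 := ℝ) (p := x)).const_sub b
  refine ⟨_, ?_, (e4.mul e3).add e1⟩
  have hj : gjbJ ((1 : ℝ), (0 : ℝ)) = 1 := by simp [gjbJ_apply]
  simp [hj, hL1, hL2]

private theorem gjb_g {h : ℂ → V n} {b : ℝ} {x : ℝ × ℝ} (hh : AnalyticAt ℂ h (gjbJ x)) (h0 : h (gjbJ x) ≠ 0) :
    ∃ L : ℝ × ℝ →L[ℝ] ℝ, L (0, 1) = - ((b - x.1) * ((aa h (gjbJ x)).re - den h (gjbJ x))) ∧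
      HasFDerivAt (fun y : ℝ × ℝ => - ((b - y.1) * (qq h (gjbJ y)).im)) L x := by
  obtain ⟨L2, hL2, hd2⟩ := hasFDerivAt_qq hh h0
  have hJ : HasFDerivAt (fun y : ℝ × ℝ => gjbJ y) gjbJ x := gjbJ.hasFDerivAt
  have e2 : HasFDerivAt (fun y : ℝ × ℝ => qq h (gjbJ y)) (L2.comp gjbJ) x :=
    HasFDerivAt.comp x hd2 hJ
  have e3 : HasFDerivAt (fun y : ℝ × ℝ => (qq h (gjbJ y)).im) (Complex.imCLM.comp (L2.comp gjbJ)) x :=
    HasFDerivAt.comp x (Complex.imCLM.hasFDerivAt) e2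
  have e4 : HasFDerivAt (fun y : ℝ × ℝ => b - y.1) (-(ContinuousLinearMap.fst ℝ ℝ ℝ)) x :=
    (hasFDerivAt_fst (𝕜 := ℝ) (p := x)).const_sub b
  refine ⟨_, ?_, (e4.mul e3).neg⟩
  have hj : gjbJ ((0 : ℝ), (1 : ℝ)) = Complex.I := by simp [gjbJ_apply]
  simp [hj, hL2]
  left
  ring

private theorem gjb_cont {E : Type*} [TopologicalSpace E] {F : ℂ → E} {b b₁ c d : ℝ} {a : ℝ} (hb : b < b₁)
    (hF : ∀ ζ : ℂ, ζ.re < b₁ → ContinuousAt F ζ) :
    ContinuousOn (fun x : ℝ × ℝ => F (gjbJ x)) (Icc a b ×ˢ Icc c d) := by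
  intro x hx
  have h1 : ContinuousAt (fun y : ℝ × ℝ => gjbJ y) x := gjbJ.continuous.continuousAt
  have h2 : ContinuousAt F (gjbJ x) := hF _ (by rw [gjbJ_re]; exact lt_of_le_of_lt hx.1.2 hb)
  exact (ContinuousAt.comp (f := fun y : ℝ × ℝ => gjbJ y) h2 h1).continuousWithinAt

private theorem gjb_qq_per {h : ℂ → V n} (hper : ∀ ζ : ℂ, h (ζ + 2 * Real.pi * Complex.I) = h ζ) (ζ : ℂ) :
    qq h (ζ + 2 * Real.pi * Complex.I) = qq h ζ := by
  have h1 : deriv h (ζ + 2 * Real.pi * Complex.I) = deriv h ζ := by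
    have h2 : deriv (fun z => h (z + 2 * Real.pi * Complex.I)) ζ = deriv h (ζ + 2 * Real.pi * Complex.I) :=
      deriv_comp_add_const h (2 * Real.pi * Complex.I) ζ
    rw [← h2]
    have h3 : (fun z => h (z + 2 * Real.pi * Complex.I)) = h := funext hper
    rw [h3]
  simp only [qq, h1, hper]

theorem green_rect {h : ℂ → V n} {a b b₁ : ℝ} (hab : a < b) (hb : b < b₁)
    (hh : ∀ ζ : ℂ, ζ.re < b₁ → AnalyticAt ℂ h ζ) (h0 : ∀ ζ : ℂ, ζ.re < b₁ → h ζ ≠ 0)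
    (hper : ∀ ζ : ℂ, h (ζ + 2 * Real.pi * Complex.I) = h ζ) :
    ∫ s in a..b, ∫ θ in (0 : ℝ)..2 * Real.pi, 2 * (b - s) * den h (s + θ * Complex.I) =
      (∫ θ in (0 : ℝ)..2 * Real.pi, Real.log ‖h (b + θ * Complex.I)‖) -
      (∫ θ in (0 : ℝ)..2 * Real.pi, Real.log ‖h (a + θ * Complex.I)‖) -
      (b - a) * ∫ θ in (0 : ℝ)..2 * Real.pi, (qq h (a + θ * Complex.I)).re := by
  have hpi : (0 : ℝ) ≤ 2 * Real.pi := by positivity
  set f : ℝ × ℝ → ℝ := fun y => (b - y.1) * (qq h (gjbJ y)).re + Real.log ‖h (gjbJ y)‖ with hf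
  set g : ℝ × ℝ → ℝ := fun y => - ((b - y.1) * (qq h (gjbJ y)).im) with hg
  have hre : ∀ x : ℝ × ℝ, x.1 < b₁ → (gjbJ x).re < b₁ := fun x hx => by rw [gjbJ_re]; exact hx
  have Hf : ∀ x : ℝ × ℝ, x.1 < b₁ → HasFDerivAt f (fderiv ℝ f x) x ∧
      fderiv ℝ f x (1, 0) = (b - x.1) * ((aa h (gjbJ x)).re + den h (gjbJ x)) := by
    intro x hx
    obtain ⟨L, hL, hd⟩ := gjb_f (b := b) (hh _ (hre x hx)) (h0 _ (hre x hx))
    have hd' : HasFDerivAt f L x := hd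
    rw [hd'.fderiv]
    exact ⟨hd', hL⟩
  have Hg : ∀ x : ℝ × ℝ, x.1 < b₁ → HasFDerivAt g (fderiv ℝ g x) x ∧
      fderiv ℝ g x (0, 1) = - ((b - x.1) * ((aa h (gjbJ x)).re - den h (gjbJ x))) := by
    intro x hx
    obtain ⟨L, hL, hd⟩ := gjb_g (b := b) (hh _ (hre x hx)) (h0 _ (hre x hx))
    have hd' : HasFDerivAt g L x := hd
    rw [hd'.fderiv]
    exact ⟨hd', hL⟩
  have hsum : ∀ x : ℝ × ℝ, x.1 < b₁ →
      fderiv ℝ f x (1, 0) + fderiv ℝ g x (0, 1) = 2 * (b - x.1) * den h (gjbJ x) := by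
    intro x hx
    rw [(Hf x hx).2, (Hg x hx).2]
    ring
  have huI1 : uIcc a b = Icc a b := uIcc_of_le hab.le
  have huI2 : uIcc (0 : ℝ) (2 * Real.pi) = Icc 0 (2 * Real.pi) := uIcc_of_le hpi
  have hlt : ∀ x : ℝ × ℝ, x ∈ Icc a b ×ˢ Icc (0 : ℝ) (2 * Real.pi) → x.1 < b₁ :=
    fun x hx => lt_of_le_of_lt hx.1.2 hb
  have hlt2 : ∀ x : ℝ × ℝ, x ∈ (Ioo (min a b) (max a b) ×ˢ
      Ioo (min (0 : ℝ) (2 * Real.pi)) (max (0 : ℝ) (2 * Real.pi))) \ (∅ : Set (ℝ × ℝ)) → x.1 < b₁ := by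
    intro x hx
    have h1 := hx.1.1.2
    rw [max_eq_right hab.le] at h1
    exact h1.trans hb
  have hdiv := MeasureTheory.integral2_divergence_prod_of_hasFDerivAt_off_countable f g
    (fderiv ℝ f) (fderiv ℝ g) a 0 b (2 * Real.pi) ∅ Set.countable_empty
    (by
      rw [huI1, huI2]
      intro x hx
      exact (Hf x (hlt x hx)).1.continuousAt.continuousWithinAt)
    (by
      rw [huI1, huI2]
      intro x hx
      exact (Hg x (hlt x hx)).1.continuousAt.continuousWithinAt)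
    (fun x hx => (Hf x (hlt2 x hx)).1)
    (fun x hx => (Hg x (hlt2 x hx)).1)
    (by
      rw [huI1, huI2]
      have hc : ContinuousOn (fun x : ℝ × ℝ => 2 * (b - x.1) * den h (gjbJ x))
          (Icc a b ×ˢ Icc (0 : ℝ) (2 * Real.pi)) := by
        refine ContinuousOn.mul ?_ ?_
        · exact (continuous_const.mul (continuous_const.sub continuous_fst)).continuousOn
        · exact gjb_cont (F := den h) hb (fun ζ hζ => continuousAt_den (hh ζ hζ) (h0 ζ hζ))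
      have hi : MeasureTheory.IntegrableOn (fun x : ℝ × ℝ => 2 * (b - x.1) * den h (gjbJ x))
          (Icc a b ×ˢ Icc (0 : ℝ) (2 * Real.pi)) :=
        hc.integrableOn_compact (isCompact_Icc.prod isCompact_Icc)
      refine hi.congr_fun ?_ (measurableSet_Icc.prod measurableSet_Icc)
      intro x hx
      exact (hsum x (hlt x hx)).symm)
  -- left side
  have hL : ∫ s in a..b, ∫ θ in (0 : ℝ)..2 * Real.pi, 2 * (b - s) * den h (s + θ * Complex.I) =
      ∫ x in a..b, ∫ y in (0 : ℝ)..2 * Real.pi, fderiv ℝ f (x, y) (1, 0) + fderiv ℝ g (x, y) (0, 1) := by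
    refine intervalIntegral.integral_congr ?_
    intro s hs
    rw [huI1] at hs
    refine intervalIntegral.integral_congr ?_
    intro θ _
    have h1 := hsum (s, θ) (lt_of_le_of_lt hs.2 hb)
    rw [gjbJ_apply] at h1
    exact h1.symm
  rw [hL, hdiv]
  have hg2 : ∀ x : ℝ, g (x, 2 * Real.pi) = g (x, 0) := by
    intro x
    have h1 : gjbJ (x, 2 * Real.pi) = gjbJ (x, 0) + 2 * Real.pi * Complex.I := by
      simp [gjbJ_apply]
    simp only [hg, h1, gjb_qq_per hper]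
  have hgI : (∫ x in a..b, g (x, 2 * Real.pi)) = ∫ x in a..b, g (x, 0) := by
    simp only [hg2]
  rw [hgI, sub_self, zero_add]
  have hfb : (∫ y in (0 : ℝ)..2 * Real.pi, f (b, y)) =
      ∫ θ in (0 : ℝ)..2 * Real.pi, Real.log ‖h (b + θ * Complex.I)‖ := by
    refine intervalIntegral.integral_congr ?_
    intro θ _
    simp [hf, gjbJ_apply]
  have hca : ∀ {F : ℂ → ℝ}, (∀ ζ : ℂ, ζ.re < b₁ → ContinuousAt F ζ) →
      IntervalIntegrable (fun θ : ℝ => F (a + θ * Complex.I)) MeasureTheory.volume 0 (2 * Real.pi) := by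
    intro F hF
    apply Continuous.intervalIntegrable
    rw [continuous_iff_continuousAt]
    intro θ
    have h1 : ContinuousAt (fun θ : ℝ => (a : ℂ) + θ * Complex.I) θ := by fun_prop
    have h2 : ContinuousAt F ((a : ℂ) + θ * Complex.I) := hF _ (by simpa using hab.trans hb)
    exact ContinuousAt.comp (f := fun θ : ℝ => (a : ℂ) + θ * Complex.I) h2 h1
  have hfa : (∫ y in (0 : ℝ)..2 * Real.pi, f (a, y)) =
      (b - a) * (∫ θ in (0 : ℝ)..2 * Real.pi, (qq h (a + θ * Complex.I)).re) +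
        ∫ θ in (0 : ℝ)..2 * Real.pi, Real.log ‖h (a + θ * Complex.I)‖ := by
    rw [← intervalIntegral.integral_const_mul, ← intervalIntegral.integral_add]
    · refine intervalIntegral.integral_congr ?_
      intro θ _
      simp [hf, gjbJ_apply]
    · refine IntervalIntegrable.const_mul ?_ _
      exact hca (F := fun ζ => (qq h ζ).re)
        (fun ζ hζ => Complex.continuous_re.continuousAt.comp (continuousAt_qq (hh ζ hζ) (h0 ζ hζ)))
    · exact hca (F := fun ζ => Real.log ‖h ζ‖)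
        (fun ζ hζ => by
          obtain ⟨L, _, hd⟩ := hasFDerivAt_log_norm (hh ζ hζ) (h0 ζ hζ)
          exact hd.continuousAt)
  rw [hfb, hfa]
  ring

end Pool.Agent.Lib.MP_62070a_ag.FH
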