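import Pool.Agent.Lib.MP_62070a_ag.FH.GJa

/-!
# FH / GJc : polar coordinates

`g : ℂ → ℝ` continuous and nonnegative on `ball 0 R₁ ⊇ closedBall 0 R`, `0 < R < R₁`, `b = log R`, `a < b`. The substitution `w = exp (s + i θ)`:
`∫_a^b ∫_0^{2π} (b - s) e^{2 s} g (e^{s + i θ}) dθ ds = ∫_{e^a < |w| < R} log (R / |w|) g w dw ≤ ∫_{ball 0 R} log (R / |w|) g w dw`.
Proof: `Complex.lintegral_comp_polarCoord_symm` (Mathlib/Analysis/SpecialFunctions/PolarCoord.lean): `∫⁻ w, G w = ∫⁻ (r, θ) ∈ (0, ∞) × (-π, π), ofReal r * G (r e^{iθ})`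
(`Complex.polarCoord_target`, `Complex.polarCoord_symm_apply`), applied to `G` = the indicator function of `{e^a < |w| < R}` times `ofReal (log (R / |w|) * g w)`. Tonelli (`lintegral_prod`,
`Measure.volume_eq_prod`, `restrict_prod`-lemmas); the inner integral over `(-π, π)` equals the one over `(0, 2 π)` by periodicity
(`Function.Periodic.intervalIntegral_add_eq`), and it is an `intervalIntegral` of a nonnegative continuous function (`ofReal_integral_eq_lintegral_ofReal`,
`intervalIntegral.integral_of_le`); finally `r = e^s` (`MeasureTheory.lintegral_image_eq_lintegral_abs_deriv_mul`, or the change of variables for interval integrals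
`intervalIntegral.integral_comp_mul_deriv`): `∫_{e^a}^{R} r log (R / r) m (r) dr = ∫_a^b e^{2 s} (b - s) m (e^s) ds`, `m (r) = ∫_0^{2π} g (r e^{iθ}) dθ` (continuous in `r`).
-/

set_option autoImplicit false

namespace Pool.Agent.Lib.MP_62070a_ag.FH

open Metric Set Filter Topology MeasureTheory
open scoped ENNReal

private theorem gjc_det (z : ℂ) : ((z • (1 : ℂ →L[ℝ] ℂ)) : ℂ →L[ℝ] ℂ).det = Complex.normSq z := by
  rw [← Algebra.norm_complex_apply, Algebra.norm_apply]
  show LinearMap.det _ = LinearMap.det _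
  congr 1

/-- the change of variables `w = exp z` -/
private theorem gjc_cov {a R : ℝ} (hR : 0 < R) (G : ℂ → ℝ≥0∞) :
    ∫⁻ z in Complex.measurableEquivRealProd ⁻¹' (Ioo a (Real.log R) ×ˢ Ioc (-Real.pi) Real.pi),
      ENNReal.ofReal (Real.exp z.re ^ 2) * G (Complex.exp z) ≤ ∫⁻ w in ball (0 : ℂ) R, G w := by
  set E : Set ℂ := Complex.measurableEquivRealProd ⁻¹' (Ioo a (Real.log R) ×ˢ Ioc (-Real.pi) Real.pi)
    with hE
  have hmem : ∀ z ∈ E, (a < z.re ∧ z.re < Real.log R) ∧ -Real.pi < z.im ∧ z.im ≤ Real.pi :=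
    fun z hz => ⟨hz.1, hz.2⟩
  have hEm : MeasurableSet E :=
    Complex.measurableEquivRealProd.measurable (measurableSet_Ioo.prod measurableSet_Ioc)
  have hinj : InjOn Complex.exp E := by
    intro x hx y hy hxy
    obtain ⟨-, h1, h2⟩ := hmem x hx
    obtain ⟨-, h3, h4⟩ := hmem y hy
    exact Complex.exp_inj_of_neg_pi_lt_of_le_pi h1 h2 h3 h4 hxy
  have hder : ∀ z ∈ E, HasFDerivWithinAt Complex.exp (Complex.exp z • (1 : ℂ →L[ℝ] ℂ)) E z :=
    fun z _ => ((Complex.hasDerivAt_exp z).complexToReal_fderiv).hasFDerivWithinAt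
  have hcov := lintegral_image_eq_lintegral_abs_det_fderiv_mul volume hEm hder hinj G
  have hsub : Complex.exp '' E ⊆ ball (0 : ℂ) R := by
    rintro w ⟨z, hz, rfl⟩
    rw [mem_ball_zero_iff, Complex.norm_exp, ← Real.exp_log hR]
    exact Real.exp_lt_exp.mpr ((hmem z hz).1).2
  have heq : ∫⁻ z in E, ENNReal.ofReal (Real.exp z.re ^ 2) * G (Complex.exp z) =
      ∫⁻ w in Complex.exp '' E, G w := by
    rw [hcov]
    refine lintegral_congr fun z => ?_
    rw [gjc_det, Complex.normSq_eq_norm_sq, Complex.norm_exp, abs_of_nonneg (by positivity)]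
  rw [heq]
  exact lintegral_mono_set hsub

private theorem gjc_exp (s θ : ℝ) : ‖Complex.exp (s + θ * Complex.I)‖ = Real.exp s := by
  rw [Complex.norm_exp]
  simp

theorem polar_bound {g : ℂ → ℝ} {a R R₁ : ℝ} (hR : 0 < R) (hR₁ : R < R₁) (ha : a < Real.log R)
    (hg : ContinuousOn g (ball 0 R₁)) (hg0 : ∀ w ∈ ball (0 : ℂ) R₁, 0 ≤ g w) :
    ENNReal.ofReal (∫ s in a..Real.log R, ∫ θ in (0 : ℝ)..2 * Real.pi,
      (Real.log R - s) * (Real.exp s ^ 2 * g (Complex.exp (s + θ * Complex.I)))) ≤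
    ∫⁻ w in ball (0 : ℂ) R, ENNReal.ofReal (Real.log (R / ‖w‖) * g w) := by
  set u : ℝ × ℝ → ℝ := fun p =>
    (Real.log R - p.1) * (Real.exp p.1 ^ 2 * g (Complex.exp (p.1 + p.2 * Complex.I))) with hu
  have hball : ∀ s θ : ℝ, s ≤ Real.log R → Complex.exp (s + θ * Complex.I) ∈ ball (0 : ℂ) R₁ := by
    intro s θ hs
    rw [mem_ball_zero_iff, gjc_exp]
    calc Real.exp s ≤ Real.exp (Real.log R) := Real.exp_le_exp.mpr hs
      _ = R := Real.exp_log hR
      _ < R₁ := hR₁
  have hucont : ContinuousOn u (Icc a (Real.log R) ×ˢ Icc (-Real.pi) Real.pi) := by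
    have h1 : ContinuousOn (fun p : ℝ × ℝ => g (Complex.exp (p.1 + p.2 * Complex.I)))
        (Icc a (Real.log R) ×ˢ Icc (-Real.pi) Real.pi) := by
      refine hg.comp (Continuous.continuousOn (by fun_prop)) ?_
      intro p hp
      exact hball p.1 p.2 hp.1.2
    exact (by fun_prop : Continuous fun p : ℝ × ℝ => Real.log R - p.1).continuousOn.mul
      ((by fun_prop : Continuous fun p : ℝ × ℝ => Real.exp p.1 ^ 2).continuousOn.mul h1)
  have huint : IntegrableOn u (Ioo a (Real.log R) ×ˢ Ioc (-Real.pi) Real.pi) (volume.prod volume) := by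
    refine (hucont.integrableOn_compact (isCompact_Icc.prod isCompact_Icc)).mono_set ?_
    exact Set.prod_mono Ioo_subset_Icc_self Ioc_subset_Icc_self
  have hu0 : ∀ p ∈ Ioo a (Real.log R) ×ˢ Ioc (-Real.pi) Real.pi, 0 ≤ u p := by
    intro p hp
    exact mul_nonneg (sub_nonneg.mpr hp.1.2.le)
      (mul_nonneg (by positivity) (hg0 _ (hball p.1 p.2 hp.1.2.le)))
  have hper : ∀ s : ℝ, ∫ θ in (0 : ℝ)..2 * Real.pi,
      (Real.log R - s) * (Real.exp s ^ 2 * g (Complex.exp (s + θ * Complex.I))) =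
      ∫ θ in Ioc (-Real.pi) Real.pi, u (s, θ) := by
    intro s
    have hp : Function.Periodic (fun θ : ℝ => u (s, θ)) (2 * Real.pi) := by
      intro θ
      simp only [hu]
      have : Complex.exp (s + ((θ + 2 * Real.pi : ℝ) : ℂ) * Complex.I) =
          Complex.exp (s + θ * Complex.I) := by
        rw [Complex.exp_eq_exp_iff_exists_int]
        exact ⟨1, by push_cast; ring⟩
      rw [this]
    have h := hp.intervalIntegral_add_eq 0 (-Real.pi)
    rw [zero_add, show -Real.pi + 2 * Real.pi = Real.pi by ring] at h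
    rw [← intervalIntegral.integral_of_le (by linarith [Real.pi_pos])]
    exact h
  have hmes : MeasurableSet (Ioo a (Real.log R) ×ˢ Ioc (-Real.pi) Real.pi) :=
    measurableSet_Ioo.prod measurableSet_Ioc
  have hstep : ENNReal.ofReal (∫ s in a..Real.log R, ∫ θ in (0 : ℝ)..2 * Real.pi,
      (Real.log R - s) * (Real.exp s ^ 2 * g (Complex.exp (s + θ * Complex.I)))) =
      ∫⁻ p in Ioo a (Real.log R) ×ˢ Ioc (-Real.pi) Real.pi, ENNReal.ofReal (u p) := by
    rw [intervalIntegral.integral_of_le ha.le, integral_Ioc_eq_integral_Ioo]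
    simp_rw [hper]
    rw [← setIntegral_prod u huint, ofReal_integral_eq_lintegral_ofReal huint
      ((ae_restrict_iff' hmes).mpr (Filter.Eventually.of_forall hu0))]
    rfl
  rw [hstep, ← Complex.volume_preserving_equiv_real_prod.setLIntegral_comp_preimage_emb
    Complex.measurableEquivRealProd.measurableEmbedding]
  refine le_trans (le_of_eq ?_) (gjc_cov (a := a) hR fun w => ENNReal.ofReal (Real.log (R / ‖w‖) * g w))
  refine setLIntegral_congr_fun (Complex.measurableEquivRealProd.measurable hmes) ?_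
  intro z hz
  have hz1 : z.re < Real.log R := hz.1.2
  have hzz : ((z.re : ℝ) : ℂ) + (z.im : ℝ) * Complex.I = z := Complex.re_add_im z
  have e1 : u (Complex.measurableEquivRealProd z) =
      (Real.log R - z.re) * (Real.exp z.re ^ 2 * g (Complex.exp z)) := by
    show (Real.log R - z.re) * (Real.exp z.re ^ 2 *
      g (Complex.exp (((z.re : ℝ) : ℂ) + (z.im : ℝ) * Complex.I))) = _
    rw [hzz]
  have e2 : Real.log (R / ‖Complex.exp z‖) = Real.log R - z.re := by
    rw [Complex.norm_exp, Real.log_div hR.ne' (Real.exp_pos _).ne', Real.log_exp]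
  show ENNReal.ofReal (u (Complex.measurableEquivRealProd z)) =
    ENNReal.ofReal (Real.exp z.re ^ 2) * ENNReal.ofReal (Real.log (R / ‖Complex.exp z‖) * g (Complex.exp z))
  rw [e1, e2, ← ENNReal.ofReal_mul (by positivity)]
  congr 1
  ring

end Pool.Agent.Lib.MP_62070a_ag.FH
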