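import Pool.Agent.Lib.MP_62070a_ag.FH.GJb
import Pool.Agent.Lib.MP_62070a_ag.FH.GJc

/-!
# FH / GJd : the Jensen-Nevanlinna formula (inequality)

`f` analytic without zeros on `ball 0 R₁`, `0 < R < R₁`. Put `h ζ = f (exp ζ)` for `Re ζ < log R₁`, period `2 π i`. By `den_comp`, `den h ζ = |exp ζ|² den f (exp ζ) =
(exp (Re ζ))² den f (exp ζ)`, and `deriv h ζ = exp ζ • deriv f (exp ζ)`, so `|qq h ζ| ≤ e^{Re ζ} ‖f' (exp ζ)‖ / ‖f (exp ζ)‖ ≤ M e^{Re ζ}` for `Re ζ ≤ log R`, where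
`M` bounds `‖f'‖ / ‖f‖` on the compact `closedBall 0 R`. `green_rect` with `b = log R`, and `polar_bound` with `g = den f` (continuous, `continuousAt_den`, `den_nonneg`): for all `a < b`, with
`I = ∫⁻ w in ball 0 R, ofReal (log (R / ‖w‖) * den f w)`:
`ofReal ((1/2) (∫_0^{2π} log ‖f (R e^{iθ})‖ - ∫_0^{2π} log ‖f (e^a e^{iθ})‖ - (b - a) ∫_0^{2π} Re qq h (a + iθ) dθ)) ≤ I`.
Let `a → -∞`: `∫_0^{2π} log ‖f (e^a e^{iθ})‖ → 2 π log ‖f 0‖` (uniform continuity of `log ‖f‖` near `0`, e.g.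
`intervalIntegral.tendsto_integral_filter_of_dominated_convergence`), and `|(b - a) ∫ Re qq| ≤ (b - a) 2 π M e^a → 0`. So
`ofReal (π T) ≤ I` with `2 π T = ∫_0^{2π} log ‖f (R e^{iθ})‖ - 2 π log ‖f 0‖`, that is `T = circleAverage (log ‖f‖) 0 R - log ‖f 0‖`
(`Real.circleAverage_def`, `circleMap 0 R θ = R e^{iθ}`; `le_of_tendsto`).
-/

set_option autoImplicit false

namespace Pool.Agent.Lib.MP_62070a_ag.FH

open Metric Set Filter Topology MeasureTheory
open scoped ENNReal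

variable {n : ℕ}

private theorem gjd_norm (s θ : ℝ) : ‖Complex.exp (s + θ * Complex.I)‖ = Real.exp s := by
  rw [Complex.norm_exp]
  simp

private theorem gjd_mem {R₁ : ℝ} (hR₁ : 0 < R₁) {ζ : ℂ} (h : ζ.re < Real.log R₁) :
    Complex.exp ζ ∈ ball (0 : ℂ) R₁ := by
  rw [mem_ball_zero_iff, Complex.norm_exp]
  exact (Real.lt_log_iff_exp_lt hR₁).1 h

private theorem gjd_step {f : ℂ → V n} {R R₁ : ℝ} (hR : 0 < R) (hR₁ : R < R₁)
    (hf : ∀ z ∈ ball (0 : ℂ) R₁, AnalyticAt ℂ f z) (h0 : ∀ z ∈ ball (0 : ℂ) R₁, f z ≠ 0) {a : ℝ}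
    (ha : a < Real.log R) :
    ENNReal.ofReal ((1 / 2) *
      ((∫ θ in (0 : ℝ)..2 * Real.pi, Real.log ‖f (Complex.exp ((Real.log R : ℝ) + θ * Complex.I))‖) -
      (∫ θ in (0 : ℝ)..2 * Real.pi, Real.log ‖f (Complex.exp (a + θ * Complex.I))‖) -
      (Real.log R - a) *
        ∫ θ in (0 : ℝ)..2 * Real.pi, (qq (fun ζ => f (Complex.exp ζ)) (a + θ * Complex.I)).re)) ≤
      ∫⁻ w in ball (0 : ℂ) R, ENNReal.ofReal (Real.log (R / ‖w‖) * den f w) := by
  have hR₁' : 0 < R₁ := hR.trans hR₁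
  have hb : Real.log R < Real.log R₁ := Real.log_lt_log hR hR₁
  have g1 := green_rect (h := fun ζ => f (Complex.exp ζ)) ha hb
    (fun ζ hζ => (hf _ (gjd_mem hR₁' hζ)).fun_comp (Complex.differentiable_exp.analyticAt _))
    (fun ζ hζ => h0 _ (gjd_mem hR₁' hζ))
    (fun ζ => by rw [Complex.exp_periodic ζ])
  rw [← g1]
  have hcont : ContinuousOn (den f) (ball 0 R₁) := fun z hz =>
    (continuousAt_den (hf z hz) (h0 z hz)).continuousWithinAt
  refine le_trans (ENNReal.ofReal_le_ofReal (le_of_eq ?_))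
    (polar_bound hR hR₁ ha hcont (fun w _ => den_nonneg f w))
  rw [← intervalIntegral.integral_const_mul]
  refine intervalIntegral.integral_congr fun s hs => ?_
  rw [uIcc_of_le ha.le] at hs
  rw [← intervalIntegral.integral_const_mul]
  refine intervalIntegral.integral_congr fun θ _ => ?_
  have hre : ((s : ℂ) + θ * Complex.I).re < Real.log R₁ := by
    have e : ((s : ℂ) + θ * Complex.I).re = s := by simp
    rw [e]
    exact lt_of_le_of_lt hs.2 hb
  have e1 : den (fun ζ => f (Complex.exp ζ)) (s + θ * Complex.I) =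
      ‖deriv Complex.exp (s + θ * Complex.I)‖ ^ 2 * den f (Complex.exp (s + θ * Complex.I)) :=
    den_comp (hf _ (gjd_mem hR₁' hre)).differentiableAt Complex.differentiableAt_exp
  rw [e1, Complex.deriv_exp, gjd_norm]
  ring

/-- the logarithmic derivative along `exp` is small near zero -/
private theorem gjd_qq {f : ℂ → V n} {ζ : ℂ} (hf : DifferentiableAt ℂ f (Complex.exp ζ))
    (h0 : f (Complex.exp ζ) ≠ 0) : ‖qq (fun ζ => f (Complex.exp ζ)) ζ‖ ≤
      ‖Complex.exp ζ‖ * (‖deriv f (Complex.exp ζ)‖ / ‖f (Complex.exp ζ)‖) := by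
  have hd : deriv (fun ζ => f (Complex.exp ζ)) ζ = Complex.exp ζ • deriv f (Complex.exp ζ) :=
    (hf.hasDerivAt.scomp ζ (Complex.hasDerivAt_exp ζ)).deriv
  have hn : 0 < ‖f (Complex.exp ζ)‖ := norm_pos_iff.2 h0
  rw [qq, hd, norm_div, Complex.norm_real, Real.norm_of_nonneg (by positivity)]
  rw [div_le_iff₀ (by positivity)]
  refine (norm_inner_le_norm _ _).trans (le_of_eq ?_)
  rw [norm_smul]
  field_simp

private theorem gjd_exp0 (θ : ℝ) :
    Tendsto (fun x : ℝ => Complex.exp (((-x : ℝ) : ℂ) + θ * Complex.I)) atTop (𝓝 0) := by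
  rw [tendsto_zero_iff_norm_tendsto_zero]
  simp_rw [gjd_norm]
  exact Real.tendsto_exp_neg_atTop_nhds_zero

/-- a property which holds near zero holds on small circles -/
private theorem gjd_ev {p : ℂ → Prop} (h : ∀ᶠ w in 𝓝 (0 : ℂ), p w) :
    ∀ᶠ x : ℝ in atTop, ∀ θ : ℝ, p (Complex.exp (((-x : ℝ) : ℂ) + θ * Complex.I)) := by
  obtain ⟨δ, hδ, hp⟩ := Metric.eventually_nhds_iff.1 h
  have h1 := Real.tendsto_exp_neg_atTop_nhds_zero.eventually (gt_mem_nhds hδ)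
  filter_upwards [h1] with x hx θ
  refine hp ?_
  rw [dist_zero_right, gjd_norm]
  exact hx

private theorem gjd_lim1 {f : ℂ → V n} (hf : ∀ᶠ z in 𝓝 (0 : ℂ), AnalyticAt ℂ f z ∧ f z ≠ 0) :
    Tendsto (fun x : ℝ => ∫ θ in (0 : ℝ)..2 * Real.pi,
      Real.log ‖f (Complex.exp (((-x : ℝ) : ℂ) + θ * Complex.I))‖) atTop
      (𝓝 (∫ _ in (0 : ℝ)..2 * Real.pi, Real.log ‖f 0‖)) := by
  obtain ⟨ha, hz⟩ := hf.self_of_nhds
  have hc : ContinuousAt (fun z => Real.log ‖f z‖) 0 :=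
    (ha.continuousAt.norm).log (norm_ne_zero_iff.2 hz)
  refine intervalIntegral.tendsto_integral_filter_of_dominated_convergence
    (fun _ => |Real.log ‖f 0‖| + 1) ?_ ?_ (by simp) ?_
  · filter_upwards [gjd_ev hf] with x hx
    refine Continuous.aestronglyMeasurable ?_
    rw [continuous_iff_continuousAt]
    intro θ
    have h1 : ContinuousAt (fun θ : ℝ => Complex.exp (((-x : ℝ) : ℂ) + θ * Complex.I)) θ := by
      fun_prop
    have h2 := (ContinuousAt.comp (f := fun θ : ℝ => Complex.exp (((-x : ℝ) : ℂ) + θ * Complex.I))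
      (g := f) (hx θ).1.continuousAt h1).norm
    exact h2.log (norm_ne_zero_iff.2 (hx θ).2)
  · have h1 : ∀ᶠ w in 𝓝 (0 : ℂ), |Real.log ‖f w‖ - Real.log ‖f 0‖| < 1 := by
      have h2 := hc.tendsto.eventually (Metric.ball_mem_nhds _ one_pos)
      filter_upwards [h2] with w hw
      rwa [Real.dist_eq] at hw
    filter_upwards [gjd_ev h1] with x hx
    refine Eventually.of_forall fun θ _ => ?_
    have h3 := hx θ
    rw [Real.norm_eq_abs]
    have h4 := abs_sub_abs_le_abs_sub (Real.log ‖f (Complex.exp (((-x : ℝ) : ℂ) + θ * Complex.I))‖)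
      (Real.log ‖f 0‖)
    linarith
  · refine Eventually.of_forall fun θ _ => ?_
    exact hc.tendsto.comp (gjd_exp0 θ)

private theorem gjd_lim2 {f : ℂ → V n} (hf : ∀ᶠ z in 𝓝 (0 : ℂ), AnalyticAt ℂ f z ∧ f z ≠ 0)
    (b : ℝ) :
    Tendsto (fun x : ℝ => (b - (-x)) * ∫ θ in (0 : ℝ)..2 * Real.pi,
      (qq (fun ζ => f (Complex.exp ζ)) (((-x : ℝ) : ℂ) + θ * Complex.I)).re) atTop (𝓝 0) := by
  obtain ⟨ha, hz⟩ := hf.self_of_nhds
  have hc : ContinuousAt (fun z => ‖deriv f z‖ / ‖f z‖) 0 :=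
    (ha.deriv.continuousAt.norm).div ha.continuousAt.norm (norm_ne_zero_iff.2 hz)
  obtain ⟨M, hM⟩ : ∃ M, M = ‖deriv f 0‖ / ‖f 0‖ + 1 := ⟨_, rfl⟩
  have h1 : ∀ᶠ w in 𝓝 (0 : ℂ), ‖deriv f w‖ / ‖f w‖ < M := by
    refine hc.tendsto.eventually (gt_mem_nhds ?_)
    rw [hM]
    exact lt_add_one _
  have hlim : Tendsto (fun x : ℝ => (|b| * Real.exp (-x) + x ^ 1 * Real.exp (-x)) *
      (M * (2 * Real.pi))) atTop (𝓝 ((|b| * 0 + 0) * (M * (2 * Real.pi)))) :=
    ((Real.tendsto_exp_neg_atTop_nhds_zero.const_mul _).add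
      (Real.tendsto_pow_mul_exp_neg_atTop_nhds_zero 1)).mul_const _
  rw [mul_zero, add_zero, zero_mul] at hlim
  refine squeeze_zero_norm' ?_ hlim
  filter_upwards [gjd_ev (hf.and h1), eventually_ge_atTop 0] with x hx hx0
  have h2 : ‖∫ θ in (0 : ℝ)..2 * Real.pi,
      (qq (fun ζ => f (Complex.exp ζ)) (((-x : ℝ) : ℂ) + θ * Complex.I)).re‖ ≤
      (Real.exp (-x) * M) * |2 * Real.pi - 0| := by
    refine intervalIntegral.norm_integral_le_of_norm_le_const fun θ _ => ?_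
    obtain ⟨⟨hfa, hf0⟩, hlt⟩ := hx θ
    have h3 := gjd_qq hfa.differentiableAt hf0
    rw [gjd_norm] at h3
    rw [Real.norm_eq_abs]
    refine (Complex.abs_re_le_norm _).trans (h3.trans ?_)
    exact mul_le_mul_of_nonneg_left hlt.le (Real.exp_pos _).le
  rw [sub_zero, abs_of_pos Real.two_pi_pos] at h2
  rw [norm_mul, Real.norm_eq_abs (b - -x)]
  have h4 : |b - -x| ≤ |b| + x := by
    rw [sub_neg_eq_add]
    refine (abs_add_le _ _).trans (le_of_eq ?_)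
    rw [abs_of_nonneg hx0]
  refine (mul_le_mul h4 h2 (norm_nonneg _) (by positivity)).trans (le_of_eq ?_)
  rw [pow_one]
  ring

theorem green_jensen {f : ℂ → V n} {R R₁ : ℝ} (hR : 0 < R) (hR₁ : R < R₁) (hf : ∀ z ∈ ball (0 : ℂ) R₁, AnalyticAt ℂ f z)
    (h0 : ∀ z ∈ ball (0 : ℂ) R₁, f z ≠ 0) :
    ENNReal.ofReal (Real.pi * (Real.circleAverage (fun z => Real.log ‖f z‖) 0 R - Real.log ‖f 0‖)) ≤
      ∫⁻ w in ball (0 : ℂ) R, ENNReal.ofReal (Real.log (R / ‖w‖) * den f w) := by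
  have hev : ∀ᶠ z in 𝓝 (0 : ℂ), AnalyticAt ℂ f z ∧ f z ≠ 0 := by
    filter_upwards [Metric.ball_mem_nhds (0 : ℂ) (hR.trans hR₁)] with z hz
    exact ⟨hf z hz, h0 z hz⟩
  have hlim := (((tendsto_const_nhds (x := ∫ θ in (0 : ℝ)..2 * Real.pi,
      Real.log ‖f (Complex.exp ((Real.log R : ℝ) + θ * Complex.I))‖)).sub (gjd_lim1 hev)).sub
      (gjd_lim2 hev (Real.log R))).const_mul (1 / 2)
  have hlim2 := (ENNReal.continuous_ofReal.tendsto _).comp hlim
  have hle : ∀ᶠ x : ℝ in atTop, ENNReal.ofReal ((1 / 2) *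
      ((∫ θ in (0 : ℝ)..2 * Real.pi, Real.log ‖f (Complex.exp ((Real.log R : ℝ) + θ * Complex.I))‖) -
      (∫ θ in (0 : ℝ)..2 * Real.pi, Real.log ‖f (Complex.exp (((-x : ℝ) : ℂ) + θ * Complex.I))‖) -
      (Real.log R - (-x)) *
        ∫ θ in (0 : ℝ)..2 * Real.pi, (qq (fun ζ => f (Complex.exp ζ))
          (((-x : ℝ) : ℂ) + θ * Complex.I)).re)) ≤
      ∫⁻ w in ball (0 : ℂ) R, ENNReal.ofReal (Real.log (R / ‖w‖) * den f w) := by
    filter_upwards [eventually_gt_atTop (-Real.log R)] with x hx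
    exact gjd_step hR hR₁ hf h0 (by linarith)
  refine (le_of_eq (congrArg ENNReal.ofReal ?_)).trans (le_of_tendsto hlim2 hle)
  rw [intervalIntegral.integral_const, Real.circleAverage_def]
  have e : ∀ θ : ℝ, circleMap 0 R θ = Complex.exp ((Real.log R : ℝ) + θ * Complex.I) := by
    intro θ
    rw [circleMap, zero_add, Complex.exp_add, ← Complex.ofReal_exp, Real.exp_log hR]
  simp_rw [e]
  have hpi := Real.pi_ne_zero
  rw [smul_eq_mul, smul_eq_mul]
  generalize (∫ θ in (0 : ℝ)..2 * Real.pi,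
    Real.log ‖f (Complex.exp ((Real.log R : ℝ) + θ * Complex.I))‖) = A
  field_simp
  ring

end Pool.Agent.Lib.MP_62070a_ag.FH
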