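import Pool.Agent.Lib.MP_62070a_ag.FH.CV

/-!
# FH / KerC : the kernels

* `ker_symm`: `dist_comm`. `ker_smul`: `dist_smul` (`SL(2, ℝ)` acts by isometries). `measurable_ker`: composition of the measurable `k` with continuous functions (`Measurable.ite`).
* `lintegral_ker`: `∫⁻ w, ker k z w` does not depend on `z`: `SL(2, ℝ)` acts transitively (`UpperHalfPlane.isPretransitiveSL2R`, `MulAction.exists_smul_eq`) and preserves the volume (the action of `SL(2, ℝ)` is the action of its image in `GL (Fin 2) ℝ`,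
  whose action preserves `volume`: instance in Mathlib/Analysis/Complex/UpperHalfPlane/Measure.lean; `MeasurePreserving.lintegral_comp_emb`).
* `k1 t = 1` for `t < 1/4`, `0` otherwise: the integral is not `0` as `{w | 2 tanh (dist z w / 2) < 1/4}` is a nonempty open set (`UpperHalfPlane.volume_eq_lintegral`), or by `cv` with `G w = ofReal (1 / w.im²)`.
* `k2 t = ofReal (log (1 / t))`: by `cv` with `z = i`, `G w = ofReal (1 / w.im²)` the integral equals `∫⁻ ζ in ball 0 1, ofReal (log (1 / ‖ζ‖)) * (ofReal (‖deriv ..‖²) * ofReal (1 / (kap i (ζ / 2)).im²))`, the last two factors are bounded: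
  with `η = ζ / 2`, `‖η‖ ≤ 1/2`: `‖deriv‖ = (1/2) · 2 / ‖1 - η‖² ≤ 4`, `Im = (1 - ‖η‖²) / ‖1 - η‖² ≥ (3/4) / (9/4) = 1/3`, so they are at most `16 · 9`. And `∫⁻ ζ in ball 0 1, ofReal (log (1 / ‖ζ‖)) < ⊤`: `log (1 / t) ≤ 1 / t` and
  `∫⁻ in ball 0 1, 1 / ‖ζ‖ = 2 π` in polar coordinates (`Complex.lintegral_comp_polarCoord_symm`), or any other argument.
-/

set_option autoImplicit false

namespace Pool.Agent.Lib.MP_62070a_ag.FH

open Metric Set Filter Topology MeasureTheory UpperHalfPlane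
open scoped ENNReal NNReal MatrixGroups

theorem ker_symm (k : ℝ → ℝ≥0∞) (z w : ℍ) : ker k z w = ker k w z := by
  unfold ker
  rw [dist_comm z w]

theorem ker_smul (k : ℝ → ℝ≥0∞) (g : SL(2, ℝ)) (z w : ℍ) : ker k (g • z) (g • w) = ker k z w := by
  unfold ker
  rw [dist_smul g z w]

private theorem kerc_cont_tanh : Continuous Real.tanh := by
  have h : Real.tanh = fun x => Real.sinh x / Real.cosh x := by
    funext x
    exact Real.tanh_eq_sinh_div_cosh x
  rw [h]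
  exact Real.continuous_sinh.div Real.continuous_cosh fun x => (Real.cosh_pos x).ne'

private theorem kerc_cont : Continuous fun p : ℍ × ℍ => 2 * Real.tanh (dist p.1 p.2 / 2) := by
  have h := kerc_cont_tanh
  have h2 : Continuous fun p : ℍ × ℍ => dist p.1 p.2 / 2 := (continuous_fst.dist continuous_snd).div_const 2
  exact continuous_const.mul (h.comp h2)

theorem measurable_ker {k : ℝ → ℝ≥0∞} (hk : Measurable k) : Measurable fun p : ℍ × ℍ => ker k p.1 p.2 := by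
  classical
  have hm : Measurable fun p : ℍ × ℍ => 2 * Real.tanh (dist p.1 p.2 / 2) := kerc_cont.measurable
  have hs : MeasurableSet {p : ℍ × ℍ | 2 * Real.tanh (dist p.1 p.2 / 2) < 1} :=
    measurableSet_lt hm measurable_const
  have e : (fun p : ℍ × ℍ => ker k p.1 p.2) =
      ({p : ℍ × ℍ | 2 * Real.tanh (dist p.1 p.2 / 2) < 1}).indicator
        (k ∘ fun p : ℍ × ℍ => 2 * Real.tanh (dist p.1 p.2 / 2)) := by
    funext p
    by_cases hp : 2 * Real.tanh (dist p.1 p.2 / 2) < 1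
    · have hp' : p ∈ {p : ℍ × ℍ | 2 * Real.tanh (dist p.1 p.2 / 2) < 1} := hp
      rw [Set.indicator_of_mem hp']
      simp only [ker, if_pos hp, Function.comp]
    · have hp' : p ∉ {p : ℍ × ℍ | 2 * Real.tanh (dist p.1 p.2 / 2) < 1} := hp
      rw [Set.indicator_of_notMem hp']
      simp only [ker, if_neg hp]
  rw [e]
  exact (hk.comp hm).indicator hs

theorem measurePreserving_SL (g : SL(2, ℝ)) : MeasurePreserving (fun z : ℍ => g • z) volume volume := by
  have h := measurePreserving_smul (g : GL (Fin 2) ℝ) (volume : Measure ℍ)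
  exact h

private theorem kerc_meas {k : ℝ → ℝ≥0∞} (hk : Measurable k) (z : ℍ) : Measurable (ker k z) := by
  have h : Measurable (Function.uncurry (ker k)) := measurable_ker hk
  exact h.of_uncurry_left

theorem lintegral_ker {k : ℝ → ℝ≥0∞} (hk : Measurable k) (z z' : ℍ) : ∫⁻ w : ℍ, ker k z w = ∫⁻ w : ℍ, ker k z' w := by
  obtain ⟨g, hg⟩ := MulAction.exists_smul_eq SL(2, ℝ) z z'
  have h1 : ∫⁻ w : ℍ, ker k z' (g • w) = ∫⁻ w : ℍ, ker k z' w :=
    (measurePreserving_SL g).lintegral_comp (kerc_meas hk z')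
  have h2 : ∀ w : ℍ, ker k z w = ker k z' (g • w) := by
    intro w
    rw [← hg, ker_smul]
  rw [← h1]
  exact lintegral_congr h2

/-- the kernel of a disc of radius `1/4` -/
noncomputable def k1 (t : ℝ) : ℝ≥0∞ := open Classical in if t < 1 / 4 then 1 else 0

/-- the logarithmic kernel -/
noncomputable def k2 (t : ℝ) : ℝ≥0∞ := ENNReal.ofReal (Real.log (1 / t))

theorem measurable_k1 : Measurable k1 := by
  unfold k1
  exact Measurable.ite measurableSet_Iio measurable_const measurable_const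

theorem measurable_k2 : Measurable k2 := by
  unfold k2
  exact ENNReal.measurable_ofReal.comp (Real.measurable_log.comp (measurable_const.div measurable_id))

private theorem kerc_vol_pos {U : Set ℍ} (hU : IsOpen U) {z : ℍ} (hz : z ∈ U) : (volume : Measure ℍ) U ≠ 0 := by
  intro h0
  rw [volume_eq_lintegral] at h0
  have hO : IsOpen ((UpperHalfPlane.coe) '' U) := isOpenEmbedding_coe.isOpenMap U hU
  have hf : Measurable fun z : ℂ => (((1 / ‖z.im‖₊) ^ 2 : NNReal) : ℝ≥0∞) := by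
    fun_prop
  have h1 := (setLIntegral_eq_zero_iff hO.measurableSet hf).mp h0
  have h2 : ∀ᵐ x : ℂ, x ∉ (UpperHalfPlane.coe) '' U := by
    filter_upwards [h1] with x hx hxU
    have h3 := hx hxU
    obtain ⟨w, hw, rfl⟩ := hxU
    have h4 : ((w : ℂ)).im ≠ 0 := w.im_pos.ne'
    have h5 : ((1 / ‖((w : ℂ)).im‖₊) ^ 2 : NNReal) ≠ 0 := by
      refine pow_ne_zero 2 (one_div_ne_zero ?_)
      exact (nnnorm_ne_zero_iff).mpr h4
    exact h5 (ENNReal.coe_eq_zero.mp h3)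
  have h6 : volume ((UpperHalfPlane.coe) '' U) = 0 := measure_eq_zero_iff_ae_notMem.mpr h2
  have h7 : ((UpperHalfPlane.coe) '' U).Nonempty := ⟨_, z, hz, rfl⟩
  exact (hO.measure_pos volume h7).ne' h6

theorem k1_ne_zero (z : ℍ) : ∫⁻ w : ℍ, ker k1 z w ≠ 0 := by
  intro h0
  have hm : Measurable (ker k1 z) := kerc_meas measurable_k1 z
  have h1 := (lintegral_eq_zero_iff hm).mp h0
  have hc : Continuous fun w : ℍ => 2 * Real.tanh (dist z w / 2) := by
    have h := kerc_cont_tanh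
    have h2 : Continuous fun w : ℍ => dist z w / 2 := (continuous_const.dist continuous_id).div_const 2
    exact continuous_const.mul (h.comp h2)
  have hO : IsOpen {w : ℍ | 2 * Real.tanh (dist z w / 2) < 1 / 4} := isOpen_lt hc continuous_const
  have hz : z ∈ {w : ℍ | 2 * Real.tanh (dist z w / 2) < 1 / 4} := by
    show 2 * Real.tanh (dist z z / 2) < 1 / 4
    rw [dist_self]
    norm_num
  have h2 : ∀ᵐ w : ℍ, w ∉ {w : ℍ | 2 * Real.tanh (dist z w / 2) < 1 / 4} := by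
    filter_upwards [h1] with w hw hwU
    have hwU' : 2 * Real.tanh (dist z w / 2) < 1 / 4 := hwU
    have h3 : ker k1 z w = 1 := by
      have h4 : 2 * Real.tanh (dist z w / 2) < 1 := by linarith
      unfold ker k1
      rw [if_pos h4, if_pos hwU']
    rw [h3] at hw
    exact one_ne_zero hw
  exact kerc_vol_pos hO hz (measure_eq_zero_iff_ae_notMem.mpr h2)

private theorem kerc_im (z η : ℂ) (h : 1 - η ≠ 0) :
    (kap z η).im = z.im * (1 - ‖η‖ ^ 2) / ‖1 - η‖ ^ 2 := by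
  have h1 : Complex.normSq (1 - η) ≠ 0 := (Complex.normSq_pos.mpr h).ne'
  unfold kap
  rw [← Complex.normSq_eq_norm_sq, ← Complex.normSq_eq_norm_sq, Complex.div_im, ← sub_div]
  congr 1
  simp only [Complex.normSq_apply, Complex.sub_im, Complex.sub_re, Complex.mul_im, Complex.mul_re,
    Complex.conj_re, Complex.conj_im, Complex.one_re, Complex.one_im]
  ring

private theorem kerc_one_sub {η : ℂ} (h : ‖η‖ < 1) : 1 - η ≠ 0 := by
  intro h0
  have h1 : η = 1 := (sub_eq_zero.mp h0).symm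
  rw [h1, norm_one] at h
  exact lt_irrefl _ h

private theorem kerc_deriv (z ζ : ℂ) (h : ‖ζ‖ < 1) :
    deriv (fun ζ : ℂ => kap z (ζ / 2)) ζ = (z - (starRingEnd ℂ) z) / (1 - ζ / 2) ^ 2 * (1 / 2) := by
  have h2 : ‖ζ / 2‖ < 1 := by
    rw [norm_div, Complex.norm_ofNat]
    linarith [norm_nonneg ζ]
  have h3 : 1 - ζ / 2 ≠ 0 := kerc_one_sub h2
  have h4 : HasDerivAt (fun ζ : ℂ => ζ / 2) (1 / 2) ζ := (hasDerivAt_id ζ).div_const 2
  have h5 : HasDerivAt (fun ζ : ℂ => z - (starRingEnd ℂ) z * (ζ / 2)) (0 - (starRingEnd ℂ) z * (1 / 2)) ζ :=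
    (hasDerivAt_const ζ z).sub (h4.const_mul _)
  have h6 : HasDerivAt (fun ζ : ℂ => 1 - ζ / 2) (0 - 1 / 2) ζ := (hasDerivAt_const ζ (1 : ℂ)).sub h4
  have h7 := h5.div h6 h3
  have h8 : deriv (fun ζ : ℂ => kap z (ζ / 2)) ζ = ((0 - (starRingEnd ℂ) z * (1 / 2)) * (1 - ζ / 2) -
      (z - (starRingEnd ℂ) z * (ζ / 2)) * (0 - 1 / 2)) / (1 - ζ / 2) ^ 2 := h7.deriv
  rw [h8, div_mul_eq_mul_div]
  congr 1
  ring

private theorem kerc_ratio (z : ℍ) {ζ : ℂ} (h : ‖ζ‖ < 1) :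
    ENNReal.ofReal (‖deriv (fun ζ : ℂ => kap z (ζ / 2)) ζ‖ ^ 2) *
      ENNReal.ofReal (1 / (kap z (ζ / 2)).im ^ 2) ≤ ENNReal.ofReal (16 / 9) := by
  have h2 : ‖ζ / 2‖ < 1 := by
    rw [norm_div, Complex.norm_ofNat]
    linarith [norm_nonneg ζ]
  have h3 : 1 - ζ / 2 ≠ 0 := kerc_one_sub h2
  rw [← ENNReal.ofReal_mul (by positivity)]
  refine ENNReal.ofReal_le_ofReal ?_
  have h4 : 0 < (kap z (ζ / 2)).im := kap_im_pos z h2
  have h5 : ‖deriv (fun ζ : ℂ => kap z (ζ / 2)) ζ‖ ≤ 4 / 3 * (kap z (ζ / 2)).im := by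
    rw [kerc_deriv z ζ h, kerc_im z (ζ / 2) h3]
    have h6 : (z : ℂ) - (starRingEnd ℂ) (z : ℂ) = (2 * (z : ℂ).im : ℝ) * Complex.I := by
      rw [Complex.sub_conj]
    rw [h6, norm_mul, norm_div, norm_mul, Complex.norm_I, norm_pow, Complex.norm_real]
    have h7 : (0 : ℝ) < (z : ℂ).im := z.im_pos
    have h8 : 0 < ‖1 - ζ / 2‖ := norm_pos_iff.mpr h3
    have h9 : ‖ζ / 2‖ ^ 2 ≤ 1 / 4 := by
      rw [norm_div, Complex.norm_ofNat]
      nlinarith [norm_nonneg ζ]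
    have h10 : ‖(1 / 2 : ℂ)‖ = 1 / 2 := by norm_num
    rw [h10, Real.norm_of_nonneg (by positivity)]
    have h11 : 2 * (z : ℂ).im * 1 / ‖1 - ζ / 2‖ ^ 2 * (1 / 2) = (z : ℂ).im / ‖1 - ζ / 2‖ ^ 2 := by ring
    have h12 : 4 / 3 * ((z : ℂ).im * (1 - ‖ζ / 2‖ ^ 2) / ‖1 - ζ / 2‖ ^ 2) =
      ((z : ℂ).im / ‖1 - ζ / 2‖ ^ 2) * (4 / 3 * (1 - ‖ζ / 2‖ ^ 2)) := by ring
    rw [h11, h12]
    have h13 : 0 ≤ (z : ℂ).im / ‖1 - ζ / 2‖ ^ 2 := by positivity
    have h14 : 1 ≤ 4 / 3 * (1 - ‖ζ / 2‖ ^ 2) := by linarith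
    exact le_mul_of_one_le_right h13 h14
  rw [mul_one_div, div_le_iff₀ (by positivity)]
  calc ‖deriv (fun ζ : ℂ => kap z (ζ / 2)) ζ‖ ^ 2 ≤ (4 / 3 * (kap z (ζ / 2)).im) ^ 2 :=
        pow_le_pow_left₀ (norm_nonneg _) h5 2
    _ = 16 / 9 * (kap z (ζ / 2)).im ^ 2 := by ring

private theorem kerc_int : ∫⁻ ζ in ball (0 : ℂ) 1, ENNReal.ofReal (1 / ‖ζ‖) ≠ ⊤ := by
  rw [← lintegral_indicator measurableSet_ball, ← Complex.lintegral_comp_polarCoord_symm]
  have h1 : ∫⁻ p in polarCoord.target, ENNReal.ofReal p.1 •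
      (ball (0 : ℂ) 1).indicator (fun ζ => ENNReal.ofReal (1 / ‖ζ‖)) (Complex.polarCoord.symm p) ≤
      ∫⁻ p in polarCoord.target, (Ioo (0 : ℝ) 1 ×ˢ Ioo (-Real.pi) Real.pi).indicator (fun _ => 1) p := by
    refine setLIntegral_mono' polarCoord.open_target.measurableSet fun p hp => ?_
    have hp1 : 0 < p.1 := hp.1
    by_cases h : p.1 < 1
    · have h2 : Complex.polarCoord.symm p ∈ ball (0 : ℂ) 1 := by
        rw [mem_ball_zero_iff, Complex.norm_polarCoord_symm, abs_of_pos hp1]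
        exact h
      have h3 : p ∈ Ioo (0 : ℝ) 1 ×ˢ Ioo (-Real.pi) Real.pi := ⟨⟨hp1, h⟩, hp.2⟩
      rw [Set.indicator_of_mem h2, Set.indicator_of_mem h3, Complex.norm_polarCoord_symm, abs_of_pos hp1,
        smul_eq_mul, ← ENNReal.ofReal_mul hp1.le, mul_one_div_cancel hp1.ne', ENNReal.ofReal_one]
    · have h2 : Complex.polarCoord.symm p ∉ ball (0 : ℂ) 1 := by
        rw [mem_ball_zero_iff, Complex.norm_polarCoord_symm, abs_of_pos hp1]
        exact h
      rw [Set.indicator_of_notMem h2, smul_zero]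
      exact bot_le
  refine ne_top_of_le_ne_top ?_ h1
  have h4 : ∫⁻ p in polarCoord.target, (Ioo (0 : ℝ) 1 ×ˢ Ioo (-Real.pi) Real.pi).indicator
      (fun _ => (1 : ℝ≥0∞)) p ≤ ∫⁻ p, (Ioo (0 : ℝ) 1 ×ˢ Ioo (-Real.pi) Real.pi).indicator
      (fun _ => (1 : ℝ≥0∞)) p := setLIntegral_le_lintegral _ _
  refine ne_top_of_le_ne_top ?_ h4
  rw [lintegral_indicator (measurableSet_Ioo.prod measurableSet_Ioo), setLIntegral_const, one_mul,
    Measure.volume_eq_prod, Measure.prod_prod, Real.volume_Ioo, Real.volume_Ioo]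
  exact ENNReal.mul_ne_top ENNReal.ofReal_ne_top ENNReal.ofReal_ne_top

theorem k2_ne_top (z : ℍ) : ∫⁻ w : ℍ, ker k2 z w ≠ ⊤ := by
  have hG : Measurable fun w : ℍ => (fun w : ℂ => ENNReal.ofReal (1 / w.im ^ 2)) (w : ℂ) := by
    have h : Measurable fun w : ℂ => ENNReal.ofReal (1 / w.im ^ 2) := by fun_prop
    exact h.comp measurable_coe
  have h1 := cv z (k := k2) measurable_k2 (G := fun w : ℂ => ENNReal.ofReal (1 / w.im ^ 2)) hG
  have h2 : ∀ w : ℍ, ker k2 z w * (ENNReal.ofReal (w.im ^ 2) *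
      (fun w : ℂ => ENNReal.ofReal (1 / w.im ^ 2)) (w : ℂ)) = ker k2 z w := by
    intro w
    have h3 : (0 : ℝ) < w.im := w.im_pos
    show ker k2 z w * (ENNReal.ofReal (w.im ^ 2) * ENNReal.ofReal (1 / w.im ^ 2)) = ker k2 z w
    rw [← ENNReal.ofReal_mul (by positivity), mul_one_div_cancel (by positivity), ENNReal.ofReal_one, mul_one]
  rw [lintegral_congr h2] at h1
  rw [← h1]
  have h3 : ∫⁻ ζ in ball (0 : ℂ) 1, k2 ‖ζ‖ * (ENNReal.ofReal (‖deriv (fun ζ : ℂ => kap z (ζ / 2)) ζ‖ ^ 2) *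
      (fun w : ℂ => ENNReal.ofReal (1 / w.im ^ 2)) (kap z (ζ / 2))) ≤
      ∫⁻ ζ in ball (0 : ℂ) 1, ENNReal.ofReal (1 / ‖ζ‖) * ENNReal.ofReal (16 / 9) := by
    refine setLIntegral_mono' measurableSet_ball fun ζ hζ => ?_
    refine mul_le_mul' ?_ (kerc_ratio z (mem_ball_zero_iff.mp hζ))
    exact ENNReal.ofReal_le_ofReal (Real.log_le_self (by positivity))
  refine ne_top_of_le_ne_top ?_ h3
  rw [lintegral_mul_const' _ _ ENNReal.ofReal_ne_top]
  exact ENNReal.mul_ne_top kerc_int ENNReal.ofReal_ne_top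

end Pool.Agent.Lib.MP_62070a_ag.FH
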