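import Pool.Agent.Lib.MP_62070a_ag.FH.Reg
import Pool.Agent.Lib.MP_62070a_ag.FH.KerC

/-!
# FH / Inv : invariance and measurability of the energy density on the upper half-plane

* `hden_smul`: let `γ = (a b; c d) ∈ SL(2, ℝ)`, `M ζ = (a ζ + b) / (c ζ + d)`, analytic at `w` with `M' w = 1 / (c w + d)²`, `M w = γ • w`, `Im (γ • w) = Im w / ‖c w + d‖²`
  (`UpperHalfPlane.specialLinearGroup_apply`, `UpperHalfPlane.denom`, `UpperHalfPlane.im_smul_eq_div_normSq`-type lemmas). As `φ (γ • z) = φ z` for all `z` in the upper half-plane, `φ ∘ M = φ` near `w`, so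
  `energy φ w = energy (φ ∘ M) w = ‖M' w‖² energy φ (M w)` (`energy_comp`; the energies of two maps which are equal near `w` are equal: `IsLift.congr`, `IsLift.energy_eq`). Multiply by `(Im w)²`.
* `measurable_hden`: `w ↦ energy φ w` is continuous on `ℍ` (`continuousAt_energy`, composition with the continuous coercion).
* `countable_of_discrete`: a discrete subset of a second countable space is countable (`SL(2, ℝ)` is a subspace of the matrices; `TopologicalSpace.separableSpace..`, `Countable` from `DiscreteTopology` and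
  `SecondCountableTopology`: `countable_of_..`, e.g. `TopologicalSpace.SeparableSpace` + `DiscreteTopology`).
* `measurePreserving_SL` and the measurability of the action give the two instances.
* `curveMap_comp`: `HolOn.regular` (`{z | 0 < z.im}` is open; the points of this set are the coercions of the points of `ℍ`).
-/

set_option autoImplicit false

namespace Pool.Agent.Lib.MP_62070a_ag.FH

open Metric Set Filter Topology MeasureTheory UpperHalfPlane
open scoped ENNReal NNReal MatrixGroups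

variable {n m : ℕ}

theorem isOpen_upper : IsOpen {z : ℂ | 0 < z.im} := by
  exact isOpen_lt continuous_const Complex.continuous_im

private theorem inv_energy_congr {φ ψ : ℂ → PS n} {z : ℂ} (h : ∃ f, IsLift φ f z)
    (e : φ =ᶠ[𝓝 z] ψ) : energy φ z = energy ψ z := by
  obtain ⟨f, hf⟩ := h
  rw [hf.energy_eq, (hf.congr e).energy_eq]

theorem hden_smul {X : Set (PS n)} {Γ : Subgroup SL(2, ℝ)} {φ : ℂ → PS n} (h : IsCurveMap X Γ φ) (γ : Γ) (w : ℍ) :
    hden φ (γ • w) = hden φ w := by
  set g : SL(2, ℝ) := (γ : SL(2, ℝ)) with hg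
  have hsm : γ • w = g • w := rfl
  set a : ℂ := ((g 0 0 : ℝ) : ℂ) with ha
  set b : ℂ := ((g 0 1 : ℝ) : ℂ) with hb
  set c : ℂ := ((g 1 0 : ℝ) : ℂ) with hc
  set d : ℂ := ((g 1 1 : ℝ) : ℂ) with hd
  have hdet : a * d - b * c = 1 := by
    have h1 : g 0 0 * g 1 1 - g 0 1 * g 1 0 = 1 := by
      have h2 := g.det_coe
      rw [Matrix.det_fin_two] at h2
      exact h2
    rw [ha, hb, hc, hd]
    exact_mod_cast h1
  have hM : ∀ z : ℍ, ((g • z : ℍ) : ℂ) = (a * (z : ℂ) + b) / (c * (z : ℂ) + d) := fun z => by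
    rw [coe_specialLinearGroup_apply]
    rfl
  have hdn : ∀ z : ℍ, c * (z : ℂ) + d ≠ 0 := fun z => denom_ne_zero (g : GL (Fin 2) ℝ) z
  set M : ℂ → ℂ := fun ζ => (a * ζ + b) / (c * ζ + d) with hMd
  have hMan : AnalyticAt ℂ M (w : ℂ) := by
    refine AnalyticAt.div ?_ ?_ (hdn w)
    · exact (analyticAt_const.mul analyticAt_id).add analyticAt_const
    · exact (analyticAt_const.mul analyticAt_id).add analyticAt_const
  have hder : deriv M (w : ℂ) = 1 / (c * (w : ℂ) + d) ^ 2 := by
    have h1 : HasDerivAt (fun ζ : ℂ => a * ζ + b) a (w : ℂ) := by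
      simpa using ((hasDerivAt_id (w : ℂ)).const_mul a).add_const b
    have h2 : HasDerivAt (fun ζ : ℂ => c * ζ + d) c (w : ℂ) := by
      simpa using ((hasDerivAt_id (w : ℂ)).const_mul c).add_const d
    have h3 := h1.div h2 (hdn w)
    have h4 : HasDerivAt M ((a * (c * (w : ℂ) + d) - (a * (w : ℂ) + b) * c) /
        (c * (w : ℂ) + d) ^ 2) (w : ℂ) := h3
    rw [h4.deriv]
    congr 1
    linear_combination hdet
  have hMw : M (w : ℂ) = ((g • w : ℍ) : ℂ) := (hM w).symm
  have hev : φ =ᶠ[𝓝 (w : ℂ)] fun ζ => φ (M ζ) := by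
    filter_upwards [isOpen_upper.mem_nhds w.2] with ζ hζ
    have h1 := h.inv γ γ.2 ⟨ζ, hζ⟩
    have h2 := hM ⟨ζ, hζ⟩
    rw [← h1]
    exact congrArg φ h2
  have hex : ∃ f, IsLift φ f (w : ℂ) := h.hol _ w.2
  have hex' : ∃ f, IsLift φ f (M (w : ℂ)) := by
    rw [hMw]
    exact h.hol _ (g • w).2
  have key : energy φ (w : ℂ) = ‖deriv M (w : ℂ)‖ ^ 2 * energy φ (M (w : ℂ)) := by
    rw [inv_energy_congr hex hev, energy_comp hex' hMan]
  rw [hsm]
  unfold hden
  congr 1
  have him : (g • w).im = w.im / Complex.normSq (c * (w : ℂ) + d) := by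
    have h1 := UpperHalfPlane.im_smul_eq_div_normSq (Matrix.SpecialLinearGroup.mapGL ℝ g) w
    have h2 : (Matrix.SpecialLinearGroup.mapGL ℝ g).det.val = 1 := by simp
    rw [h2, abs_one, one_mul] at h1
    exact h1
  rw [key, hder, hMw, him, norm_div, norm_one, norm_pow, Complex.normSq_eq_norm_sq]
  have hn : ‖c * (w : ℂ) + d‖ ≠ 0 := norm_ne_zero_iff.2 (hdn w)
  field_simp

theorem measurable_hden {φ : ℂ → PS n} (h : HolOn φ {z | 0 < z.im}) : Measurable (hden φ) := by
  have hc : Continuous fun w : ℍ => energy φ (w : ℂ) := by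
    rw [continuous_iff_continuousAt]
    intro w
    exact (continuousAt_energy (h _ w.2)).comp (f := fun w : ℍ => (w : ℂ))
      continuous_coe.continuousAt
  have hi : Continuous fun w : ℍ => w.im := continuous_im
  exact (ENNReal.continuous_ofReal.comp ((hi.pow 2).mul hc)).measurable

theorem countable_of_discrete (Γ : Subgroup SL(2, ℝ)) (h : DiscreteTopology Γ) : Countable Γ := by
  have h1 : SecondCountableTopology (Matrix (Fin 2) (Fin 2) ℝ) :=
    inferInstanceAs (SecondCountableTopology (Fin 2 → Fin 2 → ℝ))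
  have h2 : SecondCountableTopology SL(2, ℝ) :=
    TopologicalSpace.Subtype.secondCountableTopology {A : Matrix (Fin 2) (Fin 2) ℝ | A.det = 1}
  have h3 : SecondCountableTopology Γ :=
    TopologicalSpace.Subtype.secondCountableTopology (Γ : Set SL(2, ℝ))
  exact countable_of_Lindelof_of_discrete

instance instConst (Γ : Subgroup SL(2, ℝ)) : MeasurableConstSMul Γ ℍ := by
  refine ⟨fun γ => ?_⟩
  exact (measurePreserving_SL (γ : SL(2, ℝ))).measurable

instance instInv (Γ : Subgroup SL(2, ℝ)) : SMulInvariantMeasure Γ ℍ volume := by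
  refine ⟨fun γ s hs => ?_⟩
  exact (measurePreserving_SL (γ : SL(2, ℝ))).measure_preimage hs.nullMeasurableSet

theorem curveMap_comp {X : Set (PS n)} {Y : Set (PS m)} {f : PS n → PS m} (hf : IsRegular X f)
    (hY : ∀ x ∈ X, f x ∈ Y) {Γ : Subgroup SL(2, ℝ)} {φ : ℂ → PS n} (h : IsCurveMap X Γ φ) :
    IsCurveMap Y Γ (fun w => f (φ w)) := by
  refine ⟨HolOn.regular hf isOpen_upper h.hol fun z hz => h.mem ⟨z, hz⟩,
    fun z => hY _ (h.mem z), fun γ hγ z => ?_⟩
  rw [h.inv γ hγ z]

end Pool.Agent.Lib.MP_62070a_ag.FH
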