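import Pool.Agent.Lib.MP_62070a_ag.FH.LocB
import Pool.Agent.Lib.MP_62070a_ag.FH.Inv

/-!
# FH / GlobA : the local inequality in the upper half-plane

Proof. Let `C` be the constant of `local_ineq`. For `z : ℍ` let `φ_z ζ = φ (kap z (ζ / 2))`, holomorphic on `ball 0 1` with values in `X` (`HolOn.comp`, `kap_im_pos`, `differentiableAt_kap`). By `energy_comp`
`energy φ_z ζ = ‖deriv (fun ζ => kap z (ζ / 2)) ζ‖² * energy φ (kap z (ζ / 2))`, and the same for `f ∘ φ` (`HolOn.regular`). By `cv` with `k = k1` and `G w = ofReal (energy φ w)` (the function `w ↦ G w` on `ℍ` is measurable: continuous,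
see `measurable_hden`): `∫⁻ ζ in ball 0 (1/4), ofReal (energy φ_z ζ) = ∫⁻ ζ in ball 0 1, k1 ‖ζ‖ * .. = ∫⁻ w, ker k1 z w * hden φ w` (`hden φ w = ofReal (w.im² * energy φ w) = ofReal (w.im²) * ofReal (energy φ w)`,
`ENNReal.ofReal_mul`), and with `k = k2`: `∫⁻ ζ in ball 0 1, ofReal (log (1 / ‖ζ‖) * energy (f ∘ φ_z) ζ) = ∫⁻ w, ker k2 z w * hden (f ∘ φ) w` (`log (1 / ‖ζ‖) ≥ 0` on the ball). Apply `local_ineq` to `φ_z`.
-/

set_option autoImplicit false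

namespace Pool.Agent.Lib.MP_62070a_ag.FH

open Metric Set Filter Topology MeasureTheory UpperHalfPlane
open scoped ENNReal NNReal MatrixGroups

variable {n m : ℕ}

private theorem globA_norm {ζ : ℂ} (hζ : ζ ∈ ball (0 : ℂ) 1) : ‖ζ / 2‖ < 1 := by
  have h : ‖ζ‖ < 1 := by simpa using hζ
  rw [norm_div]
  have h2 : ‖(2 : ℂ)‖ = 2 := by simp
  rw [h2]
  linarith [norm_nonneg ζ]

private theorem globA_diff (z : ℂ) {ζ : ℂ} (hζ : ζ ∈ ball (0 : ℂ) 1) :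
    DifferentiableAt ℂ (fun ζ : ℂ => kap z (ζ / 2)) ζ := by
  have h1 : DifferentiableAt ℂ (kap z) (ζ / 2) := differentiableAt_kap z (globA_norm hζ)
  have h2 : DifferentiableAt ℂ (fun ζ : ℂ => ζ / 2) ζ := differentiableAt_id.div_const 2
  exact DifferentiableAt.comp ζ h1 h2

private theorem globA_an (z : ℂ) {ζ : ℂ} (hζ : ζ ∈ ball (0 : ℂ) 1) :
    AnalyticAt ℂ (fun ζ : ℂ => kap z (ζ / 2)) ζ := by
  have h : DifferentiableOn ℂ (fun ζ : ℂ => kap z (ζ / 2)) (ball 0 1) :=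
    fun x hx => (globA_diff z hx).differentiableWithinAt
  exact h.analyticAt (isOpen_ball.mem_nhds hζ)

private theorem globA_cv (z : ℍ) {k : ℝ → ℝ≥0∞} (hk : Measurable k) {l : ℕ} {Φ : ℂ → PS l}
    (hΦ : HolOn Φ {z | 0 < z.im}) :
    ∫⁻ ζ in ball (0 : ℂ) 1, k ‖ζ‖ * ENNReal.ofReal (energy (fun ζ => Φ (kap z (ζ / 2))) ζ) =
      ∫⁻ w : ℍ, ker k z w * hden Φ w := by
  have hc : Continuous fun w : ℍ => energy Φ (w : ℂ) := by
    rw [continuous_iff_continuousAt]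
    intro w
    have h1 : ContinuousAt (energy Φ) (w : ℂ) := continuousAt_energy (hΦ _ w.im_pos)
    exact ContinuousAt.comp (f := fun w : ℍ => (w : ℂ)) (g := energy Φ) h1
      UpperHalfPlane.continuous_coe.continuousAt
  have hG : Measurable fun w : ℍ => (fun w : ℂ => ENNReal.ofReal (energy Φ w)) (w : ℂ) :=
    hc.measurable.ennreal_ofReal
  have h := cv z hk (G := fun w : ℂ => ENNReal.ofReal (energy Φ w)) hG
  have e1 : ∫⁻ ζ in ball (0 : ℂ) 1, k ‖ζ‖ * ENNReal.ofReal (energy (fun ζ => Φ (kap z (ζ / 2))) ζ) =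
      ∫⁻ ζ in ball (0 : ℂ) 1, k ‖ζ‖ *
      (ENNReal.ofReal (‖deriv (fun ζ : ℂ => kap z (ζ / 2)) ζ‖ ^ 2) *
        (fun w : ℂ => ENNReal.ofReal (energy Φ w)) (kap z (ζ / 2))) := by
    refine setLIntegral_congr_fun measurableSet_ball ?_
    intro ζ hζ
    have h3 : energy (fun ζ => Φ (kap z (ζ / 2))) ζ =
        ‖deriv (fun ζ : ℂ => kap z (ζ / 2)) ζ‖ ^ 2 * energy Φ (kap z (ζ / 2)) :=
      energy_comp (φ := Φ) (h := fun ζ : ℂ => kap z (ζ / 2)) (hΦ _ (kap_im_pos z (globA_norm hζ)))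
        (globA_an z hζ)
    show k ‖ζ‖ * ENNReal.ofReal (energy (fun ζ => Φ (kap z (ζ / 2))) ζ) = _
    rw [h3, ENNReal.ofReal_mul (by positivity)]
  rw [e1, h]
  refine lintegral_congr ?_
  intro w
  show ker k z w * (ENNReal.ofReal (w.im ^ 2) * ENNReal.ofReal (energy Φ (w : ℂ))) = ker k z w * hden Φ w
  rw [hden, ENNReal.ofReal_mul (by positivity)]

theorem local_upper {X : Set (PS n)} (hX : IsAlg X) {f : PS n → PS m} (hf : IsRegular X f)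
    (hB : ∀ y : PS m, Brody {x | x ∈ X ∧ f x = y}) :
    ∃ C : ℝ≥0, ∀ φ : ℂ → PS n, HolOn φ {z | 0 < z.im} → (∀ z : ℍ, φ (z : ℂ) ∈ X) → ∀ z : ℍ,
      ∫⁻ w : ℍ, ker k1 z w * hden φ w ≤ C * (1 + ∫⁻ w : ℍ, ker k2 z w * hden (fun w => f (φ w)) w) := by
  obtain ⟨C, hC, h⟩ := local_ineq hX hf hB
  refine ⟨C.toNNReal, fun φ hφ hm z => ?_⟩
  have him : ∀ ζ ∈ ball (0 : ℂ) 1, kap z (ζ / 2) ∈ {z : ℂ | 0 < z.im} :=
    fun ζ hζ => kap_im_pos z (globA_norm hζ)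
  have hψ : HolOn (fun ζ : ℂ => φ (kap z (ζ / 2))) (ball 0 1) :=
    HolOn.comp hφ isOpen_ball (fun ζ hζ => (globA_diff z hζ).differentiableWithinAt) him
  have hψX : ∀ ζ ∈ ball (0 : ℂ) 1, (fun ζ : ℂ => φ (kap z (ζ / 2))) ζ ∈ X :=
    fun ζ hζ => hm ⟨_, him ζ hζ⟩
  have hreg : HolOn (fun w => f (φ w)) {z | 0 < z.im} :=
    HolOn.regular hf isOpen_upper hφ (fun w hw => hm ⟨w, hw⟩)
  have key := h _ hψ hψX
  have e1 := globA_cv z measurable_k1 hφ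
  have e2 := globA_cv z measurable_k2 hreg
  rw [← e1, ← e2]
  have l1 : ∫⁻ ζ in ball (0 : ℂ) 1, k1 ‖ζ‖ * ENNReal.ofReal (energy (fun ζ => φ (kap z (ζ / 2))) ζ) ≤
      ∫⁻ ζ in ball (0 : ℂ) (1 / 4), ENNReal.ofReal (energy (fun ζ => φ (kap z (ζ / 2))) ζ) := by
    rw [← lintegral_indicator measurableSet_ball
      (fun ζ : ℂ => ENNReal.ofReal (energy (fun ζ => φ (kap z (ζ / 2))) ζ))]
    refine le_trans (lintegral_mono ?_) (setLIntegral_le_lintegral (ball (0 : ℂ) 1) _)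
    intro ζ
    show k1 ‖ζ‖ * ENNReal.ofReal (energy (fun ζ => φ (kap z (ζ / 2))) ζ) ≤
      (ball (0 : ℂ) (1 / 4)).indicator
        (fun ζ : ℂ => ENNReal.ofReal (energy (fun ζ => φ (kap z (ζ / 2))) ζ)) ζ
    by_cases hz : ‖ζ‖ < 1 / 4
    · have hb : ζ ∈ ball (0 : ℂ) (1 / 4) := by simpa using hz
      rw [Set.indicator_of_mem hb, k1, if_pos hz, one_mul]
    · rw [k1, if_neg hz, zero_mul]
      exact bot_le
  have l2 : ∫⁻ w in ball (0 : ℂ) 1,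
      ENNReal.ofReal (Real.log (1 / ‖w‖) * energy (fun w => f (φ (kap z (w / 2)))) w) =
      ∫⁻ ζ in ball (0 : ℂ) 1, k2 ‖ζ‖ * ENNReal.ofReal (energy (fun ζ => f (φ (kap z (ζ / 2)))) ζ) := by
    refine setLIntegral_congr_fun measurableSet_ball ?_
    intro ζ hζ
    have hn : ‖ζ‖ < 1 := by simpa using hζ
    have hl : 0 ≤ Real.log (1 / ‖ζ‖) := by
      rcases eq_or_lt_of_le (norm_nonneg ζ) with h0 | h0
      · rw [← h0]; simp
      · exact Real.log_nonneg (by rw [le_div_iff₀ h0]; linarith)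
    show ENNReal.ofReal (Real.log (1 / ‖ζ‖) * energy (fun w => f (φ (kap z (w / 2)))) ζ) =
      k2 ‖ζ‖ * ENNReal.ofReal (energy (fun ζ => f (φ (kap z (ζ / 2)))) ζ)
    rw [k2, ENNReal.ofReal_mul hl]
  calc ∫⁻ ζ in ball (0 : ℂ) 1, k1 ‖ζ‖ * ENNReal.ofReal (energy (fun ζ => φ (kap z (ζ / 2))) ζ)
      ≤ ∫⁻ ζ in ball (0 : ℂ) (1 / 4), ENNReal.ofReal (energy (fun ζ => φ (kap z (ζ / 2))) ζ) := l1
    _ ≤ ENNReal.ofReal C * (1 + ∫⁻ w in ball (0 : ℂ) 1,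
          ENNReal.ofReal (Real.log (1 / ‖w‖) * energy (fun w => f (φ (kap z (w / 2)))) w)) := key
    _ = _ := by rw [l2]; rfl

end Pool.Agent.Lib.MP_62070a_ag.FH
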