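import Mathlib

/-!
# FH / Unf : unfolding over a fundamental domain

Proof. For every `x`: `∫⁻ y, k x y * e y = ∑' γ, ∫⁻ y in F, k x (γ • y) * e (γ • y) = ∑' γ, ∫⁻ y in F, k (γ⁻¹ • x) y * e y` (`IsFundamentalDomain.lintegral_eq_tsum''`, invariance of `e` and `k`). Integrate over `x ∈ F`
(`lintegral_tsum`) and exchange the integrals (`lintegral_lintegral_swap`, `μ` is s-finite, everything is measurable): `∑' γ, ∫⁻ y in F, (∫⁻ x in F, k (γ⁻¹ • x) y) * e y`, then bring the sum inside: for fixed `y`,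
`∑' γ, ∫⁻ x in F, k (γ⁻¹ • x) y = ∫⁻ x, k x y = c` (`IsFundamentalDomain.lintegral_eq_tsum'`). So the result is `∫⁻ y in F, c * e y = c * ∫⁻ y in F, e y`.
-/

set_option autoImplicit false

namespace Pool.Agent.Lib.MP_62070a_ag.FH

open MeasureTheory
open scoped ENNReal

theorem unfold_fd {G α : Type} [Group G] [MulAction G α] [MeasurableSpace α] [Countable G] [MeasurableConstSMul G α]
    (μ : Measure α) [SFinite μ] [SMulInvariantMeasure G α μ] {F : Set α} (hF : IsFundamentalDomain G F μ)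
    {k : α → α → ℝ≥0∞} (hk : Measurable fun p : α × α => k p.1 p.2) (hinv : ∀ (g : G) (x y : α), k (g • x) (g • y) = k x y)
    {e : α → ℝ≥0∞} (he : Measurable e) (hinve : ∀ (g : G) (x : α), e (g • x) = e x)
    {c : ℝ≥0∞} (hc : ∀ y, ∫⁻ x, k x y ∂μ = c) :
    ∫⁻ x in F, ∫⁻ y, k x y * e y ∂μ ∂μ = c * ∫⁻ y in F, e y ∂μ := by
  have hkg : ∀ g : G, Measurable fun p : α × α => k (g⁻¹ • p.1) p.2 * e p.2 := fun g =>
    (hk.comp (((measurable_const_smul g⁻¹).comp measurable_fst).prodMk measurable_snd)).mul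
      (he.comp measurable_snd)
  have hky : ∀ (g : G) (y : α), Measurable fun x : α => k (g⁻¹ • x) y := fun g y =>
    hk.comp ((measurable_const_smul g⁻¹).prodMk measurable_const)
  have h1 : ∀ x : α, ∫⁻ y, k x y * e y ∂μ = ∑' g : G, ∫⁻ y in F, k (g⁻¹ • x) y * e y ∂μ := by
    intro x
    rw [hF.lintegral_eq_tsum'']
    refine tsum_congr fun g => ?_
    refine lintegral_congr fun y => ?_
    rw [hinve, ← hinv g⁻¹ x (g • y), inv_smul_smul]
  calc ∫⁻ x in F, ∫⁻ y, k x y * e y ∂μ ∂μ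
      = ∫⁻ x in F, ∑' g : G, ∫⁻ y in F, k (g⁻¹ • x) y * e y ∂μ ∂μ := by
        refine lintegral_congr fun x => h1 x
    _ = ∑' g : G, ∫⁻ x in F, ∫⁻ y in F, k (g⁻¹ • x) y * e y ∂μ ∂μ := by
        refine lintegral_tsum fun g => ?_
        exact (Measurable.lintegral_prod_right' (hkg g)).aemeasurable
    _ = ∑' g : G, ∫⁻ y in F, ∫⁻ x in F, k (g⁻¹ • x) y * e y ∂μ ∂μ := by
        refine tsum_congr fun g => ?_
        exact lintegral_lintegral_swap (hkg g).aemeasurable
    _ = ∑' g : G, ∫⁻ y in F, (∫⁻ x in F, k (g⁻¹ • x) y ∂μ) * e y ∂μ := by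
        refine tsum_congr fun g => ?_
        refine lintegral_congr fun y => ?_
        rw [lintegral_mul_const _ (hky g y)]
    _ = ∫⁻ y in F, ∑' g : G, (∫⁻ x in F, k (g⁻¹ • x) y ∂μ) * e y ∂μ := by
        refine (lintegral_tsum fun g => ?_).symm
        refine (Measurable.mul ?_ he).aemeasurable
        exact Measurable.lintegral_prod_left' (f := fun p : α × α => k (g⁻¹ • p.1) p.2)
          (hk.comp (((measurable_const_smul g⁻¹).comp measurable_fst).prodMk measurable_snd))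
    _ = ∫⁻ y in F, c * e y ∂μ := by
        refine lintegral_congr fun y => ?_
        rw [ENNReal.tsum_mul_right, ← hc y, hF.lintegral_eq_tsum']
    _ = c * ∫⁻ y in F, e y ∂μ := lintegral_const_mul _ he

end Pool.Agent.Lib.MP_62070a_ag.FH
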