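import Pool.Agent.Lib.MP_62070a_ag.FH.GlobA
import Pool.Agent.Lib.MP_62070a_ag.FH.Unf

/-!
# FH / GlobB : the relative inequality for the areas

Proof. Let `C` be the constant of `local_upper`, `c₁ = ∫⁻ w, ker k1 i w` (not `0`, `k1_ne_zero`), `c₂ = ∫⁻ w, ker k2 i w` (finite, `k2_ne_top`). Integrate the inequality of `local_upper` over `z ∈ F`: by `unfold_fd` (`G = Γ`, `μ = volume`,
`e = hden φ`, resp. `hden (f ∘ φ)`; `hden_smul`, `measurable_hden`, `ker_smul`, `measurable_ker`, and `∫⁻ x, ker k x y = ∫⁻ x, ker k y x = c` by `ker_symm`, `lintegral_ker`):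
`c₁ * areaOn φ F ≤ C * (volume F + c₂ * areaOn (f ∘ φ) F)` (`lintegral_const_mul`, `lintegral_add_left`, `setLIntegral_one`). If `c₁ = ⊤`... then replace: `c₁ ≠ ⊤` can be avoided: if `c₁ = ⊤` then `areaOn φ F` is `0` or the right side is `⊤`; simpler:
there is a finite `c` with `0 < c ≤ c₁` (`c = min c₁ 1`). So `areaOn φ F ≤ c⁻¹ C (1 + c₂) (volume F + areaOn (f ∘ φ) F)`, and `c⁻¹ C (1 + c₂)` is a finite constant.
`curveMap_comp` with `Y = univ` gives the invariance of `f ∘ φ`.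
-/

set_option autoImplicit false

namespace Pool.Agent.Lib.MP_62070a_ag.FH

open Metric Set Filter Topology MeasureTheory UpperHalfPlane
open scoped ENNReal NNReal MatrixGroups

variable {n m : ℕ}

private theorem globB_unfold {X : Set (PS n)} {Γ : Subgroup SL(2, ℝ)} {F : Set ℍ} {φ : ℂ → PS n} (hΓ : Countable Γ)
    (hF : IsFundamentalDomain Γ F volume) (hφ : IsCurveMap X Γ φ) {k : ℝ → ℝ≥0∞} (hk : Measurable k) :
    ∫⁻ x in F, ∫⁻ y : ℍ, ker k x y * hden φ y = (∫⁻ w : ℍ, ker k I w) * areaOn φ F := by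
  have h := unfold_fd (G := Γ) (volume : Measure ℍ) hF (k := fun x y => ker k x y) (measurable_ker hk)
    (fun g x y => ker_smul k (g : SL(2, ℝ)) x y) (e := hden φ) (measurable_hden hφ.hol)
    (fun g x => hden_smul hφ g x) (c := ∫⁻ w : ℍ, ker k I w) (fun y => by
      calc ∫⁻ x : ℍ, ker k x y = ∫⁻ x : ℍ, ker k y x := lintegral_congr fun x => ker_symm k x y
        _ = ∫⁻ w : ℍ, ker k I w := lintegral_ker hk y I)
  exact h

theorem relative_ineq {X : Set (PS n)} (hX : IsAlg X) {f : PS n → PS m} (hf : IsRegular X f)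
    (hB : ∀ y : PS m, Brody {x | x ∈ X ∧ f x = y}) :
    ∃ C : ℝ≥0, ∀ (Γ : Subgroup SL(2, ℝ)) (F : Set ℍ) (φ : ℂ → PS n), Countable Γ → IsFundamentalDomain Γ F volume →
      IsCurveMap X Γ φ → areaOn φ F ≤ C * (volume F + areaOn (fun w => f (φ w)) F) := by
  obtain ⟨C, hC⟩ := local_upper hX hf hB
  set c₁ : ℝ≥0∞ := ∫⁻ w : ℍ, ker k1 I w with hc₁
  set c₂ : ℝ≥0∞ := ∫⁻ w : ℍ, ker k2 I w with hc₂
  have h1 : c₁ ≠ 0 := k1_ne_zero I
  have h2 : c₂ ≠ ⊤ := k2_ne_top I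
  set c : ℝ≥0∞ := min c₁ 1 with hc
  have hc0 : c ≠ 0 := by
    rw [hc]; exact (lt_min (pos_iff_ne_zero.mpr h1) one_pos).ne'
  have hct : c ≠ ⊤ := ((min_le_right _ _).trans_lt ENNReal.one_lt_top).ne
  have hfin : c⁻¹ * (C * (1 + c₂)) ≠ ⊤ :=
    ENNReal.mul_ne_top (ENNReal.inv_ne_top.mpr hc0)
      (ENNReal.mul_ne_top ENNReal.coe_ne_top (ENNReal.add_ne_top.mpr ⟨ENNReal.one_ne_top, h2⟩))
  refine ⟨(c⁻¹ * (C * (1 + c₂))).toNNReal, fun Γ F φ hΓ hF hφ => ?_⟩
  rw [ENNReal.coe_toNNReal hfin]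
  have hψ : IsCurveMap univ Γ (fun w => f (φ w)) := curveMap_comp hf (fun x _ => mem_univ (f x)) hφ
  have e1 := globB_unfold hΓ hF hφ measurable_k1
  have e2 := globB_unfold hΓ hF hψ measurable_k2
  have key : c₁ * areaOn φ F ≤ C * (volume F + c₂ * areaOn (fun w => f (φ w)) F) := by
    rw [← e1, ← e2]
    calc ∫⁻ x in F, ∫⁻ y : ℍ, ker k1 x y * hden φ y
        ≤ ∫⁻ x in F, C * (1 + ∫⁻ y : ℍ, ker k2 x y * hden (fun w => f (φ w)) y) :=
          lintegral_mono fun x => hC φ hφ.hol hφ.mem x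
      _ = C * ∫⁻ x in F, (1 + ∫⁻ y : ℍ, ker k2 x y * hden (fun w => f (φ w)) y) :=
          lintegral_const_mul' _ _ ENNReal.coe_ne_top
      _ = C * (volume F + ∫⁻ x in F, ∫⁻ y : ℍ, ker k2 x y * hden (fun w => f (φ w)) y) := by
          rw [lintegral_add_left measurable_const, setLIntegral_one]
  have key2 : c * areaOn φ F ≤ C * (1 + c₂) * (volume F + areaOn (fun w => f (φ w)) F) := by
    calc c * areaOn φ F ≤ c₁ * areaOn φ F := mul_le_mul_left (min_le_left _ _) _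
      _ ≤ C * (volume F + c₂ * areaOn (fun w => f (φ w)) F) := key
      _ ≤ C * ((1 + c₂) * (volume F + areaOn (fun w => f (φ w)) F)) := by
          refine mul_le_mul_right ?_ _
          rw [add_mul, one_mul, mul_add]
          refine add_le_add (le_add_right le_rfl) ?_
          exact le_add_left le_rfl
      _ = C * (1 + c₂) * (volume F + areaOn (fun w => f (φ w)) F) := by rw [mul_assoc]
  calc areaOn φ F = c⁻¹ * (c * areaOn φ F) := by
        rw [← mul_assoc, ENNReal.inv_mul_cancel hc0 hct, one_mul]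
    _ ≤ c⁻¹ * (C * (1 + c₂) * (volume F + areaOn (fun w => f (φ w)) F)) := mul_le_mul_right key2 _
    _ = c⁻¹ * (C * (1 + c₂)) * (volume F + areaOn (fun w => f (φ w)) F) := (mul_assoc _ _ _).symm

end Pool.Agent.Lib.MP_62070a_ag.FH
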