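import Mathlib

/-!
# FH / Grid : every disc of radius 1 contains a point `z` such that `cos (π z)` is an integer

Proof. Let `c = x₀ + i y₀`, let `m` be an integer with `|x₀ - m| ≤ 1/2` (`round x₀`), and `a = |y₀|`. For real `y`,
`cos (π (m + i y)) = (-1)^m cosh (π y)` (`Complex.cos_add`, `Complex.cos_mul_I`, `Complex.ofReal_cosh`, `Real.cos_int_mul_pi`, `Real.sin_int_mul_pi`).
The function `cosh (π y)` on `[a, a + 3/4]` goes from `A = cosh (π a) ≥ 1` to `B = cosh (π (a + 3/4)) ≥ cosh (π a) cosh (3 π / 4) ≥ 2 A ≥ A + 1`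
(`Real.cosh_add`, `sinh ≥ 0`; `cosh (3 π / 4) ≥ cosh 2 ≥ 1 + 2² / 2 ≥ 2`, e.g. `Real.cosh_eq` and `Real.add_one_le_exp`: `exp 2 ≥ 4` as `exp 1 ≥ 2`).
So `N = ⌈A⌉` is in `[A, B]` and by the intermediate value theorem (`intermediate_value_Icc`) there is `y ∈ [a, a + 3/4]` with `cosh (π y) = N`. With the sign `ε = ±1` of
`y₀` (`ε = 1` if `y₀ ≥ 0`, `-1` otherwise), `|ε y - y₀| ≤ 3/4` and `z = m + i ε y` has distance at most `√(1/4 + 9/16) < 1` from `c`, and
`cos (π z) = (-1)^m N` (`cosh` is even).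
-/

set_option autoImplicit false

namespace Pool.Agent.Lib.MP_62070a_ag.FH

open Metric Set Filter Topology

private theorem grid_cosh_two : (2 : ℝ) ≤ Real.cosh (Real.pi * (3 / 4)) := by
  have h1 : (2 : ℝ) ≤ Real.exp 1 := by
    have := Real.add_one_le_exp (1 : ℝ)
    linarith
  have h2 : (4 : ℝ) ≤ Real.exp 2 := by
    have h3 : Real.exp 2 = Real.exp 1 * Real.exp 1 := by
      rw [← Real.exp_add]
      norm_num
    rw [h3]
    nlinarith
  have h4 : Real.exp 2 ≤ Real.exp (Real.pi * (3 / 4)) := by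
    apply Real.exp_le_exp.2
    have := Real.pi_gt_three
    linarith
  have h5 := Real.exp_pos (-(Real.pi * (3 / 4)))
  rw [Real.cosh_eq]
  linarith

private theorem grid_real (a : ℝ) (ha : 0 ≤ a) :
    ∃ y ∈ Icc a (a + 3 / 4), ∃ N : ℤ, Real.cosh (Real.pi * y) = N := by
  have hpi := Real.pi_pos
  have hA : 1 ≤ Real.cosh (Real.pi * a) := Real.one_le_cosh _
  have hB : 2 * Real.cosh (Real.pi * a) ≤ Real.cosh (Real.pi * (a + 3 / 4)) := by
    have h1 : Real.pi * (a + 3 / 4) = Real.pi * a + Real.pi * (3 / 4) := by ring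
    rw [h1, Real.cosh_add]
    have h2 : 0 ≤ Real.sinh (Real.pi * a) := Real.sinh_nonneg_iff.2 (by positivity)
    have h3 : 0 ≤ Real.sinh (Real.pi * (3 / 4)) := Real.sinh_nonneg_iff.2 (by positivity)
    have h4 := grid_cosh_two
    have h5 : 0 ≤ Real.sinh (Real.pi * a) * Real.sinh (Real.pi * (3 / 4)) := mul_nonneg h2 h3
    nlinarith
  have hcont : ContinuousOn (fun y : ℝ => Real.cosh (Real.pi * y)) (Icc a (a + 3 / 4)) := by
    fun_prop
  have hN1 : Real.cosh (Real.pi * a) ≤ (⌈Real.cosh (Real.pi * a)⌉ : ℤ) := Int.le_ceil _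
  have hN2 : ((⌈Real.cosh (Real.pi * a)⌉ : ℤ) : ℝ) ≤ Real.cosh (Real.pi * (a + 3 / 4)) := by
    have := Int.ceil_lt_add_one (Real.cosh (Real.pi * a))
    linarith
  obtain ⟨y, hy, hyN⟩ := intermediate_value_Icc (by linarith : a ≤ a + 3 / 4) hcont ⟨hN1, hN2⟩
  exact ⟨y, hy, _, hyN⟩

private theorem grid_cos (m : ℤ) (y : ℝ) :
    Complex.cos (Real.pi * ((m : ℂ) + (y : ℂ) * Complex.I)) = (((-1) ^ m.natAbs * Real.cosh (Real.pi * y) : ℝ) : ℂ) := by
  have h1 : (Real.pi : ℂ) * ((m : ℂ) + (y : ℂ) * Complex.I) =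
      ((m : ℝ) * Real.pi : ℝ) + ((Real.pi * y : ℝ) : ℂ) * Complex.I := by
    push_cast
    ring
  rw [h1, Complex.cos_add, Complex.cos_mul_I, Complex.sin_mul_I, ← Complex.ofReal_cos,
    ← Complex.ofReal_sin, Real.sin_int_mul_pi, Real.cos_int_mul_pi, ← Complex.ofReal_cosh]
  have h2 : ((-1 : ℝ)) ^ m = (-1) ^ m.natAbs := by
    rcases Int.natAbs_eq m with h | h
    · conv_lhs => rw [h]
      rw [zpow_natCast]
    · conv_lhs => rw [h]
      rw [zpow_neg, zpow_natCast]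
      rcases neg_one_pow_eq_or ℝ m.natAbs with h3 | h3 <;> rw [h3] <;> norm_num
  rw [h2]
  push_cast
  ring

theorem exists_cos_int (c : ℂ) : ∃ z ∈ ball c 1, ∃ N : ℤ, Complex.cos (Real.pi * z) = N := by
  obtain ⟨y, ⟨hy1, hy2⟩, N, hN⟩ := grid_real |c.im| (abs_nonneg _)
  obtain ⟨ε, hε, hεc⟩ : ∃ ε : ℝ, (ε = 1 ∨ ε = -1) ∧ c.im = ε * |c.im| := by
    rcases le_total 0 c.im with h | h
    · exact ⟨1, Or.inl rfl, by rw [abs_of_nonneg h, one_mul]⟩
    · exact ⟨-1, Or.inr rfl, by rw [abs_of_nonpos h]; ring⟩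
  have hcosh : Real.cosh (Real.pi * (ε * y)) = Real.cosh (Real.pi * y) := by
    rcases hε with h | h
    · rw [h, one_mul]
    · rw [h, show Real.pi * (-1 * y) = -(Real.pi * y) by ring, Real.cosh_neg]
  refine ⟨(round c.re : ℂ) + ((ε * y : ℝ) : ℂ) * Complex.I, ?_, (-1) ^ (round c.re).natAbs * N, ?_⟩
  · rw [mem_ball, Complex.dist_eq]
    have hre : ((round c.re : ℂ) + ((ε * y : ℝ) : ℂ) * Complex.I - c).re = (round c.re : ℝ) - c.re := by
      simp
    have him : ((round c.re : ℂ) + ((ε * y : ℝ) : ℂ) * Complex.I - c).im = ε * y - c.im := by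
      simp
    have h1 : |(round c.re : ℝ) - c.re| ≤ 1 / 2 := by
      rw [abs_sub_comm]
      exact abs_sub_round _
    have h2 : |ε * y - c.im| ≤ 3 / 4 := by
      have h3 : ε * y - c.im = ε * (y - |c.im|) := by
        conv_lhs => rw [hεc]
        ring
      rw [h3, abs_mul]
      have h4 : |ε| = 1 := by
        rcases hε with h | h <;> rw [h] <;> norm_num
      rw [h4, one_mul, abs_of_nonneg (by linarith)]
      linarith
    have h5 := Complex.sq_norm ((round c.re : ℂ) + ((ε * y : ℝ) : ℂ) * Complex.I - c)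
    rw [Complex.normSq_apply, hre, him] at h5
    have h6 : ((round c.re : ℝ) - c.re) * ((round c.re : ℝ) - c.re) ≤ 1 / 4 := by
      have := abs_le.1 h1
      nlinarith
    have h7 : (ε * y - c.im) * (ε * y - c.im) ≤ 9 / 16 := by
      have := abs_le.1 h2
      nlinarith
    have h8 : ‖(round c.re : ℂ) + ((ε * y : ℝ) : ℂ) * Complex.I - c‖ ^ 2 < 1 ^ 2 := by
      rw [h5]
      linarith
    exact lt_of_pow_lt_pow_left₀ 2 zero_le_one h8
  · have h1 := grid_cos (round c.re) (ε * y)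
    rw [h1, hcosh, hN]
    push_cast
    ring

end Pool.Agent.Lib.MP_62070a_ag.FH
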