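import Mathlib

/-!
# FH / PtBd : a pointwise bound by a sum of indicator functions of discs

`PtHyp P E`: `E` is bounded in terms of the nearest point `a` of `P` and of the size of an annulus around `a` without points of `P`.

Proof of `pt_bound`. If `dist z p ≥ 1/4` for all `p ∈ P` then `E z ≤ 16`. Otherwise let `a` be a point of `P` nearest to `z`, `r = dist z a ∈ (0, 1/4)`, and `j` the integer with `2^j ≤ r < 2^(j+1)`
(`exists_mem_Ico_zpow`); `j ≤ -3`. For `i ≥ 1` say that `i` is good if `2^(j+1+i) ≤ 1/4` and there is no `p ∈ P`, `p ≠ a`, with `2^(j-i) ≤ dist p a ≤ 2^(j+1+i)`. Large `i` are not good. Let `i ≥ 0`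
be such that `i + 1` is the least number `≥ 1` which is not good (`Nat.find`).
(a) `E z ≤ ofReal (cc i / 4^j)`: if `i = 0` by (B), as `1/r² ≤ 1/4^j`. If `i ≥ 1` then `i` is good, and (C) applies: `r 2^i < 2^(j+1+i) ≤ 1/4`; if `r / 2^i < dist p a < r 2^i` then
`2^(j-i) ≤ dist p a ≤ 2^(j+1+i)`, impossible. So `E z ≤ 3 / (i² r²) ≤ cc i / 4^j`.
(b) `i + 1` is not good. Case (II): there is `b ∈ P`, `b ≠ a`, with `2^(j-i-1) ≤ dist b a ≤ 2^(j+2+i)`. If `i = 0`, or if `i ≥ 1` and `dist b a < 2^(j-i)`, then `dist a b ≤ 2^(j-i+2)` and `hin` gives `a' ∈ Ain i j` with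
`dist a a' < 2^(j-i+4)`, so `dist z a' < 2^(j+1) + 2^(j+4) ≤ 2^(j+5)`: the term of the first sum with the index `i`, `j`, `a'` is `ofReal (cc i / 4^j)` at `z`. If `i ≥ 1` and `dist b a ≥ 2^(j-i)`, then, as `i` is good,
`dist b a > 2^(j+1+i)` and `hob` gives `a' ∈ Aob i j` with `dist a a' < 2^(j-i)`, `dist z a' < 2^(j+1) + 2^j ≤ 2^(j+2)`: second sum.
Case (I): `2^(j+2+i) > 1/4`, so `j + i ≥ -3`. If `i = 0`, `j = -3` and `E z ≤ 4^3 = 64 ≤ 80`. If `i ≥ 1`, `i` is good, `2^(j+1+i) ≤ 1/4`, so `j + i ≤ -3`, `j = -3-i`, and there is no `p ≠ a` in `P` with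
`2^(-3-2i) ≤ dist p a ≤ 1/4`; `‖a‖ ≤ ‖z‖ + r ≤ 1/2`; `hout` gives `a' ∈ Aout i` with `dist a a' < 2^(-3-2i)`, `dist z a' < 2^(-2-i) + 2^(-3-2i) ≤ 2^(-1-i)`: third sum (`cc i / 4^j = cc i * 4^(3+i)`).
A term is at most the sum: `ENNReal.le_tsum`, `Finset.single_le_sum`.
-/

set_option autoImplicit false

namespace Pool.Agent.Lib.MP_62070a_ag.FH

open Metric Set Filter Topology
open scoped ENNReal

/-- hypotheses on `E` in terms of the distances to the points of `P` -/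
structure PtHyp (P : Finset ℂ) (E : ℂ → ℝ≥0∞) : Prop where
  /-- far from `P` -/
  far : ∀ z ∈ ball (0 : ℂ) (1 / 4), (∀ p ∈ P, 1 / 4 ≤ dist z p) → E z ≤ 16
  /-- simple discs -/
  disc : ∀ z ∈ ball (0 : ℂ) (1 / 4), z ∉ P → ∀ a ∈ P, (∀ p ∈ P, dist z a ≤ dist z p) → dist z a < 1 / 4 →
    E z ≤ ENNReal.ofReal (1 / dist z a ^ 2)
  /-- annuli -/
  ann : ∀ z ∈ ball (0 : ℂ) (1 / 4), z ∉ P → ∀ a ∈ P, (∀ p ∈ P, dist z a ≤ dist z p) → dist z a < 1 / 4 →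
    ∀ i : ℕ, 1 ≤ i → dist z a * 2 ^ i ≤ 1 / 4 →
    (∀ p ∈ P, p ≠ a → ¬ (dist z a / 2 ^ i < dist p a ∧ dist p a < dist z a * 2 ^ i)) →
    E z ≤ ENNReal.ofReal (3 / ((i : ℝ) ^ 2 * dist z a ^ 2))

/-- the weights `1, 3, 3/4, 3/9, ...` -/
noncomputable def cc (i : ℕ) : ℝ := if i = 0 then 1 else 3 / (i : ℝ) ^ 2

theorem cc_nonneg (i : ℕ) : 0 ≤ cc i := by
  unfold cc
  split_ifs
  · exact zero_le_one
  · positivity

/-- the majorant -/
noncomputable def GG (Ain Aob : ℕ → ℤ → Finset ℂ) (Aout : ℕ → Finset ℂ) (z : ℂ) : ℝ≥0∞ :=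
  80 + ∑' i : ℕ, ∑' j : ℤ, ENNReal.ofReal (cc i / 4 ^ j) *
    (∑ a ∈ Ain i j, (ball a ((2 : ℝ) ^ (j + 5))).indicator (fun _ => 1) z +
      ∑ a ∈ Aob i j, (ball a ((2 : ℝ) ^ (j + 2))).indicator (fun _ => 1) z) +
  ∑' i : ℕ, ENNReal.ofReal (cc i * 4 ^ (3 + i)) *
    ∑ a ∈ Aout i, (ball a ((2 : ℝ) ^ (-1 - (i : ℤ)))).indicator (fun _ => 1) z

private theorem ptbd_z (j : ℤ) (n : ℕ) : (2 : ℝ) ^ (j + n) = 2 ^ j * 2 ^ n := by
  rw [zpow_add₀ two_ne_zero, zpow_natCast]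

private theorem ptbd_mono {j k : ℤ} (h : j ≤ k) : (2 : ℝ) ^ j ≤ 2 ^ k :=
  zpow_le_zpow_right₀ one_le_two h

private theorem ptbd_lt {j k : ℤ} (h : (2 : ℝ) ^ j < 2 ^ k) : j < k :=
  (zpow_lt_zpow_iff_right₀ one_lt_two).1 h

private theorem ptbd_le {j k : ℤ} (h : (2 : ℝ) ^ j ≤ 2 ^ k) : j ≤ k :=
  (zpow_le_zpow_iff_right₀ one_lt_two).1 h

private theorem ptbd_quarter : (1 / 4 : ℝ) = 2 ^ (-2 : ℤ) := by norm_num

private theorem ptbd_four (j : ℤ) : (4 : ℝ) ^ j = (2 ^ j) ^ 2 := by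
  rw [← zpow_natCast, ← zpow_mul, mul_comm, zpow_mul]
  norm_num

private theorem ptbd_sum {A : Finset ℂ} {a z : ℂ} (ha : a ∈ A) {R : ℝ} (hz : z ∈ ball a R) :
    (1 : ℝ≥0∞) ≤ ∑ a ∈ A, (ball a R).indicator (fun _ => 1) z := by
  calc (1 : ℝ≥0∞) = (ball a R).indicator (fun _ => 1) z :=
        (Set.indicator_of_mem hz (fun _ => (1 : ℝ≥0∞))).symm
    _ ≤ _ := Finset.single_le_sum (f := fun a => (ball a R).indicator (fun _ => (1 : ℝ≥0∞)) z)
      (fun _ _ => zero_le) ha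

private theorem ptbd_const {Ain Aob : ℕ → ℤ → Finset ℂ} {Aout : ℕ → Finset ℂ} {z : ℂ} {c : ℝ≥0∞}
    (h : c ≤ 80) : c ≤ GG Ain Aob Aout z := by
  unfold GG
  rw [add_assoc]
  exact h.trans le_self_add

private theorem ptbd_AB {Ain Aob : ℕ → ℤ → Finset ℂ} {Aout : ℕ → Finset ℂ} {z : ℂ} {c : ℝ≥0∞}
    (i : ℕ) (j : ℤ) (h : c ≤ ENNReal.ofReal (cc i / 4 ^ j))
    (h1 : (1 : ℝ≥0∞) ≤ ∑ a ∈ Ain i j, (ball a ((2 : ℝ) ^ (j + 5))).indicator (fun _ => 1) z +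
      ∑ a ∈ Aob i j, (ball a ((2 : ℝ) ^ (j + 2))).indicator (fun _ => 1) z) :
    c ≤ GG Ain Aob Aout z := by
  set f : ℕ → ℤ → ℝ≥0∞ := fun i j => ENNReal.ofReal (cc i / 4 ^ j) *
    (∑ a ∈ Ain i j, (ball a ((2 : ℝ) ^ (j + 5))).indicator (fun _ => 1) z +
      ∑ a ∈ Aob i j, (ball a ((2 : ℝ) ^ (j + 2))).indicator (fun _ => 1) z) with hf
  have h2 : c ≤ f i j := by
    calc c ≤ ENNReal.ofReal (cc i / 4 ^ j) * 1 := by rw [mul_one]; exact h
      _ ≤ f i j := mul_le_mul_right h1 _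
  have h3 : f i j ≤ ∑' j : ℤ, f i j := ENNReal.le_tsum j
  have h4 : ∑' j : ℤ, f i j ≤ ∑' i : ℕ, ∑' j : ℤ, f i j := ENNReal.le_tsum (f := fun i => ∑' j : ℤ, f i j) i
  have h5 : ∑' i : ℕ, ∑' j : ℤ, f i j ≤ GG Ain Aob Aout z := by
    unfold GG
    rw [add_assoc, add_left_comm]
    exact le_self_add
  exact ((h2.trans h3).trans h4).trans h5

private theorem ptbd_out {Ain Aob : ℕ → ℤ → Finset ℂ} {Aout : ℕ → Finset ℂ} {z : ℂ} {c : ℝ≥0∞}
    (i : ℕ) (h : c ≤ ENNReal.ofReal (cc i * 4 ^ (3 + i)))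
    (h1 : (1 : ℝ≥0∞) ≤ ∑ a ∈ Aout i,
      (ball a ((2 : ℝ) ^ (-1 - (i : ℤ)))).indicator (fun _ => 1) z) :
    c ≤ GG Ain Aob Aout z := by
  set f : ℕ → ℝ≥0∞ := fun i => ENNReal.ofReal (cc i * 4 ^ (3 + i)) *
    ∑ a ∈ Aout i, (ball a ((2 : ℝ) ^ (-1 - (i : ℤ)))).indicator (fun _ => 1) z with hf
  have h2 : c ≤ f i := by
    calc c ≤ ENNReal.ofReal (cc i * 4 ^ (3 + i)) * 1 := by rw [mul_one]; exact h
      _ ≤ f i := mul_le_mul_right h1 _
  have h3 : f i ≤ ∑' i : ℕ, f i := ENNReal.le_tsum i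
  have h5 : ∑' i : ℕ, f i ≤ GG Ain Aob Aout z := by
    unfold GG
    exact le_add_self
  exact (h2.trans h3).trans h5

theorem pt_bound {P : Finset ℂ} {E : ℂ → ℝ≥0∞} (hE : PtHyp P E) {Ain Aob : ℕ → ℤ → Finset ℂ} {Aout : ℕ → Finset ℂ}
    (hin : ∀ (i : ℕ) (j : ℤ), ∀ a ∈ P, (∃ b ∈ P, (2 : ℝ) ^ (j - i - 1) ≤ dist a b ∧ dist a b ≤ 2 ^ (j - i + 2)) →
      ∃ a' ∈ Ain i j, dist a a' < 2 ^ (j - i + 4))
    (hob : ∀ (i : ℕ) (j : ℤ), ∀ a ∈ P, (∃ b ∈ P, (2 : ℝ) ^ (j + 1 + i) ≤ dist a b ∧ dist a b ≤ 2 ^ (j + 2 + i)) →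
      (∀ p ∈ P, p ≠ a → ¬ ((2 : ℝ) ^ (j - i) ≤ dist p a ∧ dist p a ≤ 2 ^ (j + 1 + i))) →
      ∃ a' ∈ Aob i j, dist a a' < 2 ^ (j - i))
    (hout : ∀ i : ℕ, ∀ a ∈ P, ‖a‖ ≤ 1 / 2 →
      (∀ p ∈ P, p ≠ a → ¬ ((2 : ℝ) ^ (-3 - 2 * (i : ℤ)) ≤ dist p a ∧ dist p a ≤ 1 / 4)) →
      ∃ a' ∈ Aout i, dist a a' < 2 ^ (-3 - 2 * (i : ℤ)))
    {z : ℂ} (hz : z ∈ ball (0 : ℂ) (1 / 4)) (hzP : z ∉ P) : E z ≤ GG Ain Aob Aout z := by
  classical
  by_cases hfar : ∀ p ∈ P, 1 / 4 ≤ dist z p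
  · refine ptbd_const ((hE.far z hz hfar).trans ?_)
    norm_num
  simp only [not_forall, not_le] at hfar
  obtain ⟨p0, hp0, hp0d⟩ := hfar
  obtain ⟨a, ha, hamin⟩ := Finset.exists_min_image P (fun p => dist z p) ⟨p0, hp0⟩
  have hr4 : dist z a < 1 / 4 := (hamin p0 hp0).trans_lt hp0d
  have hr0 : 0 < dist z a := by
    rw [dist_pos]
    rintro rfl
    exact hzP ha
  set r := dist z a with hr
  obtain ⟨j, hj1, hj2⟩ := exists_mem_Ico_zpow hr0 (one_lt_two : (1 : ℝ) < 2)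
  have hj3 : j ≤ -3 := by
    have h1 : (2 : ℝ) ^ j < 2 ^ (-2 : ℤ) := by
      rw [← ptbd_quarter]
      exact hj1.trans_lt hr4
    have := ptbd_lt h1
    omega
  have hpos : ∀ k : ℤ, (0 : ℝ) < 2 ^ k := fun k => zpow_pos two_pos k
  let good : ℕ → Prop := fun i => (2 : ℝ) ^ (j + 1 + i) ≤ 1 / 4 ∧
    ∀ p ∈ P, p ≠ a → ¬ ((2 : ℝ) ^ (j - i) ≤ dist p a ∧ dist p a ≤ 2 ^ (j + 1 + i))
  have hex : ∃ i : ℕ, ¬ good (i + 1) := by
    refine ⟨(-j).toNat, fun hg => ?_⟩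
    have h1 := hg.1
    rw [ptbd_quarter] at h1
    have h2 := ptbd_le h1
    push_cast at h2
    have h3 : ((-j).toNat : ℤ) = -j := Int.toNat_of_nonneg (by omega)
    omega
  set i := Nat.find hex with hi
  have hbad : ¬ good (i + 1) := Nat.find_spec hex
  have hgood : 1 ≤ i → good i := by
    intro h1
    have h2 := Nat.find_min hex (m := i - 1) (by omega)
    rw [not_not, Nat.sub_add_cancel h1] at h2
    exact h2
  have h4j : (0 : ℝ) < 4 ^ j := zpow_pos (by norm_num) j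
  have hr2 : (4 : ℝ) ^ j ≤ r ^ 2 := by
    rw [ptbd_four]
    exact pow_le_pow_left₀ (hpos j).le hj1 2
  -- the bound for `E z`
  have hEz : E z ≤ ENNReal.ofReal (cc i / 4 ^ j) := by
    rcases Nat.eq_zero_or_pos i with h0 | h0
    · refine (hE.disc z hz hzP a ha hamin hr4).trans (ENNReal.ofReal_le_ofReal ?_)
      rw [h0, cc, if_pos rfl]
      exact one_div_le_one_div_of_le h4j hr2
    · obtain ⟨hg1, hg2⟩ := hgood h0
      have hri : r * 2 ^ i < 2 ^ (j + 1 + i) := by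
        rw [ptbd_z]
        exact mul_lt_mul_of_pos_right hj2 (by positivity)
      refine (hE.ann z hz hzP a ha hamin hr4 i h0 (hri.le.trans hg1) ?_).trans
        (ENNReal.ofReal_le_ofReal ?_)
      · rintro p hp hpa ⟨h1, h2⟩
        refine hg2 p hp hpa ⟨?_, (h2.trans hri).le⟩
        refine le_trans ?_ h1.le
        rw [zpow_sub₀ two_ne_zero, zpow_natCast]
        exact div_le_div_of_nonneg_right hj1 (by positivity)
      · rw [cc, if_neg (by omega), div_div]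
        have hi0 : (0 : ℝ) < (i : ℝ) ^ 2 := by
          have : (0 : ℝ) < i := Nat.cast_pos.2 h0
          positivity
        exact div_le_div_of_nonneg_left (by norm_num) (mul_pos hi0 h4j)
          (mul_le_mul_of_nonneg_left hr2 hi0.le)
  have e1 : (2 : ℝ) ^ (j + 1) = 2 * 2 ^ j := by
    rw [zpow_add₀ two_ne_zero, zpow_one, mul_comm]
  have e2 : (2 : ℝ) ^ (j + 2) = 4 * 2 ^ j := by
    have := ptbd_z j 2
    push_cast at this
    rw [this]
    ring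
  have e4 : (2 : ℝ) ^ (j + 4) = 16 * 2 ^ j := by
    have := ptbd_z j 4
    push_cast at this
    rw [this]
    ring
  have e5 : (2 : ℝ) ^ (j + 5) = 32 * 2 ^ j := by
    have := ptbd_z j 5
    push_cast at this
    rw [this]
    ring
  rw [e1] at hj2
  have hj0 := hpos j
  by_cases hII : ∃ p ∈ P, p ≠ a ∧ (2 : ℝ) ^ (j - (i + 1 : ℕ)) ≤ dist p a ∧
      dist p a ≤ 2 ^ (j + 1 + (i + 1 : ℕ))
  · obtain ⟨b, hb, hba, hb1, hb2⟩ := hII
    push_cast at hb1 hb2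
    have hb1' : (2 : ℝ) ^ (j - i - 1) ≤ dist a b := by
      rw [dist_comm a b]
      refine le_trans (ptbd_mono ?_) hb1
      omega
    have hb2' : dist a b ≤ (2 : ℝ) ^ (j + 2 + i) := by
      rw [dist_comm a b]
      refine hb2.trans (ptbd_mono ?_)
      omega
    by_cases hcase : 1 ≤ i ∧ (2 : ℝ) ^ (j - i) ≤ dist b a
    · obtain ⟨h1, h2⟩ := hcase
      obtain ⟨hg1, hg2⟩ := hgood h1
      have h3 : (2 : ℝ) ^ (j + 1 + i) < dist b a := by
        by_contra hcon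
        exact hg2 b hb hba ⟨h2, not_lt.1 hcon⟩
      obtain ⟨a', ha', hd⟩ := hob i j a ha ⟨b, hb, by rw [dist_comm a b]; exact h3.le, hb2'⟩ hg2
      have h5 : (2 : ℝ) ^ (j - i) ≤ 2 ^ j := ptbd_mono (by omega)
      have h6 : z ∈ ball a' ((2 : ℝ) ^ (j + 2)) := by
        rw [mem_ball, e2]
        have := dist_triangle z a a'
        linarith
      exact ptbd_AB i j hEz ((ptbd_sum ha' h6).trans le_add_self)
    · have h2 : dist a b ≤ (2 : ℝ) ^ (j - i + 2) := by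
        rcases Nat.eq_zero_or_pos i with h0 | h0
        · rw [h0] at hb2' ⊢
          push_cast at hb2' ⊢
          rw [sub_zero]
          rw [add_zero] at hb2'
          exact hb2'
        · have h3 : dist b a < (2 : ℝ) ^ (j - i) := by
            by_contra hcon
            exact hcase ⟨h0, not_lt.1 hcon⟩
          rw [dist_comm a b]
          exact h3.le.trans (ptbd_mono (by omega))
      obtain ⟨a', ha', hd⟩ := hin i j a ha ⟨b, hb, hb1', h2⟩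
      have h5 : (2 : ℝ) ^ (j - i + 4) ≤ 2 ^ (j + 4) := ptbd_mono (by omega)
      have h6 : z ∈ ball a' ((2 : ℝ) ^ (j + 5)) := by
        rw [mem_ball, e5]
        rw [e4] at h5
        have := dist_triangle z a a'
        linarith
      exact ptbd_AB i j hEz ((ptbd_sum ha' h6).trans le_self_add)
  · have hI : ¬ (2 : ℝ) ^ (j + 1 + (i + 1 : ℕ)) ≤ 1 / 4 := by
      intro h1
      apply hbad
      refine ⟨h1, fun p hp hpa h2 => hII ⟨p, hp, hpa, h2⟩⟩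
    rw [not_le, ptbd_quarter] at hI
    have h1 := ptbd_lt hI
    push_cast at h1
    rcases Nat.eq_zero_or_pos i with h0 | h0
    · have hj : j = -3 := by
        rw [h0] at h1
        push_cast at h1
        omega
      refine ptbd_const (hEz.trans ?_)
      rw [h0, cc, if_pos rfl, hj]
      have h2 : (1 : ℝ) / 4 ^ (-3 : ℤ) = 64 := by norm_num
      rw [h2]
      refine (ENNReal.ofReal_le_ofReal (by norm_num : (64 : ℝ) ≤ 80)).trans ?_
      rw [ENNReal.ofReal_ofNat]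
    · obtain ⟨hg1, hg2⟩ := hgood h0
      have h2 := hg1
      rw [ptbd_quarter] at h2
      have h3 := ptbd_le h2
      have hj : j = -3 - i := by omega
      have hna : ‖a‖ ≤ 1 / 2 := by
        have h4 : ‖z‖ < 1 / 4 := by
          rw [← mem_ball_zero_iff]
          exact hz
        have h5 : ‖a‖ ≤ ‖z‖ + dist z a := by
          rw [dist_eq_norm, ← norm_neg (z - a)]
          have := norm_add_le z (-(z - a))
          have e : z + -(z - a) = a := by ring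
          rwa [e] at this
        linarith
      have e6 : j - i = -3 - 2 * (i : ℤ) := by omega
      have e7 : (2 : ℝ) ^ (j + 1 + i) = 1 / 4 := by
        rw [ptbd_quarter]
        congr 1
        omega
      rw [e6, e7] at hg2
      obtain ⟨a', ha', hd⟩ := hout i a ha hna hg2
      refine ptbd_out i (hEz.trans (ENNReal.ofReal_le_ofReal (le_of_eq ?_))) (ptbd_sum ha' ?_)
      · rw [div_eq_mul_inv, ← zpow_neg, ← zpow_natCast]
        congr 2
        rw [hj]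
        push_cast
        ring
      · rw [mem_ball]
        have h5 : (2 : ℝ) ^ (-3 - 2 * (i : ℤ)) ≤ 2 ^ (j + 1) := ptbd_mono (by omega)
        have h6 : (2 : ℝ) ^ (-1 - (i : ℤ)) = 4 * 2 ^ j := by
          rw [← e2]
          congr 1
          omega
        rw [h6]
        rw [e1] at h5
        have := dist_triangle z a a'
        linarith

end Pool.Agent.Lib.MP_62070a_ag.FH
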