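import Pool.Agent.Lib.MP_62070a_ag.FH.Tele
import Pool.Agent.Lib.MP_62070a_ag.FH.PtBd

/-!
# FH / IntE : the integral of a function with `PtHyp` is at most `C (1 + |P|)`

Proof. Let `Ain i j` be given by `exists_in` with `k = j - i - 1`, `Aob i j` by `exists_ob` with `k = j + 1 + i`, `l = j - i`, `Aout i` by `exists_out` with `l = -3 - 2 i`. They satisfy the hypotheses of
`pt_bound`. The set `P` is finite, so it has measure `0`: `∫⁻_{ball 0 (1/4)} E ≤ ∫⁻_{ball 0 (1/4)} GG`. Integrate the sum (`lintegral_add_left`, `lintegral_tsum`, `lintegral_const_mul`,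
`lintegral_finset_sum`, `lintegral_indicator`, everything is measurable; drop the restriction to `ball 0 (1/4)` in all terms except the constant one), `volume (ball a ρ) = ofReal (π ρ²)` (`Complex.volume_ball`):
`∫⁻ GG ≤ 80 π / 16 + ∑_i ∑_j cc i 4^(-j) (|Ain i j| π 4^(j+5) + |Aob i j| π 4^(j+2)) + ∑_i cc i 4^(3+i) 25 π 4^(-1-i)
 = 5 π + ∑_i cc i (1024 π ∑_j |Ain i j| + 16 π ∑_j |Aob i j|) + 400 π ∑_i cc i`.
By `tsum_tele` (with `t = 5`, `k = -i-1`, and `t = 3`, `k = 1 + i`) `∑_j |Ain i j| ≤ 5 |P|`, `∑_j |Aob i j| ≤ 289 · 3 |P|`. `∑_i cc i = 1 + 3 ∑_{i ≥ 1} 1/i²` is finite (`Real.summable_one_div_nat_pow`). So the statement holds with some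
constant `C` which does not depend on `P` and `E`.
-/

set_option autoImplicit false

namespace Pool.Agent.Lib.MP_62070a_ag.FH

open Metric Set Filter Topology MeasureTheory
open scoped ENNReal

/-- the sum of the weights is finite -/
theorem tsum_cc : ∑' i : ℕ, ENNReal.ofReal (cc i) ≠ ⊤ := by
  have h1 : Summable cc := by
    rw [← summable_nat_add_iff 1]
    have h2 : (fun n : ℕ => cc (n + 1)) = fun n : ℕ => 3 * (1 / ((n + 1 : ℕ) : ℝ) ^ 2) := by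
      funext n
      unfold cc
      rw [if_neg (Nat.succ_ne_zero n)]
      ring
    rw [h2]
    have h3 : Summable fun n : ℕ => 1 / ((n : ℕ) : ℝ) ^ 2 := Real.summable_one_div_nat_pow.mpr one_lt_two
    exact ((summable_nat_add_iff 1).mpr h3).mul_left 3
  exact h1.tsum_ofReal_ne_top

private theorem IntE_meas (A : Finset ℂ) (r : ℝ) :
    Measurable fun z => ∑ a ∈ A, (ball a r).indicator (fun _ => (1 : ℝ≥0∞)) z :=
  Finset.measurable_sum _ fun a _ => measurable_const.indicator measurableSet_ball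

private theorem IntE_int (A : Finset ℂ) (r : ℝ) :
    ∫⁻ z, ∑ a ∈ A, (ball a r).indicator (fun _ => (1 : ℝ≥0∞)) z =
      A.card * (ENNReal.ofReal r ^ 2 * NNReal.pi) := by
  rw [lintegral_finset_sum _ fun _ _ => measurable_const.indicator measurableSet_ball]
  have h : ∀ a ∈ A, ∫⁻ z, (ball a r).indicator (fun _ => (1 : ℝ≥0∞)) z =
      ENNReal.ofReal r ^ 2 * NNReal.pi := by
    intro a _
    rw [lintegral_indicator measurableSet_ball, setLIntegral_const, one_mul, Complex.volume_ball]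
  rw [Finset.sum_congr rfl h, Finset.sum_const, nsmul_eq_mul]

private theorem IntE_four (j : ℤ) : (4 : ℝ) ^ j = ((2 : ℝ) ^ j) ^ 2 := by
  have h : (4 : ℝ) = 2 * 2 := by norm_num
  rw [h, mul_zpow, sq]

private theorem IntE_sc (i : ℕ) (j : ℤ) (m : ℕ) :
    ENNReal.ofReal (cc i / 4 ^ j) * ENNReal.ofReal ((2 : ℝ) ^ (j + m)) ^ 2 =
      ENNReal.ofReal (cc i) * ENNReal.ofReal (4 ^ m) := by
  have h0 := cc_nonneg i
  rw [← ENNReal.ofReal_pow (by positivity), ← ENNReal.ofReal_mul (by positivity),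
    ← ENNReal.ofReal_mul h0]
  congr 1
  rw [zpow_add₀ two_ne_zero, zpow_natCast, mul_pow, ← IntE_four, ← pow_mul, mul_comm m 2, pow_mul]
  have h1 : (4 : ℝ) ^ j ≠ 0 := by positivity
  have h2 : (2 : ℝ) ^ 2 = 4 := by norm_num
  rw [h2]
  field_simp

private theorem IntE_out (i : ℕ) :
    ENNReal.ofReal (cc i * 4 ^ (3 + i)) * ENNReal.ofReal ((2 : ℝ) ^ (-1 - (i : ℤ))) ^ 2 =
      ENNReal.ofReal (cc i) * 16 := by
  have h0 := cc_nonneg i
  have h16 : (16 : ℝ≥0∞) = ENNReal.ofReal 16 := by norm_num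
  rw [h16, ← ENNReal.ofReal_pow (by positivity), ← ENNReal.ofReal_mul (by positivity),
    ← ENNReal.ofReal_mul h0]
  congr 1
  rw [← IntE_four, mul_assoc, ← zpow_natCast (4 : ℝ) (3 + i), ← zpow_add₀ four_ne_zero]
  have h1 : ((3 + i : ℕ) : ℤ) + (-1 - (i : ℤ)) = 2 := by
    push_cast
    ring
  rw [h1]
  norm_num

private theorem IntE_first (P : Finset ℂ) (Ain Aob : ℕ → ℤ → Finset ℂ)
    (hin : ∀ (i : ℕ) (j : ℤ), (Ain i j).card ≤ NN P ((2 : ℝ) ^ (j - i - 1)) - NN P ((2 : ℝ) ^ (j - i - 1 + 5)))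
    (hob : ∀ (i : ℕ) (j : ℤ), (Aob i j).card ≤
      289 * (NN P ((2 : ℝ) ^ (j + 1 + i)) - NN P ((2 : ℝ) ^ (j + 1 + i + 3)))) :
    ∫⁻ z, ∑' i : ℕ, ∑' j : ℤ, ENNReal.ofReal (cc i / 4 ^ j) *
      (∑ a ∈ Ain i j, (ball a ((2 : ℝ) ^ (j + 5))).indicator (fun _ => (1 : ℝ≥0∞)) z +
        ∑ a ∈ Aob i j, (ball a ((2 : ℝ) ^ (j + 2))).indicator (fun _ => 1) z) ≤
      (∑' i : ℕ, ENNReal.ofReal (cc i)) * (NNReal.pi * (18992 * P.card)) := by
  have hm : ∀ (i : ℕ) (j : ℤ), Measurable fun z : ℂ => ENNReal.ofReal (cc i / 4 ^ j) *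
      (∑ a ∈ Ain i j, (ball a ((2 : ℝ) ^ (j + 5))).indicator (fun _ => (1 : ℝ≥0∞)) z +
        ∑ a ∈ Aob i j, (ball a ((2 : ℝ) ^ (j + 2))).indicator (fun _ => 1) z) :=
    fun i j => ((IntE_meas _ _).add (IntE_meas _ _)).const_mul _
  rw [lintegral_tsum fun i => (Measurable.ennreal_tsum (hm i)).aemeasurable, ← ENNReal.tsum_mul_right]
  refine ENNReal.tsum_le_tsum fun i => ?_
  rw [lintegral_tsum fun j => (hm i j).aemeasurable]
  have h1 : ∀ j : ℤ, ∫⁻ z, ENNReal.ofReal (cc i / 4 ^ j) *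
      (∑ a ∈ Ain i j, (ball a ((2 : ℝ) ^ (j + 5))).indicator (fun _ => (1 : ℝ≥0∞)) z +
        ∑ a ∈ Aob i j, (ball a ((2 : ℝ) ^ (j + 2))).indicator (fun _ => 1) z) =
      ENNReal.ofReal (cc i) * NNReal.pi * (1024 * (Ain i j).card + 16 * (Aob i j).card) := by
    intro j
    rw [lintegral_const_mul' _ _ ENNReal.ofReal_ne_top, lintegral_add_left (IntE_meas _ _),
      IntE_int, IntE_int]
    have h2 := IntE_sc i j 5
    have h3 := IntE_sc i j 2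
    have h4 : ENNReal.ofReal ((4 : ℝ) ^ 5) = 1024 := by norm_num
    have h5 : ENNReal.ofReal ((4 : ℝ) ^ 2) = 16 := by norm_num
    rw [h4] at h2
    rw [h5] at h3
    push_cast at h2 h3
    generalize ENNReal.ofReal ((2 : ℝ) ^ (j + 5)) ^ 2 = Y1 at *
    generalize ENNReal.ofReal ((2 : ℝ) ^ (j + 2)) ^ 2 = Y2 at *
    generalize ENNReal.ofReal (cc i / 4 ^ j) = X at *
    calc X * (((Ain i j).card : ℝ≥0∞) * (Y1 * NNReal.pi) + ((Aob i j).card : ℝ≥0∞) * (Y2 * NNReal.pi))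
        = (X * Y1) * (NNReal.pi * (Ain i j).card) + (X * Y2) * (NNReal.pi * (Aob i j).card) := by ring
      _ = ENNReal.ofReal (cc i) * NNReal.pi * (1024 * (Ain i j).card + 16 * (Aob i j).card) := by
          rw [h2, h3]
          ring
  rw [tsum_congr h1, ENNReal.tsum_mul_left, ENNReal.tsum_add, ENNReal.tsum_mul_left,
    ENNReal.tsum_mul_left, mul_assoc]
  refine mul_le_mul' le_rfl (mul_le_mul' le_rfl ?_)
  have h6 : ∑' j : ℤ, ((Ain i j).card : ℝ≥0∞) ≤ 5 * P.card := by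
    refine le_trans (ENNReal.tsum_le_tsum fun j => ?_) (tsum_tele P 5 (-i - 1))
    have h7 : j + (-(i : ℤ) - 1) = j - i - 1 := by ring
    rw [h7]
    exact_mod_cast hin i j
  have h8 : ∑' j : ℤ, ((Aob i j).card : ℝ≥0∞) ≤ 289 * (3 * P.card) := by
    have h9 := tsum_tele P 3 (1 + i)
    calc ∑' j : ℤ, ((Aob i j).card : ℝ≥0∞) ≤ ∑' j : ℤ, 289 * ((NN P ((2 : ℝ) ^ (j + (1 + i))) -
          NN P ((2 : ℝ) ^ (j + (1 + i) + (3 : ℕ))) : ℕ) : ℝ≥0∞) := by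
          refine ENNReal.tsum_le_tsum fun j => ?_
          have h7 : j + (1 + (i : ℤ)) = j + 1 + i := by ring
          rw [h7]
          exact_mod_cast hob i j
      _ = 289 * ∑' j : ℤ, ((NN P ((2 : ℝ) ^ (j + (1 + i))) -
          NN P ((2 : ℝ) ^ (j + (1 + i) + (3 : ℕ))) : ℕ) : ℝ≥0∞) := ENNReal.tsum_mul_left
      _ ≤ 289 * (3 * P.card) := mul_le_mul' le_rfl h9
  calc 1024 * ∑' j : ℤ, ((Ain i j).card : ℝ≥0∞) + 16 * ∑' j : ℤ, ((Aob i j).card : ℝ≥0∞) ≤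
      1024 * (5 * P.card) + 16 * (289 * (3 * P.card)) :=
        add_le_add (mul_le_mul' le_rfl h6) (mul_le_mul' le_rfl h8)
    _ = 18992 * P.card := by ring

private theorem IntE_third (Aout : ℕ → Finset ℂ) (hout : ∀ i, (Aout i).card ≤ 25) :
    ∫⁻ z, ∑' i : ℕ, ENNReal.ofReal (cc i * 4 ^ (3 + i)) *
      ∑ a ∈ Aout i, (ball a ((2 : ℝ) ^ (-1 - (i : ℤ)))).indicator (fun _ => (1 : ℝ≥0∞)) z ≤
      (∑' i : ℕ, ENNReal.ofReal (cc i)) * (NNReal.pi * 400) := by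
  have hm : ∀ (i : ℕ), Measurable fun z : ℂ => ENNReal.ofReal (cc i * 4 ^ (3 + i)) *
      ∑ a ∈ Aout i, (ball a ((2 : ℝ) ^ (-1 - (i : ℤ)))).indicator (fun _ => (1 : ℝ≥0∞)) z :=
    fun i => (IntE_meas _ _).const_mul _
  rw [lintegral_tsum fun i => (hm i).aemeasurable, ← ENNReal.tsum_mul_right]
  refine ENNReal.tsum_le_tsum fun i => ?_
  rw [lintegral_const_mul _ (IntE_meas _ _), IntE_int]
  have h1 := IntE_out i
  have h2 : ((Aout i).card : ℝ≥0∞) ≤ 25 := by exact_mod_cast hout i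
  generalize ENNReal.ofReal ((2 : ℝ) ^ (-1 - (i : ℤ))) ^ 2 = Y at *
  generalize ENNReal.ofReal (cc i * 4 ^ (3 + i)) = X at *
  calc X * (((Aout i).card : ℝ≥0∞) * (Y * NNReal.pi)) = (X * Y) * NNReal.pi * (Aout i).card := by ring
    _ = ENNReal.ofReal (cc i) * 16 * NNReal.pi * (Aout i).card := by rw [h1]
    _ ≤ ENNReal.ofReal (cc i) * 16 * NNReal.pi * 25 := mul_le_mul' le_rfl h2
    _ = ENNReal.ofReal (cc i) * (NNReal.pi * 400) := by ring

theorem int_bound : ∃ C : ℝ, 0 < C ∧ ∀ (P : Finset ℂ) (E : ℂ → ℝ≥0∞), PtHyp P E →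
    ∫⁻ z in ball (0 : ℂ) (1 / 4), E z ≤ ENNReal.ofReal (C * (1 + P.card)) := by
  classical
  set Z : ℝ≥0∞ := ∑' i : ℕ, ENNReal.ofReal (cc i) with hZ
  have hZt : Z ≠ ⊤ := tsum_cc
  set K0 : ℝ≥0∞ := 80 * (ENNReal.ofReal (1 / 4) ^ 2 * NNReal.pi) + Z * (NNReal.pi * 400) with hK0
  set K1 : ℝ≥0∞ := Z * (NNReal.pi * 18992) with hK1
  have hK0t : K0 ≠ ⊤ := by
    refine ENNReal.add_ne_top.mpr ⟨?_, ?_⟩
    · exact ENNReal.mul_ne_top (by norm_num)
        (ENNReal.mul_ne_top (ENNReal.pow_ne_top ENNReal.ofReal_ne_top) ENNReal.coe_ne_top)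
    · exact ENNReal.mul_ne_top hZt (ENNReal.mul_ne_top ENNReal.coe_ne_top (by norm_num))
  have hK1t : K1 ≠ ⊤ :=
    ENNReal.mul_ne_top hZt (ENNReal.mul_ne_top ENNReal.coe_ne_top (by norm_num))
  have hKt : K0 + K1 ≠ ⊤ := ENNReal.add_ne_top.mpr ⟨hK0t, hK1t⟩
  refine ⟨(K0 + K1).toReal + 1, by positivity, fun P E hE => ?_⟩
  have hx1 : ∀ (i : ℕ) (j : ℤ), ∃ A : Finset ℂ, (∀ a ∈ P, (∃ b ∈ P, (2 : ℝ) ^ (j - i - 1) ≤ dist a b ∧
      dist a b ≤ 2 ^ (j - i + 2)) → ∃ a' ∈ A, dist a a' < 2 ^ (j - i + 4)) ∧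
      A.card ≤ NN P ((2 : ℝ) ^ (j - i - 1)) - NN P ((2 : ℝ) ^ (j - i - 1 + 5)) := by
    intro i j
    have h := exists_in P (j - i - 1)
    have h1 : j - (i : ℤ) - 1 + 3 = j - i + 2 := by ring
    rw [h1] at h
    obtain ⟨A, hA, hA'⟩ := h
    refine ⟨A, fun a ha hb => ?_, hA'⟩
    obtain ⟨a', ha', hd⟩ := hA a ha hb
    have h2 : j - (i : ℤ) - 1 + 5 = j - i + 4 := by ring
    rw [h2] at hd
    exact ⟨a', ha', hd⟩
  have hx2 : ∀ (i : ℕ) (j : ℤ), ∃ A : Finset ℂ, (∀ a ∈ P, (∃ b ∈ P, (2 : ℝ) ^ (j + 1 + i) ≤ dist a b ∧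
      dist a b ≤ 2 ^ (j + 2 + i)) →
      (∀ p ∈ P, p ≠ a → ¬ ((2 : ℝ) ^ (j - i) ≤ dist p a ∧ dist p a ≤ 2 ^ (j + 1 + i))) →
      ∃ a' ∈ A, dist a a' < 2 ^ (j - i)) ∧
      A.card ≤ 289 * (NN P ((2 : ℝ) ^ (j + 1 + i)) - NN P ((2 : ℝ) ^ (j + 1 + i + 3))) := by
    intro i j
    have h := exists_ob P (j + 1 + i) (j - i) (by omega)
    have h1 : j + 1 + (i : ℤ) + 1 = j + 2 + i := by ring
    rw [h1] at h
    exact h
  have hx3 : ∀ i : ℕ, ∃ A : Finset ℂ, (∀ a ∈ P, ‖a‖ ≤ 1 / 2 →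
      (∀ p ∈ P, p ≠ a → ¬ ((2 : ℝ) ^ (-3 - 2 * (i : ℤ)) ≤ dist p a ∧ dist p a ≤ 1 / 4)) →
      ∃ a' ∈ A, dist a a' < 2 ^ (-3 - 2 * (i : ℤ))) ∧ A.card ≤ 25 :=
    fun i => exists_out P (-3 - 2 * (i : ℤ)) (by omega)
  choose Ain hin hinc using hx1
  choose Aob hob hobc using hx2
  choose Aout hout houtc using hx3
  have hae : ∀ᵐ z ∂(volume.restrict (ball (0 : ℂ) (1 / 4))), E z ≤ GG Ain Aob Aout z := by
    have h1 : ∀ᵐ z ∂(volume.restrict (ball (0 : ℂ) (1 / 4))), z ∉ (P : Set ℂ) :=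
      ae_restrict_of_ae (P.finite_toSet.countable.ae_notMem volume)
    filter_upwards [ae_restrict_mem measurableSet_ball, h1] with z hz hzP
    exact pt_bound hE hin hob hout hz hzP
  have hlast : K0 + K1 * P.card ≤ ENNReal.ofReal (((K0 + K1).toReal + 1) * (1 + P.card)) := by
    rw [ENNReal.ofReal_mul (by positivity), ENNReal.ofReal_add (by positivity) zero_le_one,
      ENNReal.ofReal_toReal hKt, ENNReal.ofReal_add zero_le_one (by positivity), ENNReal.ofReal_one,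
      ENNReal.ofReal_natCast]
    calc K0 + K1 * P.card ≤ (K0 + K1 + 1) * 1 + (K0 + K1 + 1) * P.card := by
          refine add_le_add ?_ (mul_le_mul' ?_ le_rfl)
          · rw [mul_one, add_assoc]
            exact le_self_add
          · rw [add_comm K0 K1, add_assoc]
            exact le_self_add
      _ = (K0 + K1 + 1) * (1 + P.card) := by ring
  refine le_trans (lintegral_mono_ae hae) (le_trans ?_ hlast)
  unfold GG
  have hm1 : Measurable fun z : ℂ => ∑' i : ℕ, ∑' j : ℤ, ENNReal.ofReal (cc i / 4 ^ j) *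
      (∑ a ∈ Ain i j, (ball a ((2 : ℝ) ^ (j + 5))).indicator (fun _ => (1 : ℝ≥0∞)) z +
        ∑ a ∈ Aob i j, (ball a ((2 : ℝ) ^ (j + 2))).indicator (fun _ => 1) z) :=
    Measurable.ennreal_tsum fun i => Measurable.ennreal_tsum fun j =>
      ((IntE_meas _ _).add (IntE_meas _ _)).const_mul _
  have hm2 : Measurable fun z : ℂ => 80 + ∑' i : ℕ, ∑' j : ℤ, ENNReal.ofReal (cc i / 4 ^ j) *
      (∑ a ∈ Ain i j, (ball a ((2 : ℝ) ^ (j + 5))).indicator (fun _ => (1 : ℝ≥0∞)) z +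
        ∑ a ∈ Aob i j, (ball a ((2 : ℝ) ^ (j + 2))).indicator (fun _ => 1) z) :=
    measurable_const.add hm1
  rw [lintegral_add_left hm2, lintegral_add_left measurable_const,
    setLIntegral_const, Complex.volume_ball]
  have h1 := (setLIntegral_le_lintegral (ball (0 : ℂ) (1 / 4)) _).trans
    (IntE_first P Ain Aob hinc hobc)
  have h2 := (setLIntegral_le_lintegral (ball (0 : ℂ) (1 / 4)) _).trans (IntE_third Aout houtc)
  refine le_trans (add_le_add (add_le_add le_rfl h1) h2) (le_of_eq ?_)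
  rw [hK0, hK1]
  ring

end Pool.Agent.Lib.MP_62070a_ag.FH
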