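import Pool.Agent.Lib.MP_62070a_ag.FH.Bloch
import Pool.Agent.Lib.MP_62070a_ag.FH.CosLift
import Pool.Agent.Lib.MP_62070a_ag.FH.Grid

/-!
# FH / Landau : Landau's theorem with an explicit growth in `h 0`

Proof. `w = 2 h - 1` omits `1` and `-1`: `exists_cos` gives `F` with `cos (π F) = 2 h - 1`, `|Re F 0| ≤ 1`. `F z` is never an integer (`cos (π N) = ±1`), in
particular `F` omits `1`, `-1`: `exists_cos` gives `g` with `cos (π g) = F`. The values `g z` are never points `ζ` with `cos (π ζ)` an integer,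
so by `exists_cos_int` the image `g '' ball 0 1` contains no ball of radius `1`: `‖g' 0‖ ≤ 128` (`bloch`).
Derivatives at `0` (all functions are differentiable at `0`): `2 h' = - π sin (π F) F'`, `F' = - π sin (π g) g'`. As `cos² + sin² = 1`:
`|sin (π F)|² = |1 - (2 h - 1)²| = 4 |h| |1 - h|`, `|sin (π g)|² = |1 - F²| ≤ 1 + |F|²`. So at `0`:
`|h'|² = (π⁴ / 4) 4 |h| |1 - h| |1 - F²| |g'|² ≤ π⁴ 128² (1 + |h|)² (1 + |F|²)`.
Bound of `F = F 0`: write `F = s + i t`, `|s| ≤ 1`. `|sinh (π t)| ≤ |cos (π F)|` (`|cos (π F)|² = cos² (π s) + sinh² (π t)`, see `Complex.sq_norm`,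
`Complex.cos_add`..; or directly `|cos ζ| ≥ (exp |Im ζ| - exp (- |Im ζ|)) / 2` from the exponential formula and the triangle inequality), and
`π |t| ≤ sinh (π |t|) ≤ |2 h - 1| ≤ 1 + 2 |h|` (`Real.self_le_sinh_iff`). So `|t| ≤ 1 + |h|` (`π ≥ 3`), `1 + |F|² ≤ 1 + 1 + (1 + |h|)² ≤ 3 (1 + |h|)²`.
Total: `|h'|² ≤ 3 π⁴ 128² (1 + |h|)⁴`, and `(1 + |h|)² ≤ 2 (1 + |h|²)`: `|h'| ≤ √3 π² 128 · 2 (1 + |h|²) ≤ 6000 (1 + |h|²)` (with
`√3 ≤ 2`, `π² ≤ 10`: `2 · 10 · 128 · 2 = 5120`).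
-/

set_option autoImplicit false

namespace Pool.Agent.Lib.MP_62070a_ag.FH

open Metric Set Filter Topology

private theorem landau_sinh {F : ℂ} : |Real.sinh (Real.pi * F.im)| ≤ ‖Complex.cos (Real.pi * F)‖ := by
  have hre : ((Real.pi : ℂ) * F).re = Real.pi * F.re := by simp
  have him : ((Real.pi : ℂ) * F).im = Real.pi * F.im := by simp
  have h1 : Complex.cos (Real.pi * F) = ((Real.cos (Real.pi * F.re) * Real.cosh (Real.pi * F.im) : ℝ) : ℂ) -
      ((Real.sin (Real.pi * F.re) * Real.sinh (Real.pi * F.im) : ℝ) : ℂ) * Complex.I := by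
    rw [Complex.cos_eq, hre, him]
    push_cast
    ring
  have h2 : ‖Complex.cos (Real.pi * F)‖ ^ 2 = (Real.cos (Real.pi * F.re) * Real.cosh (Real.pi * F.im)) ^ 2 +
      (Real.sin (Real.pi * F.re) * Real.sinh (Real.pi * F.im)) ^ 2 := by
    rw [h1, Complex.sq_norm, Complex.normSq_apply]
    simp only [Complex.sub_re, Complex.sub_im, Complex.ofReal_re, Complex.ofReal_im, Complex.mul_re,
      Complex.mul_im, Complex.I_re, Complex.I_im]
    ring
  have h3 := Real.sin_sq_add_cos_sq (Real.pi * F.re)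
  have h4 := Real.cosh_sq (Real.pi * F.im)
  refine abs_le_of_sq_le_sq (a := Real.sinh (Real.pi * F.im)) ?_ (norm_nonneg _)
  rw [h2]
  nlinarith [sq_nonneg (Real.cos (Real.pi * F.re))]

private theorem landau_im {F w : ℂ} (h : Complex.cos (Real.pi * F) = w) : 3 * |F.im| ≤ ‖w‖ := by
  have h1 := landau_sinh (F := F)
  rw [h, Real.abs_sinh] at h1
  have h2 : |Real.pi * F.im| ≤ Real.sinh |Real.pi * F.im| := Real.self_le_sinh_iff.2 (abs_nonneg _)
  rw [abs_mul, abs_of_pos Real.pi_pos] at h1 h2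
  have h3 := mul_le_mul_of_nonneg_right Real.pi_gt_three.le (abs_nonneg F.im)
  exact h3.trans (h2.trans h1)

private theorem landau_cos (N : ℤ) : Complex.cos ((N : ℂ) * Real.pi) = (-1) ^ N := by
  have h := congrArg (fun x : ℝ => (x : ℂ)) (Real.cos_int_mul_pi N)
  simpa using h

private theorem landau_sin (z : ℂ) : ‖Complex.sin z‖ ^ 2 = ‖1 - Complex.cos z ^ 2‖ := by
  rw [← norm_pow]
  congr 1
  linear_combination Complex.sin_sq_add_cos_sq z

theorem landau {h : ℂ → ℂ} (hh : DifferentiableOn ℂ h (ball 0 1)) (h0 : ∀ z ∈ ball (0 : ℂ) 1, h z ≠ 0)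
    (h1 : ∀ z ∈ ball (0 : ℂ) 1, h z ≠ 1) : ‖deriv h 0‖ ≤ 6000 * (1 + ‖h 0‖ ^ 2) := by
  have hw : DifferentiableOn ℂ (fun z => 2 * h z - 1) (ball 0 1) := (hh.const_mul 2).sub_const 1
  obtain ⟨F, hF, hcF, hF0⟩ := exists_cos one_pos hw
    (fun z hz e => h1 z hz (by linear_combination (1 / 2 : ℂ) * e))
    (fun z hz e => h0 z hz (by linear_combination (1 / 2 : ℂ) * e))
  have hN : ∀ z ∈ ball (0 : ℂ) 1, ∀ N : ℤ, F z ≠ N := by
    intro z hz N hN
    have h2 := hcF z hz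
    rw [hN, mul_comm, landau_cos] at h2
    rcases Int.even_or_odd N with h3 | h3
    · rw [h3.neg_one_zpow] at h2
      exact h1 z hz (by linear_combination (-1 / 2 : ℂ) * h2)
    · rw [h3.neg_one_zpow] at h2
      exact h0 z hz (by linear_combination (-1 / 2 : ℂ) * h2)
  obtain ⟨g, hg, hcg, -⟩ := exists_cos one_pos hF
    (fun z hz e => hN z hz 1 (by rw [e]; norm_num))
    (fun z hz e => hN z hz (-1) (by rw [e]; norm_num))
  have hb : ‖deriv g 0‖ ≤ 128 := by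
    refine bloch hg fun c hc => ?_
    obtain ⟨z, hz, N, hzN⟩ := exists_cos_int c
    obtain ⟨ζ, hζ, rfl⟩ := hc hz
    exact hN ζ hζ N (by rw [← hcg ζ hζ, hzN])
  have hU : ball (0 : ℂ) 1 ∈ 𝓝 (0 : ℂ) := ball_mem_nhds 0 one_pos
  have m0 : (0 : ℂ) ∈ ball (0 : ℂ) 1 := mem_ball_self one_pos
  have dF := (hF.differentiableAt hU).hasDerivAt
  have dg := (hg.differentiableAt hU).hasDerivAt
  have e1 : deriv F 0 = -Complex.sin (Real.pi * g 0) * (Real.pi * deriv g 0) := by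
    have h2 : F =ᶠ[𝓝 0] fun z => Complex.cos (Real.pi * g z) := by
      filter_upwards [hU] with z hz
      exact (hcg z hz).symm
    rw [h2.deriv_eq]
    exact ((dg.const_mul (Real.pi : ℂ)).ccos).deriv
  have e2 : deriv h 0 = (-Complex.sin (Real.pi * F 0) * (Real.pi * deriv F 0)) / 2 := by
    have h2 : h =ᶠ[𝓝 0] fun z => (Complex.cos (Real.pi * F z) + 1) / 2 := by
      filter_upwards [hU] with z hz
      rw [hcF z hz]
      ring
    rw [h2.deriv_eq]
    exact ((((dF.const_mul (Real.pi : ℂ)).ccos).add_const (1 : ℂ)).div_const 2).deriv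
  set H := ‖h 0‖ with hH
  have H0 : 0 ≤ H := norm_nonneg _
  have s1 : ‖Complex.sin (Real.pi * F 0)‖ ≤ 2 * (1 + H) := by
    refine abs_le_of_sq_le_sq' ?_ (by positivity) |>.2
    rw [landau_sin, hcF 0 m0]
    have h2 : (1 : ℂ) - (2 * h 0 - 1) ^ 2 = 4 * (h 0 * (1 - h 0)) := by ring
    rw [h2, norm_mul, norm_mul, ← hH]
    have h3 : ‖1 - h 0‖ ≤ 1 + H := (norm_sub_le _ _).trans (by rw [norm_one])
    have h4 : ‖(4 : ℂ)‖ = 4 := by norm_num
    rw [h4]
    nlinarith [norm_nonneg (1 - h 0)]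
  have him : |(F 0).im| ≤ 1 + H := by
    have h2 := landau_im (hcF 0 m0)
    have h3 : ‖2 * h 0 - 1‖ ≤ 2 * H + 1 := by
      refine (norm_sub_le _ _).trans ?_
      rw [norm_mul, norm_one, ← hH]
      norm_num
    linarith
  have s2 : ‖Complex.sin (Real.pi * g 0)‖ ≤ 2 * (1 + H) := by
    refine abs_le_of_sq_le_sq' ?_ (by positivity) |>.2
    rw [landau_sin, hcg 0 m0]
    have h2 : ‖F 0‖ ^ 2 = (F 0).re ^ 2 + (F 0).im ^ 2 := by
      rw [Complex.sq_norm, Complex.normSq_apply]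
      ring
    have h3 : (F 0).re ^ 2 ≤ 1 := by
      rw [← sq_abs]
      nlinarith [abs_nonneg (F 0).re]
    have h4 : (F 0).im ^ 2 ≤ (1 + H) ^ 2 := by
      rw [← sq_abs]
      nlinarith [abs_nonneg (F 0).im]
    have h5 : ‖1 - F 0 ^ 2‖ ≤ 1 + ‖F 0‖ ^ 2 := by
      refine (norm_sub_le _ _).trans ?_
      rw [norm_one, norm_pow]
    nlinarith
  have hpi : Real.pi ^ 2 ≤ 10 := by
    have h2 := Real.pi_lt_d2
    have h3 := Real.pi_pos
    nlinarith
  rw [e2, e1]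
  have e3 : ‖-Complex.sin (Real.pi * F 0) * (Real.pi * (-Complex.sin (Real.pi * g 0) *
      (Real.pi * deriv g 0))) / 2‖ = ‖Complex.sin (Real.pi * F 0)‖ * ‖Complex.sin (Real.pi * g 0)‖ *
      (Real.pi ^ 2 * ‖deriv g 0‖) / 2 := by
    rw [norm_div, norm_mul, norm_mul, norm_mul, norm_mul, norm_neg, norm_neg, Complex.norm_real,
      Real.norm_of_nonneg Real.pi_pos.le]
    have h4 : ‖(2 : ℂ)‖ = 2 := by norm_num
    rw [h4]
    ring
  rw [e3]
  have h6 : ‖Complex.sin (Real.pi * F 0)‖ * ‖Complex.sin (Real.pi * g 0)‖ ≤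
      (2 * (1 + H)) * (2 * (1 + H)) := mul_le_mul s1 s2 (norm_nonneg _) (by positivity)
  have h7 : Real.pi ^ 2 * ‖deriv g 0‖ ≤ 10 * 128 := mul_le_mul hpi hb (norm_nonneg _) (by norm_num)
  have h8 := mul_le_mul h6 h7 (by positivity) (by positivity)
  nlinarith [sq_nonneg (1 - H)]

end Pool.Agent.Lib.MP_62070a_ag.FH
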