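import Pool.Agent.Lib.MP_62070a_ag.FH.Den

/-!
# FH / Lift : local lifts and the energy

`Projectivization.mk_eq_mk_iff'` : `mk K v hv = mk K w hw ↔ ∃ a : K, a • w = v`. `nrm i p` is the representative of the
point `p` whose coordinate `i` is `1` (if the coordinate `i` of `p` is not zero).
-/

set_option autoImplicit false

namespace Pool.Agent.Lib.MP_62070a_ag.FH

open Metric Set Filter Topology

variable {n : ℕ}

/-- the representative with coordinate `i` equal to `1` -/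
noncomputable def nrm (i : Fin (n + 1)) (p : PS n) : V n := (p.rep i)⁻¹ • p.rep

private theorem lift_rep (v : V n) (hv : v ≠ 0) :
    ∃ a : ℂ, a ≠ 0 ∧ (Projectivization.mk ℂ v hv).rep = a • v := by
  obtain ⟨a, ha⟩ := Projectivization.exists_smul_eq_mk_rep ℂ v hv
  exact ⟨(a : ℂ), a.ne_zero, ha.symm⟩

private theorem lift_smul_apply (a : ℂ) (v : V n) (i : Fin (n + 1)) : (a • v) i = a * v i := rfl

private theorem lift_ex {P : PS n} {v w : V n} (e : v = w)
    (h : ∃ h : w ≠ 0, P = Projectivization.mk ℂ w h) : ∃ h : v ≠ 0, P = Projectivization.mk ℂ v h := by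
  subst e
  exact h

private theorem lift_coord {v : V n} (hv : v ≠ 0) : ∃ i, v i ≠ 0 := by
  by_contra hcon
  push Not at hcon
  apply hv
  ext i
  rw [hcon i]
  rfl

theorem nrm_mk (i : Fin (n + 1)) (v : V n) (hv : v ≠ 0) (hi : v i ≠ 0) :
    nrm i (Projectivization.mk ℂ v hv) = (v i)⁻¹ • v := by
  obtain ⟨a, ha, h1⟩ := lift_rep v hv
  rw [nrm, h1, lift_smul_apply, smul_smul, mul_inv]
  congr 1
  field_simp

theorem nrm_apply {i : Fin (n + 1)} {p : PS n} (h : p.rep i ≠ 0) : nrm i p i = 1 := by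
  rw [nrm, lift_smul_apply, inv_mul_cancel₀ h]

theorem nrm_ne_zero {i : Fin (n + 1)} {p : PS n} (h : p.rep i ≠ 0) : nrm i p ≠ 0 := by
  intro h0
  have h1 := nrm_apply h
  rw [h0] at h1
  exact zero_ne_one h1

theorem mk_nrm {i : Fin (n + 1)} {p : PS n} (h : p.rep i ≠ 0) (h' : nrm i p ≠ 0) :
    Projectivization.mk ℂ (nrm i p) h' = p := by
  have e : p = Projectivization.mk ℂ p.rep p.rep_nonzero := p.mk_rep.symm
  refine Eq.trans ?_ e.symm
  rw [Projectivization.mk_eq_mk_iff']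
  exact ⟨(p.rep i)⁻¹, rfl⟩

theorem rep_mk_ne_zero_iff (i : Fin (n + 1)) (v : V n) (hv : v ≠ 0) :
    (Projectivization.mk ℂ v hv).rep i ≠ 0 ↔ v i ≠ 0 := by
  obtain ⟨a, ha, h1⟩ := lift_rep v hv
  rw [h1, lift_smul_apply]
  constructor
  · exact fun h => right_ne_zero_of_mul h
  · exact fun h => mul_ne_zero ha h

theorem IsLift.ne_zero {φ : ℂ → PS n} {f : ℂ → V n} {z : ℂ} (h : IsLift φ f z) : f z ≠ 0 := by
  obtain ⟨h1, -⟩ := h.2.self_of_nhds
  exact h1

theorem IsLift.eq_mk {φ : ℂ → PS n} {f : ℂ → V n} {z : ℂ} (h : IsLift φ f z) :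
    φ z = Projectivization.mk ℂ (f z) h.ne_zero := by
  obtain ⟨h1, h2⟩ := h.2.self_of_nhds
  exact h2

/-- `eventually_eventually_nhds`, `AnalyticAt.eventually_analyticAt` -/
theorem IsLift.eventually {φ : ℂ → PS n} {f : ℂ → V n} {z : ℂ} (h : IsLift φ f z) :
    ∀ᶠ w in 𝓝 z, IsLift φ f w := by
  have h1 := h.1.eventually_analyticAt
  have h2 := eventually_eventually_nhds.2 h.2
  filter_upwards [h1, h2] with w a b
  exact ⟨a, b⟩

private theorem lift_an {f : ℂ → V n} {z : ℂ} (h : AnalyticAt ℂ f z) (i : Fin (n + 1)) :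
    AnalyticAt ℂ (fun w => f w i) z :=
  ((EuclideanSpace.proj i : V n →L[ℂ] ℂ).analyticAt (f z)).comp h

theorem IsLift.smul {φ : ℂ → PS n} {f : ℂ → V n} {g : ℂ → ℂ} {z : ℂ} (h : IsLift φ f z) (hg : AnalyticAt ℂ g z)
    (h0 : g z ≠ 0) : IsLift φ (fun w => g w • f w) z := by
  refine ⟨hg.smul h.1, ?_⟩
  filter_upwards [h.2, hg.continuousAt.eventually_ne h0] with w h1 h3
  obtain ⟨h1, h2⟩ := h1
  refine ⟨smul_ne_zero h3 h1, ?_⟩
  rw [h2, Projectivization.mk_eq_mk_iff']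
  exact ⟨(g w)⁻¹, by rw [smul_smul, inv_mul_cancel₀ h3, one_smul]⟩

/-- the normalised lift. Proof: `nrm i (φ w) = (f w i)⁻¹ • f w` near `z` (`nrm_mk`) and the right side is a lift by
`IsLift.smul`; `AnalyticAt.congr`. -/
theorem IsLift.nrm {φ : ℂ → PS n} {f : ℂ → V n} {z : ℂ} (h : IsLift φ f z) {i : Fin (n + 1)} (hi : f z i ≠ 0) :
    IsLift φ (fun w => nrm i (φ w)) z := by
  have h1 := h.smul ((lift_an h.1 i).inv hi) (inv_ne_zero hi)
  have h2 : ∀ᶠ w in 𝓝 z, FH.nrm i (φ w) = (f w i)⁻¹ • f w := by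
    filter_upwards [h.2, (lift_an h.1 i).continuousAt.eventually_ne hi] with w h3 h4
    obtain ⟨h3, h5⟩ := h3
    rw [h5, nrm_mk i _ h3 h4]
  refine ⟨h1.1.congr ?_, ?_⟩
  · filter_upwards [h2] with w hw
    exact hw.symm
  · filter_upwards [h2, h1.2] with w hw h3
    exact lift_ex hw h3

/-- same, with the hypothesis on the point -/
theorem isLift_nrm {φ : ℂ → PS n} {z : ℂ} (h : ∃ f, IsLift φ f z) {i : Fin (n + 1)} (hi : (φ z).rep i ≠ 0) :
    IsLift φ (fun w => nrm i (φ w)) z := by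
  obtain ⟨f, hf⟩ := h
  refine hf.nrm ((rep_mk_ne_zero_iff i _ hf.ne_zero).1 ?_)
  rw [← hf.eq_mk]
  exact hi

private theorem lift_den {φ : ℂ → PS n} {f : ℂ → V n} {z : ℂ} (h : IsLift φ f z) {i : Fin (n + 1)}
    (hi : f z i ≠ 0) : den (fun w => nrm i (φ w)) z = den f z := by
  have h2 : (fun w => nrm i (φ w)) =ᶠ[𝓝 z] fun w => (f w i)⁻¹ • f w := by
    filter_upwards [h.2, (lift_an h.1 i).continuousAt.eventually_ne hi] with w h3 h4
    obtain ⟨h3, h5⟩ := h3
    rw [h5, nrm_mk i _ h3 h4]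
  rw [den_congr h2]
  exact den_smul (g := fun w => (f w i)⁻¹) h.1.differentiableAt
    ((lift_an h.1 i).inv hi).differentiableAt (inv_ne_zero hi)

/-- the energy is the density of any lift. Proof: two lifts `f`, `g` of `φ` at `z`: choose `i` with `f z i ≠ 0`; then also
`g z i ≠ 0` and near `z` both are nonzero and `(f w i)⁻¹ • f w = nrm i (φ w) = (g w i)⁻¹ • g w`; use `den_smul`, `den_congr`. -/
theorem IsLift.energy_eq {φ : ℂ → PS n} {f : ℂ → V n} {z : ℂ} (h : IsLift φ f z) : energy φ z = den f z := by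
  have hex : ∃ f, IsLift φ f z := ⟨f, h⟩
  rw [energy, dif_pos hex]
  obtain ⟨i, hi⟩ := lift_coord h.ne_zero
  have hi2 : (φ z).rep i ≠ 0 := by
    rw [h.eq_mk]
    exact (rep_mk_ne_zero_iff i _ h.ne_zero).2 hi
  have hg := hex.choose_spec
  have hi3 : hex.choose z i ≠ 0 := by
    rw [hg.eq_mk] at hi2
    exact (rep_mk_ne_zero_iff i _ hg.ne_zero).1 hi2
  rw [← lift_den h hi, ← lift_den hg hi3]

theorem energy_nonneg (φ : ℂ → PS n) (z : ℂ) : 0 ≤ energy φ z := by
  rw [energy]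
  split_ifs
  · exact den_nonneg _ _
  · exact le_rfl

theorem IsLift.congr {φ ψ : ℂ → PS n} {f : ℂ → V n} {z : ℂ} (h : IsLift φ f z) (e : φ =ᶠ[𝓝 z] ψ) : IsLift ψ f z := by
  refine ⟨h.1, ?_⟩
  filter_upwards [h.2, e] with w h1 h2
  obtain ⟨h1, h3⟩ := h1
  exact ⟨h1, h2.symm.trans h3⟩

theorem IsLift.comp {φ : ℂ → PS n} {f : ℂ → V n} {h : ℂ → ℂ} {z : ℂ} (hf : IsLift φ f (h z)) (hh : AnalyticAt ℂ h z) :
    IsLift (fun w => φ (h w)) (fun w => f (h w)) z := by
  refine ⟨hf.1.comp hh, ?_⟩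
  exact hh.continuousAt.eventually hf.2

/-- chain rule -/
theorem energy_comp {φ : ℂ → PS n} {h : ℂ → ℂ} {z : ℂ} (hf : ∃ f, IsLift φ f (h z)) (hh : AnalyticAt ℂ h z) :
    energy (fun w => φ (h w)) z = ‖deriv h z‖ ^ 2 * energy φ (h z) := by
  obtain ⟨f, hf⟩ := hf
  rw [(hf.comp hh).energy_eq, hf.energy_eq, den_comp hf.1.differentiableAt hh.differentiableAt]

theorem HolOn.comp {φ : ℂ → PS n} {U W : Set ℂ} {h : ℂ → ℂ} (hφ : HolOn φ U) (hW : IsOpen W)
    (hh : DifferentiableOn ℂ h W) (hm : ∀ w ∈ W, h w ∈ U) : HolOn (fun w => φ (h w)) W := by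
  intro z hz
  obtain ⟨f, hf⟩ := hφ _ (hm z hz)
  exact ⟨_, hf.comp (hh.analyticAt (hW.mem_nhds hz))⟩

theorem HolOn.mono {φ : ℂ → PS n} {U W : Set ℂ} (hφ : HolOn φ U) (h : W ⊆ U) : HolOn φ W :=
  fun z hz => hφ z (h hz)

/-- Proof: near a point `z` of `U` the energy equals `den f` for a lift `f` (`IsLift.eventually`, `IsLift.energy_eq`), and `den f`
is continuous near `z` (`f`, `deriv f` are analytic at `z` and `f z ≠ 0`). -/
theorem continuousAt_energy {φ : ℂ → PS n} {z : ℂ} (h : ∃ f, IsLift φ f z) : ContinuousAt (energy φ) z := by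
  obtain ⟨f, hf⟩ := h
  have e : den f =ᶠ[𝓝 z] energy φ := by
    filter_upwards [hf.eventually] with w hw
    exact hw.energy_eq.symm
  refine ContinuousAt.congr ?_ e
  have hc : ContinuousAt f z := hf.1.continuousAt
  have hd : ContinuousAt (deriv f) z := hf.1.deriv.continuousAt
  exact (((hc.norm.pow 2).mul (hd.norm.pow 2)).sub ((ContinuousAt.inner hc hd).norm.pow 2)).div
    (hc.norm.pow 4) (pow_ne_zero 4 (norm_ne_zero_iff.2 hf.ne_zero))

/-- constant near `z` if the energy vanishes near `z`. Proof: `f z i ≠ 0` for some `i`; the normalised lift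
`g = nrm i ∘ φ` has the coordinate `i` equal to `1` near `z` and density `0` near `z`, so `deriv g = 0` near `z`
(`deriv_eq_zero_of_den_eq_zero`), so `g` is constant near `z` (on a small ball), and `φ w = mk (g w)`. -/
theorem eventually_eq_of_energy_zero {φ : ℂ → PS n} {z : ℂ} (h : ∃ f, IsLift φ f z)
    (h0 : ∀ᶠ w in 𝓝 z, energy φ w = 0) : ∀ᶠ w in 𝓝 z, φ w = φ z := by
  obtain ⟨f, hf⟩ := h
  obtain ⟨i, hi⟩ := lift_coord hf.ne_zero
  have hg := hf.nrm hi
  have h1 : ∀ᶠ w in 𝓝 z, nrm i (φ w) i = 1 := by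
    filter_upwards [hf.2, (lift_an hf.1 i).continuousAt.eventually_ne hi] with w h3 h4
    obtain ⟨h3, h5⟩ := h3
    refine nrm_apply ?_
    rw [h5]
    exact (rep_mk_ne_zero_iff i _ h3).2 h4
  have h2 : ∀ᶠ w in 𝓝 z, IsLift φ (fun w => nrm i (φ w)) w ∧
      deriv (fun w => nrm i (φ w)) w = 0 := by
    filter_upwards [hg.eventually, h0, eventually_eventually_nhds.2 h1] with w h3 h4 h5
    refine ⟨h3, deriv_eq_zero_of_den_eq_zero h3.1.differentiableAt one_ne_zero h5 ?_⟩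
    rw [← h3.energy_eq]
    exact h4
  obtain ⟨r, hr, hball⟩ := Metric.eventually_nhds_iff_ball.1 h2
  have h3 : ∀ w ∈ ball z r, nrm i (φ w) = nrm i (φ z) := by
    intro w hw
    refine isOpen_ball.is_const_of_deriv_eq_zero (f := fun w => nrm i (φ w))
      (convex_ball z r).isPreconnected ?_ ?_ hw (mem_ball_self hr)
    · exact fun w hw => (hball w hw).1.1.differentiableAt.differentiableWithinAt
    · exact fun w hw => (hball w hw).2
  filter_upwards [ball_mem_nhds z hr] with w hw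
  rw [(hball w hw).1.eq_mk, (hball z (mem_ball_self hr)).1.eq_mk, Projectivization.mk_eq_mk_iff']
  exact ⟨1, by rw [one_smul, h3 w hw]⟩

/-- Proof: `eventually_eq_of_energy_zero` at every point: `φ` is locally constant (`IsLocallyConstant.iff_eventually_eq`),
`ℂ` is preconnected (`IsLocallyConstant.apply_eq_of_preconnectedSpace`). -/
theorem const_of_energy_zero {φ : ℂ → PS n} (h : HolOn φ univ) (h0 : ∀ z, energy φ z = 0) (z w : ℂ) : φ z = φ w := by
  have h1 : IsLocallyConstant φ := by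
    rw [IsLocallyConstant.iff_eventually_eq]
    intro z
    exact eventually_eq_of_energy_zero (h z (mem_univ z)) (Eventually.of_forall h0)
  exact h1.apply_eq_of_preconnectedSpace z w

end Pool.Agent.Lib.MP_62070a_ag.FH
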