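import Pool.Agent.Lib.MP_62070a_ag.FH.LimMap

/-!
# FH / LimEn : the energies converge

* `tendsto_den`: `den` is a continuous function of the values `f z ≠ 0` and `deriv f z`.
* `limit_energy`: by `limit_map` and `IsLift.energy_eq`.
* `limit_energy_comp`: let `i` be as in `limit_map`, and let `(d, P)` represent `f` near `Ψ z ∈ X` (`PLim.mem`), with
  `pmap P (Ψ z).rep ≠ 0`. As `Ψ z = mk (nrm i (Ψ z))`, `pmap P (nrm i (Ψ z)) ≠ 0` (`Represents.ne_zero_of_lift`). With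
  `g k w = nrm i (ψ k w)`, `G w = nrm i (Ψ w)`: `pmap P (G w)` is a lift of `f ∘ Ψ` at `z` (`Represents.isLift`; `Ψ w ∈ X` for
  all `w`). `pmap P (g k z) → pmap P (G z) ≠ 0` (`continuous_pmap`), so eventually `pmap P (g k z) ≠ 0` and `pmap P (g k w)` is a lift of
  `f ∘ ψ k` at `z`. The derivatives converge by `tendsto_deriv_pmap`. Conclude with `tendsto_den` and `IsLift.energy_eq`.
-/

set_option autoImplicit false

namespace Pool.Agent.Lib.MP_62070a_ag.FH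

open Metric Set Filter Topology

variable {n m : ℕ} {ι : Type}

theorem tendsto_den {F : Filter ι} {g : ι → ℂ → V n} {G : ℂ → V n} {z : ℂ} (h0 : G z ≠ 0)
    (h1 : Tendsto (fun k => g k z) F (𝓝 (G z))) (h2 : Tendsto (fun k => deriv (g k) z) F (𝓝 (deriv G z))) :
    Tendsto (fun k => den (g k) z) F (𝓝 (den G z)) := by
  have a := h1.norm
  have b := h2.norm
  have c := (Filter.Tendsto.inner (𝕜 := ℂ) h1 h2).norm
  exact (((a.pow 2).mul (b.pow 2)).sub (c.pow 2)).div (a.pow 4)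
    (pow_ne_zero 4 (norm_ne_zero_iff.2 h0))

theorem limit_energy {F : Filter ι} [F.NeBot] {ψ : ι → ℂ → PS n} {Ψ : ℂ → PS n} {K : ℝ}
    (hlim : ∀ z, PLim F (fun k => ψ k z) (Ψ z))
    (hψ : ∀ R : ℝ, ∀ᶠ k in F, HolOn (ψ k) (ball 0 R) ∧ ∀ z ∈ ball 0 R, energy (ψ k) z ≤ K ^ 2) (z : ℂ) :
    (∃ f, IsLift Ψ f z) ∧ Tendsto (fun k => energy (ψ k) z) F (𝓝 (energy Ψ z)) := by
  obtain ⟨i, hi, hk, hΨ, h1, h2⟩ := limit_map hlim hψ z
  refine ⟨⟨_, hΨ⟩, ?_⟩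
  rw [hΨ.energy_eq]
  refine (tendsto_den (g := fun k w => nrm i (ψ k w)) (G := fun w => nrm i (Ψ w))
    hΨ.ne_zero h1 h2).congr' ?_
  filter_upwards [hk] with k hk
  exact hk.energy_eq.symm

theorem limit_energy_comp {X : Set (PS n)} (hX : IsAlg X) {f : PS n → PS m} (hf : IsRegular X f)
    {F : Filter ι} [F.NeBot] {ψ : ι → ℂ → PS n} {Ψ : ℂ → PS n} {K : ℝ}
    (hlim : ∀ z, PLim F (fun k => ψ k z) (Ψ z))
    (hψ : ∀ R : ℝ, ∀ᶠ k in F, HolOn (ψ k) (ball 0 R) ∧ ∀ z ∈ ball 0 R, energy (ψ k) z ≤ K ^ 2)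
    (hm : ∀ R : ℝ, ∀ᶠ k in F, ∀ z ∈ ball 0 R, ψ k z ∈ X) (z : ℂ) :
    Tendsto (fun k => energy (fun w => f (ψ k w)) z) F (𝓝 (energy (fun w => f (Ψ w)) z)) := by
  obtain ⟨i, hi, hk, hΨ, h1, h2⟩ := limit_map hlim hψ z
  have hb : ∀ w : ℂ, w ∈ ball (0 : ℂ) (‖w‖ + 1) := fun w => by
    rw [mem_ball_zero_iff]
    linarith
  have hmem : ∀ w, Ψ w ∈ X := fun w =>
    PLim.mem hX (hlim w) ((hm (‖w‖ + 1)).mono fun k h => h w (hb w))
  obtain ⟨d, P, hP, h0⟩ := hf (Ψ z) (hmem z)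
  have e := hΨ.eq_mk
  have h0' : pmap P (Projectivization.mk ℂ (nrm i (Ψ z)) hΨ.ne_zero).rep ≠ 0 := fun h =>
    h0 (by rw [e]; exact h)
  have hG : pmap P (nrm i (Ψ z)) ≠ 0 := Represents.ne_zero_of_lift hP h0'
  have hL : IsLift (fun w => f (Ψ w)) (fun w => pmap P (nrm i (Ψ w))) z :=
    hP.isLift hΨ (Filter.Eventually.of_forall hmem) hG
  rw [hL.energy_eq]
  have t1 : Tendsto (fun k => pmap P (nrm i (ψ k z))) F (𝓝 (pmap P (nrm i (Ψ z)))) :=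
    ((continuous_pmap P).tendsto _).comp h1
  have t2 : Tendsto (fun k => deriv (fun w => pmap P (nrm i (ψ k w))) z) F
      (𝓝 (deriv (fun w => pmap P (nrm i (Ψ w))) z)) :=
    tendsto_deriv_pmap P (g := fun k w => nrm i (ψ k w)) (G := fun w => nrm i (Ψ w))
      (hk.mono fun k h => h.1.differentiableAt) hΨ.1.differentiableAt h1 h2
  refine (tendsto_den (g := fun k w => pmap P (nrm i (ψ k w)))
    (G := fun w => pmap P (nrm i (Ψ w))) hG t1 t2).congr' ?_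
  filter_upwards [hk, hm (‖z‖ + 1), t1.eventually_ne hG] with k hk hm' hne
  have hX' : ∀ᶠ w in 𝓝 z, ψ k w ∈ X := by
    filter_upwards [isOpen_ball.mem_nhds (hb z)] with w hw
    exact hm' w hw
  exact (hP.isLift hk hX' hne).energy_eq.symm

end Pool.Agent.Lib.MP_62070a_ag.FH
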