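import Mathlib

/-!
# FH / LimHol : pointwise limits of bounded holomorphic functions along a filter

Proof. Let `z ∈ ball c r`, `ρ > 0` with `closedBall z (2 ρ) ⊆ ball c r`. For `k` in a set of the filter and `w ∈ ball z ρ` the
Cauchy estimate (`Complex.norm_deriv_le_of_forall_mem_sphere_norm_le` on the circle of radius `ρ` around `w`) gives
`‖deriv (g k) w‖ ≤ M / ρ`, so `g k` is `M / ρ`-Lipschitz on `ball z ρ` (`Convex.norm_image_sub_le_of_norm_deriv_le`), and so is the
limit `G` (pass to the limit in the inequality, `le_of_tendsto`; `F` is not `⊥`). Hence for `ε > 0` and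
`ρ' = min ρ (ε ρ / (3 (M + 1)))`, for `w ∈ ball z ρ'`:
`‖g k w - G w‖ ≤ ‖g k w - g k z‖ + ‖g k z - G z‖ + ‖G z - G w‖ < ε` eventually in `k`. So
`TendstoLocallyUniformlyOn g G F (ball c r)` (`Metric.tendstoLocallyUniformlyOn_iff`), and
`TendstoLocallyUniformlyOn.differentiableOn`, `TendstoLocallyUniformlyOn.deriv` (with `.tendsto_at`) give the statement.
-/

set_option autoImplicit false

namespace Pool.Agent.Lib.MP_62070a_ag.FH

open Metric Set Filter Topology

theorem limit_holo {ι : Type} {E : Type} [NormedAddCommGroup E] [NormedSpace ℂ E] [CompleteSpace E]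
    {F : Filter ι} [F.NeBot] {g : ι → ℂ → E} {G : ℂ → E} {c : ℂ} {r M : ℝ}
    (h1 : ∀ᶠ k in F, DifferentiableOn ℂ (g k) (ball c r))
    (h2 : ∀ᶠ k in F, ∀ z ∈ ball c r, ‖g k z‖ ≤ M)
    (h3 : ∀ z ∈ ball c r, Tendsto (fun k => g k z) F (𝓝 (G z))) :
    DifferentiableOn ℂ G (ball c r) ∧
      ∀ z ∈ ball c r, Tendsto (fun k => deriv (g k) z) F (𝓝 (deriv G z)) := by
  have hU : IsOpen (ball c r) := isOpen_ball
  have key : TendstoLocallyUniformlyOn g G F (ball c r) := by
    rw [Metric.tendstoLocallyUniformlyOn_iff]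
    intro ε hε z hz
    obtain ⟨R, hR, hRsub⟩ := Metric.nhds_basis_closedBall.mem_iff.mp (hU.mem_nhds hz)
    set ρ : ℝ := R / 2 with hρdef
    have hρ : 0 < ρ := by positivity
    have hM : 0 ≤ M := by
      obtain ⟨k, hk⟩ := h2.exists
      exact (norm_nonneg _).trans (hk z hz)
    -- Lipschitz estimate
    have hlip : ∀ᶠ k in F, ∀ x ∈ ball z ρ, ∀ y ∈ ball z ρ, ‖g k y - g k x‖ ≤ M / ρ * ‖y - x‖ := by
      filter_upwards [h1, h2] with k hk1 hk2
      intro x hx y hy
      have hsub : ∀ w ∈ ball z ρ, closedBall w ρ ⊆ ball c r := by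
        intro w hw v hv
        apply hRsub
        rw [mem_closedBall] at hv ⊢
        rw [mem_ball] at hw
        have := dist_triangle v w z
        have h4 : ρ + ρ = R := by rw [hρdef]; ring
        linarith
      have hd : ∀ w ∈ ball z ρ, DifferentiableAt ℂ (g k) w := by
        intro w hw
        have hwc : w ∈ ball c r := hsub w hw (mem_closedBall_self hρ.le)
        exact (hk1 w hwc).differentiableAt (hU.mem_nhds hwc)
      refine Convex.norm_image_sub_le_of_norm_deriv_le hd ?_ (convex_ball z ρ) hx hy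
      intro w hw
      refine Complex.norm_deriv_le_of_forall_mem_sphere_norm_le hρ (hk1.diffContOnCl_ball (hsub w hw)) ?_
      intro v hv
      exact hk2 v (hsub w hw (sphere_subset_closedBall hv))
    have hballsub : ∀ w ∈ ball z ρ, w ∈ ball c r := by
      intro w hw
      apply hRsub
      rw [mem_closedBall]
      rw [mem_ball] at hw
      have h4 : ρ + ρ = R := by rw [hρdef]; ring
      linarith
    have hlipG : ∀ x ∈ ball z ρ, ∀ y ∈ ball z ρ, ‖G y - G x‖ ≤ M / ρ * ‖y - x‖ := by
      intro x hx y hy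
      have ht : Tendsto (fun k => ‖g k y - g k x‖) F (𝓝 ‖G y - G x‖) :=
        ((h3 y (hballsub y hy)).sub (h3 x (hballsub x hx))).norm
      refine le_of_tendsto ht ?_
      filter_upwards [hlip] with k hk
      exact hk x hx y hy
    set δ : ℝ := min ρ (ε * ρ / (3 * (M + 1))) with hδ
    have hδpos : 0 < δ := lt_min hρ (by positivity)
    refine ⟨ball z δ, mem_nhdsWithin_of_mem_nhds (ball_mem_nhds z hδpos), ?_⟩
    have hz0 : ∀ᶠ k in F, dist (G z) (g k z) < ε / 3 := by
      have := (Metric.tendsto_nhds.mp (h3 z hz)) (ε / 3) (by positivity)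
      filter_upwards [this] with k hk
      rw [dist_comm]
      exact hk
    filter_upwards [hlip, hz0] with k hk1 hk2 w hw
    have hwρ : w ∈ ball z ρ := ball_subset_ball (min_le_left _ _) hw
    have hzρ : z ∈ ball z ρ := mem_ball_self hρ
    have hwz : ‖w - z‖ < ε * ρ / (3 * (M + 1)) := by
      rw [mem_ball, dist_eq_norm] at hw
      exact hw.trans_le (min_le_right _ _)
    have hb : M / ρ * ‖w - z‖ ≤ ε / 3 := by
      have h5 : M / ρ * ‖w - z‖ ≤ M / ρ * (ε * ρ / (3 * (M + 1))) :=
        mul_le_mul_of_nonneg_left hwz.le (by positivity)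
      refine h5.trans ?_
      have h6 : M / ρ * (ε * ρ / (3 * (M + 1))) = (ε / 3) * (M / (M + 1)) := by
        field_simp
      rw [h6]
      have h7 : M / (M + 1) ≤ 1 := by
        rw [div_le_one (by positivity)]
        linarith
      nlinarith [mul_nonneg (by positivity : (0:ℝ) ≤ ε / 3) (by linarith : (0:ℝ) ≤ 1 - M / (M + 1))]
    have h8 : ‖g k w - g k z‖ ≤ ε / 3 := (hk1 z hzρ w hwρ).trans hb
    have h9 : ‖G w - G z‖ ≤ ε / 3 := (hlipG z hzρ w hwρ).trans hb
    calc dist (G w) (g k w) ≤ dist (G w) (G z) + dist (G z) (g k z) + dist (g k z) (g k w) :=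
          dist_triangle4 _ _ _ _
      _ < ε := by
          rw [dist_eq_norm (G w) (G z), dist_comm (g k z) (g k w), dist_eq_norm (g k w) (g k z)]
          linarith
  refine ⟨key.differentiableOn h1 hU, ?_⟩
  intro z hz
  exact (key.deriv h1 hU).tendsto_at hz

end Pool.Agent.Lib.MP_62070a_ag.FH
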