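import Pool.Agent.Lib.MP_62070a_ag.FH.PLim
import Pool.Agent.Lib.MP_62070a_ag.FH.LimHol

/-!
# FH / LimMap : pointwise limits of holomorphic maps to the projective space with bounded energy

Proof of `limit_map`. We may assume `K ≥ 1` (replace `K` by `|K| + 1`). Fix `z`, and `i` with `co i (Ψ z) ≥ 1 / (n + 1) =: 2 s`
(`exists_co`). By `PLim.co`, eventually `co i (ψ k z) ≥ (3/2) s`. Let `R = ‖z‖ + 1` and `δ = min 1 (s / (4 K))`. For `k` in a set of
the filter, `ψ k` is holomorphic on `ball 0 R ⊇ ball z δ` with energy at most `K ^ 2`, so by `co_lipschitz` on `ball z δ`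
(`2 K δ ≤ s / 2`) `co i (ψ k w) ≥ s` for `w ∈ ball z δ`. So `g k w := nrm i (ψ k w)` satisfies `‖g k w‖ ^ 2 ≤ 1 / s` on this ball
(`norm_nrm_sq_le`), and `g k` is a lift of `ψ k` at every point of the ball (`isLift_nrm`), in particular differentiable there. For `w` in the
ball, `co i (Ψ w) = lim co i (ψ k w) ≥ s > 0`, so `(Ψ w).rep i ≠ 0` and `g k w → G w := nrm i (Ψ w)` by `PLim.nrm`. By
`limit_holo` `G` is differentiable on `ball z δ` and `deriv (g k) z → deriv G z`. `G` is analytic at `z`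
(`DifferentiableOn.analyticAt`), `G w ≠ 0` and `Ψ w = mk (G w)` (`nrm_ne_zero`, `mk_nrm`), so `G` is a lift of `Ψ` at `z`.
-/

set_option autoImplicit false

namespace Pool.Agent.Lib.MP_62070a_ag.FH

open Metric Set Filter Topology

variable {n m : ℕ} {ι : Type}

theorem limit_map {F : Filter ι} [F.NeBot] {ψ : ι → ℂ → PS n} {Ψ : ℂ → PS n} {K : ℝ}
    (hlim : ∀ z, PLim F (fun k => ψ k z) (Ψ z))
    (hψ : ∀ R : ℝ, ∀ᶠ k in F, HolOn (ψ k) (ball 0 R) ∧ ∀ z ∈ ball 0 R, energy (ψ k) z ≤ K ^ 2) (z : ℂ) :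
    ∃ i : Fin (n + 1), (Ψ z).rep i ≠ 0 ∧
      (∀ᶠ k in F, IsLift (ψ k) (fun w => nrm i (ψ k w)) z) ∧ IsLift Ψ (fun w => nrm i (Ψ w)) z ∧
      Tendsto (fun k => nrm i (ψ k z)) F (𝓝 (nrm i (Ψ z))) ∧
      Tendsto (fun k => deriv (fun w => nrm i (ψ k w)) z) F (𝓝 (deriv (fun w => nrm i (Ψ w)) z)) := by
  obtain ⟨L, hL, hKL⟩ : ∃ L : ℝ, 1 ≤ L ∧ K ^ 2 ≤ L ^ 2 := by
    refine ⟨|K| + 1, by linarith [abs_nonneg K], ?_⟩
    rw [← sq_abs K]
    nlinarith [abs_nonneg K]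
  obtain ⟨i, hi⟩ := exists_co (Ψ z)
  set s : ℝ := 1 / (2 * ((n : ℝ) + 1)) with hs
  have hs0 : 0 < s := by positivity
  have h2s : 2 * s ≤ co i (Ψ z) := by
    refine le_trans (le_of_eq ?_) hi
    rw [hs]
    field_simp
  set δ : ℝ := min 1 (s / (4 * L)) with hδ
  have hδ0 : 0 < δ := lt_min one_pos (by positivity)
  have hδ1 : 2 * L * δ ≤ s / 2 := by
    have h1 : δ ≤ s / (4 * L) := min_le_right _ _
    calc 2 * L * δ ≤ 2 * L * (s / (4 * L)) := by gcongr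
      _ = s / 2 := by field_simp; ring
  have hsub : ball z δ ⊆ ball (0 : ℂ) (‖z‖ + 1) := by
    intro w hw
    rw [mem_ball, Complex.dist_eq] at hw
    rw [mem_ball_zero_iff]
    have h1 : δ ≤ 1 := min_le_left _ _
    have h2 : ‖w‖ ≤ ‖w - z‖ + ‖z‖ := by
      have := norm_add_le (w - z) z
      rwa [sub_add_cancel] at this
    linarith
  have hz : z ∈ ball z δ := mem_ball_self hδ0
  have hev : ∀ᶠ k in F, (∀ w ∈ ball z δ, ∃ f, IsLift (ψ k) f w) ∧ ∀ w ∈ ball z δ, s ≤ co i (ψ k w) := by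
    have h1 : ∀ᶠ k in F, 3 / 2 * s < co i (ψ k z) :=
      ((hlim z).co i).eventually (Ioi_mem_nhds (by linarith))
    filter_upwards [h1, hψ (‖z‖ + 1)] with k hk1 hk2
    have h2 : HolOn (ψ k) (ball z δ) := hk2.1.mono hsub
    refine ⟨h2, fun w hw => ?_⟩
    have h3 := co_lipschitz h2 (by linarith : (0 : ℝ) ≤ L)
      (fun u hu => (hk2.2 u (hsub hu)).trans hKL) hw hz i
    have h4 : ‖w - z‖ ≤ δ := by
      rw [mem_ball, Complex.dist_eq] at hw
      exact hw.le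
    have h5 : 2 * L * ‖w - z‖ ≤ 2 * L * δ := by gcongr
    have h6 := (abs_le.1 (h3.trans (h5.trans hδ1))).1
    linarith
  have hlow : ∀ w ∈ ball z δ, s ≤ co i (Ψ w) := fun w hw =>
    ge_of_tendsto ((hlim w).co i) (hev.mono fun k hk => hk.2 w hw)
  have hrep : ∀ w ∈ ball z δ, (Ψ w).rep i ≠ 0 := fun w hw => (norm_nrm_sq_le hs0 (hlow w hw)).1
  have hlift : ∀ᶠ k in F, ∀ w ∈ ball z δ, IsLift (ψ k) (fun w => nrm i (ψ k w)) w :=
    hev.mono fun k hk w hw => isLift_nrm (hk.1 w hw) (norm_nrm_sq_le hs0 (hk.2 w hw)).1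
  have hmain := limit_holo (F := F) (g := fun k w => nrm i (ψ k w)) (G := fun w => nrm i (Ψ w))
    (c := z) (r := δ) (M := Real.sqrt (1 / s))
    (hlift.mono fun k hk w hw => (hk w hw).1.differentiableAt.differentiableWithinAt)
    (hev.mono fun k hk w hw => Real.le_sqrt_of_sq_le (norm_nrm_sq_le hs0 (hk.2 w hw)).2)
    (fun w hw => (hlim w).nrm (hrep w hw))
  refine ⟨i, hrep z hz, hlift.mono fun k hk => hk z hz, ⟨?_, ?_⟩, (hlim z).nrm (hrep z hz),
    hmain.2 z hz⟩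
  · exact hmain.1.analyticAt (isOpen_ball.mem_nhds hz)
  · filter_upwards [isOpen_ball.mem_nhds hz] with w hw
    exact ⟨nrm_ne_zero (hrep w hw), (mk_nrm (hrep w hw) _).symm⟩

end Pool.Agent.Lib.MP_62070a_ag.FH
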