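import Pool.Agent.Lib.MP_62070a_ag.FH.Den
import Pool.Agent.Lib.MP_62070a_ag.FH.Landau

/-!
# FH / Omit : maps avoiding the coordinate hyperplanes and the hyperplanes `x_i = x_j`

`den_le_of_omit`: for `i ≠ j` the function `h = g_i / g_j` is holomorphic on `ball 0 1` and omits `0`, `1`, so by `landau` at `0`
`|g_i' g_j - g_i g_j'| / |g_j|² = |h'| ≤ 6000 (1 + |g_i|² / |g_j|²)`, that is `|g_i g_j' - g_j g_i'| ≤ 6000 (|g_i|² + |g_j|²) ≤ 6000 ‖g‖²`. By `den_eq_sum`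
`den g 0 ≤ (1/2) (n + 1)² 6000² `.
`den_le_of_omit_ball`: apply the first part to `ξ ↦ g (ζ + ξ / 2)`, `‖ζ‖ ≤ 1/2`, and `den_comp`: `den g ζ / 4 ≤ C`.
-/

set_option autoImplicit false

namespace Pool.Agent.Lib.MP_62070a_ag.FH

open Metric Set Filter Topology

private theorem omit_coord {n : ℕ} {g : ℂ → V n} {z : ℂ} (hg : DifferentiableAt ℂ g z) (i : Fin (n + 1)) :
    HasDerivAt (fun w => g w i) (deriv g z i) z :=
  (EuclideanSpace.proj i : V n →L[ℂ] ℂ).hasFDerivAt.comp_hasDerivAt z hg.hasDerivAt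

private theorem omit_pair {n : ℕ} {g : ℂ → V n} (hg : DifferentiableOn ℂ g (ball 0 1))
    (h0 : ∀ z ∈ ball (0 : ℂ) 1, ∀ i, g z i ≠ 0) (h1 : ∀ z ∈ ball (0 : ℂ) 1, ∀ i j, i ≠ j → g z i ≠ g z j)
    (i j : Fin (n + 1)) (hij : i ≠ j) :
    ‖g 0 i * deriv g 0 j - g 0 j * deriv g 0 i‖ ≤ 6000 * ‖g 0‖ ^ 2 := by
  have hd : ∀ z ∈ ball (0 : ℂ) 1, DifferentiableAt ℂ g z := fun z hz =>
    hg.differentiableAt (isOpen_ball.mem_nhds hz)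
  have hz0 : (0 : ℂ) ∈ ball (0 : ℂ) 1 := mem_ball_self one_pos
  have hh : DifferentiableOn ℂ (fun z => g z i / g z j) (ball 0 1) := fun z hz =>
    ((omit_coord (hd z hz) i).differentiableAt.div (omit_coord (hd z hz) j).differentiableAt
      (h0 z hz j)).differentiableWithinAt
  have hL := landau hh (fun z hz => div_ne_zero (h0 z hz i) (h0 z hz j)) (fun z hz h => by
    rw [div_eq_one_iff_eq (h0 z hz j)] at h
    exact h1 z hz i j hij h)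
  have hder := ((omit_coord (hd 0 hz0) i).div (omit_coord (hd 0 hz0) j) (h0 0 hz0 j)).deriv
  have hder' : deriv (fun z => g z i / g z j) 0 =
      (deriv g 0 i * g 0 j - g 0 i * deriv g 0 j) / g 0 j ^ 2 := hder
  rw [hder'] at hL
  have hj : 0 < ‖g 0 j‖ := norm_pos_iff.2 (h0 0 hz0 j)
  rw [norm_div, norm_div, norm_pow, div_le_iff₀ (pow_pos hj 2)] at hL
  have h2 : 6000 * (1 + (‖g 0 i‖ / ‖g 0 j‖) ^ 2) * ‖g 0 j‖ ^ 2 =
      6000 * (‖g 0 j‖ ^ 2 + ‖g 0 i‖ ^ 2) := by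
    field_simp
  rw [h2] at hL
  have h3 : ‖g 0 j‖ ^ 2 + ‖g 0 i‖ ^ 2 ≤ ‖g 0‖ ^ 2 := by
    rw [EuclideanSpace.norm_sq_eq, ← Finset.add_sum_erase Finset.univ _ (Finset.mem_univ j)]
    refine add_le_add le_rfl ?_
    exact Finset.single_le_sum (f := fun a => ‖g 0 a‖ ^ 2) (fun a _ => sq_nonneg _)
      (Finset.mem_erase.2 ⟨hij, Finset.mem_univ i⟩)
  have h4 : ‖g 0 i * deriv g 0 j - g 0 j * deriv g 0 i‖ =
      ‖deriv g 0 i * g 0 j - g 0 i * deriv g 0 j‖ := by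
    rw [← norm_neg]
    congr 1
    ring
  rw [h4]
  linarith

theorem den_le_of_omit {n : ℕ} {g : ℂ → V n} (hg : DifferentiableOn ℂ g (ball 0 1))
    (h0 : ∀ z ∈ ball (0 : ℂ) 1, ∀ i, g z i ≠ 0) (h1 : ∀ z ∈ ball (0 : ℂ) 1, ∀ i j, i ≠ j → g z i ≠ g z j) :
    den g 0 ≤ 6000 ^ 2 * ((n : ℝ) + 1) ^ 2 := by
  have hz0 : (0 : ℂ) ∈ ball (0 : ℂ) 1 := mem_ball_self one_pos
  have hg0 : 0 < ‖g 0‖ := by
    rw [norm_pos_iff]
    intro h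
    apply h0 0 hz0 0
    rw [h]
    rfl
  have hterm : ∀ i j, ‖g 0 i * deriv g 0 j - g 0 j * deriv g 0 i‖ ^ 2 ≤
      6000 ^ 2 * ‖g 0‖ ^ 4 := by
    intro i j
    by_cases hij : i = j
    · subst hij
      rw [sub_self, norm_zero, zero_pow two_ne_zero]
      positivity
    · have h2 := pow_le_pow_left₀ (norm_nonneg _) (omit_pair hg h0 h1 i j hij) 2
      have h3 : (6000 * ‖g 0‖ ^ 2) ^ 2 = 6000 ^ 2 * ‖g 0‖ ^ 4 := by ring
      rw [h3] at h2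
      exact h2
  have hsum : ∑ i, ∑ j, ‖g 0 i * deriv g 0 j - g 0 j * deriv g 0 i‖ ^ 2 ≤
      ((n : ℝ) + 1) * (((n : ℝ) + 1) * (6000 ^ 2 * ‖g 0‖ ^ 4)) := by
    refine (Finset.sum_le_sum fun i _ => Finset.sum_le_sum fun j _ => hterm i j).trans ?_
    rw [Finset.sum_const, Finset.sum_const, Finset.card_univ, Fintype.card_fin, nsmul_eq_mul,
      nsmul_eq_mul]
    push_cast
    exact le_rfl
  rw [den_eq_sum, div_le_iff₀ (pow_pos hg0 4)]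
  have h5 : 6000 ^ 2 * ((n : ℝ) + 1) ^ 2 * ‖g 0‖ ^ 4 =
      ((n : ℝ) + 1) * (((n : ℝ) + 1) * (6000 ^ 2 * ‖g 0‖ ^ 4)) := by ring
  rw [h5]
  have h6 : 0 ≤ ∑ i, ∑ j, ‖g 0 i * deriv g 0 j - g 0 j * deriv g 0 i‖ ^ 2 :=
    Finset.sum_nonneg fun i _ => Finset.sum_nonneg fun j _ => sq_nonneg _
  linarith

theorem den_le_of_omit_ball {n : ℕ} {g : ℂ → V n} (hg : DifferentiableOn ℂ g (ball 0 1))
    (h0 : ∀ z ∈ ball (0 : ℂ) 1, ∀ i, g z i ≠ 0) (h1 : ∀ z ∈ ball (0 : ℂ) 1, ∀ i j, i ≠ j → g z i ≠ g z j)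
    {ζ : ℂ} (hζ : ζ ∈ ball (0 : ℂ) (1 / 2)) : den g ζ ≤ 4 * (6000 ^ 2 * ((n : ℝ) + 1) ^ 2) := by
  have hmem : ∀ ξ ∈ ball (0 : ℂ) 1, ζ + ξ / 2 ∈ ball (0 : ℂ) 1 := by
    intro ξ hξ
    rw [mem_ball_zero_iff] at hζ hξ ⊢
    have h2 : ‖ζ + ξ / 2‖ ≤ ‖ζ‖ + ‖ξ‖ / 2 := by
      refine (norm_add_le _ _).trans ?_
      rw [norm_div, Complex.norm_ofNat]
    linarith
  have hd : ∀ ξ : ℂ, HasDerivAt (fun ξ : ℂ => ζ + ξ / 2) (1 / 2) ξ := fun ξ =>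
    ((hasDerivAt_id ξ).div_const 2).const_add ζ
  have hG : DifferentiableOn ℂ (fun ξ => g (ζ + ξ / 2)) (ball 0 1) := fun ξ hξ =>
    ((hg.differentiableAt (isOpen_ball.mem_nhds (hmem ξ hξ))).comp ξ
      (hd ξ).differentiableAt).differentiableWithinAt
  have h2 := den_le_of_omit hG (fun ξ hξ i => h0 _ (hmem ξ hξ) i)
    (fun ξ hξ i j hij => h1 _ (hmem ξ hξ) i j hij)
  have hz0 : (0 : ℂ) ∈ ball (0 : ℂ) 1 := mem_ball_self one_pos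
  have h3 := den_comp (f := g) (h := fun ξ : ℂ => ζ + ξ / 2) (z := 0)
    (hg.differentiableAt (isOpen_ball.mem_nhds (hmem 0 hz0))) (hd 0).differentiableAt
  rw [(hd 0).deriv, zero_div, add_zero] at h3
  rw [h3] at h2
  have h4 : ‖(1 / 2 : ℂ)‖ ^ 2 = 1 / 4 := by
    rw [norm_div, norm_one, Complex.norm_ofNat]
    norm_num
  rw [h4] at h2
  linarith

end Pool.Agent.Lib.MP_62070a_ag.FH
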