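import Pool.Agent.Lib.MP_62070a_ag.FH.Vert
import Pool.Agent.Lib.MP_62070a_ag.FH.Omit
import Pool.Agent.Lib.MP_62070a_ag.FH.Comp

/-!
# FH / LocA : the energy of `φ` satisfies the disc hypothesis outside of the punctures

Proof. Let `h` be as in `DiscHyp`: a holomorphic map from the unit disc to `ball 0 (3/4) \ P`. `F` is a lift of `f ∘ φ` at all points of `ball 0 (19/20)`. The map
`g ζ = U (F (h ζ))` is differentiable on `ball 0 1`, with all coordinates nonzero and distinct (`hP`). For `ζ ∈ ball 0 (1/2)` the energy of `f ∘ φ ∘ h` at `ζ` is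
`den (F ∘ h) ζ = den g ζ ≤ 4 K`, `K = 6000² (m + 1)²` (`IsLift.comp`, `IsLift.energy_eq`, `den_isometry`, `den_le_of_omit_ball`). Let `ψ ξ = φ (h (ξ / 2))`: holomorphic on `ball 0 1` with values in `X`
(`HolOn.comp`), and the energy of `f ∘ ψ` at `ξ` is `(1/4)` times the energy of `f ∘ φ ∘ h` at `ξ / 2` (`energy_comp`), at most `K`. By `hC` `energy ψ 0 ≤ C₀`. `energy ψ 0 = ‖h' 0 / 2‖² energy φ (h 0)`
(`energy_comp`, `deriv (fun ξ => h (ξ / 2)) 0 = deriv h 0 / 2`). So `energy φ (h 0) ‖h' 0‖² ≤ 4 C₀`.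
-/

set_option autoImplicit false

namespace Pool.Agent.Lib.MP_62070a_ag.FH

open Metric Set Filter Topology MeasureTheory
open scoped ENNReal

variable {n m : ℕ}

theorem disc_hyp {X : Set (PS n)} {f : PS n → PS m} (hf : IsRegular X f) {C₀ : ℝ} (hC₀ : 0 < C₀)
    (hC : ∀ ψ : ℂ → PS n, HolOn ψ (ball 0 1) → (∀ z ∈ ball (0 : ℂ) 1, ψ z ∈ X) →
      (∀ z ∈ ball (0 : ℂ) 1, energy (fun w => f (ψ w)) z ≤ 6000 ^ 2 * ((m : ℝ) + 1) ^ 2) → energy ψ 0 ≤ C₀)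
    {φ : ℂ → PS n} (hφ : HolOn φ (ball 0 1)) (hX : ∀ z ∈ ball (0 : ℂ) 1, φ z ∈ X)
    {F : ℂ → V m} (hF : ∀ z ∈ ball (0 : ℂ) (19 / 20), IsLift (fun w => f (φ w)) F z)
    {U : V m ≃ₗᵢ[ℂ] V m} {P : Finset ℂ}
    (hP : ∀ z ∈ closedBall (0 : ℂ) (3 / 4), z ∉ P → (∀ i, U (F z) i ≠ 0) ∧ ∀ i j, i ≠ j → U (F z) i ≠ U (F z) j) :
    DiscHyp P (fun z => ENNReal.ofReal (energy φ z / (4 * C₀))) := by
  intro h hh h0 hm
  have hsub : ∀ ζ ∈ ball (0 : ℂ) 1, h ζ ∈ ball (0 : ℂ) (19 / 20) := fun ζ hζ =>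
    ball_subset_ball (by norm_num) (hm ζ hζ).1
  have hsub1 : ∀ ζ ∈ ball (0 : ℂ) 1, h ζ ∈ ball (0 : ℂ) 1 := fun ζ hζ =>
    ball_subset_ball (by norm_num) (hm ζ hζ).1
  have han : ∀ ζ ∈ ball (0 : ℂ) 1, AnalyticAt ℂ h ζ := fun ζ hζ =>
    hh.analyticAt (isOpen_ball.mem_nhds hζ)
  have hlift : ∀ ζ ∈ ball (0 : ℂ) 1, IsLift (fun w => f (φ (h w))) (fun w => F (h w)) ζ :=
    fun ζ hζ => IsLift.comp (φ := fun w => f (φ w)) (hF (h ζ) (hsub ζ hζ)) (han ζ hζ)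
  have hg : DifferentiableOn ℂ (fun ζ => U (F (h ζ))) (ball 0 1) := by
    intro ζ hζ
    have h1 : DifferentiableAt ℂ (fun w => F (h w)) ζ := (hlift ζ hζ).1.differentiableAt
    have h2 : DifferentiableAt ℂ (fun v : V m => U v) (F (h ζ)) :=
      U.toContinuousLinearEquiv.differentiableAt
    exact (h2.comp ζ h1).differentiableWithinAt
  have hPz : ∀ ζ ∈ ball (0 : ℂ) 1, (∀ i, U (F (h ζ)) i ≠ 0) ∧
      ∀ i j, i ≠ j → U (F (h ζ)) i ≠ U (F (h ζ)) j := fun ζ hζ =>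
    hP (h ζ) (ball_subset_closedBall (hm ζ hζ).1) (hm ζ hζ).2
  have hen : ∀ ζ ∈ ball (0 : ℂ) (1 / 2), energy (fun w => f (φ (h w))) ζ ≤
      4 * (6000 ^ 2 * ((m : ℝ) + 1) ^ 2) := by
    intro ζ hζ
    have hζ1 : ζ ∈ ball (0 : ℂ) 1 := ball_subset_ball (by norm_num) hζ
    rw [(hlift ζ hζ1).energy_eq, ← den_isometry U (hlift ζ hζ1).1.differentiableAt]
    exact den_le_of_omit_ball hg (fun z hz => (hPz z hz).1) (fun z hz => (hPz z hz).2) hζ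
  have hhalf : ∀ ξ ∈ ball (0 : ℂ) 1, ξ / 2 ∈ ball (0 : ℂ) (1 / 2) := by
    intro ξ hξ
    rw [mem_ball_zero_iff] at hξ ⊢
    rw [norm_div, Complex.norm_ofNat]
    linarith
  have hhalf1 : ∀ ξ ∈ ball (0 : ℂ) 1, ξ / 2 ∈ ball (0 : ℂ) 1 := fun ξ hξ =>
    ball_subset_ball (by norm_num) (hhalf ξ hξ)
  have hd2 : ∀ ξ : ℂ, HasDerivAt (fun w : ℂ => w / 2) (1 / 2) ξ := fun ξ =>
    (hasDerivAt_id ξ).div_const 2
  have ha2 : ∀ ξ : ℂ, AnalyticAt ℂ (fun w : ℂ => w / 2) ξ := fun ξ =>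
    analyticAt_id.div_const
  have hcd : ∀ ξ ∈ ball (0 : ℂ) 1, HasDerivAt (fun w => h (w / 2)) (deriv h (ξ / 2) * (1 / 2)) ξ :=
    fun ξ hξ => HasDerivAt.comp (h₂ := h) ξ
      (han _ (hhalf1 ξ hξ)).differentiableAt.hasDerivAt (hd2 ξ)
  have hψ : HolOn (fun ξ => φ (h (ξ / 2))) (ball 0 1) :=
    HolOn.comp (h := fun ξ => h (ξ / 2)) hφ isOpen_ball
      (fun ξ hξ => (hcd ξ hξ).differentiableAt.differentiableWithinAt)
      (fun ξ hξ => hsub1 _ (hhalf1 ξ hξ))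
  have key := hC (fun ξ => φ (h (ξ / 2))) hψ (fun ξ hξ => hX _ (hsub1 _ (hhalf1 ξ hξ))) (by
    intro ξ hξ
    have h1 : energy (fun w => f (φ (h (w / 2)))) ξ = ‖deriv (fun w : ℂ => w / 2) ξ‖ ^ 2 *
        energy (fun v => f (φ (h v))) (ξ / 2) :=
      energy_comp (φ := fun v => f (φ (h v))) (h := fun w : ℂ => w / 2)
        ⟨_, hlift _ (hhalf1 ξ hξ)⟩ (ha2 ξ)
    show energy (fun w => f (φ (h (w / 2)))) ξ ≤ _
    rw [h1, (hd2 ξ).deriv]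
    have h2 := hen _ (hhalf ξ hξ)
    have h3 : ‖(1 / 2 : ℂ)‖ ^ 2 = 1 / 4 := by
      rw [norm_div, norm_one, Complex.norm_ofNat]
      norm_num
    rw [h3]
    linarith)
  have h0' : (0 : ℂ) ∈ ball (0 : ℂ) 1 := mem_ball_self one_pos
  have hz : (0 : ℂ) / 2 = 0 := by norm_num
  have he0 : energy (fun ξ => φ (h (ξ / 2))) 0 = ‖deriv (fun w => h (w / 2)) 0‖ ^ 2 *
      energy φ (h ((0 : ℂ) / 2)) :=
    energy_comp (φ := φ) (h := fun w : ℂ => h (w / 2)) (hφ _ (hsub1 _ (hhalf1 0 h0')))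
      (by
        have := han _ (hhalf1 0 h0')
        exact AnalyticAt.fun_comp this (ha2 0))
  rw [he0, (hcd 0 h0').deriv, hz, norm_mul, mul_pow] at key
  have h3 : ‖(1 / 2 : ℂ)‖ ^ 2 = 1 / 4 := by
    rw [norm_div, norm_one, Complex.norm_ofNat]
    norm_num
  rw [h3] at key
  have hE := energy_nonneg φ (h 0)
  show ENNReal.ofReal (energy φ (h 0) / (4 * C₀)) * ENNReal.ofReal (‖deriv h 0‖ ^ 2) ≤ 1
  rw [← ENNReal.ofReal_mul (div_nonneg hE (by linarith)), ENNReal.ofReal_le_one]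
  rw [div_mul_eq_mul_div, div_le_one (by linarith)]
  nlinarith [key]

end Pool.Agent.Lib.MP_62070a_ag.FH
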