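import Pool.Agent.Lib.MP_62070a_ag.FH.Lift

/-!
# FH / Patch : a holomorphic map from a disc to the projective space has a global lift on a smaller disc

`patch`: put `F z = limUnder (𝓝[≠] z) A`. If `A = G` near `z` outside of `z`, `G` analytic at `z`, then `A = G` near `w` for all `w ≠ z` near
`z` too, so `F w = G w` for all `w` near `z` (`Filter.Tendsto.limUnder_eq`, `𝓝[≠] w` is not `⊥`; `G` is continuous at `w`).

`exists_lift`. (1) Choose `i` with `(φ 0).rep i ≠ 0`. Claim: for every `z ∈ ball 0 R` there is a lift `g` of `φ` at `z` such that `g · i` is not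
identically `0` near `z`. The set `Z` of the points `z` of `ball 0 R` near which `(φ w).rep i = 0` for all `w` is open; its complement in the ball
is open too: if `z ∉ Z` and `g` is a lift at `z`, the analytic function `g · i` is not eventually `0` at `z`, so `g w i ≠ 0` for `w ≠ z` near `z`
(`AnalyticAt.eventually_eq_zero_or_eventually_ne_zero`). The ball is preconnected and `0 ∉ Z`, so `Z` is empty.
(2) The set `S` of the `z ∈ closedBall 0 r` with `(φ z).rep i = 0` is finite: otherwise it has an accumulation point in the compact set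
`closedBall 0 r ⊆ ball 0 R` (`Set.Infinite.exists_accPt_of_subset_isCompact`), and (1) gives a contradiction at this point.
(3) For `s ∈ S` let `g` be a lift at `s`; `g w i = (w - s) ^ N s * u w` near `s` with `u` analytic, `u s ≠ 0` (`AnalyticAt.analyticOrderAt_eq_natCast` or
`AnalyticAt.exists_eventuallyEq_pow_smul_nonzero_iff`). Let `Q w = ∏ s ∈ S, (w - s) ^ N s` and `A w = Q w • nrm i (φ w)`.
Near a point `z ∈ ball 0 r` which is not in `S`, `G w = A w` is analytic and not zero and represents `φ`. Near `s ∈ S`: for `w ≠ s`,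
`A w = Q w • (g w i)⁻¹ • g w = ((∏ s' ≠ s, (w - s') ^ N s') / u w) • g w =: G w`, analytic and not zero at `s`, and represents `φ`.
(4) `f` = the function of `patch`: near every point `z` of `ball 0 r` it is equal to `G`.
-/

set_option autoImplicit false

namespace Pool.Agent.Lib.MP_62070a_ag.FH

open Metric Set Filter Topology

variable {n : ℕ}

theorem patch {E : Type} [NormedAddCommGroup E] [NormedSpace ℂ E] (A : ℂ → E) :
    ∃ F : ℂ → E, ∀ (z : ℂ) (G : ℂ → E), AnalyticAt ℂ G z → (∀ᶠ w in 𝓝[≠] z, A w = G w) → F =ᶠ[𝓝 z] G := by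
  refine ⟨fun z => limUnder (𝓝[≠] z) A, fun z G hG h => ?_⟩
  have h1 : ∀ᶠ w in 𝓝 z, ∀ᶠ x in 𝓝 w, x ≠ z → A x = G x :=
    eventually_eventually_nhds.2 (eventually_nhdsWithin_iff.1 h)
  have hc : ∀ᶠ w in 𝓝 z, ContinuousAt G w := by
    obtain ⟨q, ρ, hq⟩ := hG
    filter_upwards [Metric.eball_mem_nhds z hq.r_pos] with w hw
    exact hq.continuousOn.continuousAt (Metric.isOpen_eball.mem_nhds hw)
  filter_upwards [h1, hc] with w hw1 hw2
  have h2 : ∀ᶠ x in 𝓝[≠] w, A x = G x := by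
    have h3 : ∀ᶠ x in 𝓝[≠] w, x ≠ z := by
      by_cases hwz : w = z
      · rw [hwz]
        exact self_mem_nhdsWithin
      · exact nhdsWithin_le_nhds (isOpen_ne.mem_nhds hwz)
    filter_upwards [nhdsWithin_le_nhds hw1, h3] with x hx1 hx2
    exact hx1 hx2
  have h4 : Tendsto A (𝓝[≠] w) (𝓝 (G w)) := by
    have h5 : Tendsto G (𝓝[≠] w) (𝓝 (G w)) := hw2.tendsto.mono_left nhdsWithin_le_nhds
    refine h5.congr' ?_
    filter_upwards [h2] with x hx
    exact hx.symm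
  exact h4.limUnder_eq

private theorem patch_congr {φ : ℂ → PS n} {f g : ℂ → V n} {z : ℂ} (h : IsLift φ g z)
    (e : f =ᶠ[𝓝 z] g) : IsLift φ f z := by
  refine ⟨h.1.congr e.symm, ?_⟩
  filter_upwards [h.2, e] with w hw1 hw2
  rw [hw2]
  exact hw1

private theorem patch_coord {g : ℂ → V n} {z : ℂ} (h : AnalyticAt ℂ g z) (i : Fin (n + 1)) :
    AnalyticAt ℂ (fun w => g w i) z := by
  have h1 : AnalyticAt ℂ (fun v : V n => (EuclideanSpace.proj i : V n →L[ℂ] ℂ) v) (g z) :=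
    (EuclideanSpace.proj i : V n →L[ℂ] ℂ).analyticAt (g z)
  exact h1.comp h

private theorem patch_rep {φ : ℂ → PS n} {g : ℂ → V n} {z : ℂ} (h : IsLift φ g z)
    (i : Fin (n + 1)) : ∀ᶠ w in 𝓝 z, ((φ w).rep i ≠ 0 ↔ g w i ≠ 0) := by
  filter_upwards [h.2] with w hw
  obtain ⟨h1, h2⟩ := hw
  rw [h2]
  exact rep_mk_ne_zero_iff i (g w) h1

private theorem patch_dich {φ : ℂ → PS n} {g : ℂ → V n} {z : ℂ} (h : IsLift φ g z)
    (i : Fin (n + 1)) :
    (∀ᶠ w in 𝓝 z, (φ w).rep i = 0) ∨ ∀ᶠ w in 𝓝[≠] z, (φ w).rep i ≠ 0 := by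
  rcases (patch_coord h.1 i).eventually_eq_zero_or_eventually_ne_zero with h1 | h1
  · left
    filter_upwards [h1, patch_rep h i] with w hw1 hw2
    by_contra h3
    exact hw2.1 h3 hw1
  · right
    filter_upwards [h1, nhdsWithin_le_nhds (patch_rep h i)] with w hw1 hw2
    exact hw2.2 hw1

private theorem patch_nz {φ : ℂ → PS n} {R : ℝ} (hR : 0 < R) (hφ : HolOn φ (ball 0 R))
    {i : Fin (n + 1)} (hi : (φ 0).rep i ≠ 0) {z : ℂ} (hz : z ∈ ball (0 : ℂ) R) :
    ∀ᶠ w in 𝓝[≠] z, (φ w).rep i ≠ 0 := by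
  have hd : ∀ z ∈ ball (0 : ℂ) R,
      (∀ᶠ w in 𝓝 z, (φ w).rep i = 0) ∨ ∀ᶠ w in 𝓝[≠] z, (φ w).rep i ≠ 0 := by
    intro z hz
    obtain ⟨g, hg⟩ := hφ z hz
    exact patch_dich hg i
  have hno : ∀ z, (∀ᶠ w in 𝓝 z, (φ w).rep i = 0) → (∀ᶠ w in 𝓝[≠] z, (φ w).rep i ≠ 0) →
      False := by
    intro z h1 h2
    obtain ⟨w, hw1, hw2⟩ := ((h1.filter_mono nhdsWithin_le_nhds).and h2).exists
    exact hw2 hw1
  have hZ : IsOpen {z : ℂ | ∀ᶠ w in 𝓝 z, (φ w).rep i = 0} := isOpen_setOfPred_eventually_nhds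
  have hW : IsOpen {z : ℂ | z ∈ ball (0 : ℂ) R ∧ ∀ᶠ w in 𝓝[≠] z, (φ w).rep i ≠ 0} := by
    rw [isOpen_iff_mem_nhds]
    rintro z ⟨hz, h1⟩
    rw [eventually_nhdsWithin_iff] at h1
    filter_upwards [h1, isOpen_ball.mem_nhds hz] with w hw1 hw2
    refine ⟨hw2, ?_⟩
    by_cases hwz : w = z
    · rw [hwz, eventually_nhdsWithin_iff]
      exact h1
    · rcases hd w hw2 with h2 | h2
      · exact absurd h2.self_of_nhds (hw1 hwz)
      · exact h2
  rcases hd z hz with h1 | h1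
  · exfalso
    have h0 : (0 : ℂ) ∈ ball (0 : ℂ) R := mem_ball_self hR
    have h00 : ∀ᶠ w in 𝓝[≠] (0 : ℂ), (φ w).rep i ≠ 0 := by
      rcases hd 0 h0 with h2 | h2
      · exact absurd h2.self_of_nhds hi
      · exact h2
    obtain ⟨w, -, hw1, hw2⟩ := (convex_ball (0 : ℂ) R).isPreconnected _ _ hZ hW
      (fun x hx => (hd x hx).imp id fun h => ⟨hx, h⟩) ⟨z, hz, h1⟩ ⟨0, h0, h0, h00⟩
    exact hno w hw1 hw2.2
  · exact h1

theorem exists_lift {φ : ℂ → PS n} {r R : ℝ} (hr : 0 < r) (hrR : r < R) (hφ : HolOn φ (ball 0 R)) :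
    ∃ f : ℂ → V n, ∀ z ∈ ball (0 : ℂ) r, IsLift φ f z := by
  classical
  have hR : 0 < R := hr.trans hrR
  obtain ⟨i, hi⟩ : ∃ i, (φ 0).rep i ≠ 0 := by
    by_contra hcon
    apply (φ 0).rep_nonzero
    ext i
    by_contra h1
    exact hcon ⟨i, h1⟩
  have hsub : closedBall (0 : ℂ) r ⊆ ball 0 R := closedBall_subset_ball hrR
  have hnz : ∀ z ∈ ball (0 : ℂ) R, ∀ᶠ w in 𝓝[≠] z, (φ w).rep i ≠ 0 := fun z hz =>
    patch_nz hR hφ hi hz
  have hfin : {z : ℂ | z ∈ closedBall (0 : ℂ) r ∧ (φ z).rep i = 0}.Finite := by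
    by_contra hinf
    obtain ⟨x, hx, hacc⟩ := Set.Infinite.exists_accPt_of_subset_isCompact hinf
      (isCompact_closedBall (0 : ℂ) r) (fun z hz => hz.1)
    rw [accPt_iff_frequently_nhdsNE] at hacc
    apply hacc
    filter_upwards [hnz x (hsub hx)] with w hw1 hw2
    exact hw1 hw2.2
  have key : ∀ s, s ∈ ball (0 : ℂ) R → ∃ (N : ℕ) (g : ℂ → V n) (u : ℂ → ℂ), IsLift φ g s ∧
      AnalyticAt ℂ u s ∧ u s ≠ 0 ∧ ∀ᶠ w in 𝓝 s, g w i = (w - s) ^ N * u w := by
    intro s hs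
    obtain ⟨g, hg⟩ := hφ s hs
    have h1 : ¬ ∀ᶠ w in 𝓝 s, g w i = 0 := by
      intro h2
      obtain ⟨w, ⟨hw1, hw2⟩, hw3⟩ := (((h2.and (patch_rep hg i)).filter_mono
        nhdsWithin_le_nhds).and (hnz s hs)).exists
      exact hw2.1 hw3 hw1
    obtain ⟨N, u, hu, hu0, hgu⟩ :=
      (patch_coord hg.1 i).exists_eventuallyEq_pow_smul_nonzero_iff.2 h1
    exact ⟨N, g, u, hg, hu, hu0, hgu⟩
  choose! N g u hg hu hu0 hgu using key
  set S : Finset ℂ := hfin.toFinset with hS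
  have hmem : ∀ z, z ∈ S ↔ z ∈ closedBall (0 : ℂ) r ∧ (φ z).rep i = 0 := fun z =>
    hfin.mem_toFinset
  obtain ⟨F, hF⟩ := patch (fun w => (∏ s ∈ S, (w - s) ^ N s) • nrm i (φ w))
  have hprod : ∀ (S' : Finset ℂ) (z : ℂ), AnalyticAt ℂ (fun w => ∏ s ∈ S', (w - s) ^ N s) z :=
    fun S' z => Finset.analyticAt_fun_prod S' fun s _ =>
      (analyticAt_id.sub analyticAt_const).pow (N s)
  have hprod0 : ∀ (S' : Finset ℂ) (z : ℂ), z ∉ S' → ∏ s ∈ S', (z - s) ^ N s ≠ 0 := by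
    intro S' z hz
    refine Finset.prod_ne_zero_iff.2 fun s hs => pow_ne_zero _ (sub_ne_zero.2 ?_)
    rintro rfl
    exact hz hs
  refine ⟨F, fun z hz => ?_⟩
  have hzR : z ∈ ball (0 : ℂ) R := hsub (ball_subset_closedBall hz)
  by_cases hzS : z ∈ S
  · have hl : IsLift φ (fun w => ((∏ s ∈ S.erase z, (w - s) ^ N s) * (u z w)⁻¹) • g z w) z := by
      refine (hg z hzR).smul ?_ ?_
      · exact (hprod _ z).mul ((hu z hzR).inv (hu0 z hzR))
      · exact mul_ne_zero (hprod0 _ z (Finset.notMem_erase z S)) (inv_ne_zero (hu0 z hzR))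
    refine patch_congr hl (hF z _ hl.1 ?_)
    have hune : ∀ᶠ w in 𝓝 z, u z w ≠ 0 := (hu z hzR).continuousAt.eventually_ne (hu0 z hzR)
    filter_upwards [self_mem_nhdsWithin, nhdsWithin_le_nhds (hgu z hzR),
      nhdsWithin_le_nhds (hg z hzR).2, nhdsWithin_le_nhds hune] with w hw1 hw2 hw3 hw4
    obtain ⟨h1, h2⟩ := hw3
    have hwz : w - z ≠ 0 := sub_ne_zero.2 hw1
    have hpow : (w - z) ^ N z ≠ 0 := pow_ne_zero _ hwz
    have hgi : g z w i ≠ 0 := by
      rw [hw2]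
      exact mul_ne_zero hpow hw4
    rw [h2, nrm_mk i (g z w) h1 hgi, hw2, smul_smul, ← Finset.mul_prod_erase S _ hzS]
    congr 1
    field_simp
  · have hrep : (φ z).rep i ≠ 0 := by
      intro h0
      exact hzS ((hmem z).2 ⟨ball_subset_closedBall hz, h0⟩)
    have hl : IsLift φ (fun w => (∏ s ∈ S, (w - s) ^ N s) • nrm i (φ w)) z :=
      (isLift_nrm (hφ z hzR) hrep).smul (hprod S z) (hprod0 S z hzS)
    exact patch_congr hl (hF z _ hl.1 (Filter.Eventually.of_forall fun w => rfl))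

end Pool.Agent.Lib.MP_62070a_ag.FH
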