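import Pool.Agent.Lib.MP_62070a_ag.FH.Defs
import Pool.Agent.Lib.MP_62070a_ag.FH.Count

/-!
# FH / Punct : a rotation of the coordinates for which the map meets the special hyperplanes in few points

`exists_unitary`: every vector `v` can be mapped by a linear isometry to any vector of the same norm, in particular to
`(‖v‖ / ‖e‖) • e`, where `e i = i + 1`. Proof: for unit vectors `a`, `b` of a finite dimensional inner product space extend `a` and `b` to orthonormal bases indexed by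
`Fin (n + 1)` with `a`, `b` at the index `0` (`Orthonormal.exists_orthonormalBasis_extension_of_card_eq`), and take `OrthonormalBasis.equiv`.

`exists_punctures`. Let `U` be as in `exists_unitary` for `v = f 0`: the coordinates of `g = U ∘ f` at `0` are `t (i + 1)`, `t = ‖f 0‖ / κ > 0`, `κ = ‖e‖`
(a constant which depends only on `n`, `κ ≥ 1`). Consider the `(n + 1)²` functions `u_{ij}`: `u_{ii} = g_i`, `u_{ij} = g_i - g_j` for `i ≠ j`. They are analytic near
`closedBall 0 (9/10)`, `|u_{ij} 0| ≥ t`, and `|u_{ij}| ≤ 2 ‖g‖ = 2 ‖f‖`. Let `P` be the finite set of the zeros of the `u_{ij}` in `closedBall 0 (3/4)` (`finite_zeros`).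
By `card_zeros` the number `N_{ij}` of the zeros of `u_{ij}` satisfies `N_{ij} log (6/5) + log t ≤ circleAverage (log |u_{ij}|) ≤ log 2 + circleAverage (log ‖f‖)`
(`Real.circleAverage_mono`; `log |u_{ij} z| ≤ log 2 + log ‖f z‖` also if `u_{ij} z = 0`? then the left side is `log 0 = 0` in Lean: on the circle there may be finitely many zeros
of `u_{ij}`; use `Real.circleAverage_mono` after replacing `log |u_{ij}|` by a function equal outside of a finite set, `circleAverage_congr_codiscreteWithin`; or use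
instead the inequality `log |u| ≤ (1/2) log (|u|² + ε ‖f‖²)`-type bounds: for all `z`, if `u z = 0` then ... ; or compare with `log |u| ≤ log (2 ‖f‖)` off a null set:
`intervalIntegral.integral_mono_ae`). The functions are circle integrable: `AnalyticOnNhd.meromorphicOn`, `MeromorphicOn.circleIntegrable_log_norm`; `log ‖f‖` is continuous on the circle.
So `N_{ij} ≤ (log 2 + log κ + T) / log (6/5)`, `T = circleAverage (log ‖f‖) - log ‖f 0‖`. As `N_{ij} ≥ 0`, with `a = max (log 2 + log κ) ..`: `N_{ij} ≤ C' (1 + T)` for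
`C' = (log 2 + log κ + 1) / log (6/5)`, provided that `1 + T ≥ 0`. If `T` could be negative: from `N_{ij} ≥ 0` one has `T ≥ - (log 2 + log κ)` only; so the statement is given with `max T 0`.
Sum over `i, j`: `|P| ≤ (n + 1)² C' (1 + max T 0)`.
-/

set_option autoImplicit false

namespace Pool.Agent.Lib.MP_62070a_ag.FH

open Metric Set Filter Topology

variable {n : ℕ}

theorem exists_unitary (v e : V n) (hv : v ≠ 0) (he : e ≠ 0) :
    ∃ U : V n ≃ₗᵢ[ℂ] V n, U v = ((‖v‖ / ‖e‖ : ℝ) : ℂ) • e := by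
  have hvn : (‖v‖ : ℂ) ≠ 0 := by
    rw [Ne, Complex.ofReal_eq_zero, norm_eq_zero]
    exact hv
  have hen : (‖e‖ : ℂ) ≠ 0 := by
    rw [Ne, Complex.ofReal_eq_zero, norm_eq_zero]
    exact he
  have unit : ∀ w : V n, w ≠ 0 → ‖((‖w‖ : ℂ)⁻¹) • w‖ = 1 := by
    intro w hw
    rw [norm_smul, norm_inv, Complex.norm_real, norm_norm]
    exact inv_mul_cancel₀ (norm_ne_zero_iff.2 hw)
  have ext : ∀ w : V n, w ≠ 0 → ∃ b : OrthonormalBasis (Fin (n + 1)) ℂ (V n), b 0 = ((‖w‖ : ℂ)⁻¹) • w := by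
    intro w hw
    have hfin : Module.finrank ℂ (V n) = Fintype.card (Fin (n + 1)) := finrank_euclideanSpace
    have hort : Orthonormal ℂ (({0} : Set (Fin (n + 1))).domRestrict
        (fun _ : Fin (n + 1) => ((‖w‖ : ℂ)⁻¹) • w)) := by
      refine ⟨fun i => unit w hw, fun i j hij => ?_⟩
      exact absurd (Subsingleton.elim i j) hij
    obtain ⟨b, hb⟩ := hort.exists_orthonormalBasis_extension_of_card_eq hfin
    exact ⟨b, hb 0 (mem_singleton 0)⟩
  obtain ⟨b₁, hb₁⟩ := ext v hv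
  obtain ⟨b₂, hb₂⟩ := ext e he
  refine ⟨b₁.equiv b₂ (Equiv.refl _), ?_⟩
  have h1 : (b₁.equiv b₂ (Equiv.refl _)) (b₁ 0) = b₂ 0 := b₁.equiv_apply_basis b₂ (Equiv.refl _) 0
  have h2 : v = (‖v‖ : ℂ) • b₁ 0 := by
    rw [hb₁, smul_smul, mul_inv_cancel₀ hvn, one_smul]
  have h3 : (b₁.equiv b₂ (Equiv.refl _)) ((‖v‖ : ℂ) • b₁ 0) = (‖v‖ : ℂ) • b₂ 0 := by
    rw [map_smul, h1]
  rw [← h2, hb₂, smul_smul] at h3
  rw [h3, Complex.ofReal_div, div_eq_mul_inv]

/-- comparison of circle averages off the zeros -/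
private theorem punct_avg {u : ℂ → ℂ} {h : ℂ → ℝ} (hu : AnalyticOnNhd ℂ u (closedBall 0 (9 / 10)))
    (h0 : u 0 ≠ 0) (hh : CircleIntegrable h 0 (9 / 10))
    (hle : ∀ z ∈ closedBall (0 : ℂ) (9 / 10), u z ≠ 0 → Real.log ‖u z‖ ≤ h z) :
    Real.circleAverage (fun z => Real.log ‖u z‖) 0 (9 / 10) ≤ Real.circleAverage h 0 (9 / 10) := by
  classical
  have habs : |(9 / 10 : ℝ)| = 9 / 10 := abs_of_pos (by norm_num)
  have hconn : IsConnected (closedBall (0 : ℂ) (9 / 10)) :=
    ⟨⟨0, mem_closedBall_self (by norm_num)⟩, (convex_closedBall (0 : ℂ) (9 / 10)).isPreconnected⟩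
  have hcod : u ⁻¹' {0}ᶜ ∈ codiscreteWithin (closedBall (0 : ℂ) (9 / 10)) :=
    hu.preimage_zero_mem_codiscreteWithin h0 (mem_closedBall_self (by norm_num)) hconn
  have hsub : sphere (0 : ℂ) |9 / 10| ⊆ closedBall (0 : ℂ) (9 / 10) := by
    rw [habs]
    exact sphere_subset_closedBall
  have hcod' : u ⁻¹' {0}ᶜ ∈ codiscreteWithin (sphere (0 : ℂ) |9 / 10|) :=
    codiscreteWithin_mono hsub hcod
  have heq : (fun z => Real.log ‖u z‖) =ᶠ[codiscreteWithin (sphere (0 : ℂ) |9 / 10|)]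
      fun z => if u z = 0 then h z else Real.log ‖u z‖ := by
    filter_upwards [hcod'] with z hz
    have hz' : u z ≠ 0 := hz
    rw [if_neg hz']
  have hint : CircleIntegrable (fun z => Real.log ‖u z‖) 0 (9 / 10) := by
    refine MeromorphicOn.circleIntegrable_log_norm ?_
    exact fun z hz => (hu z (hsub hz)).meromorphicAt
  rw [Real.circleAverage_congr_codiscreteWithin heq (by norm_num)]
  refine Real.circleAverage_mono (hint.congr_codiscreteWithin heq) hh ?_
  intro z hz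
  show (if u z = 0 then h z else Real.log ‖u z‖) ≤ h z
  split_ifs with hz0
  · exact le_refl _
  · exact hle z (hsub hz) hz0

/-- the vector `e` with the coordinates `i + 1` -/
private noncomputable def punctE (n : ℕ) : V n := WithLp.toLp 2 fun i => ((i : ℕ) : ℂ) + 1

private theorem punctE_apply (n : ℕ) (i : Fin (n + 1)) : punctE n i = ((i : ℕ) : ℂ) + 1 := rfl

private theorem one_le_norm_punctE (n : ℕ) : 1 ≤ ‖punctE n‖ := by
  have h := PiLp.norm_apply_le (punctE n) 0
  rw [punctE_apply] at h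
  have h2 : ‖(((0 : Fin (n + 1)) : ℕ) : ℂ) + 1‖ = 1 := by
    rw [Fin.val_zero, Nat.cast_zero, zero_add, norm_one]
  rwa [h2] at h

/-- the coordinate functions and their differences -/
private noncomputable def punctL (n : ℕ) (U : V n ≃ₗᵢ[ℂ] V n) (p : Fin (n + 1) × Fin (n + 1)) (w : V n) : ℂ :=
  if p.1 = p.2 then U w p.1 else U w p.1 - U w p.2

private theorem punctL_norm_le (n : ℕ) (U : V n ≃ₗᵢ[ℂ] V n) (p : Fin (n + 1) × Fin (n + 1)) (w : V n) :
    ‖punctL n U p w‖ ≤ 2 * ‖w‖ := by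
  have h : ∀ i, ‖U w i‖ ≤ ‖w‖ := by
    intro i
    have h1 := PiLp.norm_apply_le (U w) i
    rwa [U.norm_map] at h1
  rw [punctL]
  split_ifs
  · have := h p.1
    have := norm_nonneg w
    linarith
  · refine (norm_sub_le _ _).trans ?_
    have := h p.1
    have := h p.2
    linarith

private theorem punctL_analytic (n : ℕ) (U : V n ≃ₗᵢ[ℂ] V n) (p : Fin (n + 1) × Fin (n + 1))
    {f : ℂ → V n} {s : Set ℂ} (hf : AnalyticOnNhd ℂ f s) :
    AnalyticOnNhd ℂ (fun z => punctL n U p (f z)) s := by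
  have h : ∀ i, AnalyticOnNhd ℂ (fun z => U (f z) i) s := by
    intro i
    have h1 := ((EuclideanSpace.proj i : V n →L[ℂ] ℂ).comp
      (U.toContinuousLinearEquiv : V n →L[ℂ] V n)).comp_analyticOnNhd hf
    exact h1
  unfold punctL
  split_ifs with hp
  · exact h p.1
  · exact (h p.1).sub (h p.2)

private theorem punctL_zero (n : ℕ) (U : V n ≃ₗᵢ[ℂ] V n) (p : Fin (n + 1) × Fin (n + 1)) (w : V n) (t : ℝ)
    (ht : 0 < t) (hU : U w = ((t : ℝ) : ℂ) • punctE n) : t ≤ ‖punctL n U p w‖ := by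
  have h : ∀ i, U w i = (t : ℂ) * (((i : ℕ) : ℂ) + 1) := by
    intro i
    rw [hU]
    rfl
  rw [punctL]
  split_ifs with hp
  · rw [h, norm_mul, Complex.norm_real, Real.norm_of_nonneg ht.le]
    have h1 : (1 : ℝ) ≤ ‖((p.1 : ℕ) : ℂ) + 1‖ := by
      have h2 : ((p.1 : ℕ) : ℂ) + 1 = ((((p.1 : ℕ) : ℝ) + 1 : ℝ) : ℂ) := by push_cast; ring
      rw [h2, Complex.norm_real, Real.norm_of_nonneg (by positivity)]
      have : (0 : ℝ) ≤ ((p.1 : ℕ) : ℝ) := by positivity
      linarith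
    nlinarith
  · rw [h, h]
    have h3 : (t : ℂ) * (((p.1 : ℕ) : ℂ) + 1) - (t : ℂ) * (((p.2 : ℕ) : ℂ) + 1) =
        ((t * ((((p.1 : ℕ) : ℤ) - ((p.2 : ℕ) : ℤ) : ℤ) : ℝ) : ℝ) : ℂ) := by
      push_cast
      ring
    rw [h3, Complex.norm_real, norm_mul, Real.norm_of_nonneg ht.le, Real.norm_eq_abs]
    have h4 : (1 : ℤ) ≤ |((p.1 : ℕ) : ℤ) - ((p.2 : ℕ) : ℤ)| := by
      refine Int.one_le_abs ?_
      intro h5
      apply hp
      apply Fin.ext
      omega
    have h5 : (1 : ℝ) ≤ |((((p.1 : ℕ) : ℤ) - ((p.2 : ℕ) : ℤ) : ℤ) : ℝ)| := by exact_mod_cast h4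
    nlinarith

theorem exists_punctures (n : ℕ) : ∃ C : ℝ, 0 < C ∧ ∀ f : ℂ → V n, AnalyticOnNhd ℂ f (closedBall 0 (9 / 10)) →
    (∀ z ∈ closedBall (0 : ℂ) (9 / 10), f z ≠ 0) →
    ∃ (U : V n ≃ₗᵢ[ℂ] V n) (P : Finset ℂ),
      (∀ z ∈ closedBall (0 : ℂ) (3 / 4), z ∉ P → (∀ i, U (f z) i ≠ 0) ∧ ∀ i j, i ≠ j → U (f z) i ≠ U (f z) j) ∧
      (P.card : ℝ) ≤ C * (1 + max 0 (Real.circleAverage (fun z => Real.log ‖f z‖) 0 (9 / 10) - Real.log ‖f 0‖)) := by
  classical
  have hκ1 : 1 ≤ ‖punctE n‖ := one_le_norm_punctE n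
  have hκ : 0 < ‖punctE n‖ := by linarith
  have he : punctE n ≠ 0 := norm_pos_iff.1 hκ
  have hL : 0 < Real.log (6 / 5) := Real.log_pos (by norm_num)
  have hA : 0 ≤ Real.log 2 + Real.log ‖punctE n‖ :=
    add_nonneg (Real.log_nonneg (by norm_num)) (Real.log_nonneg hκ1)
  refine ⟨((n : ℝ) + 1) ^ 2 * ((Real.log 2 + Real.log ‖punctE n‖ + 1) / Real.log (6 / 5)), by positivity, ?_⟩
  intro f hf hf0
  have hz0 : (0 : ℂ) ∈ closedBall (0 : ℂ) (9 / 10) := mem_closedBall_self (by norm_num)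
  have hf00 : f 0 ≠ 0 := hf0 0 hz0
  obtain ⟨U, hU⟩ := exists_unitary (f 0) (punctE n) hf00 he
  have hn0 : 0 < ‖f 0‖ := norm_pos_iff.2 hf00
  have ht : 0 < ‖f 0‖ / ‖punctE n‖ := div_pos hn0 hκ
  have huan : ∀ p, AnalyticOnNhd ℂ (fun z => punctL n U p (f z)) (closedBall 0 (9 / 10)) := fun p =>
    punctL_analytic n U p hf
  have hu0 : ∀ p, ‖f 0‖ / ‖punctE n‖ ≤ ‖punctL n U p (f 0)‖ := fun p => punctL_zero n U p (f 0) _ ht hU
  have hune : ∀ p, punctL n U p (f 0) ≠ 0 := fun p => norm_pos_iff.1 (ht.trans_le (hu0 p))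
  have hfin : ∀ p, {z : ℂ | z ∈ closedBall (0 : ℂ) (3 / 4) ∧ punctL n U p (f z) = 0}.Finite := fun p =>
    finite_zeros (huan p) (hune p)
  -- the circle average of `log ‖f‖`
  have hlogint : CircleIntegrable (fun z => Real.log ‖f z‖) 0 (9 / 10) := by
    refine ContinuousOn.circleIntegrable' ?_
    have habs : |(9 / 10 : ℝ)| = 9 / 10 := abs_of_pos (by norm_num)
    rw [habs]
    refine ContinuousOn.log ?_ ?_
    · exact (hf.continuousOn.mono sphere_subset_closedBall).norm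
    · intro z hz
      exact norm_ne_zero_iff.2 (hf0 z (sphere_subset_closedBall hz))
  have hconst : CircleIntegrable (fun _ : ℂ => Real.log 2) 0 (9 / 10) := circleIntegrable_const _ _ _
  have hsum : CircleIntegrable (fun z => Real.log 2 + Real.log ‖f z‖) 0 (9 / 10) := by
    have := hconst.add hlogint
    exact this
  have havg : Real.circleAverage (fun z => Real.log 2 + Real.log ‖f z‖) 0 (9 / 10) =
      Real.log 2 + Real.circleAverage (fun z => Real.log ‖f z‖) 0 (9 / 10) := by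
    rw [Real.circleAverage_fun_add hconst hlogint, Real.circleAverage_const]
  have hcard : ∀ p, ((hfin p).toFinset.card : ℝ) ≤ (Real.log 2 + Real.log ‖punctE n‖ + 1) / Real.log (6 / 5) *
      (1 + max 0 (Real.circleAverage (fun z => Real.log ‖f z‖) 0 (9 / 10) - Real.log ‖f 0‖)) := by
    intro p
    have h1 := card_zeros (huan p) (hune p) (hfin p).toFinset (by
      intro s hs
      exact (hfin p).mem_toFinset.1 hs)
    have h2 : Real.circleAverage (fun z => Real.log ‖punctL n U p (f z)‖) 0 (9 / 10) ≤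
        Real.circleAverage (fun z => Real.log 2 + Real.log ‖f z‖) 0 (9 / 10) := by
      refine punct_avg (huan p) (hune p) hsum ?_
      intro z hz hzne
      have hfz : 0 < ‖f z‖ := norm_pos_iff.2 (hf0 z hz)
      rw [← Real.log_mul (by norm_num) hfz.ne']
      exact Real.log_le_log (norm_pos_iff.2 hzne) (punctL_norm_le n U p (f z))
    rw [havg] at h2
    have h3 : Real.log ‖f 0‖ - Real.log ‖punctE n‖ ≤ Real.log ‖punctL n U p (f 0)‖ := by
      rw [← Real.log_div hn0.ne' hκ.ne']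
      exact Real.log_le_log ht (hu0 p)
    have h4 : ((hfin p).toFinset.card : ℝ) * Real.log (6 / 5) ≤ Real.log 2 + Real.log ‖punctE n‖ +
        (Real.circleAverage (fun z => Real.log ‖f z‖) 0 (9 / 10) - Real.log ‖f 0‖) := by
      linarith
    have hT : Real.circleAverage (fun z => Real.log ‖f z‖) 0 (9 / 10) - Real.log ‖f 0‖ ≤
        max 0 (Real.circleAverage (fun z => Real.log ‖f z‖) 0 (9 / 10) - Real.log ‖f 0‖) := le_max_right _ _
    have hT0 : 0 ≤ max 0 (Real.circleAverage (fun z => Real.log ‖f z‖) 0 (9 / 10) - Real.log ‖f 0‖) :=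
      le_max_left _ _
    rw [div_mul_eq_mul_div, le_div_iff₀ hL]
    refine h4.trans ?_
    nlinarith [mul_nonneg hA hT0]
  refine ⟨U, Finset.univ.biUnion fun p => (hfin p).toFinset, ?_, ?_⟩
  · intro z hz hzP
    have hz' : ∀ p, punctL n U p (f z) ≠ 0 := by
      intro p hp
      apply hzP
      rw [Finset.mem_biUnion]
      exact ⟨p, Finset.mem_univ _, (hfin p).mem_toFinset.2 ⟨hz, hp⟩⟩
    refine ⟨fun i => ?_, fun i j hij => ?_⟩
    · have := hz' (i, i)
      rwa [punctL, if_pos rfl] at this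
    · have := hz' (i, j)
      rw [punctL, if_neg hij] at this
      exact sub_ne_zero.1 this
  · have h1 : ((Finset.univ.biUnion fun p => (hfin p).toFinset).card : ℝ) ≤
        ∑ p : Fin (n + 1) × Fin (n + 1), ((hfin p).toFinset.card : ℝ) := by
      exact_mod_cast Finset.card_biUnion_le
    refine h1.trans ((Finset.sum_le_sum fun p _ => hcard p).trans ?_)
    rw [Finset.sum_const, Finset.card_univ, Fintype.card_prod, Fintype.card_fin, nsmul_eq_mul]
    apply le_of_eq
    push_cast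
    ring

end Pool.Agent.Lib.MP_62070a_ag.FH
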