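import Pool.Agent.Lib.MP_62070a_ag.FH.LocA
import Pool.Agent.Lib.MP_62070a_ag.FH.Patch
import Pool.Agent.Lib.MP_62070a_ag.FH.Punct
import Pool.Agent.Lib.MP_62070a_ag.FH.GJd

/-!
# FH / LocB : the local inequality (assembly)

Proof. `C₀` = the constant of `vertical_brody` for `K = 6000² (m + 1)²`, `C₁` = the constant of `exists_punctures m`, `C₂` = the constant of `area_bound`. Given `φ`, let `F` be the lift of `f ∘ φ`
on `ball 0 (19/20)` (`exists_lift`, `HolOn.regular`), `U`, `P` given by `exists_punctures` for `F` (`closedBall 0 (9/10) ⊆ ball 0 (19/20)`), `T = circleAverage (log ‖F‖) 0 (9/10) - log ‖F 0‖`.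
`|P| ≤ C₁ (1 + max 0 T)`. By `disc_hyp` and `area_bound`: `∫⁻_{ball 0 (1/4)} ofReal (energy φ / (4 C₀)) ≤ ofReal (C₂ (1 + |P|)) ≤ ofReal (C₂ (1 + C₁) (1 + max 0 T))`
(`C₂ (1 + C₁ (1 + x)) ≤ C₂ (1 + C₁) (1 + x)`), `ofReal (1 + max 0 T) = 1 + ofReal T`, and `ofReal T ≤ ofReal (π T)` (`π ≥ 1`; if `T ≤ 0` the left side is `0`) `≤
∫⁻_{ball 0 (9/10)} ofReal (log ((9/10) / ‖w‖) * den F w)` (`green_jensen`, `R = 9/10`, `R₁ = 19/20`) `≤ ∫⁻_{ball 0 1} ofReal (log (1 / ‖w‖) * energy (f ∘ φ) w)` (`IsLift.energy_eq`, `lintegral_mono_set`,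
`setLIntegral_mono'`; for `w = 0` both logarithms are `log 0 = 0`). So the statement holds with `C = 4 C₀ C₂ (1 + C₁)`.
-/

set_option autoImplicit false

namespace Pool.Agent.Lib.MP_62070a_ag.FH

open Metric Set Filter Topology MeasureTheory
open scoped ENNReal

variable {n m : ℕ}

theorem local_ineq {X : Set (PS n)} (hX : IsAlg X) {f : PS n → PS m} (hf : IsRegular X f)
    (hB : ∀ y : PS m, Brody {x | x ∈ X ∧ f x = y}) :
    ∃ C : ℝ, 0 < C ∧ ∀ φ : ℂ → PS n, HolOn φ (ball 0 1) → (∀ z ∈ ball (0 : ℂ) 1, φ z ∈ X) →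
      ∫⁻ z in ball (0 : ℂ) (1 / 4), ENNReal.ofReal (energy φ z) ≤
        ENNReal.ofReal C * (1 + ∫⁻ w in ball (0 : ℂ) 1,
          ENNReal.ofReal (Real.log (1 / ‖w‖) * energy (fun w => f (φ w)) w)) := by
  obtain ⟨C₀, hC₀, hV⟩ := vertical_brody hX hf hB (6000 ^ 2 * ((m : ℝ) + 1) ^ 2)
  obtain ⟨C₁, hC₁, hP⟩ := exists_punctures m
  obtain ⟨C₂, hC₂, hA⟩ := area_bound
  refine ⟨4 * C₀ * (C₂ * (1 + C₁)), by positivity, fun φ hφ hφX => ?_⟩
  have hfφ : HolOn (fun w => f (φ w)) (ball 0 1) := HolOn.regular hf isOpen_ball hφ hφX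
  obtain ⟨F, hF⟩ := exists_lift (r := 19 / 20) (R := 1) (by norm_num) (by norm_num) hfφ
  have hsub : closedBall (0 : ℂ) (9 / 10) ⊆ ball 0 (19 / 20) := closedBall_subset_ball (by norm_num)
  obtain ⟨U, P, hUP, hcard⟩ := hP F (fun z hz => (hF z (hsub hz)).1)
    (fun z hz => (hF z (hsub hz)).ne_zero)
  have hG := green_jensen (f := F) (R := 9 / 10) (R₁ := 19 / 20) (by norm_num) (by norm_num)
    (fun z hz => (hF z hz).1) (fun z hz => (hF z hz).ne_zero)
  obtain ⟨T, hT⟩ : ∃ T : ℝ, T = Real.circleAverage (fun z => Real.log ‖F z‖) 0 (9 / 10) -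
      Real.log ‖F 0‖ := ⟨_, rfl⟩
  rw [← hT] at hcard hG
  have hD := disc_hyp hf hC₀ hV hφ hφX hF hUP
  have h1 := hA P _ hD
  -- the integral of the energy of `f ∘ φ`
  have h2 : ENNReal.ofReal (Real.pi * T) ≤ ∫⁻ w in ball (0 : ℂ) 1,
      ENNReal.ofReal (Real.log (1 / ‖w‖) * energy (fun w => f (φ w)) w) := by
    refine hG.trans (le_trans (setLIntegral_mono' measurableSet_ball fun w hw => ?_)
      (lintegral_mono_set (ball_subset_ball (by norm_num : (9 / 10 : ℝ) ≤ 1))))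
    have hw' : w ∈ ball (0 : ℂ) (19 / 20) := ball_subset_ball (by norm_num) hw
    have he : energy (fun w => f (φ w)) w = den F w := (hF w hw').energy_eq
    rw [he]
    refine ENNReal.ofReal_le_ofReal (mul_le_mul_of_nonneg_right ?_ (den_nonneg F w))
    rcases eq_or_ne w 0 with rfl | h0
    · rw [norm_zero, div_zero, div_zero]
    · have hw0 : 0 < ‖w‖ := norm_pos_iff.2 h0
      refine Real.log_le_log (by positivity) ?_
      exact div_le_div_of_nonneg_right (by norm_num) hw0.le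
  have h3 : ENNReal.ofReal (1 + max 0 T) ≤ 1 + ∫⁻ w in ball (0 : ℂ) 1,
      ENNReal.ofReal (Real.log (1 / ‖w‖) * energy (fun w => f (φ w)) w) := by
    rw [ENNReal.ofReal_add zero_le_one (le_max_left 0 T), ENNReal.ofReal_one]
    refine add_le_add le_rfl (le_trans ?_ h2)
    refine ENNReal.ofReal_le_ofReal_iff'.2 ?_
    rcases le_or_gt T 0 with h | h
    · right
      rw [max_eq_left h]
    · left
      rw [max_eq_right h.le]
      have hπ := Real.pi_gt_three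
      nlinarith
  have h4 : ENNReal.ofReal (C₂ * (1 + P.card)) ≤
      ENNReal.ofReal (C₂ * (1 + C₁)) * ENNReal.ofReal (1 + max 0 T) := by
    rw [← ENNReal.ofReal_mul (by positivity)]
    refine ENNReal.ofReal_le_ofReal ?_
    have h5 : (0 : ℝ) ≤ max 0 T := le_max_left 0 T
    have h6 : (1 : ℝ) + P.card ≤ (1 + C₁) * (1 + max 0 T) := by nlinarith
    calc C₂ * (1 + (P.card : ℝ)) ≤ C₂ * ((1 + C₁) * (1 + max 0 T)) :=
          mul_le_mul_of_nonneg_left h6 hC₂.le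
      _ = C₂ * (1 + C₁) * (1 + max 0 T) := by ring
  have h7 : ∫⁻ z in ball (0 : ℂ) (1 / 4), ENNReal.ofReal (energy φ z) =
      ENNReal.ofReal (4 * C₀) * ∫⁻ z in ball (0 : ℂ) (1 / 4),
        ENNReal.ofReal (energy φ z / (4 * C₀)) := by
    rw [← lintegral_const_mul' _ _ ENNReal.ofReal_ne_top]
    refine lintegral_congr fun z => ?_
    rw [← ENNReal.ofReal_mul (by positivity)]
    congr 1
    field_simp
  calc ∫⁻ z in ball (0 : ℂ) (1 / 4), ENNReal.ofReal (energy φ z)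
      = ENNReal.ofReal (4 * C₀) * ∫⁻ z in ball (0 : ℂ) (1 / 4),
        ENNReal.ofReal (energy φ z / (4 * C₀)) := h7
    _ ≤ ENNReal.ofReal (4 * C₀) * (ENNReal.ofReal (C₂ * (1 + C₁)) *
        ENNReal.ofReal (1 + max 0 T)) := mul_le_mul_right (h1.trans h4) _
    _ = ENNReal.ofReal (4 * C₀ * (C₂ * (1 + C₁))) * ENNReal.ofReal (1 + max 0 T) := by
        rw [← mul_assoc, ← ENNReal.ofReal_mul (by positivity)]
    _ ≤ _ := mul_le_mul_right h3 _

end Pool.Agent.Lib.MP_62070a_ag.FH
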