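import Pool.Agent.Lib.MP_62070a_ag.FH.GlobB

/-!
# FH / Main : the fibration property with Brody hyperbolic fibres

Proof. `NoRational X`: let `φ`, `ψ` be as in the definition. `f ∘ φ`, `f ∘ ψ` are holomorphic (`HolOn.regular`; `ψ z ∈ X` for `z ≠ 0`, and `ψ 0 ∈ X`: `X` is closed, the points `ψ (1 / (k + 1))` converge to `ψ 0`: use
`mem_of_lift`) with values in `Y`, so `f ∘ φ` is constant, `= y`. So `φ` has values in the fibre over `y` and is constant by `hB`.
`mem_of_lift`: `φ` has a lift `g` at `0` and `φ z ∈ X` for `z ≠ 0` near `0`; the polynomials `P ∈ S` satisfy `evalV P (g z) = 0` for `z ≠ 0` near `0` (`mem_iff_evalV`), hence also for `z = 0` by continuity (`analyticAt_evalV`).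
`NoElliptic X`: the same with the periods. The last part: `relative_ineq` and the constant `C'` of `Y`: `areaOn φ F ≤ C (volume F + areaOn (f ∘ φ) F) ≤ C (1 + C') volume F` (`curveMap_comp`, `countable_of_discrete`).
-/

set_option autoImplicit false

namespace Pool.Agent.Lib.MP_62070a_ag.FH

open Metric Set Filter Topology MeasureTheory UpperHalfPlane
open scoped ENNReal NNReal MatrixGroups

variable {n m : ℕ}

theorem mem_of_lift {X : Set (PS n)} (hX : IsAlg X) {φ : ℂ → PS n} {z : ℂ} (h : ∃ f, IsLift φ f z)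
    (hm : ∀ᶠ w in 𝓝[≠] z, φ w ∈ X) : φ z ∈ X := by
  obtain ⟨g, hg⟩ := h
  obtain ⟨S, hS, rfl⟩ := hX
  rw [hg.eq_mk, mem_iff_evalV hS]
  intro P hP
  have h1 : ContinuousAt (fun w => evalV P (g w)) z := (analyticAt_evalV hg.1).continuousAt
  have h2 : ∀ᶠ w in 𝓝[≠] z, evalV P (g w) = 0 := by
    filter_upwards [hm, hg.eventually.filter_mono nhdsWithin_le_nhds] with w hw hgw
    rw [hgw.eq_mk] at hw
    exact (mem_iff_evalV hS (g w) hgw.ne_zero).1 hw P hP
  have h3 : Tendsto (fun w => evalV P (g w)) (𝓝[≠] z) (𝓝 (evalV P (g z))) :=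
    h1.tendsto.mono_left nhdsWithin_le_nhds
  have h4 : Tendsto (fun w => evalV P (g w)) (𝓝[≠] z) (𝓝 0) :=
    tendsto_const_nhds.congr' (h2.mono fun w hw => hw.symm)
  exact tendsto_nhds_unique h3 h4

private theorem main_fibre {X : Set (PS n)} {f : PS n → PS m} (hf : IsRegular X f)
    (hB : ∀ y : PS m, Brody {x | x ∈ X ∧ f x = y}) {φ : ℂ → PS n} (hφ : HolOn φ univ) (hX : ∀ z, φ z ∈ X)
    (hc : HolOn (fun w => f (φ w)) univ → ∀ z w, f (φ z) = f (φ w)) (z w : ℂ) : φ z = φ w := by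
  have h1 : HolOn (fun w => f (φ w)) univ := HolOn.regular hf isOpen_univ hφ (fun z _ => hX z)
  exact hB (f (φ 0)) φ hφ (fun z => ⟨hX z, hc h1 z 0⟩) z w

theorem fibration {X : Set (PS n)} {Y : Set (PS m)} (hX : IsAlg X) {f : PS n → PS m} (hf : IsRegular X f)
    (hfY : ∀ x ∈ X, f x ∈ Y) (hB : ∀ y : PS m, Brody {x | x ∈ X ∧ f x = y}) (hY : AlgHyp Y) : AlgHyp X := by
  refine ⟨?_, ?_, ?_⟩
  · intro φ ψ hφ hψ hφX hψφ
    have hψX : ∀ z, ψ z ∈ X := by
      intro z
      by_cases hz : z = 0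
      · rw [hz]
        refine mem_of_lift hX (hψ 0 (mem_univ 0)) ?_
        filter_upwards [self_mem_nhdsWithin] with w hw
        rw [hψφ w hw]
        exact hφX _
      · rw [hψφ z hz]
        exact hφX _
    refine main_fibre hf hB hφ hφX fun h1 => ?_
    exact hY.1 (fun w => f (φ w)) (fun w => f (ψ w)) h1
      (HolOn.regular hf isOpen_univ hψ (fun z _ => hψX z)) (fun z => hfY _ (hφX z))
      (fun z hz => by rw [hψφ z hz])
  · intro φ ω₁ ω₂ hω hφ hφX h1 h2
    refine main_fibre hf hB hφ hφX fun h3 => ?_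
    exact hY.2.1 (fun w => f (φ w)) ω₁ ω₂ hω h3 (fun z => hfY _ (hφX z))
      (fun z => by rw [h1 z]) (fun z => by rw [h2 z])
  · obtain ⟨C, hC⟩ := relative_ineq hX hf hB
    obtain ⟨C', hC'⟩ := hY.2.2
    refine ⟨C * (1 + C'), fun Γ F φ hΓ hF hφ => ?_⟩
    have h1 := hC Γ F φ (countable_of_discrete Γ hΓ.discrete) hF hφ
    have h2 := hC' Γ F (fun w => f (φ w)) hΓ hF (curveMap_comp hf hfY hφ)
    calc areaOn φ F ≤ C * (volume F + areaOn (fun w => f (φ w)) F) := h1
      _ ≤ C * (volume F + C' * volume F) := by gcongr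
      _ = ((C * (1 + C') : ℝ≥0) : ℝ≥0∞) * volume F := by
        push_cast
        ring

end Pool.Agent.Lib.MP_62070a_ag.FH
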