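import Pool.Agent.Lib.MP_62070a_ag.FH.Lift

/-!
# FH / Reg : homogeneous polynomials and morphisms
-/

set_option autoImplicit false

namespace Pool.Agent.Lib.MP_62070a_ag.FH

open Metric Set Filter Topology

variable {n m : ℕ}

/-- `MvPolynomial.IsHomogeneous.eval₂`-type statement; by `MvPolynomial.eval_eq'` or `IsHomogeneous`: every monomial `s` of `P` has
degree `d`, so `∏ (c v_i)^(s i) = c^d ∏ v_i^(s i)` -/
theorem evalV_smul {P : MvPolynomial (Fin (n + 1)) ℂ} {d : ℕ} (hP : P.IsHomogeneous d) (c : ℂ) (v : V n) :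
    evalV P (c • v) = c ^ d * evalV P v := by
  unfold evalV
  rw [MvPolynomial.eval_eq', MvPolynomial.eval_eq', Finset.mul_sum]
  refine Finset.sum_congr rfl fun s hs => ?_
  have hd : ∑ i, s i = d := by
    have h1 := hP (MvPolynomial.mem_support_iff.1 hs)
    rw [Finsupp.weight_apply] at h1
    simpa [Finsupp.sum_fintype] using h1
  have h2 : ∏ i, ((c • v) i) ^ (s i) = c ^ d * ∏ i, (v i) ^ (s i) := by
    have h3 : ∀ i, ((c • v) i) ^ (s i) = c ^ (s i) * (v i) ^ (s i) := by
      intro i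
      rw [PiLp.smul_apply, smul_eq_mul, mul_pow]
    rw [Finset.prod_congr rfl fun i _ => h3 i, Finset.prod_mul_distrib, Finset.prod_pow_eq_pow_sum, hd]
  rw [h2]
  ring

theorem pmap_smul {P : Fin (m + 1) → MvPolynomial (Fin (n + 1)) ℂ} {d : ℕ} (hP : ∀ j, (P j).IsHomogeneous d) (c : ℂ)
    (v : V n) : pmap P (c • v) = c ^ d • pmap P v := by
  ext j
  have h := evalV_smul (hP j) c v
  simpa [pmap] using h

/-- a polynomial map is analytic (induction on `P`, or `MvPolynomial.eval_eq'` and finite sums and products);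
the coordinate maps of `V n` are continuous linear (`EuclideanSpace.proj`) -/
theorem analyticAt_evalV {P : MvPolynomial (Fin (n + 1)) ℂ} {g : ℂ → V n} {z : ℂ} (hg : AnalyticAt ℂ g z) :
    AnalyticAt ℂ (fun w => evalV P (g w)) z := by
  have h := AnalyticAt.aeval_mvPolynomial (𝕜 := ℂ) (f := fun w i => g w i) (z := z)
    (fun i => ((EuclideanSpace.proj (𝕜 := ℂ) i).analyticAt (g z)).comp hg) P
  refine h.congr (Filter.Eventually.of_forall fun w => ?_)
  simp only [evalV]
  rw [MvPolynomial.aeval_def, MvPolynomial.eval, MvPolynomial.coe_eval₂Hom]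
  rfl

/-- by coordinates: a map to `V m = EuclideanSpace` is analytic iff its coordinates are (compose with the continuous linear
equivalence `EuclideanSpace.equiv`, `analyticAt_pi_iff` or similar) -/
theorem analyticAt_pmap {P : Fin (m + 1) → MvPolynomial (Fin (n + 1)) ℂ} {g : ℂ → V n} {z : ℂ}
    (hg : AnalyticAt ℂ g z) : AnalyticAt ℂ (fun w => pmap P (g w)) z := by
  have h : AnalyticAt ℂ (fun w => (fun j => evalV (P j) (g w) : Fin (m + 1) → ℂ)) z :=
    AnalyticAt.pi fun j => analyticAt_evalV hg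
  exact ((EuclideanSpace.equiv (Fin (m + 1)) ℂ).symm.toContinuousLinearMap.analyticAt _).comp h

theorem continuous_pmap (P : Fin (m + 1) → MvPolynomial (Fin (n + 1)) ℂ) : Continuous (pmap (n := n) P) := by
  refine (EuclideanSpace.equiv (Fin (m + 1)) ℂ).symm.continuous.comp (continuous_pi fun j => ?_)
  refine (MvPolynomial.continuous_eval (P j)).comp (continuous_pi fun i => ?_)
  exact (EuclideanSpace.proj (𝕜 := ℂ) i).continuous

private theorem reg_analyticAt_pmap {E : Type*} [NormedAddCommGroup E] [NormedSpace ℂ E]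
    {P : Fin (m + 1) → MvPolynomial (Fin (n + 1)) ℂ} {g : E → V n} {z : E}
    (hg : AnalyticAt ℂ g z) : AnalyticAt ℂ (fun w => pmap P (g w)) z := by
  have h : AnalyticAt ℂ (fun w => (fun j => evalV (P j) (g w) : Fin (m + 1) → ℂ)) z := by
    refine AnalyticAt.pi fun j => ?_
    have h := AnalyticAt.aeval_mvPolynomial (𝕜 := ℂ) (f := fun w i => g w i) (z := z)
      (fun i => ((EuclideanSpace.proj (𝕜 := ℂ) i).analyticAt (g z)).comp hg) (P j)
    refine h.congr (Filter.Eventually.of_forall fun w => ?_)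
    simp only [evalV]
    rw [MvPolynomial.aeval_def, MvPolynomial.eval, MvPolynomial.coe_eval₂Hom]
    rfl
  exact ((EuclideanSpace.equiv (Fin (m + 1)) ℂ).symm.toContinuousLinearMap.analyticAt _).comp h

/-- `pmap P : V n → V m` has a derivative (as a map of complex normed spaces) which depends continuously on the point:
convergence of the derivatives of the compositions. Proof: `pmap P` is `ContDiff ℂ ⊤` (coordinates are polynomials);
`deriv (pmap P ∘ g) z = (fderiv ℂ (pmap P) (g z)) (deriv g z)`, and `fderiv ℂ (pmap P)` is continuous. -/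
theorem tendsto_deriv_pmap {ι : Type} {F : Filter ι} (P : Fin (m + 1) → MvPolynomial (Fin (n + 1)) ℂ)
    {g : ι → ℂ → V n} {G : ℂ → V n} {z : ℂ} (hg : ∀ᶠ k in F, DifferentiableAt ℂ (g k) z)
    (hG : DifferentiableAt ℂ G z) (h0 : Tendsto (fun k => g k z) F (𝓝 (G z)))
    (h1 : Tendsto (fun k => deriv (g k) z) F (𝓝 (deriv G z))) :
    Tendsto (fun k => deriv (fun w => pmap P (g k w)) z) F (𝓝 (deriv (fun w => pmap P (G w)) z)) := by
  have hA : ∀ v : V n, AnalyticAt ℂ (pmap (n := n) P) v := fun v => reg_analyticAt_pmap (g := fun w => w) analyticAt_id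
  have hd : ∀ (q : ℂ → V n), DifferentiableAt ℂ q z →
      deriv (fun w => pmap P (q w)) z = (fderiv ℂ (pmap P) (q z)) (deriv q z) := by
    intro q hq
    exact ((hA (q z)).differentiableAt.hasFDerivAt.comp_hasDerivAt z hq.hasDerivAt).deriv
  rw [hd G hG]
  have hlim : Tendsto (fun k => (fderiv ℂ (pmap P) (g k z)) (deriv (g k) z)) F
      (𝓝 ((fderiv ℂ (pmap P) (G z)) (deriv G z))) := by
    have h2 : Tendsto (fun k => fderiv ℂ (pmap P) (g k z)) F (𝓝 (fderiv ℂ (pmap P) (G z))) :=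
      (hA (G z)).fderiv.continuousAt.tendsto.comp h0
    exact (isBoundedBilinearMap_apply (𝕜 := ℂ) (E := V n) (F := V m)).continuous.continuousAt.tendsto.comp
      (h2.prodMk_nhds h1)
  refine hlim.congr' ?_
  filter_upwards [hg] with k hk
  exact (hd (g k) hk).symm

/-- the membership in `X` can be tested on any representative -/
theorem mem_iff_evalV {S : Set (MvPolynomial (Fin (n + 1)) ℂ)} (hS : ∀ P ∈ S, ∃ d : ℕ, P.IsHomogeneous d)
    (v : V n) (hv : v ≠ 0) :
    Projectivization.mk ℂ v hv ∈ {x : PS n | ∀ P ∈ S, evalV P x.rep = 0} ↔ ∀ P ∈ S, evalV P v = 0 := by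
  obtain ⟨a, ha⟩ := Projectivization.exists_smul_eq_mk_rep ℂ v hv
  have ha' : (a : ℂ) • v = (Projectivization.mk ℂ v hv).rep := ha
  rw [Set.mem_ofPred_eq]
  refine forall₂_congr fun P hP => ?_
  obtain ⟨d, hd⟩ := hS P hP
  rw [← ha', evalV_smul hd, mul_eq_zero]
  constructor
  · rintro (h | h)
    · exact absurd h (pow_ne_zero _ a.ne_zero)
    · exact h
  · exact fun h => Or.inr h

/-- Proof: `y := mk v ∈ X`, `v = c • y.rep` with `c ≠ 0` (`Projectivization.mk_rep`, `mk_eq_mk_iff'`), `pmap P v = c^d • pmap P y.rep`. -/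
theorem Represents.eq_mk {X : Set (PS n)} {f : PS n → PS m} {d : ℕ} {P : Fin (m + 1) → MvPolynomial (Fin (n + 1)) ℂ}
    (hP : Represents X f d P) {v : V n} {hv : v ≠ 0} (hX : Projectivization.mk ℂ v hv ∈ X) (h : pmap P v ≠ 0) :
    f (Projectivization.mk ℂ v hv) = Projectivization.mk ℂ (pmap P v) h := by
  obtain ⟨a, ha⟩ := Projectivization.exists_smul_eq_mk_rep ℂ v hv
  have ha' : (a : ℂ) • v = (Projectivization.mk ℂ v hv).rep := ha
  have h1 : pmap P (Projectivization.mk ℂ v hv).rep = (a : ℂ) ^ d • pmap P v := by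
    rw [← ha', pmap_smul hP.1]
  have h2 : pmap P (Projectivization.mk ℂ v hv).rep ≠ 0 := by
    rw [h1]
    exact smul_ne_zero (pow_ne_zero _ a.ne_zero) h
  rw [hP.2 _ hX h2, Projectivization.mk_eq_mk_iff']
  exact ⟨(a : ℂ) ^ d, h1.symm⟩

/-- lifts of `f ∘ φ` -/
theorem Represents.isLift {X : Set (PS n)} {f : PS n → PS m} {d : ℕ}
    {P : Fin (m + 1) → MvPolynomial (Fin (n + 1)) ℂ} (hP : Represents X f d P) {φ : ℂ → PS n} {g : ℂ → V n} {z : ℂ}
    (hg : IsLift φ g z) (hX : ∀ᶠ w in 𝓝 z, φ w ∈ X) (h : pmap P (g z) ≠ 0) :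
    IsLift (fun w => f (φ w)) (fun w => pmap P (g w)) z := by
  refine ⟨analyticAt_pmap hg.1, ?_⟩
  have hc : ContinuousAt (fun w => pmap P (g w)) z := (analyticAt_pmap hg.1).continuousAt
  filter_upwards [hg.2, hX, hc.eventually_ne h] with w h1 h2 h3
  obtain ⟨h4, h5⟩ := h1
  refine ⟨h3, ?_⟩
  rw [h5]
  rw [h5] at h2
  exact hP.eq_mk h2 h3

theorem Represents.ne_zero_of_lift {X : Set (PS n)} {f : PS n → PS m} {d : ℕ}
    {P : Fin (m + 1) → MvPolynomial (Fin (n + 1)) ℂ} (hP : Represents X f d P) {v : V n} {hv : v ≠ 0}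
    (h : pmap P (Projectivization.mk ℂ v hv).rep ≠ 0) : pmap P v ≠ 0 := by
  obtain ⟨a, ha⟩ := Projectivization.exists_smul_eq_mk_rep ℂ v hv
  have ha' : (a : ℂ) • v = (Projectivization.mk ℂ v hv).rep := ha
  intro h0
  apply h
  rw [← ha', pmap_smul hP.1, h0, smul_zero]

/-- the composition of a holomorphic map into `X` with a morphism is holomorphic -/
theorem HolOn.regular {X : Set (PS n)} {f : PS n → PS m} (hf : IsRegular X f) {φ : ℂ → PS n} {U : Set ℂ}
    (hU : IsOpen U) (hφ : HolOn φ U) (hX : ∀ z ∈ U, φ z ∈ X) : HolOn (fun w => f (φ w)) U := by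
  intro z hz
  obtain ⟨g, hg⟩ := hφ z hz
  obtain ⟨d, P, hP, hne⟩ := hf (φ z) (hX z hz)
  rw [hg.eq_mk] at hne
  refine ⟨fun w => pmap P (g w), hP.isLift hg ?_ (hP.ne_zero_of_lift hne)⟩
  filter_upwards [hU.mem_nhds hz] with w hw
  exact hX w hw

end Pool.Agent.Lib.MP_62070a_ag.FH
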