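import Pool.Agent.Lib.MP_62070a_ag.FH.CoLip
import Pool.Agent.Lib.MP_62070a_ag.FH.Reg

/-!
# FH / PLim : limits of points of the projective space along a filter

We do not use a topology on `PS n`: `PLim F p P` says that unit representatives of the points `p k` converge along `F` to a
representative of `P`.
-/

set_option autoImplicit false

namespace Pool.Agent.Lib.MP_62070a_ag.FH

open Metric Set Filter Topology

variable {n m : ℕ} {ι : Type}

/-- the points `p k` converge to `P` along `F` -/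
def PLim (F : Filter ι) (p : ι → PS n) (P : PS n) : Prop :=
  ∃ (v : ι → V n) (w : V n) (hw : w ≠ 0), (∀ k, ‖v k‖ = 1) ∧
    (∀ k, ∀ h : v k ≠ 0, p k = Projectivization.mk ℂ (v k) h) ∧ Tendsto v F (𝓝 w) ∧ P = Projectivization.mk ℂ w hw

private theorem plim_norm (p : PS n) : ‖((‖p.rep‖⁻¹ : ℝ) : ℂ) • p.rep‖ = 1 := by
  have h : ‖p.rep‖ ≠ 0 := norm_ne_zero_iff.2 p.rep_nonzero
  rw [norm_smul, Complex.norm_real, norm_inv, norm_norm, inv_mul_cancel₀ h]

private theorem plim_mk (p : PS n) (h : ((‖p.rep‖⁻¹ : ℝ) : ℂ) • p.rep ≠ 0) :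
    p = Projectivization.mk ℂ (((‖p.rep‖⁻¹ : ℝ) : ℂ) • p.rep) h := by
  have h1 : Projectivization.mk ℂ (((‖p.rep‖⁻¹ : ℝ) : ℂ) • p.rep) h =
      Projectivization.mk ℂ p.rep p.rep_nonzero :=
    (Projectivization.mk_eq_mk_iff' ℂ _ _ _ _).2 ⟨_, rfl⟩
  rw [h1, Projectivization.mk_rep]

private theorem plim_co {F : Filter ι} {v : ι → V n} {w : V n} (h : Tendsto v F (𝓝 w))
    (i : Fin (n + 1)) : Tendsto (fun k => v k i) F (𝓝 (w i)) :=
  ((EuclideanSpace.proj i : V n →L[ℂ] ℂ).continuous.tendsto w).comp h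

/-- Proof: `v k := ‖(p k).rep‖⁻¹ • (p k).rep` is in the compact unit sphere (`V n` is finite dimensional, `isCompact_sphere`); an ultrafilter on
a compact set converges (`IsCompact.ultrafilter_le_nhds` for `F.map v`, `Ultrafilter.coe_map`); the limit has norm `1`. -/
theorem exists_pLim (F : Ultrafilter ι) (p : ι → PS n) : ∃ P, PLim (F : Filter ι) p P := by
  obtain ⟨v, hv⟩ : ∃ v : ι → V n, v = fun k => ((‖(p k).rep‖⁻¹ : ℝ) : ℂ) • (p k).rep := ⟨_, rfl⟩
  have hv1 : ∀ k, ‖v k‖ = 1 := fun k => by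
    rw [hv]
    exact plim_norm (p k)
  have hvp : ∀ k, ∀ h : v k ≠ 0, p k = Projectivization.mk ℂ (v k) h := fun k h => by
    subst hv
    exact plim_mk (p k) h
  have hle : ((F.map v : Ultrafilter (V n)) : Filter (V n)) ≤ 𝓟 (sphere (0 : V n) 1) := by
    rw [Ultrafilter.coe_map, le_principal_iff, mem_map]
    refine Filter.mem_of_superset Filter.univ_mem fun k _ => ?_
    rw [mem_preimage, mem_sphere_zero_iff_norm]
    exact hv1 k
  obtain ⟨w, hw1, hw2⟩ := (isCompact_sphere (0 : V n) 1).ultrafilter_le_nhds _ hle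
  have hw0 : w ≠ 0 := by
    intro h0
    rw [mem_sphere_zero_iff_norm, h0, norm_zero] at hw1
    exact zero_ne_one hw1
  rw [Ultrafilter.coe_map] at hw2
  exact ⟨Projectivization.mk ℂ w hw0, v, w, hw0, hv1, hvp, hw2, rfl⟩

/-- a constant sequence -/
theorem pLim_const (F : Filter ι) (P : PS n) : PLim F (fun _ => P) P := by
  have h0 : ((‖P.rep‖⁻¹ : ℝ) : ℂ) • P.rep ≠ 0 := by
    rw [← norm_ne_zero_iff, plim_norm]
    exact one_ne_zero
  exact ⟨fun _ => ((‖P.rep‖⁻¹ : ℝ) : ℂ) • P.rep, ((‖P.rep‖⁻¹ : ℝ) : ℂ) • P.rep, h0,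
    fun _ => plim_norm P, fun _ h => plim_mk P h, tendsto_const_nhds, plim_mk P h0⟩

/-- Proof: `co i (p k) = ‖v k i‖^2 / ‖v k‖^2` (`co_mk`), continuity. -/
theorem PLim.co {F : Filter ι} {p : ι → PS n} {P : PS n} (h : PLim F p P) (i : Fin (n + 1)) :
    Tendsto (fun k => co i (p k)) F (𝓝 (co i P)) := by
  obtain ⟨v, w, hw, hv1, hvp, hlim, rfl⟩ := h
  have hv0 : ∀ k, v k ≠ 0 := fun k => by
    rw [← norm_ne_zero_iff, hv1 k]
    exact one_ne_zero
  have h1 : (fun k => FH.co i (p k)) = fun k => ‖v k i‖ ^ 2 / ‖v k‖ ^ 2 := by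
    funext k
    rw [hvp k (hv0 k), co_mk]
  rw [h1, co_mk]
  exact ((plim_co hlim i).norm.pow 2).div (hlim.norm.pow 2)
    (pow_ne_zero 2 (norm_ne_zero_iff.2 hw))

/-- Proof: `nrm i (p k) = (v k i)⁻¹ • v k` eventually (as `v k i → w i ≠ 0`), `nrm i P = (w i)⁻¹ • w` (`nrm_mk`,
`rep_mk_ne_zero_iff`). -/
theorem PLim.nrm {F : Filter ι} {p : ι → PS n} {P : PS n} (h : PLim F p P) {i : Fin (n + 1)} (hi : P.rep i ≠ 0) :
    Tendsto (fun k => nrm i (p k)) F (𝓝 (nrm i P)) := by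
  obtain ⟨v, w, hw, hv1, hvp, hlim, rfl⟩ := h
  have hv0 : ∀ k, v k ≠ 0 := fun k => by
    rw [← norm_ne_zero_iff, hv1 k]
    exact one_ne_zero
  have hwi : w i ≠ 0 := (rep_mk_ne_zero_iff i w hw).1 hi
  rw [nrm_mk i w hw hwi]
  have h1 : ∀ᶠ k in F, v k i ≠ 0 := (plim_co hlim i).eventually_ne hwi
  have h2 : (fun k => (v k i)⁻¹ • v k) =ᶠ[F] fun k => FH.nrm i (p k) := by
    filter_upwards [h1] with k hk
    rw [hvp k (hv0 k), nrm_mk i (v k) (hv0 k) hk]
  exact (((plim_co hlim i).inv₀ hwi).smul hlim).congr' h2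

/-- Proof: for `Q ∈ S` one has `evalV Q (v k) = 0` for `k` in a set of the filter (`mem_iff_evalV`); `evalV Q` is continuous (it is a polynomial:
`MvPolynomial.continuous_eval`); the limit is `evalV Q w = 0`. -/
theorem PLim.mem {X : Set (PS n)} (hX : IsAlg X) {F : Filter ι} [F.NeBot] {p : ι → PS n} {P : PS n} (h : PLim F p P)
    (hp : ∀ᶠ k in F, p k ∈ X) : P ∈ X := by
  obtain ⟨v, w, hw, hv1, hvp, hlim, rfl⟩ := h
  have hv0 : ∀ k, v k ≠ 0 := fun k => by
    rw [← norm_ne_zero_iff, hv1 k]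
    exact one_ne_zero
  obtain ⟨S, hS, rfl⟩ := hX
  rw [mem_iff_evalV hS]
  intro Q hQ
  have hcont : Continuous (evalV Q : V n → ℂ) := by
    have h2 : Continuous fun u : V n => (fun i => u i : Fin (n + 1) → ℂ) :=
      continuous_pi fun i => (EuclideanSpace.proj i : V n →L[ℂ] ℂ).continuous
    exact (MvPolynomial.continuous_eval Q).comp h2
  have h3 : Tendsto (fun k => evalV Q (v k)) F (𝓝 (evalV Q w)) := (hcont.tendsto w).comp hlim
  have h4 : (fun k => evalV Q (v k)) =ᶠ[F] fun _ => (0 : ℂ) := by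
    filter_upwards [hp] with k hk
    rw [hvp k (hv0 k)] at hk
    exact (mem_iff_evalV hS (v k) (hv0 k)).1 hk Q hQ
  exact tendsto_nhds_unique (h3.congr' h4) tendsto_const_nhds

end Pool.Agent.Lib.MP_62070a_ag.FH
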