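import Pool.Agent.Lib.MP_62070a_ag.FH.Lift

/-!
# FH / Rescale : Brody's reparametrisation

Proof. Let `e z = √(energy ψ z)`, continuous on `ball 0 1` (`continuousAt_energy`). On the compact set `closedBall 0 (1/2)` the
continuous function `z ↦ (1/2 - ‖z‖) e z` has a maximum `M` at a point `a`; `M ≥ (1/2) e 0 ≥ 2 R > 0`, so `‖a‖ < 1/2` and
`e a > 0`. Put `ρ = 1 / e a = (1/2 - ‖a‖) / M ≤ 1 / (2 M) ≤ 1 / (4 R)`. For `‖ζ‖ < R ≤ M / 2`: `‖ρ ζ‖ < ρ M / 2 =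
(1/2 - ‖a‖) / 2`, so `z = a + ρ ζ` has `1/2 - ‖z‖ ≥ (1/2 - ‖a‖) / 2 > 0` and `e z ≤ M / (1/2 - ‖z‖) ≤ 2 M / (1/2 - ‖a‖) =
2 e a`. By the chain rule (`energy_comp`) the energy of `ζ ↦ ψ (a + ρ ζ)` at `ζ` is `ρ² (e z)² ≤ 4`, and it is `1` at `0`.
-/

set_option autoImplicit false

namespace Pool.Agent.Lib.MP_62070a_ag.FH

open Metric Set Filter Topology

variable {n : ℕ}

private theorem rescale_deriv (a : ℂ) (ρ : ℝ) (ζ : ℂ) :
    HasDerivAt (fun ζ : ℂ => a + ρ * ζ) (ρ : ℂ) ζ := by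
  have h := ((hasDerivAt_id ζ).const_mul (ρ : ℂ)).const_add a
  rw [mul_one] at h
  exact h

private theorem rescale_analytic (a : ℂ) (ρ : ℝ) (ζ : ℂ) :
    AnalyticAt ℂ (fun ζ : ℂ => a + ρ * ζ) ζ :=
  analyticAt_const.add (analyticAt_const.mul analyticAt_id)

theorem brody_rescale {ψ : ℂ → PS n} (hψ : HolOn ψ (ball 0 1)) {R : ℝ} (hR : 0 < R)
    (h : 16 * R ^ 2 ≤ energy ψ 0) :
    ∃ (a : ℂ) (ρ : ℝ), 0 < ρ ∧ ρ ≤ 1 / (4 * R) ∧ (∀ ζ ∈ ball (0 : ℂ) R, a + ρ * ζ ∈ ball (0 : ℂ) (1 / 2)) ∧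
      energy (fun ζ => ψ (a + ρ * ζ)) 0 = 1 ∧ ∀ ζ ∈ ball (0 : ℂ) R, energy (fun ζ => ψ (a + ρ * ζ)) ζ ≤ 4 := by
  have hsub : closedBall (0 : ℂ) (1 / 2) ⊆ ball 0 1 := closedBall_subset_ball (by norm_num)
  have hcont : ContinuousOn (fun z : ℂ => (1 / 2 - ‖z‖) * Real.sqrt (energy ψ z))
      (closedBall (0 : ℂ) (1 / 2)) := by
    intro z hz
    refine ContinuousAt.continuousWithinAt ?_
    refine ContinuousAt.mul (continuousAt_const.sub continuous_norm.continuousAt) ?_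
    exact (continuousAt_energy (hψ z (hsub hz))).sqrt
  obtain ⟨a, ha, hmax⟩ := (isCompact_closedBall (0 : ℂ) (1 / 2)).exists_isMaxOn
    ⟨0, mem_closedBall_self (by norm_num)⟩ hcont
  have hmax' : ∀ z ∈ closedBall (0 : ℂ) (1 / 2), (1 / 2 - ‖z‖) * Real.sqrt (energy ψ z) ≤
      (1 / 2 - ‖a‖) * Real.sqrt (energy ψ a) := fun z hz => hmax hz
  have hsq : ∀ z, Real.sqrt (energy ψ z) ^ 2 = energy ψ z := fun z =>
    Real.sq_sqrt (energy_nonneg ψ z)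
  have he0 : 4 * R ≤ Real.sqrt (energy ψ 0) := by
    refine Real.le_sqrt_of_sq_le ?_
    have : (4 * R) ^ 2 = 16 * R ^ 2 := by ring
    rw [this]
    exact h
  have hM : 2 * R ≤ (1 / 2 - ‖a‖) * Real.sqrt (energy ψ a) := by
    have h1 := hmax' 0 (mem_closedBall_self (by norm_num))
    rw [norm_zero, sub_zero] at h1
    linarith
  have ha' : ‖a‖ ≤ 1 / 2 := mem_closedBall_zero_iff.1 ha
  have hea0 : 0 ≤ Real.sqrt (energy ψ a) := Real.sqrt_nonneg _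
  set E := Real.sqrt (energy ψ a) with hE
  have hlt : 0 < 1 / 2 - ‖a‖ := by
    rcases (sub_nonneg.2 ha').eq_or_lt with h1 | h1
    · rw [← h1, zero_mul] at hM
      linarith
    · exact h1
  have hE4 : 4 * R ≤ E := by
    have h1 : (1 / 2 - ‖a‖) * E ≤ 1 / 2 * E := by
      refine mul_le_mul_of_nonneg_right ?_ hea0
      linarith [norm_nonneg a]
    linarith
  have hEpos : 0 < E := by linarith
  have hz : ∀ ζ ∈ ball (0 : ℂ) R, (1 / 2 - ‖a‖) / 2 < 1 / 2 - ‖a + (1 / E : ℝ) * ζ‖ := by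
    intro ζ hζ
    rw [mem_ball_zero_iff] at hζ
    have h1 : ‖a + (1 / E : ℝ) * ζ‖ ≤ ‖a‖ + 1 / E * ‖ζ‖ := by
      refine (norm_add_le _ _).trans ?_
      rw [norm_mul, Complex.norm_real, Real.norm_of_nonneg (by positivity)]
    have h2 : 1 / E * ‖ζ‖ < (1 / 2 - ‖a‖) / 2 := by
      rw [one_div, inv_mul_lt_iff₀ hEpos]
      have : E * ((1 / 2 - ‖a‖) / 2) = (1 / 2 - ‖a‖) * E / 2 := by ring
      rw [this]
      linarith
    linarith
  have hmem : ∀ ζ ∈ ball (0 : ℂ) R, a + (1 / E : ℝ) * ζ ∈ ball (0 : ℂ) (1 / 2) := by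
    intro ζ hζ
    have h1 := hz ζ hζ
    rw [mem_ball_zero_iff]
    linarith
  have hen : ∀ ζ ∈ ball (0 : ℂ) R, energy (fun ζ => ψ (a + (1 / E : ℝ) * ζ)) ζ =
      (1 / E) ^ 2 * energy ψ (a + (1 / E : ℝ) * ζ) := by
    intro ζ hζ
    have h1 := energy_comp (φ := ψ) (h := fun ζ : ℂ => a + (1 / E : ℝ) * ζ) (z := ζ)
      (hψ _ (ball_subset_ball (by norm_num) (hmem ζ hζ))) (rescale_analytic a (1 / E) ζ)
    rw [(rescale_deriv a (1 / E) ζ).deriv, Complex.norm_real,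
      Real.norm_of_nonneg (by positivity)] at h1
    exact h1
  refine ⟨a, 1 / E, by positivity, one_div_le_one_div_of_le (by positivity) hE4, hmem, ?_, ?_⟩
  · rw [hen 0 (mem_ball_self hR), mul_zero, add_zero, ← hsq a, ← hE, ← mul_pow,
      one_div_mul_cancel hEpos.ne', one_pow]
  · intro ζ hζ
    rw [hen ζ hζ]
    have h1 := hz ζ hζ
    have h2 := hmax' _ (ball_subset_closedBall (hmem ζ hζ))
    have h3 : (1 / 2 - ‖a‖) / 2 * Real.sqrt (energy ψ (a + (1 / E : ℝ) * ζ)) ≤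
        (1 / 2 - ‖a‖) * E :=
      (mul_le_mul_of_nonneg_right h1.le (Real.sqrt_nonneg _)).trans h2
    have h4 : Real.sqrt (energy ψ (a + (1 / E : ℝ) * ζ)) ≤ 2 * E := by
      have h5 : (1 / 2 - ‖a‖) * Real.sqrt (energy ψ (a + (1 / E : ℝ) * ζ)) ≤
          (1 / 2 - ‖a‖) * (2 * E) := by linarith
      exact le_of_mul_le_mul_left h5 hlt
    have h6 : 1 / E * Real.sqrt (energy ψ (a + (1 / E : ℝ) * ζ)) ≤ 2 := by
      have h8 := mul_le_mul_of_nonneg_left h4 (one_div_pos.2 hEpos).le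
      have h9 : 1 / E * (2 * E) = 2 := by
        field_simp
      exact h8.trans h9.le
    rw [← hsq (a + (1 / E : ℝ) * ζ), ← mul_pow]
    have h7 : (0 : ℝ) ≤ 1 / E * Real.sqrt (energy ψ (a + (1 / E : ℝ) * ζ)) := by positivity
    nlinarith

end Pool.Agent.Lib.MP_62070a_ag.FH
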