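import Mathlib

/-!
# FH / Sep : separated finite subsets of the plane

`exists_net`: a maximal `ℓ`-separated subset (by cardinality, `Finset.exists_max_image` on `Q.powerset.filter (Sep ℓ)`; the empty set is separated): if `q ∈ Q` had distance `≥ ℓ` to all
points of `A` then `insert q A` would be separated and larger.
`packing`: the balls `ball a (ℓ / 2)`, `a ∈ A`, are pairwise disjoint and contained in `ball c ((R + 1/2) ℓ)`: compare the areas (`Complex.volume_ball`:
`volume (ball a r) = ENNReal.ofReal r ^ 2 * π`; `measure_biUnion_finset`).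
-/

set_option autoImplicit false

namespace Pool.Agent.Lib.MP_62070a_ag.FH

open Metric Set Filter Topology MeasureTheory

/-- the distinct points of `A` have distance at least `ℓ` -/
def Sep (ℓ : ℝ) (A : Finset ℂ) : Prop := ∀ a ∈ A, ∀ b ∈ A, a ≠ b → ℓ ≤ dist a b

open Classical in
/-- the largest cardinality of an `ℓ`-separated subset of `P` -/
noncomputable def NN (P : Finset ℂ) (ℓ : ℝ) : ℕ := (P.powerset.filter (Sep ℓ)).sup Finset.card

theorem NN_le_card (P : Finset ℂ) (ℓ : ℝ) : NN P ℓ ≤ P.card := by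
  classical
  unfold NN
  refine Finset.sup_le ?_
  intro A hA
  rw [Finset.mem_filter, Finset.mem_powerset] at hA
  exact Finset.card_le_card hA.1

theorem card_le_NN {P A : Finset ℂ} {ℓ : ℝ} (hA : A ⊆ P) (h : Sep ℓ A) : A.card ≤ NN P ℓ := by
  classical
  unfold NN
  refine Finset.le_sup (f := Finset.card) ?_
  rw [Finset.mem_filter, Finset.mem_powerset]
  exact ⟨hA, h⟩

theorem exists_NN (P : Finset ℂ) (ℓ : ℝ) : ∃ A ⊆ P, Sep ℓ A ∧ A.card = NN P ℓ := by
  classical
  have h0 : (P.powerset.filter (Sep ℓ)).Nonempty := by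
    refine ⟨∅, ?_⟩
    rw [Finset.mem_filter, Finset.mem_powerset]
    exact ⟨Finset.empty_subset P, fun a ha => absurd ha (Finset.notMem_empty a)⟩
  obtain ⟨A, hA, h⟩ := Finset.exists_mem_eq_sup (P.powerset.filter (Sep ℓ)) h0 Finset.card
  rw [Finset.mem_filter, Finset.mem_powerset] at hA
  refine ⟨A, hA.1, hA.2, ?_⟩
  unfold NN
  rw [← h]

theorem NN_anti (P : Finset ℂ) {ℓ ℓ' : ℝ} (h : ℓ ≤ ℓ') : NN P ℓ' ≤ NN P ℓ := by
  obtain ⟨A, hA, hs, hc⟩ := exists_NN P ℓ'
  rw [← hc]
  exact card_le_NN hA (fun a ha b hb hab => h.trans (hs a ha b hb hab))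

theorem exists_net (Q : Finset ℂ) {ℓ : ℝ} (hℓ : 0 < ℓ) :
    ∃ A ⊆ Q, Sep ℓ A ∧ ∀ q ∈ Q, ∃ a ∈ A, dist q a < ℓ := by
  classical
  obtain ⟨A, hA, hs, hc⟩ := exists_NN Q ℓ
  refine ⟨A, hA, hs, ?_⟩
  intro q hq
  by_contra hcon
  push Not at hcon
  have hqA : q ∉ A := by
    intro h
    have h1 := hcon q h
    rw [dist_self] at h1
    linarith
  have h2 : Sep ℓ (insert q A) := by
    intro a ha b hb hab
    rw [Finset.mem_insert] at ha hb
    rcases ha with ha | ha <;> rcases hb with hb | hb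
    · exact absurd (ha.trans hb.symm) hab
    · rw [ha]
      exact hcon b hb
    · rw [hb, dist_comm]
      exact hcon a ha
    · exact hs a ha b hb hab
  have h3 := card_le_NN (Finset.insert_subset hq hA) h2
  rw [Finset.card_insert_of_notMem hqA, ← hc] at h3
  omega

theorem packing {A : Finset ℂ} {ℓ R : ℝ} {c : ℂ} (hℓ : 0 < ℓ) (hR : 0 ≤ R) (hA : Sep ℓ A)
    (hc : ∀ a ∈ A, dist a c ≤ R * ℓ) : (A.card : ℝ) ≤ (2 * R + 1) ^ 2 := by
  classical
  have h1 : volume (⋃ a ∈ A, ball a (ℓ / 2)) = ∑ a ∈ A, volume (ball a (ℓ / 2)) := by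
    refine measure_biUnion_finset ?_ (fun a _ => measurableSet_ball)
    intro a ha b hb hab
    refine ball_disjoint_ball ?_
    have h2 := hA a ha b hb hab
    linarith
  have h2 : (⋃ a ∈ A, ball a (ℓ / 2)) ⊆ ball c ((R + 1 / 2) * ℓ) := by
    refine iUnion₂_subset ?_
    intro a ha
    refine ball_subset_ball' ?_
    have h3 := hc a ha
    linarith
  have h3 := measure_mono (μ := volume) h2
  rw [h1] at h3
  have h4 : ∀ (a : ℂ) (r : ℝ), 0 ≤ r → volume (ball a r) = ENNReal.ofReal (r ^ 2 * Real.pi) := by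
    intro a r hr
    rw [Complex.volume_ball, ENNReal.ofReal_mul (by positivity), ENNReal.ofReal_pow hr]
    congr 1
    rw [← NNReal.coe_real_pi, ENNReal.ofReal_coe_nnreal]
  rw [Finset.sum_congr rfl (fun a _ => h4 a (ℓ / 2) (by positivity)), Finset.sum_const, nsmul_eq_mul,
    h4 c _ (by positivity), ← ENNReal.ofReal_natCast, ← ENNReal.ofReal_mul (by positivity),
    ENNReal.ofReal_le_ofReal_iff (by positivity)] at h3
  have h5 : 0 < ℓ ^ 2 * Real.pi := by positivity
  have h6 : (A.card : ℝ) * (ℓ ^ 2 * Real.pi) ≤ (2 * R + 1) ^ 2 * (ℓ ^ 2 * Real.pi) := by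
    nlinarith
  exact le_of_mul_le_mul_right h6 h5

end Pool.Agent.Lib.MP_62070a_ag.FH
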