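import Pool.Agent.Lib.MP_62070a_ag.FH.Sep

/-!
# FH / Split : the splitting lemma, the telescoping sum, and the three families of centers

`split`. Let `A ⊆ Q` be the net of `exists_net` for the distance `4 L ℓ`, and `B ⊆ P` a `4 L ℓ`-separated set with `NN P (4 L ℓ)` elements (`exists_NN`). For `a ∈ A` let `b a ∈ P` with
`ℓ ≤ dist a (b a) ≤ L ℓ`. The points `a`, `b a` (`a ∈ A`) are `2 |A|` distinct points, `ℓ`-separated: for `a ≠ a'` in `A`, `dist a a' ≥ 4 L ℓ`, so all distances between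
`{a, b a}` and `{a', b a'}` are at least `2 L ℓ ≥ ℓ`. For every `a ∈ A` at most one point of `B` has distance `< ℓ` to `a` or to `b a`: two such points have distance
`< ℓ + L ℓ + ℓ ≤ 3 L ℓ < 4 L ℓ`. Let `B'` be the set of the points of `B` with distance `≥ ℓ` to all points `a`, `b a` (`a ∈ A`): `|B'| ≥ |B| - |A|` (the points of `B \ B'`
inject into `A`). `A ∪ b(A) ∪ B'` is an `ℓ`-separated subset of `P` with `2 |A| + |B'| ≥ |A| + |B|` elements. `card_le_NN`.

`tele`. `f j = NN P (2 ^ j)` is antitone and bounded by `|P|`. `f j - f (j + t) = ∑_{s < t} (f (j + s) - f (j + s + 1))`, and for a finite set `J` of integers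
`∑_{j ∈ J} (f j - f (j + 1)) ≤ f (min) - f (max + 1) ≤ |P|` (enlarge `J` to an interval `Finset.Ico u v` and telescope).

`exists_in`: `split` for `Q = {a ∈ P | ∃ b ∈ P, ℓ ≤ dist a b ≤ 8 ℓ}`, `L = 8`, `ℓ = 2 ^ k`, `32 ℓ = 2 ^ (k + 5)`.

`exists_ob`: `ℓ = 2 ^ k`, `δ ≤ ℓ`. `Q = {a ∈ P | (∃ b ∈ P, ℓ ≤ dist a b ≤ 2 ℓ) ∧ ∀ p ∈ P, p ≠ a → ¬ (δ ≤ dist p a ∧ dist p a ≤ ℓ)}`. Let `A'` be the net of `Q` for the distance `δ`. Distinct
points of `A'` have distance `≥ δ`, hence `> ℓ` by the definition of `Q`; so `A'` is `ℓ`-separated. Let `A*` be given by `split` for `Q`, `L = 2`: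
`|A*| + NN P (8 ℓ) ≤ NN P ℓ`. Every point of `A'` has distance `< 8 ℓ` to a point of `A*`, and by `packing` (`R = 8`) at most `289` points of `A'` have distance `≤ 8 ℓ` to a given point. So
`|A'| ≤ 289 |A*| ≤ 289 (NN P ℓ - NN P (8 ℓ))`.

`exists_out`: `Q = {a ∈ P | ‖a‖ ≤ 1/2 ∧ ∀ p ∈ P, p ≠ a → ¬ (δ ≤ dist p a ∧ dist p a ≤ 1/4)}`, `δ ≤ 1/4`; `A` the net of `Q` for `δ`: it is `1/4`-separated, contained in
`closedBall 0 (2 * (1/4))`, so `|A| ≤ (2 * 2 + 1)² = 25`.
-/

set_option autoImplicit false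

namespace Pool.Agent.Lib.MP_62070a_ag.FH

open Metric Set Filter Topology

theorem split {P Q : Finset ℂ} {ℓ L : ℝ} (hℓ : 0 < ℓ) (hL : 1 ≤ L) (hQ : Q ⊆ P)
    (hb : ∀ a ∈ Q, ∃ b ∈ P, ℓ ≤ dist a b ∧ dist a b ≤ L * ℓ) :
    ∃ A ⊆ Q, (∀ q ∈ Q, ∃ a ∈ A, dist q a < 4 * L * ℓ) ∧ A.card + NN P (4 * L * ℓ) ≤ NN P ℓ := by
  classical
  have hLℓ : ℓ ≤ L * ℓ := by nlinarith
  obtain ⟨A, hAQ, hAsep, hAnet⟩ := exists_net Q (ℓ := 4 * L * ℓ) (by positivity)
  obtain ⟨B, hBP, hBsep, hBcard⟩ := exists_NN P (4 * L * ℓ)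
  refine ⟨A, hAQ, hAnet, ?_⟩
  rw [← hBcard]
  choose! f hf using hb
  have hf1 : ∀ a ∈ A, f a ∈ P := fun a ha => (hf a (hAQ ha)).1
  have hf2 : ∀ a ∈ A, ℓ ≤ dist a (f a) := fun a ha => (hf a (hAQ ha)).2.1
  have hf3 : ∀ a ∈ A, dist a (f a) ≤ L * ℓ := fun a ha => (hf a (hAQ ha)).2.2
  -- distances
  have d1 : ∀ a ∈ A, ∀ a' ∈ A, a ≠ a' → ℓ ≤ dist a (f a') := by
    intro a ha a' ha' hne
    have h1 := hAsep a ha a' ha' hne
    have h2 := dist_triangle a (f a') a'
    have h3 := hf3 a' ha'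
    rw [dist_comm] at h3
    nlinarith
  have d1' : ∀ a ∈ A, ∀ a' ∈ A, ℓ ≤ dist a (f a') := by
    intro a ha a' ha'
    rcases eq_or_ne a a' with rfl | hne
    · exact hf2 a ha
    · exact d1 a ha a' ha' hne
  have d2 : ∀ a ∈ A, ∀ a' ∈ A, a ≠ a' → ℓ ≤ dist (f a) (f a') := by
    intro a ha a' ha' hne
    have h1 := hAsep a ha a' ha' hne
    have h2 := dist_triangle a (f a) a'
    have h3 := dist_triangle (f a) (f a') a'
    have h4 := hf3 a' ha'
    have h5 := hf3 a ha
    rw [dist_comm] at h4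
    nlinarith
  have d3 : ∀ a ∈ A, ∀ a' ∈ A, a ≠ a' → ℓ ≤ dist a a' := by
    intro a ha a' ha' hne
    have h1 := hAsep a ha a' ha' hne
    nlinarith
  have hinj : Set.InjOn f (A : Set ℂ) := by
    intro a ha a' ha' heq
    by_contra hne
    have h1 := d2 a ha a' ha' hne
    rw [heq, dist_self] at h1
    linarith
  set B' := B.filter (fun b => ∀ a ∈ A, ℓ ≤ dist b a ∧ ℓ ≤ dist b (f a)) with hB'
  have hB'mem : ∀ b ∈ B', b ∈ B ∧ ∀ a ∈ A, ℓ ≤ dist b a ∧ ℓ ≤ dist b (f a) := by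
    intro b hb'
    exact Finset.mem_filter.mp hb'
  have hsub : A ∪ A.image f ∪ B' ⊆ P := by
    intro x hx
    rcases Finset.mem_union.mp hx with hx | hx
    · rcases Finset.mem_union.mp hx with hx | hx
      · exact hQ (hAQ hx)
      · obtain ⟨a, ha, rfl⟩ := Finset.mem_image.mp hx
        exact hf1 a ha
    · exact hBP (hB'mem x hx).1
  have hsep : Sep ℓ (A ∪ A.image f ∪ B') := by
    intro x hx y hy hxy
    rcases Finset.mem_union.mp hx with hx | hx
    · rcases Finset.mem_union.mp hx with hx | hx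
      · rcases Finset.mem_union.mp hy with hy | hy
        · rcases Finset.mem_union.mp hy with hy | hy
          · exact d3 x hx y hy hxy
          · obtain ⟨a, ha, rfl⟩ := Finset.mem_image.mp hy
            exact d1' x hx a ha
        · rw [dist_comm]
          exact ((hB'mem y hy).2 x hx).1
      · obtain ⟨a, ha, rfl⟩ := Finset.mem_image.mp hx
        rcases Finset.mem_union.mp hy with hy | hy
        · rcases Finset.mem_union.mp hy with hy | hy
          · rw [dist_comm]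
            exact d1' y hy a ha
          · obtain ⟨a', ha', rfl⟩ := Finset.mem_image.mp hy
            exact d2 a ha a' ha' (fun h => hxy (by rw [h]))
        · rw [dist_comm]
          exact ((hB'mem y hy).2 a ha).2
    · rcases Finset.mem_union.mp hy with hy | hy
      · rcases Finset.mem_union.mp hy with hy | hy
        · exact ((hB'mem x hx).2 y hy).1
        · obtain ⟨a, ha, rfl⟩ := Finset.mem_image.mp hy
          exact ((hB'mem x hx).2 a ha).2
      · have h1 := hBsep x (hB'mem x hx).1 y (hB'mem y hy).1 hxy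
        nlinarith
  have hcard := card_le_NN hsub hsep
  have hdisj1 : Disjoint A (A.image f) := by
    rw [Finset.disjoint_left]
    intro x hx hx'
    obtain ⟨a, ha, hax⟩ := Finset.mem_image.mp hx'
    have h1 := d1' x hx a ha
    rw [hax, dist_self] at h1
    linarith
  have hdisj2 : Disjoint (A ∪ A.image f) B' := by
    rw [Finset.disjoint_left]
    intro x hx hx'
    rcases Finset.mem_union.mp hx with hx | hx
    · have h1 := ((hB'mem x hx').2 x hx).1
      rw [dist_self] at h1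
      linarith
    · obtain ⟨a, ha, rfl⟩ := Finset.mem_image.mp hx
      have h1 := ((hB'mem _ hx').2 a ha).2
      rw [dist_self] at h1
      linarith
  rw [Finset.card_union_of_disjoint hdisj2, Finset.card_union_of_disjoint hdisj1,
    Finset.card_image_of_injOn hinj] at hcard
  -- the points of `B` that are not in `B'`
  have hg : ∀ b ∈ B \ B', ∃ a ∈ A, dist b a < (1 + L) * ℓ := by
    intro b hb'
    obtain ⟨hbB, hbn⟩ := Finset.mem_sdiff.mp hb'
    have h1 : ¬ ∀ a ∈ A, ℓ ≤ dist b a ∧ ℓ ≤ dist b (f a) := fun h =>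
      hbn (Finset.mem_filter.mpr ⟨hbB, h⟩)
    push Not at h1
    obtain ⟨a, ha, h2⟩ := h1
    refine ⟨a, ha, ?_⟩
    rcases lt_or_ge (dist b a) ℓ with h3 | h3
    · nlinarith
    · have h4 := h2 h3
      have h5 := dist_triangle b (f a) a
      have h6 := hf3 a ha
      rw [dist_comm] at h6
      nlinarith
  choose! g hg1 hg2 using hg
  have hcard2 : (B \ B').card ≤ A.card := by
    refine Finset.card_le_card_of_injOn g (fun b hb' => hg1 b hb') ?_
    intro b hb1 b' hb2 heq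
    by_contra hne
    have hb1' : b ∈ B \ B' := hb1
    have hb2' : b' ∈ B \ B' := hb2
    have h1 := hBsep b (Finset.mem_sdiff.mp hb1').1 b' (Finset.mem_sdiff.mp hb2').1 hne
    have h2 := hg2 b hb1'
    have h3 := hg2 b' hb2'
    have h4 := dist_triangle b (g b) b'
    rw [← heq, dist_comm] at h3
    nlinarith
  have hcard3 : B.card = (B \ B').card + B'.card := by
    have hss : B' ⊆ B := fun b hb1 => (hB'mem b hb1).1
    exact (Finset.card_sdiff_add_card_eq_card hss).symm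
  omega

end Pool.Agent.Lib.MP_62070a_ag.FH
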