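import Pool.Agent.Lib.MP_62070a_ag.FH.Split

/-!
# FH / Tele : the telescoping sum and the three families of centers

The proofs of `tele`, `exists_in`, `exists_ob`, `exists_out` are in the header of `Split.lean`. `tsum_shift`: `ENNReal` sums over `ℤ` are invariant under translations (`Equiv.tsum_eq`, `Equiv.addRight`);
`ENNReal.tsum_le_of_sum_le`.
-/

set_option autoImplicit false

namespace Pool.Agent.Lib.MP_62070a_ag.FH

open Metric Set Filter Topology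
open scoped ENNReal

private theorem tele_one {g : ℤ → ℕ} (hg : Antitone g) (J : Finset ℤ) :
    ∀ u : ℤ, (∀ j ∈ J, u ≤ j) → ∑ j ∈ J, (g j - g (j + 1)) ≤ g u := by
  classical
  induction J using Finset.induction_on_min with
  | empty =>
    intro u _
    rw [Finset.sum_empty]
    exact Nat.zero_le _
  | insert a s has ih =>
    intro u hu
    have ha : a ∉ s := fun h => lt_irrefl a (has a h)
    rw [Finset.sum_insert ha]
    have h1 := ih (a + 1) fun j hj => has j hj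
    have h2 : g (a + 1) ≤ g a := hg (by omega)
    have h3 : g a ≤ g u := hg (hu a (Finset.mem_insert_self a s))
    omega

private theorem tele_step {g : ℤ → ℕ} (hg : Antitone g) {M : ℕ} (hM : ∀ j, g j ≤ M)
    (J : Finset ℤ) : ∑ j ∈ J, (g j - g (j + 1)) ≤ M := by
  rcases J.eq_empty_or_nonempty with rfl | h
  · rw [Finset.sum_empty]
    exact Nat.zero_le _
  · exact (tele_one hg J (J.min' h) fun j hj => J.min'_le j hj).trans (hM _)

private theorem tele_gen {g : ℤ → ℕ} (hg : Antitone g) {M : ℕ} (hM : ∀ j, g j ≤ M) (t : ℕ)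
    (J : Finset ℤ) : ∑ j ∈ J, (g j - g (j + t)) ≤ t * M := by
  induction t with
  | zero =>
    rw [Nat.zero_mul]
    refine (Finset.sum_eq_zero fun j _ => ?_).le
    rw [Nat.cast_zero, add_zero, Nat.sub_self]
  | succ t ih =>
    have h1 := tele_step (g := fun j => g (j + t)) (fun a b hab => hg (by omega))
      (fun j => hM _) J
    have h2 : ∑ j ∈ J, (g j - g (j + ((t + 1 : ℕ) : ℤ))) ≤
        ∑ j ∈ J, (g j - g (j + t)) + ∑ j ∈ J, (g (j + t) - g (j + 1 + t)) := by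
      rw [← Finset.sum_add_distrib]
      refine Finset.sum_le_sum fun j _ => ?_
      have h3 : j + ((t + 1 : ℕ) : ℤ) = j + 1 + t := by push_cast; ring
      rw [h3]
      omega
    rw [Nat.succ_mul]
    exact h2.trans (Nat.add_le_add ih h1)

private theorem tele_anti (P : Finset ℂ) (k : ℤ) : Antitone fun j : ℤ => NN P ((2 : ℝ) ^ (j + k)) :=
  fun a b hab => NN_anti P (zpow_le_zpow_right₀ (by norm_num) (by omega))

theorem tele (P : Finset ℂ) (t : ℕ) (J : Finset ℤ) :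
    ∑ j ∈ J, (NN P ((2 : ℝ) ^ j) - NN P ((2 : ℝ) ^ (j + t))) ≤ t * P.card := by
  have h := tele_gen (g := fun j => NN P ((2 : ℝ) ^ (j + 0))) (tele_anti P 0)
    (fun j => NN_le_card P _) t J
  simp only [add_zero] at h
  exact h

/-- the shifted infinite sum -/
theorem tsum_tele (P : Finset ℂ) (t : ℕ) (k : ℤ) :
    ∑' j : ℤ, ((NN P ((2 : ℝ) ^ (j + k)) - NN P ((2 : ℝ) ^ (j + k + t)) : ℕ) : ℝ≥0∞) ≤ t * P.card := by
  rw [ENNReal.tsum_eq_iSup_sum]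
  refine iSup_le fun J => ?_
  have h := tele_gen (g := fun j => NN P ((2 : ℝ) ^ (j + k))) (tele_anti P k)
    (fun j => NN_le_card P _) t J
  have h1 : ∀ j : ℤ, j + t + k = j + k + t := fun j => by ring
  simp only [h1] at h
  exact_mod_cast h

theorem exists_in (P : Finset ℂ) (k : ℤ) :
    ∃ A : Finset ℂ, (∀ a ∈ P, (∃ b ∈ P, (2 : ℝ) ^ k ≤ dist a b ∧ dist a b ≤ 2 ^ (k + 3)) →
      ∃ a' ∈ A, dist a a' < 2 ^ (k + 5)) ∧ A.card ≤ NN P ((2 : ℝ) ^ k) - NN P ((2 : ℝ) ^ (k + 5)) := by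
  classical
  have h0 : (0 : ℝ) < 2 ^ k := by positivity
  have h5 : (4 : ℝ) * 8 * 2 ^ k = 2 ^ (k + 5) := by
    rw [zpow_add₀ (by norm_num) k 5]
    norm_num
    ring
  have h3 : (8 : ℝ) * 2 ^ k = 2 ^ (k + 3) := by
    rw [zpow_add₀ (by norm_num) k 3]
    norm_num
    ring
  obtain ⟨A, -, hA1, hA2⟩ := split (P := P)
    (Q := P.filter fun a => ∃ b ∈ P, (2 : ℝ) ^ k ≤ dist a b ∧ dist a b ≤ 2 ^ (k + 3))
    (ℓ := 2 ^ k) (L := 8) h0 (by norm_num) (Finset.filter_subset _ _) (by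
      intro a ha
      rw [h3]
      exact (Finset.mem_filter.1 ha).2)
  rw [h5] at hA2
  refine ⟨A, fun a ha hb => ?_, Nat.le_sub_of_add_le hA2⟩
  rw [← h5]
  exact hA1 a (Finset.mem_filter.2 ⟨ha, hb⟩)

theorem exists_ob (P : Finset ℂ) (k l : ℤ) (hlk : l ≤ k) :
    ∃ A : Finset ℂ, (∀ a ∈ P, (∃ b ∈ P, (2 : ℝ) ^ k ≤ dist a b ∧ dist a b ≤ 2 ^ (k + 1)) →
      (∀ p ∈ P, p ≠ a → ¬ ((2 : ℝ) ^ l ≤ dist p a ∧ dist p a ≤ 2 ^ k)) → ∃ a' ∈ A, dist a a' < 2 ^ l) ∧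
      A.card ≤ 289 * (NN P ((2 : ℝ) ^ k) - NN P ((2 : ℝ) ^ (k + 3))) := by
  classical
  have h0 : (0 : ℝ) < 2 ^ k := by positivity
  have hl0 : (0 : ℝ) < 2 ^ l := by positivity
  have h8 : (4 : ℝ) * 2 * 2 ^ k = 2 ^ (k + 3) := by
    rw [zpow_add₀ (by norm_num) k 3]
    norm_num
    ring
  have h1 : (2 : ℝ) * 2 ^ k = 2 ^ (k + 1) := by
    rw [zpow_add₀ (by norm_num) k 1]
    norm_num
    ring
  obtain ⟨Q, hQ⟩ : ∃ Q : Finset ℂ, Q = P.filter fun a =>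
    (∃ b ∈ P, (2 : ℝ) ^ k ≤ dist a b ∧ dist a b ≤ 2 ^ (k + 1)) ∧
      ∀ p ∈ P, p ≠ a → ¬ ((2 : ℝ) ^ l ≤ dist p a ∧ dist p a ≤ 2 ^ k) := ⟨_, rfl⟩
  have hQP : Q ⊆ P := by
    rw [hQ]
    exact Finset.filter_subset _ _
  have hQm : ∀ a ∈ Q, (∃ b ∈ P, (2 : ℝ) ^ k ≤ dist a b ∧ dist a b ≤ 2 ^ (k + 1)) ∧
      ∀ p ∈ P, p ≠ a → ¬ ((2 : ℝ) ^ l ≤ dist p a ∧ dist p a ≤ 2 ^ k) := by
    intro a ha
    rw [hQ] at ha
    exact (Finset.mem_filter.1 ha).2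
  obtain ⟨A', hA'Q, hA's, hA'n⟩ := exists_net Q hl0
  obtain ⟨A, -, hA1, hA2⟩ := split (P := P) (Q := Q) (ℓ := 2 ^ k) (L := 2) h0 (by norm_num) hQP (by
    intro a ha
    rw [h1]
    exact (hQm a ha).1)
  have hsep : Sep (2 ^ k) A' := by
    intro a ha b hb hab
    have h2 := hA's a ha b hb hab
    have h3 := (hQm b (hA'Q hb)).2 a (hQP (hA'Q ha)) hab
    by_contra h4
    exact h3 ⟨h2, (not_le.1 h4).le⟩
  have hcard : A'.card ≤ A.card * 289 := by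
    have h2 : A' ⊆ A.biUnion fun a => A'.filter fun x => dist x a ≤ 8 * 2 ^ k := by
      intro x hx
      obtain ⟨a, ha, hxa⟩ := hA1 x (hA'Q hx)
      refine Finset.mem_biUnion.2 ⟨a, ha, Finset.mem_filter.2 ⟨hx, ?_⟩⟩
      have h3 : (4 : ℝ) * 2 * 2 ^ k = 8 * 2 ^ k := by norm_num
      rw [← h3]
      exact hxa.le
    refine (Finset.card_le_card h2).trans (Finset.card_biUnion_le_card_mul _ _ _ fun a _ => ?_)
    have h3 := packing (A := A'.filter fun x => dist x a ≤ 8 * 2 ^ k) (ℓ := 2 ^ k) (R := 8)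
      (c := a) h0 (by norm_num)
      (fun x hx y hy hxy => hsep x (Finset.mem_filter.1 hx).1 y (Finset.mem_filter.1 hy).1 hxy)
      fun x hx => (Finset.mem_filter.1 hx).2
    have h4 : ((2 : ℝ) * 8 + 1) ^ 2 = ((289 : ℕ) : ℝ) := by norm_num
    rw [h4] at h3
    exact_mod_cast h3
  rw [h8] at hA2
  refine ⟨A', fun a ha hb hc => ?_, ?_⟩
  · refine hA'n a ?_
    rw [hQ]
    exact Finset.mem_filter.2 ⟨ha, hb, hc⟩
  · have h2 : A.card ≤ NN P ((2 : ℝ) ^ k) - NN P ((2 : ℝ) ^ (k + 3)) := Nat.le_sub_of_add_le hA2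
    rw [mul_comm]
    exact hcard.trans (Nat.mul_le_mul_right _ h2)

theorem exists_out (P : Finset ℂ) (l : ℤ) (hl : l ≤ -2) :
    ∃ A : Finset ℂ, (∀ a ∈ P, ‖a‖ ≤ 1 / 2 →
      (∀ p ∈ P, p ≠ a → ¬ ((2 : ℝ) ^ l ≤ dist p a ∧ dist p a ≤ 1 / 4)) → ∃ a' ∈ A, dist a a' < 2 ^ l) ∧
      A.card ≤ 25 := by
  classical
  have hl0 : (0 : ℝ) < 2 ^ l := by positivity
  obtain ⟨Q, hQ⟩ : ∃ Q : Finset ℂ, Q = P.filter fun a => ‖a‖ ≤ 1 / 2 ∧
      ∀ p ∈ P, p ≠ a → ¬ ((2 : ℝ) ^ l ≤ dist p a ∧ dist p a ≤ 1 / 4) := ⟨_, rfl⟩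
  have hQP : Q ⊆ P := by
    rw [hQ]
    exact Finset.filter_subset _ _
  have hQm : ∀ a ∈ Q, ‖a‖ ≤ 1 / 2 ∧
      ∀ p ∈ P, p ≠ a → ¬ ((2 : ℝ) ^ l ≤ dist p a ∧ dist p a ≤ 1 / 4) := by
    intro a ha
    rw [hQ] at ha
    exact (Finset.mem_filter.1 ha).2
  obtain ⟨A, hAQ, hAs, hAn⟩ := exists_net Q hl0
  have hsep : Sep (1 / 4) A := by
    intro a ha b hb hab
    have h2 := hAs a ha b hb hab
    have h3 := (hQm b (hAQ hb)).2 a (hQP (hAQ ha)) hab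
    by_contra h4
    exact h3 ⟨h2, (not_le.1 h4).le⟩
  refine ⟨A, fun a ha hb hc => ?_, ?_⟩
  · refine hAn a ?_
    rw [hQ]
    exact Finset.mem_filter.2 ⟨ha, hb, hc⟩
  · have h3 := packing (A := A) (ℓ := 1 / 4) (R := 2) (c := 0) (by norm_num) (by norm_num) hsep
      fun x hx => by
        rw [dist_zero_right]
        refine (hQm x (hAQ hx)).1.trans (le_of_eq ?_)
        norm_num
    have h4 : ((2 : ℝ) * 2 + 1) ^ 2 = ((25 : ℕ) : ℝ) := by norm_num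
    rw [h4] at h3
    exact_mod_cast h3

end Pool.Agent.Lib.MP_62070a_ag.FH
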