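import Pool.Agent.Lib.MP_62070a_ag.FH.LimEn
import Pool.Agent.Lib.MP_62070a_ag.FH.Rescale

/-!
# FH / Vert : holomorphic discs whose image in the base has bounded energy have bounded energy at the center

Proof. Otherwise for every `k : ℕ` there is `ψ k` holomorphic on `ball 0 1` with values in `X`, `energy (f ∘ ψ k) ≤ K` on
`ball 0 1` and `energy (ψ k) 0 ≥ 16 (k + 1)²`. By `brody_rescale` (`R = k + 1`) there are `a k`, `ρ k ∈ (0, 1 / (4 (k + 1))]` such that
`χ k ζ := ψ k (a k + ρ k ζ)` is holomorphic on `ball 0 (k + 1)` with values in `X` there, energy at most `4` there and energy `1` at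
`0`. For `z ∈ ball 0 (k + 1)`, `energy (f ∘ χ k) z = (ρ k)² energy (f ∘ ψ k) (a k + ρ k z) ≤ K / (16 (k + 1)²)` (`energy_comp`,
`HolOn.regular`). Let `F` be the `Filter.hyperfilter ℕ`. For every `z` choose `Ψ z` with `PLim F (fun k => χ k z) (Ψ z)`
(`exists_pLim`). The hypotheses of `limit_energy`, `limit_energy_comp` hold with `K = 2` (for given `R` all `k ≥ R` are good, and
`{k | k ≥ R}` is in `F`: `Filter.Tendsto`-free: cofinite sets, `Filter.hyperfilter_le_cofinite`, `Nat.cofinite_eq_atTop`). So `Ψ` is holomorphic on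
`ℂ`, `Ψ z ∈ X` (`PLim.mem`), `energy Ψ 0 = 1` and `energy (f ∘ Ψ) z = 0` for all `z` (`tendsto_nhds_unique`; the energies of
`f ∘ χ k` at `z` tend to `0`). By `const_of_energy_zero` `f ∘ Ψ` is constant (`HolOn.regular` for `HolOn (f ∘ Ψ) univ`), so `Ψ` has
values in `{x ∈ X | f x = y}`, and it is constant by hypothesis. So its energy at `0` is `0` (a constant lift has `deriv = 0`).
Contradiction.
-/

set_option autoImplicit false

namespace Pool.Agent.Lib.MP_62070a_ag.FH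

open Metric Set Filter Topology

variable {n m : ℕ}

theorem vertical_brody {X : Set (PS n)} (hX : IsAlg X) {f : PS n → PS m} (hf : IsRegular X f)
    (hB : ∀ y : PS m, Brody {x | x ∈ X ∧ f x = y}) (K : ℝ) :
    ∃ C : ℝ, 0 < C ∧ ∀ ψ : ℂ → PS n, HolOn ψ (ball 0 1) → (∀ z ∈ ball (0 : ℂ) 1, ψ z ∈ X) →
      (∀ z ∈ ball (0 : ℂ) 1, energy (fun w => f (ψ w)) z ≤ K) → energy ψ 0 ≤ C := by
  classical
  by_contra hcon
  have hseq : ∀ k : ℕ, ∃ ψ : ℂ → PS n, HolOn ψ (ball 0 1) ∧ (∀ z ∈ ball (0 : ℂ) 1, ψ z ∈ X) ∧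
      (∀ z ∈ ball (0 : ℂ) 1, energy (fun w => f (ψ w)) z ≤ K) ∧
      16 * ((k : ℝ) + 1) ^ 2 ≤ energy ψ 0 := by
    intro k
    by_contra hno
    refine hcon ⟨16 * ((k : ℝ) + 1) ^ 2, by positivity, fun ψ h1 h2 h3 => ?_⟩
    by_contra h4
    exact hno ⟨ψ, h1, h2, h3, (not_le.1 h4).le⟩
  choose ψ hψ1 hψ2 hψ3 hψ4 using hseq
  have hres := fun k : ℕ => brody_rescale (hψ1 k) (R := (k : ℝ) + 1) (by positivity) (hψ4 k)
  choose a ρ hρ hρ2 hball he0 he4 using hres
  have hmaps : ∀ k : ℕ, ∀ ζ ∈ ball (0 : ℂ) ((k : ℝ) + 1),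
      a k + ρ k * ζ ∈ ball (0 : ℂ) 1 :=
    fun k ζ hζ => ball_subset_ball (by norm_num) (hball k ζ hζ)
  have hdiff : ∀ k : ℕ, Differentiable ℂ (fun ζ : ℂ => a k + (ρ k : ℂ) * ζ) := fun k =>
    (differentiable_const _).add ((differentiable_const _).mul differentiable_id)
  have hhol : ∀ k : ℕ, HolOn (fun ζ => ψ k (a k + ρ k * ζ)) (ball 0 ((k : ℝ) + 1)) := fun k =>
    (hψ1 k).comp isOpen_ball (hdiff k).differentiableOn (hmaps k)
  have hcomp : ∀ k : ℕ, ∀ z ∈ ball (0 : ℂ) ((k : ℝ) + 1),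
      energy (fun w => f (ψ k (a k + ρ k * w))) z ≤ (1 / (4 * ((k : ℝ) + 1))) ^ 2 * |K| := by
    intro k z hz
    have h1 : HolOn (fun w => f (ψ k w)) (ball 0 1) :=
      HolOn.regular hf isOpen_ball (hψ1 k) (hψ2 k)
    have h2 := energy_comp (φ := fun w => f (ψ k w)) (h := fun ζ : ℂ => a k + (ρ k : ℂ) * ζ)
      (z := z) (h1 _ (hmaps k z hz)) ((hdiff k).analyticAt z)
    have h3 : deriv (fun ζ : ℂ => a k + (ρ k : ℂ) * ζ) z = (ρ k : ℂ) := by
      rw [deriv_const_add, deriv_const_mul_field, deriv_id'', mul_one]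
    rw [h3, Complex.norm_real, Real.norm_eq_abs, sq_abs] at h2
    have h4 := hψ3 k _ (hmaps k z hz)
    have h5 : (ρ k) ^ 2 ≤ (1 / (4 * ((k : ℝ) + 1))) ^ 2 :=
      pow_le_pow_left₀ (hρ k).le (hρ2 k) 2
    calc energy (fun w => f (ψ k (a k + ρ k * w))) z
        = (ρ k) ^ 2 * energy (fun w => f (ψ k w)) (a k + ρ k * z) := h2
      _ ≤ (1 / (4 * ((k : ℝ) + 1))) ^ 2 * |K| :=
        mul_le_mul h5 (h4.trans (le_abs_self K)) (energy_nonneg _ _) (by positivity)
  have hle : ((hyperfilter ℕ : Ultrafilter ℕ) : Filter ℕ) ≤ atTop := by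
    rw [← Nat.cofinite_eq_atTop]
    exact hyperfilter_le_cofinite
  have hev : ∀ R : ℝ, ∀ᶠ k : ℕ in ((hyperfilter ℕ : Ultrafilter ℕ) : Filter ℕ),
      R ≤ (k : ℝ) + 1 := by
    intro R
    refine hle ?_
    filter_upwards [tendsto_natCast_atTop_atTop.eventually_ge_atTop R] with k hk
    linarith
  have hlim := fun z : ℂ => exists_pLim (hyperfilter ℕ) (fun k => ψ k (a k + ρ k * z))
  choose Ψ hΨ using hlim
  have hψ : ∀ R : ℝ, ∀ᶠ k : ℕ in ((hyperfilter ℕ : Ultrafilter ℕ) : Filter ℕ),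
      HolOn (fun ζ => ψ k (a k + ρ k * ζ)) (ball 0 R) ∧
        ∀ z ∈ ball (0 : ℂ) R, energy (fun ζ => ψ k (a k + ρ k * ζ)) z ≤ (2 : ℝ) ^ 2 := by
    intro R
    filter_upwards [hev R] with k hk
    refine ⟨(hhol k).mono (ball_subset_ball hk), fun z hz => ?_⟩
    have h1 := he4 k z (ball_subset_ball hk hz)
    norm_num
    exact h1
  have hm : ∀ R : ℝ, ∀ᶠ k : ℕ in ((hyperfilter ℕ : Ultrafilter ℕ) : Filter ℕ),
      ∀ z ∈ ball (0 : ℂ) R, ψ k (a k + ρ k * z) ∈ X := by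
    intro R
    filter_upwards [hev R] with k hk z hz
    exact hψ2 k _ (hmaps k z (ball_subset_ball hk hz))
  have hΨX : ∀ z, Ψ z ∈ X := by
    intro z
    refine (hΨ z).mem hX ?_
    filter_upwards [hm (‖z‖ + 1)] with k hk
    exact hk z (by rw [mem_ball_zero_iff]; linarith)
  have hΨhol : HolOn Ψ univ := fun z _ => (limit_energy hΨ hψ z).1
  have hΨ1 : energy Ψ 0 = 1 := by
    have h1 := (limit_energy hΨ hψ 0).2
    have h2 : (fun k : ℕ => energy (fun ζ => ψ k (a k + ρ k * ζ)) 0) = fun _ => (1 : ℝ) := by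
      funext k
      exact he0 k
    rw [h2] at h1
    exact tendsto_nhds_unique h1 tendsto_const_nhds
  have hΨ0 : ∀ z, energy (fun w => f (Ψ w)) z = 0 := by
    intro z
    have h1 := limit_energy_comp hX hf hΨ hψ hm z
    have h2 : Tendsto (fun k : ℕ => (1 / (4 * ((k : ℝ) + 1))) ^ 2 * |K|) atTop (𝓝 0) := by
      have h3 : Tendsto (fun k : ℕ => (1 : ℝ) / ((k : ℝ) + 1)) atTop (𝓝 0) :=
        tendsto_one_div_add_atTop_nhds_zero_nat
      have h4 := ((h3.pow 2).mul_const (|K| / 16))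
      rw [zero_pow two_ne_zero, zero_mul] at h4
      refine h4.congr fun k => ?_
      have h5 : (k : ℝ) + 1 ≠ 0 := by positivity
      field_simp
      norm_num
    have h3 : Tendsto (fun k : ℕ => energy (fun w => f (ψ k (a k + ρ k * w))) z)
        ((hyperfilter ℕ : Ultrafilter ℕ) : Filter ℕ) (𝓝 0) := by
      refine squeeze_zero' (Eventually.of_forall fun k => energy_nonneg _ _) ?_ (h2.mono_left hle)
      filter_upwards [hev (‖z‖ + 1)] with k hk
      exact hcomp k z (by rw [mem_ball_zero_iff]; linarith)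
    exact tendsto_nhds_unique h1 h3
  have hcst := const_of_energy_zero
    (HolOn.regular hf isOpen_univ hΨhol fun z _ => hΨX z) hΨ0
  have hconst := hB (f (Ψ 0)) Ψ hΨhol fun z => ⟨hΨX z, hcst z 0⟩
  have hlift : IsLift Ψ (fun _ => (Ψ 0).rep) 0 :=
    ⟨analyticAt_const, Eventually.of_forall fun w =>
      ⟨(Ψ 0).rep_nonzero, by rw [Projectivization.mk_rep]; exact hconst w 0⟩⟩
  have h0 : energy Ψ 0 = 0 := by
    rw [hlift.energy_eq, den, deriv_const, norm_zero, inner_zero_right, norm_zero]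
    norm_num
  rw [hΨ1] at h0
  exact one_ne_zero h0

end Pool.Agent.Lib.MP_62070a_ag.FH
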